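import Pool.Agent.H80.KF.Bas

/-!
# The Fejér weight: exact sums over residue classes

`W = 2xJ`, `m ∣ W`, `RW` is a complete system of residues mod `W`.
`∑_{n ∈ RW, n ≡ c (m)} |∑_j e(jn/W)|² = ∑_{j,j' < J} ∑_{n ≡ c (m)} e((j-j')n/W)`; with `n = c + mk`,
`k` mod `W/m`, the inner sum is `(W/m) e((j-j')c/W)` if `(W/m) ∣ j - j'` and `0` otherwise.
`j - j' = (W/m) l` has `(J - (W/m)|l|)⁺` solutions and `W/J = 2x`; so the total is
`(W/m) J ∑_l (1 - 2x|l|/m)⁺ e(lc/m)`, and `(π²/4)/J² · (W/m) J = π² x/(2m)`.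
For `m ≤ 2x` only `l = 0` remains.
-/

set_option autoImplicit false

namespace Pool.Agent.H80.KF

open Finset

private theorem fejB_ee_mul (k : ℕ) (t : ℝ) : ee (t * k) = ee t ^ k := by
  induction k with
  | zero => rw [Nat.cast_zero, mul_zero, ee_zero, pow_zero]
  | succ k ih => rw [Nat.cast_succ, mul_add, mul_one, ee_add, ih, pow_succ]

private theorem fejB_ee_one {M : ℕ} (hM : 1 ≤ M) {h : ℤ} (h1 : ee ((h : ℝ) / M) = 1) :
    (M : ℤ) ∣ h := by
  unfold ee at h1
  rw [Complex.exp_eq_one_iff] at h1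
  obtain ⟨n, hn⟩ := h1
  have hpi : (2 * Real.pi * Complex.I : ℂ) ≠ 0 := by
    simp [Real.pi_ne_zero, Complex.I_ne_zero]
  have h2 : (((h : ℝ) / M : ℝ) : ℂ) = n := by
    apply mul_right_cancel₀ hpi
    rw [← hn]
    ring
  have hM0 : (M : ℝ) ≠ 0 := by
    have : (0 : ℝ) < M := by exact_mod_cast hM
    exact this.ne'
  have h3 : ((h : ℝ) / M : ℝ) = (n : ℝ) := by exact_mod_cast h2
  rw [div_eq_iff hM0] at h3
  exact ⟨n, by rw [mul_comm]; exact_mod_cast h3⟩

private theorem fejB_geom {M : ℕ} (hM : 1 ≤ M) (h : ℤ) :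
    ∑ k ∈ range M, ee ((h : ℝ) / M * k) = if (M : ℤ) ∣ h then (M : ℂ) else 0 := by
  have hM0 : (M : ℝ) ≠ 0 := by
    have : (0 : ℝ) < M := by exact_mod_cast hM
    exact this.ne'
  split_ifs with hd
  · obtain ⟨l, rfl⟩ := hd
    have h1 : ∀ k ∈ range M, ee ((((M : ℤ) * l : ℤ) : ℝ) / M * k) = 1 := by
      intro k _
      have : (((M : ℤ) * l : ℤ) : ℝ) / M * k = ((l * k : ℤ) : ℝ) := by
        push_cast
        field_simp
      rw [this, ee_int]
    rw [Finset.sum_congr rfl h1]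
    simp
  · simp only [fejB_ee_mul]
    have hne : ee ((h : ℝ) / M) ≠ 1 := fun h1 => hd (fejB_ee_one hM h1)
    have hpow : ee ((h : ℝ) / M) ^ M = 1 := by
      rw [← fejB_ee_mul, div_mul_cancel₀ _ hM0, ee_int]
    have h2 := mul_geom_sum (ee ((h : ℝ) / M)) M
    rw [hpow, sub_self] at h2
    exact (mul_eq_zero.1 h2).resolve_left (sub_ne_zero.2 hne)

/-- Sums of a periodic function over a period. -/
private theorem fejB_shift {W : ℕ} (F : ℤ → ℂ) (hF : ∀ n, F (n + W) = F n) (a b : ℤ) :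
    ∑ t ∈ range W, F (a + t) = ∑ t ∈ range W, F (b + t) := by
  have step : ∀ a : ℤ, ∑ t ∈ range W, F (a + 1 + t) = ∑ t ∈ range W, F (a + t) := by
    intro a
    have h1 := Finset.sum_range_succ (fun t : ℕ => F (a + t)) W
    have h2 := Finset.sum_range_succ' (fun t : ℕ => F (a + t)) W
    rw [h1] at h2
    simp only [Nat.cast_zero, add_zero] at h2
    rw [hF] at h2
    have h3 := add_right_cancel h2
    rw [h3]
    refine Finset.sum_congr rfl fun t _ => ?_
    congr 1
    push_cast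
    ring
  have key : ∀ k : ℕ, ∀ a : ℤ, ∑ t ∈ range W, F (a + k + t) = ∑ t ∈ range W, F (a + t) := by
    intro k
    induction k with
    | zero => intro a; simp
    | succ k ih =>
      intro a
      rw [← ih a, ← step (a + k)]
      refine Finset.sum_congr rfl fun t _ => ?_
      congr 1
      push_cast
      ring
  rcases le_total a b with h | h
  · obtain ⟨k, hk⟩ := Int.eq_ofNat_of_zero_le (sub_nonneg.2 h)
    have : b = a + k := by omega
    rw [this, key]
  · obtain ⟨k, hk⟩ := Int.eq_ofNat_of_zero_le (sub_nonneg.2 h)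
    have : a = b + k := by omega
    rw [this, key]

private theorem fejB_Ico (x J : ℕ) (F : ℤ → ℂ) :
    ∑ n ∈ RW x J, F n = ∑ t ∈ range (2 * x * J), F (-(x * J : ℤ) + t) := by
  unfold RW
  refine Finset.sum_nbij' (fun n => (n + x * J).toNat) (fun t => -(x * J : ℤ) + t) ?_ ?_ ?_ ?_ ?_
  · intro n hn
    rw [Finset.mem_Ico] at hn
    rw [Finset.mem_range]
    have h0 : ((2 * x * J : ℕ) : ℤ) = (x * J : ℤ) + (x * J : ℤ) := by push_cast; ring
    generalize (x * J : ℤ) = y at *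
    omega
  · intro t ht
    rw [Finset.mem_range] at ht
    rw [Finset.mem_Ico]
    have h0 : ((2 * x * J : ℕ) : ℤ) = (x * J : ℤ) + (x * J : ℤ) := by push_cast; ring
    generalize (x * J : ℤ) = y at *
    omega
  · intro n hn
    rw [Finset.mem_Ico] at hn
    generalize (x * J : ℤ) = y at *
    omega
  · intro t _
    generalize (x * J : ℤ) = y at *
    omega
  · intro n hn
    rw [Finset.mem_Ico] at hn
    congr 1
    generalize (x * J : ℤ) = y at *
    omega

/-- The sum of a character over a residue class. -/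
private theorem fejB_class (x J m : ℕ) (hx : 1 ≤ x) (hJ : 1 ≤ J) (hm : 1 ≤ m) {M : ℕ}
    (hW : 2 * x * J = M * m) (c h : ℤ) :
    ∑ n ∈ (RW x J).filter (fun n => (m : ℤ) ∣ n - c), ee ((h : ℝ) * n / (2 * x * J)) =
      if (M : ℤ) ∣ h then (M : ℂ) * ee ((h : ℝ) * c / (2 * x * J)) else 0 := by
  have hWpos : 0 < 2 * x * J := by positivity
  have hM : 1 ≤ M := by
    rcases Nat.eq_zero_or_pos M with h0 | h0
    · rw [h0, zero_mul] at hW; omega
    · exact h0
  have hWr : (2 * x * J : ℝ) = M * m := by exact_mod_cast hW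
  have hW0 : (2 * x * J : ℝ) ≠ 0 := by
    have : (0 : ℝ) < ((2 * x * J : ℕ) : ℝ) := by exact_mod_cast hWpos
    push_cast at this
    exact this.ne'
  have hm0 : (m : ℝ) ≠ 0 := by
    have : (0 : ℝ) < m := by exact_mod_cast hm
    exact this.ne'
  have hM0 : (M : ℝ) ≠ 0 := by
    have : (0 : ℝ) < M := by exact_mod_cast hM
    exact this.ne'
  let F : ℤ → ℂ := fun n => if (m : ℤ) ∣ n - c then ee ((h : ℝ) * n / (2 * x * J)) else 0
  have hF : ∀ n, F (n + (2 * x * J : ℕ)) = F n := by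
    intro n
    have h1 : (m : ℤ) ∣ n + (2 * x * J : ℕ) - c ↔ (m : ℤ) ∣ n - c := by
      have h2 : (m : ℤ) ∣ ((2 * x * J : ℕ) : ℤ) := by
        rw [hW]; push_cast; exact Dvd.intro_left _ rfl
      rw [show n + (2 * x * J : ℕ) - c = (n - c) + (2 * x * J : ℕ) by ring]
      exact dvd_add_left h2
    have h2 : ee ((h : ℝ) * ((n + (2 * x * J : ℕ) : ℤ) : ℝ) / (2 * x * J)) =
        ee ((h : ℝ) * n / (2 * x * J)) := by
      apply ee_eq_of_int h
      push_cast
      field_simp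
      ring
    simp only [F, h1, h2]
  rw [Finset.sum_filter]
  change ∑ n ∈ RW x J, F n = _
  rw [fejB_Ico, fejB_shift F hF _ c, hW]
  have h1 : ∀ t : ℕ, F (c + t) = if m ∣ t then ee ((h : ℝ) * c / (2 * x * J)) *
      ee ((h : ℝ) * t / (2 * x * J)) else 0 := by
    intro t
    have h2 : (m : ℤ) ∣ c + t - c ↔ m ∣ t := by
      rw [add_sub_cancel_left]
      exact Int.natCast_dvd_natCast
    have h3 : ee ((h : ℝ) * ((c + t : ℤ) : ℝ) / (2 * x * J)) = ee ((h : ℝ) * c / (2 * x * J)) *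
      ee ((h : ℝ) * t / (2 * x * J)) := by
      rw [← ee_add]
      congr 1
      push_cast
      ring
    simp only [F, h2, h3]
  simp only [h1]
  rw [← Finset.sum_filter]
  have himg : (range (M * m)).filter (fun t => m ∣ t) = (range M).image (fun k => m * k) := by
    ext t
    simp only [Finset.mem_filter, Finset.mem_range, Finset.mem_image]
    constructor
    · rintro ⟨h2, k, rfl⟩
      refine ⟨k, ?_, rfl⟩
      rw [mul_comm M m] at h2
      exact Nat.lt_of_mul_lt_mul_left h2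
    · rintro ⟨k, hk, rfl⟩
      refine ⟨?_, Dvd.intro _ rfl⟩
      rw [mul_comm M m]
      exact Nat.mul_lt_mul_of_pos_left hk hm
  rw [himg, Finset.sum_image (fun a _ b _ hab => Nat.eq_of_mul_eq_mul_left hm hab),
    ← Finset.mul_sum]
  have h4 : ∀ k ∈ range M, ee ((h : ℝ) * ((m * k : ℕ) : ℝ) / (2 * x * J)) =
      ee ((h : ℝ) / M * k) := by
    intro k _
    congr 1
    rw [hWr]
    push_cast
    field_simp
  rw [Finset.sum_congr rfl h4, fejB_geom hM]
  split_ifs <;> ring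

/-- The number of pairs with a given difference. -/
private theorem fejB_count (J : ℕ) (h : ℤ) :
    ((range J ×ˢ range J).filter (fun p => (p.1 : ℤ) - p.2 = h)).card = J - h.natAbs := by
  rcases le_total 0 h with h0 | h0
  · have : (range J ×ˢ range J).filter (fun p => (p.1 : ℤ) - p.2 = h) =
        (range (J - h.natAbs)).image (fun j => (j + h.natAbs, j)) := by
      ext ⟨a, b⟩
      simp only [Finset.mem_filter, Finset.mem_product, Finset.mem_range, Finset.mem_image,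
        Prod.mk.injEq]
      constructor
      · rintro ⟨⟨h1, h2⟩, h3⟩
        exact ⟨b, by omega, by omega, rfl⟩
      · rintro ⟨j, hj, h1, h2⟩
        omega
    rw [this, Finset.card_image_of_injective, Finset.card_range]
    intro a b hab
    exact congrArg Prod.snd hab
  · have : (range J ×ˢ range J).filter (fun p => (p.1 : ℤ) - p.2 = h) =
        (range (J - h.natAbs)).image (fun j => (j, j + h.natAbs)) := by
      ext ⟨a, b⟩
      simp only [Finset.mem_filter, Finset.mem_product, Finset.mem_range, Finset.mem_image,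
        Prod.mk.injEq]
      constructor
      · rintro ⟨⟨h1, h2⟩, h3⟩
        exact ⟨a, by omega, rfl, by omega⟩
      · rintro ⟨j, hj, h1, h2⟩
        omega
    rw [this, Finset.card_image_of_injective, Finset.card_range]
    intro a b hab
    exact congrArg Prod.fst hab

private theorem fejB_pairs (J W : ℕ) (hJW : J ≤ W) (G : ℤ → ℂ) :
    ∑ p ∈ range J ×ˢ range J, G ((p.1 : ℤ) - p.2) =
      ∑ h ∈ Icc (-(W : ℤ)) W, ((J - h.natAbs : ℕ) : ℂ) * G h := by
  rw [← Finset.sum_fiberwise_of_maps_to (t := Icc (-(W : ℤ)) W)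
    (g := fun p : ℕ × ℕ => (p.1 : ℤ) - p.2)]
  · refine Finset.sum_congr rfl fun h _ => ?_
    rw [← fejB_count, ← nsmul_eq_mul, ← Finset.sum_const]
    refine Finset.sum_congr rfl fun p hp => ?_
    rw [(Finset.mem_filter.1 hp).2]
  · intro p hp
    rw [Finset.mem_product, Finset.mem_range, Finset.mem_range] at hp
    rw [Finset.mem_Icc]
    omega

private theorem fejB_mult (M m : ℕ) (hM : 1 ≤ M) (G : ℤ → ℂ) :
    ∑ h ∈ Icc (-((M * m : ℕ) : ℤ)) (M * m : ℕ), (if (M : ℤ) ∣ h then G h else 0) =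
      ∑ l ∈ Icc (-(m : ℤ)) m, G (M * l) := by
  have hM' : (0 : ℤ) < M := by exact_mod_cast hM
  rw [← Finset.sum_filter]
  have himg : (Icc (-((M * m : ℕ) : ℤ)) (M * m : ℕ)).filter (fun h => (M : ℤ) ∣ h) =
      (Icc (-(m : ℤ)) m).image (fun l => (M : ℤ) * l) := by
    ext h
    simp only [Finset.mem_filter, Finset.mem_Icc, Finset.mem_image]
    constructor
    · rintro ⟨⟨h1, h2⟩, l, rfl⟩
      refine ⟨l, ⟨?_, ?_⟩, rfl⟩
      · push_cast at h1
        nlinarith
      · push_cast at h2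
        nlinarith
    · rintro ⟨l, ⟨h1, h2⟩, rfl⟩
      refine ⟨⟨?_, ?_⟩, Dvd.intro _ rfl⟩
      · push_cast
        nlinarith
      · push_cast
        nlinarith
  rw [himg, Finset.sum_image (fun a _ b _ hab => mul_left_cancel₀ hM'.ne' hab)]

theorem ww_class (x J m : ℕ) (hx : 1 ≤ x) (hJ : 1 ≤ J) (hm : 1 ≤ m) (hdiv : m ∣ 2 * x * J)
    (c : ℤ) :
    ((∑ n ∈ (RW x J).filter (fun n => (m : ℤ) ∣ n - c), ww x J n : ℝ) : ℂ) =
      ((Real.pi ^ 2 * x / (2 * m) : ℝ) : ℂ) * fej x m c := by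
  obtain ⟨M, hM⟩ := hdiv
  rw [mul_comm m M] at hM
  have hWpos : 0 < 2 * x * J := by positivity
  have hM1 : 1 ≤ M := by
    rcases Nat.eq_zero_or_pos M with h0 | h0
    · rw [h0, zero_mul] at hM; omega
    · exact h0
  have hWr : (2 * x * J : ℝ) = M * m := by exact_mod_cast hM
  have hx0 : (0 : ℝ) < x := by exact_mod_cast hx
  have hJ0 : (0 : ℝ) < J := by exact_mod_cast hJ
  have hm0 : (0 : ℝ) < m := by exact_mod_cast hm
  have hM0 : (0 : ℝ) < M := by exact_mod_cast hM1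
  have hww : ∀ n : ℤ, ((ww x J n : ℝ) : ℂ) = ((Real.pi ^ 2 / 4 / (J : ℝ) ^ 2 : ℝ) : ℂ) *
      ∑ p ∈ range J ×ˢ range J, ee ((((p.1 : ℤ) - p.2 : ℤ) : ℝ) * n / (2 * x * J)) := by
    intro n
    unfold ww
    rw [Complex.ofReal_mul]
    congr 1
    rw [Complex.ofReal_pow, ← Complex.mul_conj', map_sum, Finset.sum_mul_sum,
      Finset.sum_product]
    refine Finset.sum_congr rfl fun i _ => Finset.sum_congr rfl fun j _ => ?_
    rw [conj_ee, ← ee_add]
    congr 1
    push_cast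
    ring
  rw [Complex.ofReal_sum, Finset.sum_congr rfl fun n _ => hww n, ← Finset.mul_sum,
    Finset.sum_comm]
  rw [Finset.sum_congr rfl fun p _ => fejB_class x J m hx hJ hm hM c ((p.1 : ℤ) - p.2)]
  have hJW : J ≤ M * m := by
    rw [← hM]
    calc J = 1 * J := (one_mul J).symm
      _ ≤ 2 * x * J := Nat.mul_le_mul_right _ (by omega)
  rw [fejB_pairs J (M * m) hJW (fun h => if (M : ℤ) ∣ h then (M : ℂ) *
    ee ((h : ℝ) * c / (2 * x * J)) else 0)]
  have h1 : ∀ h : ℤ, ((J - h.natAbs : ℕ) : ℂ) * (if (M : ℤ) ∣ h then (M : ℂ) *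
      ee ((h : ℝ) * c / (2 * x * J)) else 0) = if (M : ℤ) ∣ h then ((J - h.natAbs : ℕ) : ℂ) *
        ((M : ℂ) * ee ((h : ℝ) * c / (2 * x * J))) else 0 := by
    intro h
    split_ifs
    · rfl
    · rw [mul_zero]
  rw [Finset.sum_congr rfl fun h _ => h1 h, fejB_mult M m hM1 (fun h =>
    ((J - h.natAbs : ℕ) : ℂ) * ((M : ℂ) * ee ((h : ℝ) * c / (2 * x * J)))), fej,
    Finset.mul_sum, Finset.mul_sum]
  refine Finset.sum_congr rfl fun l _ => ?_
  have h2 : ee ((((M : ℤ) * l : ℤ) : ℝ) * c / (2 * x * J)) = ee ((l : ℝ) * c / m) := by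
    congr 1
    rw [hWr]
    push_cast
    field_simp
  have h3 : ((J - ((M : ℤ) * l).natAbs : ℕ) : ℝ) = J * max 0 (1 - 2 * x * |(l : ℝ)| / m) := by
    have h4 : ((((M : ℤ) * l).natAbs : ℕ) : ℝ) = M * |(l : ℝ)| := by
      rw [Nat.cast_natAbs, abs_mul]
      push_cast
      rw [Nat.abs_cast]
    have h5 : (M : ℝ) * |(l : ℝ)| = J * (2 * x * |(l : ℝ)| / m) := by
      field_simp
      linear_combination (-(|(l : ℝ)|)) * hWr
    rcases le_total ((M : ℤ) * l).natAbs J with h6 | h6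
    · have h7 : (0 : ℝ) ≤ 1 - 2 * x * |(l : ℝ)| / m := by
        have h8 : ((((M : ℤ) * l).natAbs : ℕ) : ℝ) ≤ J := by exact_mod_cast h6
        rw [h4, h5] at h8
        have h9 : J * (2 * x * |(l : ℝ)| / m) ≤ J * 1 := by rw [mul_one]; exact h8
        have := le_of_mul_le_mul_left h9 hJ0
        linarith
      rw [Nat.cast_sub h6, h4, max_eq_right h7, h5]
      ring
    · have h7 : 1 - 2 * x * |(l : ℝ)| / m ≤ 0 := by
        have h8 : (J : ℝ) ≤ ((((M : ℤ) * l).natAbs : ℕ) : ℝ) := by exact_mod_cast h6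
        rw [h4, h5] at h8
        have h9 : (J : ℝ) * 1 ≤ J * (2 * x * |(l : ℝ)| / m) := by rw [mul_one]; exact h8
        have := le_of_mul_le_mul_left h9 hJ0
        linarith
      rw [Nat.sub_eq_zero_of_le h6, max_eq_left h7]
      simp
  have h4 : (((J - ((M : ℤ) * l).natAbs : ℕ) : ℝ) : ℂ) =
      ((J * max 0 (1 - 2 * x * |(l : ℝ)| / m) : ℝ) : ℂ) := by rw [h3]
  rw [h2]
  rw [Complex.ofReal_natCast] at h4
  rw [h4]
  have h5 : (Real.pi ^ 2 / 4 / (J : ℝ) ^ 2) * (J * M) = Real.pi ^ 2 * x / (2 * m) := by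
    field_simp
    linear_combination (-2) * hWr
  rw [← h5]
  push_cast
  ring

theorem fej_small (x m : ℕ) (hm : 1 ≤ m) (h : m ≤ 2 * x) (c : ℤ) : fej x m c = 1 := by
  have hm0 : (0 : ℝ) < m := by exact_mod_cast hm
  unfold fej
  rw [Finset.sum_eq_single 0]
  · simp [ee_zero]
  · intro l _ hl
    have h1 : (1 : ℝ) ≤ |(l : ℝ)| := by
      have := Int.one_le_abs hl
      exact_mod_cast this
    have h2 : 1 - 2 * x * |(l : ℝ)| / m ≤ 0 := by
      rw [sub_nonpos, one_le_div hm0]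
      have h3 : (m : ℝ) ≤ 2 * x := by exact_mod_cast h
      have h4 : (0 : ℝ) ≤ 2 * x := hm0.le.trans h3
      nlinarith
    rw [max_eq_left h2]
    simp
  · intro h0
    exfalso
    apply h0
    rw [Finset.mem_Icc]
    constructor <;> omega

theorem ww_class_small (x J m : ℕ) (hx : 1 ≤ x) (hJ : 1 ≤ J) (hm : 1 ≤ m)
    (hdiv : m ∣ 2 * x * J) (h : m ≤ 2 * x) (c : ℤ) :
    ∑ n ∈ (RW x J).filter (fun n => (m : ℤ) ∣ n - c), ww x J n = Real.pi ^ 2 * x / (2 * m) := by
  have h1 := ww_class x J m hx hJ hm hdiv c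
  rw [fej_small x m hm h c, mul_one] at h1
  exact_mod_cast h1

end Pool.Agent.H80.KF
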