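import Pool.Agent.H80.KF.CKa
import Pool.Agent.H80.KF.CKb
import Pool.Agent.H80.KF.FejB

/-!
# The nonzero frequencies

Group the pairs by `g = (q,q')` (a divisor of `h = a' - a`), `q = gm`, `q' = gn`, `(m,n) = 1`,
`[q,q'] = gmn`, `m, n ∈ II (Q/g)`; `fej - 1` is the sum over `l ≠ 0`, and by `crt_phase` the term
is that of `ckb` times `π²x/2`.  If `4Q² ≤ 2xg` every `fej` is `1` (`gmn ≤ 4Q²/g ≤ 2x`, `fej_small`).
Otherwise `g < 2Q²/x`, `Q/g ≥ x/(2Q) ≥ x^{99/200}/2` exceeds `N₀`.  For each `g`: at most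
`4Q²/(gx)` values of `l`, so `≤ (4Q²/(gx)) (π²x/2) (1/(gN²)) N^{2-1/50} ≤ 40 (Q/g)^{2-1/50}`
(`N = Q/g` floor, `Q/g ≤ N + 1`), and `∑ g^{-(2-1/50)} ≤ 2`.
-/

set_option autoImplicit false

namespace Pool.Agent.H80.KF

open Finset

/-- the contribution of the nonzero frequencies -/
noncomputable def XK (x Q : ℕ) (c c' : ℕ → ℝ) (a a' : ℤ) (n0 : ℕ → ℕ → ℤ) : ℂ :=
  ∑ q ∈ Ioc Q (2 * Q), ∑ q' ∈ Ioc Q (2 * Q),
    if ((Nat.gcd q q' : ℕ) : ℤ) ∣ a' - a then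
      ((c q * c' q' * (Real.pi ^ 2 * x / (2 * (Nat.lcm q q' : ℕ))) : ℝ) : ℂ) *
        (fej x (Nat.lcm q q') (n0 q q') - 1)
    else 0

private theorem ckc_sum (n : ℕ) :
    ∑ g ∈ Icc 1 n, 1 / ((g : ℝ) ^ ((3 : ℝ) / 2)) ≤ 3 := by
  have key : ∀ n : ℕ, ∑ g ∈ Icc 1 (n + 1), 1 / ((g : ℝ) ^ ((3 : ℝ) / 2)) ≤
      3 - 2 / Real.sqrt ((n : ℝ) + 1) := by
    intro n
    induction n with
    | zero => norm_num
    | succ n ih =>
      rw [sum_Icc_succ_top (by omega)]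
      set u := Real.sqrt ((n : ℝ) + 1) with hu
      set v := Real.sqrt (((n + 1 : ℕ) : ℝ) + 1) with hv
      have hu0 : 0 < u := Real.sqrt_pos.mpr (by positivity)
      have hv0 : 0 < v := Real.sqrt_pos.mpr (by positivity)
      have hu2 : u ^ 2 = (n : ℝ) + 1 := Real.sq_sqrt (by positivity)
      have hv2 : v ^ 2 = (n : ℝ) + 2 := by
        rw [hv, Real.sq_sqrt (by positivity)]
        push_cast
        ring
      have huv : u ≤ v := by
        apply Real.sqrt_le_sqrt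
        push_cast
        linarith
      have e1 : (((n + 1 + 1 : ℕ) : ℝ)) ^ ((3 : ℝ) / 2) = v ^ 3 := by
        have h1 : (((n + 1 + 1 : ℕ) : ℝ)) = ((n + 1 : ℕ) : ℝ) + 1 := by push_cast; ring
        rw [h1, hv, Real.sqrt_eq_rpow, ← Real.rpow_natCast, ← Real.rpow_mul (by positivity)]
        norm_num
      rw [e1]
      have h2 : 1 / v ^ 3 ≤ 2 / u - 2 / v := by
        have h3 : 2 / u - 2 / v = 2 / (u * v * (u + v)) := by
          have h4 : (v - u) * (u + v) = 1 := by nlinarith only [hu2, hv2]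
          field_simp
          nlinarith only [hu2, hv2]
        rw [h3, div_le_div_iff₀ (by positivity) (by positivity)]
        have h5 : u * v * (u + v) ≤ v * v * (v + v) := by
          apply mul_le_mul
          · exact mul_le_mul_of_nonneg_right huv hv0.le
          · linarith
          · positivity
          · positivity
        nlinarith only [h5]
      linarith
  rcases n with _ | n
  · simp
  · refine (key n).trans ?_
    have : 0 ≤ 2 / Real.sqrt ((n : ℝ) + 1) := by positivity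
    linarith

private theorem ckc_fej (x M : ℕ) (B : ℤ) (hx : 1 ≤ x) (hM : 1 ≤ M) (hB : (M : ℤ) ≤ B) (c : ℤ) :
    fej x M c - 1 = ∑ l ∈ (Icc (-B) B).erase 0,
      ((max 0 (1 - 2 * x * |(l : ℝ)| / M) : ℝ) : ℂ) * ee ((l : ℝ) * c / M) := by
  have h0 : (0 : ℤ) ∈ Icc (-B) B := by
    rw [mem_Icc]
    omega
  have h1 : fej x M c = ∑ l ∈ Icc (-B) B,
      ((max 0 (1 - 2 * x * |(l : ℝ)| / M) : ℝ) : ℂ) * ee ((l : ℝ) * c / M) := by
    unfold fej
    apply sum_subset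
    · intro l hl
      rw [mem_Icc] at hl ⊢
      omega
    · intro l _ hl
      rw [mem_Icc] at hl
      have h2 : (M : ℤ) ≤ |l| := by
        by_contra h3
        apply hl
        rw [not_le, abs_lt] at h3
        omega
      have h3 : (M : ℝ) ≤ |(l : ℝ)| := by exact_mod_cast h2
      have h4 : (0 : ℝ) < M := by exact_mod_cast hM
      have h5 : (1 : ℝ) ≤ x := by exact_mod_cast hx
      have h6 : 1 ≤ 2 * x * |(l : ℝ)| / M := by
        rw [le_div_iff₀ h4]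
        nlinarith [abs_nonneg (l : ℝ)]
      rw [max_eq_left (by linarith), Complex.ofReal_zero, zero_mul]
  rw [h1, ← add_sum_erase _ _ h0]
  simp [ee_zero]

private theorem ckc_group (Q : ℕ) (D : ℕ → Prop) [DecidablePred D] (T : ℕ → ℕ → ℂ) :
    (∑ q ∈ Ioc Q (2 * Q), ∑ q' ∈ Ioc Q (2 * Q), if D (Nat.gcd q q') then T q q' else 0) =
      ∑ g ∈ Icc 1 (2 * Q), if D g then
        ∑ n ∈ II (Q / g), ∑ m ∈ (II (Q / g)).filter (fun m => Nat.Coprime m n),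
          (if g * m ∈ Ioc Q (2 * Q) ∧ g * n ∈ Ioc Q (2 * Q) then T (g * m) (g * n) else 0)
      else 0 := by
  rw [← sum_product']
  have hmap : ∀ p ∈ Ioc Q (2 * Q) ×ˢ Ioc Q (2 * Q), Nat.gcd p.1 p.2 ∈ Icc 1 (2 * Q) := by
    intro p hp
    rw [mem_product, mem_Ioc, mem_Ioc] at hp
    rw [mem_Icc]
    refine ⟨Nat.gcd_pos_of_pos_left _ (by omega), ?_⟩
    exact (Nat.gcd_le_left _ (by omega)).trans hp.1.2
  rw [← sum_fiberwise_of_maps_to hmap]
  refine sum_congr rfl fun g hg => ?_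
  rw [mem_Icc] at hg
  by_cases hD : D g
  · rw [if_pos hD]
    have e1 : (∑ n ∈ II (Q / g), ∑ m ∈ (II (Q / g)).filter (fun m => Nat.Coprime m n),
        (if g * m ∈ Ioc Q (2 * Q) ∧ g * n ∈ Ioc Q (2 * Q) then T (g * m) (g * n) else 0)) =
        ∑ p ∈ (II (Q / g) ×ˢ II (Q / g)).filter (fun p => Nat.Coprime p.2 p.1 ∧
          (g * p.2 ∈ Ioc Q (2 * Q) ∧ g * p.1 ∈ Ioc Q (2 * Q))), T (g * p.2) (g * p.1) := by
      rw [sum_filter, sum_product]
      refine sum_congr rfl fun n _ => ?_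
      rw [sum_filter]
      refine sum_congr rfl fun m _ => ?_
      by_cases h1 : Nat.Coprime m n
      · rw [if_pos h1]
        by_cases h2 : g * m ∈ Ioc Q (2 * Q) ∧ g * n ∈ Ioc Q (2 * Q)
        · rw [if_pos h2, if_pos ⟨h1, h2⟩]
        · rw [if_neg h2, if_neg (fun h => h2 h.2)]
      · rw [if_neg h1, if_neg (fun h => h1 h.1)]
    rw [e1]
    have e2 : ∀ p ∈ (Ioc Q (2 * Q) ×ˢ Ioc Q (2 * Q)).filter (fun p => Nat.gcd p.1 p.2 = g),
        (if D (Nat.gcd p.1 p.2) then T p.1 p.2 else 0) = T p.1 p.2 := by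
      intro p hp
      rw [(mem_filter.mp hp).2, if_pos hD]
    rw [sum_congr rfl e2]
    have hg0 : 0 < g := hg.1
    refine sum_bij' (fun p _ => (p.2 / g, p.1 / g)) (fun p _ => (g * p.2, g * p.1)) ?_ ?_ ?_ ?_ ?_
    · rintro ⟨q, q'⟩ hp
      rw [mem_filter, mem_product] at hp
      obtain ⟨⟨h1, h2⟩, h3⟩ := hp
      simp only at h1 h2 h3
      obtain ⟨m, hm⟩ : g ∣ q := h3 ▸ Nat.gcd_dvd_left q q'
      obtain ⟨n, hn⟩ : g ∣ q' := h3 ▸ Nat.gcd_dvd_right q q'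
      have hm1 : q / g = m := by rw [hm, Nat.mul_div_cancel_left _ hg0]
      have hn1 : q' / g = n := by rw [hn, Nat.mul_div_cancel_left _ hg0]
      rw [mem_filter, mem_product]
      simp only [hm1, hn1]
      rw [← hm, ← hn]
      have hII : ∀ m q : ℕ, q = g * m → q ∈ Ioc Q (2 * Q) → m ∈ II (Q / g) := by
        intro m q hq h
        rw [mem_Ioc] at h
        unfold II
        rw [mem_Ioc]
        have h5 : Q / g < m := by
          rw [Nat.div_lt_iff_lt_mul hg0, mul_comm, ← hq]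
          exact h.1
        refine ⟨h5, ?_⟩
        by_contra h6
        push Not at h6
        have h7 : Q < g * (Q / g) + g := by
          have := Nat.lt_mul_div_succ Q hg0
          rw [Nat.mul_add, mul_one] at this
          exact this
        have h8 : g * (2 * (Q / g) + 2) ≤ g * m := Nat.mul_le_mul_left _ (by omega)
        have h9 : g * (2 * (Q / g) + 2) = 2 * (g * (Q / g) + g) := by ring
        rw [← hq] at h8
        omega
      refine ⟨⟨hII n q' hn h2, hII m q hm h1⟩, ?_, h1, h2⟩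
      have h10 : g * Nat.gcd m n = g := by
        rw [← Nat.gcd_mul_left, ← hm, ← hn, h3]
      exact Nat.eq_of_mul_eq_mul_left hg0 (by rw [h10, mul_one])
    · rintro ⟨n, m⟩ hp
      rw [mem_filter, mem_product] at hp
      obtain ⟨-, h1, h2, h3⟩ := hp
      simp only at h1 h2 h3
      rw [mem_filter, mem_product]
      simp only
      refine ⟨⟨h2, h3⟩, ?_⟩
      rw [Nat.gcd_mul_left]
      have : Nat.gcd m n = 1 := h1
      rw [this, mul_one]
    · rintro ⟨q, q'⟩ hp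
      rw [mem_filter, mem_product] at hp
      obtain ⟨⟨h1, h2⟩, h3⟩ := hp
      simp only at h1 h2 h3
      have hm : g ∣ q := h3 ▸ Nat.gcd_dvd_left q q'
      have hn : g ∣ q' := h3 ▸ Nat.gcd_dvd_right q q'
      simp only
      rw [Nat.mul_div_cancel' hm, Nat.mul_div_cancel' hn]
    · rintro ⟨n, m⟩ _
      simp only
      rw [Nat.mul_div_cancel_left _ hg0, Nat.mul_div_cancel_left _ hg0]
    · rintro ⟨q, q'⟩ hp
      rw [mem_filter, mem_product] at hp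
      obtain ⟨⟨h1, h2⟩, h3⟩ := hp
      simp only at h1 h2 h3
      have hm : g ∣ q := h3 ▸ Nat.gcd_dvd_left q q'
      have hn : g ∣ q' := h3 ▸ Nat.gcd_dvd_right q q'
      simp only
      rw [Nat.mul_div_cancel' hm, Nat.mul_div_cancel' hn]
  · rw [if_neg hD]
    refine sum_eq_zero fun p hp => ?_
    rw [(mem_filter.mp hp).2, if_neg hD]

/-- the sum of one frequency -/
private noncomputable def ckcS (x Q g : ℕ) (c c' : ℕ → ℝ) (a h1 l : ℤ) : ℂ :=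
  ∑ n ∈ II (Q / g), ∑ m ∈ (II (Q / g)).filter (fun m => Nat.Coprime m n),
    (if g * m ∈ Ioc Q (2 * Q) ∧ g * n ∈ Ioc Q (2 * Q) then
      ((c (g * m) * c' (g * n) / ((g : ℝ) * m * n) *
        max 0 (1 - 2 * x * |(l : ℝ)| / ((g : ℝ) * m * n)) : ℝ) : ℂ) *
        (ee ((l : ℝ) * a / ((g : ℝ) * m * n)) * kf n (l * h1) m)
    else 0)

private theorem ckc_expand (x Q g : ℕ) (hx : 1 ≤ x) (hg : 1 ≤ g) (c c' : ℕ → ℝ) (a a' h1 : ℤ)
    (hh : (g : ℤ) * h1 = a' - a) (n0 : ℕ → ℕ → ℤ)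
    (hn0 : ∀ q q' : ℕ, ((Nat.gcd q q' : ℕ) : ℤ) ∣ a' - a →
      (q : ℤ) ∣ n0 q q' - a ∧ (q' : ℤ) ∣ n0 q q' - a') :
    (∑ n ∈ II (Q / g), ∑ m ∈ (II (Q / g)).filter (fun m => Nat.Coprime m n),
      (if g * m ∈ Ioc Q (2 * Q) ∧ g * n ∈ Ioc Q (2 * Q) then
        ((c (g * m) * c' (g * n) * (Real.pi ^ 2 * x / (2 * (Nat.lcm (g * m) (g * n) : ℕ))) : ℝ) : ℂ)
          * (fej x (Nat.lcm (g * m) (g * n)) (n0 (g * m) (g * n)) - 1)
      else 0)) =
      ∑ l ∈ (Icc (-(4 * (Q : ℤ) ^ 2)) (4 * (Q : ℤ) ^ 2)).erase 0,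
        ((Real.pi ^ 2 * x / 2 : ℝ) : ℂ) * ckcS x Q g c c' a h1 l := by
  unfold ckcS
  simp_rw [mul_sum]
  rw [sum_comm]
  refine sum_congr rfl fun n hn => ?_
  rw [sum_comm]
  refine sum_congr rfl fun m hm => ?_
  rw [mem_filter] at hm
  by_cases hq : g * m ∈ Ioc Q (2 * Q) ∧ g * n ∈ Ioc Q (2 * Q)
  swap
  · simp only [if_neg hq, mul_zero, sum_const_zero]
  simp only [if_pos hq]
  have hm1 : 1 ≤ m := by
    have := hm.1
    unfold II at this
    rw [mem_Ioc] at this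
    omega
  have hn1 : 1 ≤ n := by
    unfold II at hn
    rw [mem_Ioc] at hn
    omega
  have hlcm : Nat.lcm (g * m) (g * n) = g * m * n := by
    rw [Nat.lcm_mul_left, Nat.Coprime.lcm_eq_mul hm.2, mul_assoc]
  have hM1 : 1 ≤ g * m * n := Nat.mul_pos (Nat.mul_pos hg hm1) hn1
  have hMB : ((g * m * n : ℕ) : ℤ) ≤ 4 * (Q : ℤ) ^ 2 := by
    have h2 : g * m ≤ 2 * Q := (mem_Ioc.mp hq.1).2
    have h3 : g * n ≤ 2 * Q := (mem_Ioc.mp hq.2).2
    have h4 : n ≤ 2 * Q := le_trans (Nat.le_mul_of_pos_left n hg) h3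
    have h5 : g * m * n ≤ 2 * Q * (2 * Q) := Nat.mul_le_mul h2 h4
    have h6 : 2 * Q * (2 * Q) = 4 * Q ^ 2 := by ring
    rw [h6] at h5
    exact_mod_cast h5
  rw [hlcm, ckc_fej x (g * m * n) _ hx hM1 hMB, mul_sum]
  refine sum_congr rfl fun l _ => ?_
  have hgcd : ((Nat.gcd (g * m) (g * n) : ℕ) : ℤ) ∣ a' - a := by
    rw [Nat.gcd_mul_left]
    have h2 : Nat.gcd m n = 1 := hm.2
    rw [h2, mul_one]
    exact ⟨h1, hh.symm⟩
  obtain ⟨h2, h3⟩ := hn0 (g * m) (g * n) hgcd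
  have hph := crt_phase g m n hg hm1 hn1 hm.2 a a' h1 (n0 (g * m) (g * n)) l hh h2 h3
  have hcast : ((g * m * n : ℕ) : ℝ) = (g : ℝ) * m * n := by push_cast; ring
  rw [hcast, hph]
  have hgmn : ((g : ℝ) * m * n) ≠ 0 := by
    have h4 : (0 : ℝ) < ((g * m * n : ℕ) : ℝ) := by exact_mod_cast hM1
    rw [hcast] at h4
    exact h4.ne'
  have hre : (c (g * m) * c' (g * n) * (Real.pi ^ 2 * x / (2 * ((g : ℝ) * m * n)))) *
      max 0 (1 - 2 * x * |(l : ℝ)| / ((g : ℝ) * m * n)) =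
      (Real.pi ^ 2 * x / 2) * (c (g * m) * c' (g * n) / ((g : ℝ) * m * n) *
        max 0 (1 - 2 * x * |(l : ℝ)| / ((g : ℝ) * m * n))) := by
    field_simp
  have hre' : ((c (g * m) * c' (g * n) * (Real.pi ^ 2 * x / (2 * ((g : ℝ) * m * n))) : ℝ) : ℂ) *
      ((max 0 (1 - 2 * x * |(l : ℝ)| / ((g : ℝ) * m * n)) : ℝ) : ℂ) =
      ((Real.pi ^ 2 * x / 2 : ℝ) : ℂ) * ((c (g * m) * c' (g * n) / ((g : ℝ) * m * n) *
        max 0 (1 - 2 * x * |(l : ℝ)| / ((g : ℝ) * m * n)) : ℝ) : ℂ) := by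
    rw [← Complex.ofReal_mul, hre, Complex.ofReal_mul]
  linear_combination (ee ((l : ℝ) * a / ((g : ℝ) * m * n)) * kf n (l * h1) m) * hre'

private theorem ckc_zero (x Q g : ℕ) (hg : 1 ≤ g) (hbig : 2 * Q ^ 2 < g * x) (c c' : ℕ → ℝ)
    (a h1 l : ℤ) (hl : l ≠ 0) : ckcS x Q g c c' a h1 l = 0 := by
  unfold ckcS
  refine sum_eq_zero fun n _ => sum_eq_zero fun m _ => ?_
  by_cases hq : g * m ∈ Ioc Q (2 * Q) ∧ g * n ∈ Ioc Q (2 * Q)
  swap
  · rw [if_neg hq]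
  rw [if_pos hq]
  have h2 : Q < g * m ∧ g * m ≤ 2 * Q := mem_Ioc.mp hq.1
  have h3 : Q < g * n ∧ g * n ≤ 2 * Q := mem_Ioc.mp hq.2
  have h4 : (g * m) * (g * n) ≤ (2 * Q) * (2 * Q) := Nat.mul_le_mul h2.2 h3.2
  have h5 : (g * m * n) * g < (2 * x) * g := by
    calc (g * m * n) * g = (g * m) * (g * n) := by ring
      _ ≤ (2 * Q) * (2 * Q) := h4
      _ = 2 * (2 * Q ^ 2) := by ring
      _ < 2 * (g * x) := by omega
      _ = (2 * x) * g := by ring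
  have h6 : g * m * n < 2 * x := Nat.lt_of_mul_lt_mul_right h5
  have h7 : ((g : ℝ) * m * n) < 2 * x := by exact_mod_cast h6
  have h8 : (0 : ℝ) < (g : ℝ) * m * n := by
    have hm : 0 < m := Nat.pos_of_ne_zero (by rintro rfl; omega)
    have hn : 0 < n := Nat.pos_of_ne_zero (by rintro rfl; omega)
    have : 0 < g * m * n := Nat.mul_pos (Nat.mul_pos hg hm) hn
    exact_mod_cast this
  have h9 : (1 : ℝ) ≤ |(l : ℝ)| := by
    have : (1 : ℤ) ≤ |l| := Int.one_le_abs hl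
    exact_mod_cast this
  have h10 : 1 ≤ 2 * x * |(l : ℝ)| / ((g : ℝ) * m * n) := by
    rw [le_div_iff₀ h8]
    have h11 : (0 : ℝ) ≤ 2 * x := by positivity
    nlinarith only [h7, h9]
  rw [max_eq_left (by linarith), mul_zero, Complex.ofReal_zero, zero_mul]

theorem xk_bound : ∃ x0 : ℕ, ∀ x Q : ℕ, x0 ≤ x → 1 ≤ Q →
    (Q : ℝ) ≤ (x : ℝ) ^ ((101 : ℝ) / 200) → ∀ a a' : ℤ, a ≠ a' → |a| ≤ x → |a'| ≤ x →
    |a' - a| ≤ x → ∀ c c' : ℕ → ℝ, (∀ q, |c q| ≤ 1) → (∀ q, |c' q| ≤ 1) →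
    ∀ n0 : ℕ → ℕ → ℤ,
    (∀ q q' : ℕ, ((Nat.gcd q q' : ℕ) : ℤ) ∣ a' - a →
      (q : ℤ) ∣ n0 q q' - a ∧ (q' : ℤ) ∣ n0 q q' - a') →
    ‖XK x Q c c' a a' n0‖ ≤ 100 * (Q : ℝ) ^ ((2 : ℝ) - 1 / 50) := by
  obtain ⟨N0, hckb⟩ := ckb
  set N1 : ℕ := max N0 100 with hN1
  refine ⟨(2 * N1) ^ 3, ?_⟩
  intro x Q hx hQ hQx a a' haa ha ha' hd c c' hc hc' n0 hn0
  have hN1100 : 100 ≤ N1 := le_max_right _ _
  have hx1 : 1 ≤ x := le_trans (Nat.one_le_pow _ _ (by omega)) hx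
  have hxr : (1 : ℝ) ≤ x := by exact_mod_cast hx1
  have hx0 : (0 : ℝ) < x := by linarith
  have hQ0 : (0 : ℝ) < Q := by exact_mod_cast hQ
  -- the size of x^(99/200)
  have hpow : 2 * (N1 : ℝ) ≤ (x : ℝ) ^ ((99 : ℝ) / 200) := by
    have h1 : ((2 * N1 : ℕ) : ℝ) ^ 3 ≤ x := by exact_mod_cast hx
    have h2 : ((2 * N1 : ℕ) : ℝ) = (((2 * N1 : ℕ) : ℝ) ^ 3) ^ ((1 : ℝ) / 3) := by
      rw [← Real.rpow_natCast, ← Real.rpow_mul (by positivity)]
      norm_num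
    have h3 : (((2 * N1 : ℕ) : ℝ) ^ 3) ^ ((1 : ℝ) / 3) ≤ (x : ℝ) ^ ((1 : ℝ) / 3) :=
      Real.rpow_le_rpow (by positivity) h1 (by norm_num)
    have h4 : (x : ℝ) ^ ((1 : ℝ) / 3) ≤ (x : ℝ) ^ ((99 : ℝ) / 200) :=
      Real.rpow_le_rpow_of_exponent_le hxr (by norm_num)
    have h5 : ((2 * N1 : ℕ) : ℝ) = 2 * (N1 : ℝ) := by push_cast; ring
    rw [← h5, h2]
    exact h3.trans h4
  have hxQ : 2 * (N1 : ℝ) * Q ≤ x := by
    have h1 : (x : ℝ) ^ ((99 : ℝ) / 200) * (x : ℝ) ^ ((101 : ℝ) / 200) = x := by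
      rw [← Real.rpow_add hx0]
      norm_num
    calc 2 * (N1 : ℝ) * Q ≤ (x : ℝ) ^ ((99 : ℝ) / 200) * (x : ℝ) ^ ((101 : ℝ) / 200) :=
          mul_le_mul hpow hQx hQ0.le (by positivity)
      _ = x := h1
  -- regroup
  have hXK : XK x Q c c' a a' n0 = ∑ g ∈ Icc 1 (2 * Q), if ((g : ℕ) : ℤ) ∣ a' - a then
        ∑ n ∈ II (Q / g), ∑ m ∈ (II (Q / g)).filter (fun m => Nat.Coprime m n),
          (if g * m ∈ Ioc Q (2 * Q) ∧ g * n ∈ Ioc Q (2 * Q) then
            ((c (g * m) * c' (g * n) *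
              (Real.pi ^ 2 * x / (2 * (Nat.lcm (g * m) (g * n) : ℕ))) : ℝ) : ℂ)
              * (fej x (Nat.lcm (g * m) (g * n)) (n0 (g * m) (g * n)) - 1)
          else 0)
      else 0 := by
    unfold XK
    exact ckc_group Q (fun g => ((g : ℕ) : ℤ) ∣ a' - a) (fun q q' =>
      ((c q * c' q' * (Real.pi ^ 2 * x / (2 * (Nat.lcm q q' : ℕ))) : ℝ) : ℂ) *
        (fej x (Nat.lcm q q') (n0 q q') - 1))
  rw [hXK]
  refine (norm_sum_le _ _).trans ?_
  have hE : ∀ g ∈ Icc 1 (2 * Q), ‖(if ((g : ℕ) : ℤ) ∣ a' - a then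
        ∑ n ∈ II (Q / g), ∑ m ∈ (II (Q / g)).filter (fun m => Nat.Coprime m n),
          (if g * m ∈ Ioc Q (2 * Q) ∧ g * n ∈ Ioc Q (2 * Q) then
            ((c (g * m) * c' (g * n) *
              (Real.pi ^ 2 * x / (2 * (Nat.lcm (g * m) (g * n) : ℕ))) : ℝ) : ℂ)
              * (fej x (Nat.lcm (g * m) (g * n)) (n0 (g * m) (g * n)) - 1)
          else 0)
      else 0)‖ ≤ 21 * (Q : ℝ) ^ ((2 : ℝ) - 1 / 50) * (1 / ((g : ℝ) ^ ((3 : ℝ) / 2))) := by
    intro g hg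
    rw [mem_Icc] at hg
    have hg0 : (0 : ℝ) < g := by exact_mod_cast hg.1
    have hg1 : (1 : ℝ) ≤ g := by exact_mod_cast hg.1
    have hRnn : 0 ≤ 21 * (Q : ℝ) ^ ((2 : ℝ) - 1 / 50) * (1 / ((g : ℝ) ^ ((3 : ℝ) / 2))) := by
      positivity
    by_cases hdv : ((g : ℕ) : ℤ) ∣ a' - a
    swap
    · rw [if_neg hdv, norm_zero]
      exact hRnn
    rw [if_pos hdv]
    obtain ⟨h1, hh⟩ := hdv
    have hh1 : (g : ℤ) * h1 = a' - a := hh.symm
    have hh0 : h1 ≠ 0 := by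
      rintro rfl
      rw [mul_zero] at hh1
      exact haa (by linarith only [hh])
    rw [ckc_expand x Q g hx1 hg.1 c c' a a' h1 hh1 n0 hn0]
    by_cases hbig : 2 * Q ^ 2 < g * x
    · have h2 : ∑ l ∈ (Icc (-(4 * (Q : ℤ) ^ 2)) (4 * (Q : ℤ) ^ 2)).erase 0,
          ((Real.pi ^ 2 * x / 2 : ℝ) : ℂ) * ckcS x Q g c c' a h1 l = 0 := by
        refine sum_eq_zero fun l hl => ?_
        rw [ckc_zero x Q g hg.1 hbig c c' a h1 l (mem_erase.mp hl).1, mul_zero]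
      rw [h2, norm_zero]
      exact hRnn
    push Not at hbig
    -- N1 ≤ Q / g
    have hbigr : (g : ℝ) * x ≤ 2 * (Q : ℝ) ^ 2 := by exact_mod_cast hbig
    have hNg : N1 ≤ Q / g := by
      rw [Nat.le_div_iff_mul_le hg.1]
      have h2 : (N1 : ℝ) * g ≤ Q := by
        have h3 : (g : ℝ) * (2 * N1 * Q) ≤ 2 * (Q : ℝ) ^ 2 :=
          (mul_le_mul_of_nonneg_left hxQ hg0.le).trans hbigr
        have h4 : ((N1 : ℝ) * g) * (2 * Q) ≤ Q * (2 * Q) := by nlinarith only [h3]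
        exact le_of_mul_le_mul_right h4 (by positivity)
      exact_mod_cast h2
    set N : ℕ := Q / g with hN
    have hN100 : 100 ≤ N := hN1100.trans hNg
    have hNr : (100 : ℝ) ≤ N := by exact_mod_cast hN100
    have hN0 : (0 : ℝ) < N := by linarith
    have hghx : (g : ℤ) * |h1| ≤ x := by
      have h2 : (g : ℤ) * |h1| = |a' - a| := by
        rw [← hh1, abs_mul, Nat.abs_cast]
      rw [h2]
      exact hd
    set V : ℝ := 1 / ((g : ℝ) * (N : ℝ) ^ 2) * (N : ℝ) ^ ((2 : ℝ) - 1 / 50) with hV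
    have hV0 : 0 ≤ V := by positivity
    have hSb : ∀ l ∈ (Icc (-(4 * (Q : ℤ) ^ 2)) (4 * (Q : ℤ) ^ 2)).erase 0,
        ‖((Real.pi ^ 2 * x / 2 : ℝ) : ℂ) * ckcS x Q g c c' a h1 l‖ ≤
          (Real.pi ^ 2 * x / 2) * (if |l| * g * x ≤ 2 * (Q : ℤ) ^ 2 then V else 0) := by
      intro l hl
      rw [norm_mul, Complex.norm_real, Real.norm_of_nonneg (by positivity)]
      refine mul_le_mul_of_nonneg_left ?_ (by positivity)
      exact hckb x Q g hx1 hg.1 ((le_max_left _ _).trans hNg) l a h1 (mem_erase.mp hl).1 hh0 ha hghx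
        c c' hc hc'
    refine (norm_sum_le _ _).trans ((sum_le_sum hSb).trans ?_)
    rw [← mul_sum, ← sum_filter, sum_const, nsmul_eq_mul]
    set Mn : ℕ := 2 * Q ^ 2 / (g * x) with hMn
    have hcard : ((((Icc (-(4 * (Q : ℤ) ^ 2)) (4 * (Q : ℤ) ^ 2)).erase 0).filter
        (fun l => |l| * g * x ≤ 2 * (Q : ℤ) ^ 2)).card : ℝ) ≤ 2 * Mn := by
      have h2 : ((Icc (-(4 * (Q : ℤ) ^ 2)) (4 * (Q : ℤ) ^ 2)).erase 0).filter
          (fun l => |l| * g * x ≤ 2 * (Q : ℤ) ^ 2) ⊆ (Icc (-(Mn : ℤ)) Mn).erase 0 := by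
        intro l hl
        rw [mem_filter, mem_erase] at hl
        rw [mem_erase, mem_Icc]
        refine ⟨hl.1.1, ?_⟩
        have h3 : |l| ≤ Mn := by
          have h4 : l.natAbs ≤ Mn := by
            rw [hMn, Nat.le_div_iff_mul_le (Nat.mul_pos hg.1 hx1)]
            have h5 : ((l.natAbs * (g * x) : ℕ) : ℤ) ≤ ((2 * Q ^ 2 : ℕ) : ℤ) := by
              push_cast
              rw [← mul_assoc]
              exact hl.2
            exact_mod_cast h5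
          have h5 : |l| = (l.natAbs : ℤ) := Int.abs_eq_natAbs l
          rw [h5]
          exact_mod_cast h4
        exact ⟨(abs_le.mp h3).1, (abs_le.mp h3).2⟩
      have h3 := card_le_card h2
      have h0 : (0 : ℤ) ∈ Icc (-(Mn : ℤ)) Mn := by
        rw [mem_Icc]
        exact ⟨neg_nonpos.mpr (Int.natCast_nonneg _), Int.natCast_nonneg _⟩
      rw [card_erase_of_mem h0, Int.card_Icc] at h3
      have h4 : ((Mn : ℤ) + 1 - (-(Mn : ℤ))).toNat - 1 = 2 * Mn := by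
        clear_value Mn
        omega
      rw [h4] at h3
      exact_mod_cast h3
    have hMr : (Mn : ℝ) ≤ 2 * (Q : ℝ) ^ 2 / (g * x) := by
      have h2 : ((2 * Q ^ 2 / (g * x) : ℕ) : ℝ) ≤ ((2 * Q ^ 2 : ℕ) : ℝ) / ((g * x : ℕ) : ℝ) :=
        Nat.cast_div_le
      push_cast at h2
      exact h2
    have hQN : (Q : ℝ) / g ≤ N + 1 := by
      rw [div_le_iff₀ hg0]
      have h2 : Q < g * (N + 1) := Nat.lt_mul_div_succ Q hg.1
      have h3 : (Q : ℝ) < g * (N + 1) := by exact_mod_cast h2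
      linarith only [h3]
    have hNQ : (N : ℝ) ≤ Q / g := Nat.cast_div_le
    have hpi : Real.pi ^ 2 < 9.87 := by
      have h2 := Real.pi_lt_d4
      have h3 := Real.pi_pos
      nlinarith only [h2, h3]
    calc Real.pi ^ 2 * x / 2 * (((((Icc (-(4 * (Q : ℤ) ^ 2)) (4 * (Q : ℤ) ^ 2)).erase 0).filter
        (fun l => |l| * g * x ≤ 2 * (Q : ℤ) ^ 2)).card : ℝ) * V)
        ≤ Real.pi ^ 2 * x / 2 * ((2 * (2 * (Q : ℝ) ^ 2 / (g * x))) * V) := by
          refine mul_le_mul_of_nonneg_left (mul_le_mul_of_nonneg_right ?_ hV0) (by positivity)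
          linarith only [hcard, hMr]
      _ = 2 * Real.pi ^ 2 * (((Q : ℝ) / g) ^ 2 / (N : ℝ) ^ 2) * (N : ℝ) ^ ((2 : ℝ) - 1 / 50) := by
          rw [hV]
          field_simp
      _ ≤ 2 * Real.pi ^ 2 * (1.03 : ℝ) * ((Q : ℝ) / g) ^ ((2 : ℝ) - 1 / 50) := by
          have h2 : ((Q : ℝ) / g) ^ 2 / (N : ℝ) ^ 2 ≤ 1.03 := by
            rw [div_le_iff₀ (by positivity)]
            have h3 : (Q : ℝ) / g ≤ 1.01 * N := by linarith only [hNr, hQN]
            have h4 : ((Q : ℝ) / g) ^ 2 ≤ (1.01 * N) ^ 2 := by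
              apply pow_le_pow_left₀ (by positivity) h3
            nlinarith only [h4]
          have h3 : (N : ℝ) ^ ((2 : ℝ) - 1 / 50) ≤ ((Q : ℝ) / g) ^ ((2 : ℝ) - 1 / 50) :=
            Real.rpow_le_rpow hN0.le hNQ (by norm_num)
          refine mul_le_mul (mul_le_mul_of_nonneg_left h2 (by positivity)) h3 (by positivity)
            (by positivity)
      _ ≤ 21 * ((Q : ℝ) / g) ^ ((2 : ℝ) - 1 / 50) := by
          refine mul_le_mul_of_nonneg_right ?_ (by positivity)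
          linarith
      _ ≤ 21 * (Q : ℝ) ^ ((2 : ℝ) - 1 / 50) * (1 / ((g : ℝ) ^ ((3 : ℝ) / 2))) := by
          rw [Real.div_rpow hQ0.le hg0.le, mul_assoc, mul_one_div]
          refine mul_le_mul_of_nonneg_left ?_ (by norm_num)
          refine div_le_div_of_nonneg_left (by positivity) (by positivity) ?_
          exact Real.rpow_le_rpow_of_exponent_le hg1 (by norm_num)
  refine (sum_le_sum hE).trans ?_
  rw [← mul_sum]
  have h1 := ckc_sum (2 * Q)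
  have h2 : 0 ≤ (Q : ℝ) ^ ((2 : ℝ) - 1 / 50) := by positivity
  nlinarith only [h1, h2]

end Pool.Agent.H80.KF
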