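import Pool.Agent.H80.KF.RamB

/-!
# Common denominators larger than `R`

`|∑| ≤ (π²x/2) ∑_{R < r ≤ 2Q} |c_r(h)| (∑_{q ∈ (Q,2Q], r ∣ q} 1/q)²`, the inner sum is
`≤ (1/Q)(Q/r + 1) ≤ 3/r` (`r ≤ 2Q`), `|c_r(h)| ≤ ∑_{d ∣ r, d ∣ h} d`, and
`∑_{r > R, d ∣ r} 1/r² ≤ 2/(d R)`.  Total `≤ (π²/2) 18 x τ(|h|)/R ≤ 100 x τ(|h|)/R`.
-/

set_option autoImplicit false

namespace Pool.Agent.H80.KF

open Finset

private theorem crR_card (Q r : ℕ) (hr : 1 ≤ r) :
    (((Ioc Q (2 * Q)).filter (fun q => r ∣ q)).card : ℝ) ≤ (Q : ℝ) / r + 1 := by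
  have h1 := Nat.Ioc_filter_dvd_card_eq_div (2 * Q) r
  have h2 := Nat.Ioc_filter_dvd_card_eq_div Q r
  have hd : Disjoint ((Ioc 0 Q).filter (fun q => r ∣ q)) ((Ioc Q (2 * Q)).filter (fun q => r ∣ q)) := by
    rw [Finset.disjoint_left]
    intro a ha hb
    rw [mem_filter, mem_Ioc] at ha hb
    omega
  have hu : (Ioc 0 (2 * Q)).filter (fun q => r ∣ q) =
      ((Ioc 0 Q).filter (fun q => r ∣ q)) ∪ ((Ioc Q (2 * Q)).filter (fun q => r ∣ q)) := by
    ext a
    rw [mem_union, mem_filter, mem_filter, mem_filter, mem_Ioc, mem_Ioc, mem_Ioc]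
    constructor
    · rintro ⟨⟨h3, h4⟩, h5⟩
      rcases Nat.lt_or_ge Q a with h6 | h6
      · exact Or.inr ⟨⟨h6, h4⟩, h5⟩
      · exact Or.inl ⟨⟨h3, h6⟩, h5⟩
    · rintro (⟨⟨h3, h4⟩, h5⟩ | ⟨⟨h3, h4⟩, h5⟩)
      · exact ⟨⟨h3, by omega⟩, h5⟩
      · exact ⟨⟨by omega, h4⟩, h5⟩
  rw [hu, card_union_of_disjoint hd, h2] at h1
  have hr0 : (0 : ℝ) < r := by exact_mod_cast hr
  have h3 : ((2 * Q / r : ℕ) : ℝ) ≤ ((2 * Q : ℕ) : ℝ) / r := Nat.cast_div_le
  have h4 : (Q : ℝ) / r < ((Q / r : ℕ) : ℝ) + 1 := by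
    rw [div_lt_iff₀ hr0]
    have h5 := Nat.lt_mul_div_succ Q hr
    have h6 : (Q : ℝ) < (r : ℝ) * ((Q / r : ℕ) + 1 : ℝ) := by exact_mod_cast h5
    linarith
  have h7 : ((Q / r : ℕ) : ℝ) + (((Ioc Q (2 * Q)).filter (fun q => r ∣ q)).card : ℝ) =
      ((2 * Q / r : ℕ) : ℝ) := by exact_mod_cast h1
  push_cast at h3
  have h8 : 2 * (Q : ℝ) / r = Q / r + Q / r := by ring
  rw [h8] at h3
  linarith

theorem sum_inv_mult (Q r : ℕ) (hQ : 1 ≤ Q) (hr : 1 ≤ r) (hr' : r ≤ 2 * Q) :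
    ∑ q ∈ (Ioc Q (2 * Q)).filter (fun q => r ∣ q), (1 : ℝ) / q ≤ 3 / r := by
  have hQ0 : (0 : ℝ) < Q := by exact_mod_cast hQ
  have hr0 : (0 : ℝ) < r := by exact_mod_cast hr
  have hr'' : (r : ℝ) ≤ 2 * Q := by exact_mod_cast hr'
  calc ∑ q ∈ (Ioc Q (2 * Q)).filter (fun q => r ∣ q), (1 : ℝ) / q
      ≤ ∑ q ∈ (Ioc Q (2 * Q)).filter (fun q => r ∣ q), (1 : ℝ) / Q := by
        apply sum_le_sum
        intro q hq
        rw [mem_filter, mem_Ioc] at hq
        have h1 : (Q : ℝ) ≤ q := by exact_mod_cast hq.1.1.le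
        exact one_div_le_one_div_of_le hQ0 h1
    _ = (((Ioc Q (2 * Q)).filter (fun q => r ∣ q)).card : ℝ) * (1 / Q) := by
        rw [sum_const, nsmul_eq_mul]
    _ ≤ ((Q : ℝ) / r + 1) * (1 / Q) :=
        mul_le_mul_of_nonneg_right (crR_card Q r hr) (by positivity)
    _ = 1 / r + 1 / Q := by field_simp
    _ ≤ 1 / r + 2 / r := by
        have : 1 / (Q : ℝ) ≤ 2 / r := by
          rw [div_le_div_iff₀ hQ0 hr0]
          linarith
        linarith
    _ = 3 / r := by ring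

private theorem crR_sq (R M d : ℕ) (hR : 1 ≤ R) (hd : 1 ≤ d) :
    ∑ r ∈ (Ioc R M).filter (fun r => d ∣ r), (1 : ℝ) / (r : ℝ) ^ 2 ≤ 2 / (d * R) := by
  classical
  have hd0 : (0 : ℝ) < d := by exact_mod_cast hd
  have hR0 : (0 : ℝ) < R := by exact_mod_cast hR
  have hsub : (Ioc R M).filter (fun r => d ∣ r) ⊆ (Ioo (R / d) (M / d + 1)).image (fun k => d * k) := by
    intro r hr
    rw [mem_filter, mem_Ioc] at hr
    obtain ⟨⟨h1, h2⟩, k, rfl⟩ := hr
    rw [mem_image]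
    refine ⟨k, ?_, rfl⟩
    rw [mem_Ioo]
    constructor
    · rw [Nat.div_lt_iff_lt_mul hd, mul_comm]
      exact h1
    · rw [Nat.lt_succ_iff, Nat.le_div_iff_mul_le hd, mul_comm]
      exact h2
  calc ∑ r ∈ (Ioc R M).filter (fun r => d ∣ r), (1 : ℝ) / (r : ℝ) ^ 2
      ≤ ∑ r ∈ (Ioo (R / d) (M / d + 1)).image (fun k => d * k), (1 : ℝ) / (r : ℝ) ^ 2 := by
        apply sum_le_sum_of_subset_of_nonneg hsub
        intro _ _ _
        positivity
    _ = ∑ k ∈ Ioo (R / d) (M / d + 1), (1 : ℝ) / (((d * k : ℕ) : ℝ)) ^ 2 := by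
        rw [sum_image]
        intro a _ b _ hab
        exact Nat.eq_of_mul_eq_mul_left hd hab
    _ = 1 / (d : ℝ) ^ 2 * ∑ k ∈ Ioo (R / d) (M / d + 1), ((k : ℝ) ^ 2)⁻¹ := by
        rw [mul_sum]
        apply sum_congr rfl
        intro k _
        push_cast
        rw [mul_pow, ← one_div, div_mul_div_comm, one_mul]
    _ ≤ 1 / (d : ℝ) ^ 2 * (2 / (((R / d : ℕ) : ℝ) + 1)) :=
        mul_le_mul_of_nonneg_left (sum_Ioo_inv_sq_le (R / d) (M / d + 1)) (by positivity)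
    _ ≤ 1 / (d : ℝ) ^ 2 * (2 / ((R : ℝ) / d)) := by
        apply mul_le_mul_of_nonneg_left _ (by positivity)
        apply div_le_div_of_nonneg_left (by norm_num) (by positivity)
        rw [div_le_iff₀ hd0]
        have h5 := (Nat.lt_mul_div_succ R hd).le
        have h6 : (R : ℝ) ≤ (d : ℝ) * ((R / d : ℕ) + 1 : ℝ) := by exact_mod_cast h5
        linarith
    _ = 2 / (d * R) := by field_simp

private theorem crR_ram (R M : ℕ) (hR : 1 ≤ R) (h : ℤ) (hh : h ≠ 0) :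
    ∑ r ∈ Ioc R M, 1 / (r : ℝ) ^ 2 * |ram r h| ≤ 2 * (tau h.natAbs : ℝ) / R := by
  have hR0 : (0 : ℝ) < R := by exact_mod_cast hR
  have hn : h.natAbs ≠ 0 := Int.natAbs_ne_zero.2 hh
  calc ∑ r ∈ Ioc R M, 1 / (r : ℝ) ^ 2 * |ram r h|
      ≤ ∑ r ∈ Ioc R M, 1 / (r : ℝ) ^ 2 *
          ∑ d ∈ h.natAbs.divisors, (if d ∣ r then (d : ℝ) else 0) := by
        apply sum_le_sum
        intro r hr
        rw [mem_Ioc] at hr
        apply mul_le_mul_of_nonneg_left _ (by positivity)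
        refine (ram_abs r h).trans ?_
        rw [← sum_filter]
        apply sum_le_sum_of_subset_of_nonneg
        · intro d hd
          rw [mem_filter, Nat.mem_divisors] at hd
          rw [mem_filter, Nat.mem_divisors]
          exact ⟨⟨Int.natCast_dvd.1 hd.2, hn⟩, hd.1.1⟩
        · intro _ _ _
          positivity
    _ = ∑ d ∈ h.natAbs.divisors, ∑ r ∈ Ioc R M, 1 / (r : ℝ) ^ 2 * (if d ∣ r then (d : ℝ) else 0) := by
        rw [sum_comm]
        apply sum_congr rfl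
        intro r _
        rw [mul_sum]
    _ ≤ ∑ d ∈ h.natAbs.divisors, 2 / (R : ℝ) := by
        apply sum_le_sum
        intro d hd
        have hd1 : 1 ≤ d := Nat.pos_of_mem_divisors hd
        have hd0 : (0 : ℝ) < d := by exact_mod_cast hd1
        have e : ∑ r ∈ Ioc R M, 1 / (r : ℝ) ^ 2 * (if d ∣ r then (d : ℝ) else 0) =
            (d : ℝ) * ∑ r ∈ (Ioc R M).filter (fun r => d ∣ r), 1 / (r : ℝ) ^ 2 := by
          rw [sum_filter, mul_sum]
          apply sum_congr rfl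
          intro r _
          split_ifs <;> ring
        rw [e]
        calc (d : ℝ) * ∑ r ∈ (Ioc R M).filter (fun r => d ∣ r), 1 / (r : ℝ) ^ 2
            ≤ d * (2 / (d * R)) := mul_le_mul_of_nonneg_left (crR_sq R M d hR hd1) hd0.le
          _ = 2 / R := by field_simp
    _ = 2 * (tau h.natAbs : ℝ) / R := by
        rw [sum_const, nsmul_eq_mul]
        unfold tau
        ring

theorem cross_ram (x Q R : ℕ) (hQ : 1 ≤ Q) (hR : 1 ≤ R) (c c' : ℕ → ℝ) (hc : ∀ q, |c q| ≤ 1)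
    (hc' : ∀ q, |c' q| ≤ 1) (h : ℤ) (hh : h ≠ 0) :
    |∑ q ∈ Ioc Q (2 * Q), ∑ q' ∈ Ioc Q (2 * Q), c q * c' q' * (Real.pi ^ 2 * x / (2 * q * q')) *
        ∑ r ∈ (Nat.gcd q q').divisors.filter (fun r => R < r), ram r h| ≤
      100 * x * (tau h.natAbs : ℝ) / R := by
  have hR0 : (0 : ℝ) < R := by exact_mod_cast hR
  set K : ℝ := Real.pi ^ 2 * x / 2 with hK
  have hK0 : 0 ≤ K := by positivity
  -- one term
  have hterm : ∀ q ∈ Ioc Q (2 * Q), ∀ q' ∈ Ioc Q (2 * Q),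
      |c q * c' q' * (Real.pi ^ 2 * x / (2 * q * q')) *
        ∑ r ∈ (Nat.gcd q q').divisors.filter (fun r => R < r), ram r h| ≤
      ∑ r ∈ Ioc R (2 * Q), (K * |ram r h|) *
        ((if r ∣ q then 1 / (q : ℝ) else 0) * (if r ∣ q' then 1 / (q' : ℝ) else 0)) := by
    intro q hq q' hq'
    rw [mem_Ioc] at hq hq'
    have hP : 0 ≤ Real.pi ^ 2 * x / (2 * (q : ℝ) * q') := by positivity
    have hcc : |c q * c' q'| ≤ 1 := by
      rw [abs_mul]
      exact mul_le_one₀ (hc q) (abs_nonneg _) (hc' q')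
    rw [abs_mul, abs_mul, abs_of_nonneg hP]
    have h1 : |∑ r ∈ (Nat.gcd q q').divisors.filter (fun r => R < r), ram r h| ≤
        ∑ r ∈ (Ioc R (2 * Q)).filter (fun r => r ∣ q ∧ r ∣ q'), |ram r h| := by
      refine (abs_sum_le_sum_abs _ _).trans ?_
      apply sum_le_sum_of_subset_of_nonneg
      · intro r hr
        rw [mem_filter, Nat.mem_divisors] at hr
        rw [mem_filter, mem_Ioc]
        have h2 : r ∣ q := hr.1.1.trans (Nat.gcd_dvd_left _ _)
        have h3 : r ∣ q' := hr.1.1.trans (Nat.gcd_dvd_right _ _)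
        have h4 : r ≤ q := Nat.le_of_dvd (by omega) h2
        exact ⟨⟨hr.2, by omega⟩, h2, h3⟩
      · intro _ _ _
        exact abs_nonneg _
    calc |c q * c' q'| * (Real.pi ^ 2 * x / (2 * (q : ℝ) * q')) *
          |∑ r ∈ (Nat.gcd q q').divisors.filter (fun r => R < r), ram r h|
        ≤ 1 * (Real.pi ^ 2 * x / (2 * (q : ℝ) * q')) *
          ∑ r ∈ (Ioc R (2 * Q)).filter (fun r => r ∣ q ∧ r ∣ q'), |ram r h| := by
          apply mul_le_mul _ h1 (abs_nonneg _) (by positivity)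
          exact mul_le_mul_of_nonneg_right hcc hP
      _ = ∑ r ∈ Ioc R (2 * Q), (K * |ram r h|) *
          ((if r ∣ q then 1 / (q : ℝ) else 0) * (if r ∣ q' then 1 / (q' : ℝ) else 0)) := by
          rw [one_mul, sum_filter, mul_sum]
          apply sum_congr rfl
          intro r _
          by_cases h2 : r ∣ q
          · by_cases h3 : r ∣ q'
            · rw [if_pos ⟨h2, h3⟩, if_pos h2, if_pos h3, hK]
              have hq0 : (q : ℝ) ≠ 0 := by
                have : 0 < q := by omega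
                positivity
              have hq0' : (q' : ℝ) ≠ 0 := by
                have : 0 < q' := by omega
                positivity
              field_simp
            · rw [if_neg (fun h => h3 h.2), if_neg h3, mul_zero, mul_zero, mul_zero]
          · rw [if_neg (fun h => h2 h.1), if_neg h2, mul_zero, zero_mul, mul_zero]
  -- sum
  have hsum : |∑ q ∈ Ioc Q (2 * Q), ∑ q' ∈ Ioc Q (2 * Q),
        c q * c' q' * (Real.pi ^ 2 * x / (2 * q * q')) *
        ∑ r ∈ (Nat.gcd q q').divisors.filter (fun r => R < r), ram r h| ≤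
      ∑ q ∈ Ioc Q (2 * Q), ∑ q' ∈ Ioc Q (2 * Q), ∑ r ∈ Ioc R (2 * Q), (K * |ram r h|) *
        ((if r ∣ q then 1 / (q : ℝ) else 0) * (if r ∣ q' then 1 / (q' : ℝ) else 0)) := by
    refine (abs_sum_le_sum_abs _ _).trans (sum_le_sum fun q hq => ?_)
    exact (abs_sum_le_sum_abs _ _).trans (sum_le_sum fun q' hq' => hterm q hq q' hq')
  refine hsum.trans ?_
  have hswap : ∑ q ∈ Ioc Q (2 * Q), ∑ q' ∈ Ioc Q (2 * Q), ∑ r ∈ Ioc R (2 * Q), (K * |ram r h|) *
        ((if r ∣ q then 1 / (q : ℝ) else 0) * (if r ∣ q' then 1 / (q' : ℝ) else 0)) =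
      ∑ r ∈ Ioc R (2 * Q), (K * |ram r h|) *
        ((∑ q ∈ (Ioc Q (2 * Q)).filter (fun q => r ∣ q), (1 : ℝ) / q) *
          (∑ q ∈ (Ioc Q (2 * Q)).filter (fun q => r ∣ q), (1 : ℝ) / q)) := by
    rw [sum_congr rfl fun q _ => sum_comm, sum_comm]
    apply sum_congr rfl
    intro r _
    rw [sum_filter, sum_mul_sum, mul_sum]
    apply sum_congr rfl
    intro q _
    rw [mul_sum]
  rw [hswap]
  calc ∑ r ∈ Ioc R (2 * Q), (K * |ram r h|) *
        ((∑ q ∈ (Ioc Q (2 * Q)).filter (fun q => r ∣ q), (1 : ℝ) / q) *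
          (∑ q ∈ (Ioc Q (2 * Q)).filter (fun q => r ∣ q), (1 : ℝ) / q))
      ≤ ∑ r ∈ Ioc R (2 * Q), (K * |ram r h|) * ((3 / r) * (3 / r)) := by
        apply sum_le_sum
        intro r hr
        rw [mem_Ioc] at hr
        have h1 := sum_inv_mult Q r hQ (by omega) hr.2
        have h2 : 0 ≤ ∑ q ∈ (Ioc Q (2 * Q)).filter (fun q => r ∣ q), (1 : ℝ) / q :=
          sum_nonneg fun _ _ => by positivity
        apply mul_le_mul_of_nonneg_left _ (by positivity)
        exact mul_le_mul h1 h1 h2 (by positivity)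
    _ = 9 * K * ∑ r ∈ Ioc R (2 * Q), 1 / (r : ℝ) ^ 2 * |ram r h| := by
        rw [mul_sum]
        apply sum_congr rfl
        intro r _
        ring
    _ ≤ 9 * K * (2 * (tau h.natAbs : ℝ) / R) :=
        mul_le_mul_of_nonneg_left (crR_ram R (2 * Q) hR h hh) (by positivity)
    _ = (9 * Real.pi ^ 2) * (x * (tau h.natAbs : ℝ) / R) := by
        rw [hK]; ring
    _ ≤ 100 * (x * (tau h.natAbs : ℝ) / R) := by
        apply mul_le_mul_of_nonneg_right _ (by positivity)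
        have h1 := Real.pi_lt_d2
        have h2 := Real.pi_pos
        nlinarith
    _ = 100 * x * (tau h.natAbs : ℝ) / R := by ring

end Pool.Agent.H80.KF
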