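import Pool.Agent.H80.KF.Defs

/-!
# Ramanujan sums

`ram_sum`: `∑_{r ∣ g} c_r(h) = ∑_{d ∣ g, d ∣ h} d ∑_{e ∣ g/d} μ(e) = g [g ∣ h]`.
`ram_gcd`: `d ↦ f((q,d))`, `f(e) = e [e ∣ h]`, equals `∑_{e ∣ d, e ∣ q} (μ * f)(e)`, so its Möbius
transform at `r` is `(μ * f)(r) = c_r(h)` if `r ∣ q` and `0` otherwise.
`ram_phi`: multiplicative in `r`; at `p^k`: `p/(p-1) - 1` for `k = 1`, `0` for `k ≥ 2`.
`sum_phi`: `q/φ(q) = ∏ (1 + 1/(p-1))`.
-/

set_option autoImplicit false

namespace Pool.Agent.H80.KF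

open Finset

/-- Moebius inversion with the sum over divisors -/
theorem ramb_inv {f g : ℕ → ℝ} :
    (∀ n : ℕ, 0 < n → ∑ i ∈ n.divisors, f i = g n) ↔
      ∀ n : ℕ, 0 < n → ∑ d ∈ n.divisors, (ArithmeticFunction.moebius (n / d) : ℝ) * g d = f n := by
  have h := ArithmeticFunction.sum_eq_iff_sum_mul_moebius_eq (f := f) (g := g)
  constructor
  · intro h1 n hn
    have h2 := h.1 h1 n hn
    rw [← h2]
    exact (Nat.sum_divisorsAntidiagonal'
      (fun a b => (ArithmeticFunction.moebius a : ℝ) * g b)).symm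
  · intro h1
    refine h.2 ?_
    intro n hn
    rw [← h1 n hn]
    exact Nat.sum_divisorsAntidiagonal'
      (fun a b => (ArithmeticFunction.moebius a : ℝ) * g b)

theorem ramb_eq (r : ℕ) (h : ℤ) :
    ram r h = ∑ d ∈ r.divisors, (ArithmeticFunction.moebius (r / d) : ℝ) *
      (if (d : ℤ) ∣ h then (d : ℝ) else 0) := by
  unfold ram
  rw [Finset.sum_filter]
  refine Finset.sum_congr rfl fun d _ => ?_
  by_cases hd : (d : ℤ) ∣ h
  · simp only [hd, if_true]; ring
  · simp only [hd, if_false]; ring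

theorem ram_sum (g : ℕ) (hg : 1 ≤ g) (h : ℤ) :
    ∑ r ∈ g.divisors, ram r h = if (g : ℤ) ∣ h then (g : ℝ) else 0 := by
  have key := (ramb_inv (f := fun r => ram r h)
    (g := fun d : ℕ => if (d : ℤ) ∣ h then (d : ℝ) else 0)).2
    (fun n _ => (ramb_eq n h).symm)
  exact key g hg

theorem ram_gcd (q r : ℕ) (hq : 1 ≤ q) (hr : 1 ≤ r) (h : ℤ) :
    ∑ d ∈ r.divisors, (ArithmeticFunction.moebius (r / d) : ℝ) *
        (if ((Nat.gcd q d : ℕ) : ℤ) ∣ h then ((Nat.gcd q d : ℕ) : ℝ) else 0) =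
      if r ∣ q then ram r h else 0 := by
  have key := (ramb_inv (f := fun r => if r ∣ q then ram r h else 0)
    (g := fun d : ℕ => if ((Nat.gcd q d : ℕ) : ℤ) ∣ h then ((Nat.gcd q d : ℕ) : ℝ) else 0)).1 ?_
  · exact key r hr
  · intro n hn
    have hg : 1 ≤ Nat.gcd q n := Nat.gcd_pos_of_pos_right q hn
    have h1 := ram_sum (Nat.gcd q n) hg h
    show ∑ i ∈ n.divisors, (if i ∣ q then ram i h else 0) = _
    rw [← h1, ← Finset.sum_filter]
    refine Finset.sum_congr ?_ fun _ _ => rfl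
    ext i
    simp only [Finset.mem_filter, Nat.mem_divisors]
    constructor
    · rintro ⟨⟨a, _⟩, c⟩
      exact ⟨Nat.dvd_gcd c a, by omega⟩
    · rintro ⟨a, _⟩
      exact ⟨⟨a.trans (Nat.gcd_dvd_right q n), by omega⟩, a.trans (Nat.gcd_dvd_left q n)⟩

theorem ram_abs (r : ℕ) (n : ℤ) :
    |ram r n| ≤ ∑ d ∈ r.divisors.filter (fun d : ℕ => (d : ℤ) ∣ n), (d : ℝ) := by
  unfold ram
  refine le_trans (Finset.abs_sum_le_sum_abs _ _) (Finset.sum_le_sum fun d _ => ?_)
  rw [abs_mul, Nat.abs_cast]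
  have h1 : |(ArithmeticFunction.moebius (r / d) : ℝ)| ≤ 1 := by
    have := @ArithmeticFunction.abs_moebius_le_one (r / d)
    exact_mod_cast this
  calc (d : ℝ) * |(ArithmeticFunction.moebius (r / d) : ℝ)| ≤ d * 1 :=
        mul_le_mul_of_nonneg_left h1 (Nat.cast_nonneg d)
    _ = d := mul_one _

theorem ram_at_zero (r : ℕ) : ram r 0 = (Nat.totient r : ℝ) := by
  rcases Nat.eq_zero_or_pos r with rfl | hr
  · simp [ram]
  · have key := (ramb_inv (f := fun r => (Nat.totient r : ℝ)) (g := fun d : ℕ => (d : ℝ))).1 ?_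
    · rw [ramb_eq]
      simp only [dvd_zero, if_true]
      exact key r hr
    · intro n hn
      show ∑ i ∈ n.divisors, (Nat.totient i : ℝ) = n
      exact_mod_cast Nat.sum_totient n

/-- `r ↦ μ(r)² / φ(r)` -/
noncomputable def rambA : ArithmeticFunction ℝ :=
  ⟨fun r => (ArithmeticFunction.moebius r : ℝ) ^ 2 / (Nat.totient r : ℝ), by simp⟩

/-- `q ↦ q / φ(q)` -/
noncomputable def rambB : ArithmeticFunction ℝ :=
  ⟨fun q => (q : ℝ) / (Nat.totient q : ℝ), by simp⟩

theorem rambA_mult : rambA.IsMultiplicative := by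
  constructor
  · simp [rambA]
  · intro m n hmn
    show (ArithmeticFunction.moebius (m * n) : ℝ) ^ 2 / (Nat.totient (m * n) : ℝ) =
      (ArithmeticFunction.moebius m : ℝ) ^ 2 / (Nat.totient m : ℝ) *
        ((ArithmeticFunction.moebius n : ℝ) ^ 2 / (Nat.totient n : ℝ))
    rw [ArithmeticFunction.isMultiplicative_moebius.map_mul_of_coprime hmn, Nat.totient_mul hmn]
    push_cast
    rw [mul_pow, mul_div_mul_comm]

theorem rambB_mult : rambB.IsMultiplicative := by
  constructor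
  · simp [rambB]
  · intro m n hmn
    show ((m * n : ℕ) : ℝ) / (Nat.totient (m * n) : ℝ) =
      (m : ℝ) / (Nat.totient m : ℝ) * ((n : ℝ) / (Nat.totient n : ℝ))
    rw [Nat.totient_mul hmn]
    push_cast
    rw [mul_div_mul_comm]

theorem rambA_zeta : rambA * (ArithmeticFunction.zeta : ArithmeticFunction ℝ) = rambB := by
  have hm : (rambA * (ArithmeticFunction.zeta : ArithmeticFunction ℝ)).IsMultiplicative :=
    rambA_mult.mul ArithmeticFunction.isMultiplicative_zeta.natCast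
  rw [ArithmeticFunction.IsMultiplicative.eq_iff_eq_on_prime_powers _ hm _ rambB_mult]
  intro p i hp
  rcases Nat.eq_zero_or_pos i with rfl | hi
  · rw [pow_zero, hm.1, rambB_mult.1]
  · rw [ArithmeticFunction.coe_mul_zeta_apply, Nat.sum_divisors_prime_pow hp]
    have h0 : rambA (p ^ 0) = 1 := by rw [pow_zero]; exact rambA_mult.1
    have h1 : rambA (p ^ 1) = 1 / ((p : ℝ) - 1) := by
      show (ArithmeticFunction.moebius (p ^ 1) : ℝ) ^ 2 / (Nat.totient (p ^ 1) : ℝ) = _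
      rw [pow_one, ArithmeticFunction.moebius_apply_prime hp, Nat.totient_prime hp,
        Nat.cast_sub hp.one_le]
      push_cast
      norm_num
    have h2 : ∀ k, 2 ≤ k → rambA (p ^ k) = 0 := by
      intro k hk
      show (ArithmeticFunction.moebius (p ^ k) : ℝ) ^ 2 / (Nat.totient (p ^ k) : ℝ) = 0
      rw [ArithmeticFunction.moebius_apply_prime_pow hp (by omega), if_neg (by omega)]
      simp
    obtain ⟨j, rfl⟩ : ∃ j, i = j + 1 := ⟨i - 1, by omega⟩
    have e : ∑ k ∈ range (j + 1 + 1), rambA (p ^ k) = 1 + 1 / ((p : ℝ) - 1) := by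
      rw [Finset.sum_range_succ', Finset.sum_range_succ']
      rw [Finset.sum_eq_zero (fun k _ => h2 (k + 1 + 1) (by omega))]
      rw [h0, h1]
      ring
    rw [e]
    show _ = ((p ^ (j + 1) : ℕ) : ℝ) / (Nat.totient (p ^ (j + 1)) : ℝ)
    rw [Nat.totient_prime_pow hp (by omega)]
    have hp1 : (1 : ℝ) < p := by exact_mod_cast hp.one_lt
    have hp0 : (p : ℝ) - 1 ≠ 0 := by
      intro h'
      linarith
    have hp2 : (p : ℝ) ≠ 0 := by
      intro h'
      linarith
    rw [Nat.add_sub_cancel]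
    push_cast [Nat.cast_sub hp.one_le]
    field_simp
    ring

theorem sum_phi (q : ℕ) (hq : 1 ≤ q) :
    ∑ r ∈ q.divisors, (ArithmeticFunction.moebius r : ℝ) ^ 2 / (Nat.totient r : ℝ) =
      (q : ℝ) / (Nat.totient q : ℝ) := by
  have h : (rambA * (ArithmeticFunction.zeta : ArithmeticFunction ℝ)) q = rambB q := by
    rw [rambA_zeta]
  rw [ArithmeticFunction.coe_mul_zeta_apply] at h
  exact h

theorem ram_phi (r : ℕ) (hr : 1 ≤ r) :
    ∑ d ∈ r.divisors, (d : ℝ) * (ArithmeticFunction.moebius (r / d) : ℝ) / (Nat.totient d : ℝ) =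
      (ArithmeticFunction.moebius r : ℝ) ^ 2 / (Nat.totient r : ℝ) := by
  have key := (ramb_inv
    (f := fun r => (ArithmeticFunction.moebius r : ℝ) ^ 2 / (Nat.totient r : ℝ))
    (g := fun d : ℕ => (d : ℝ) / (Nat.totient d : ℝ))).1 (fun n hn => sum_phi n hn)
  rw [← key r hr]
  refine Finset.sum_congr rfl fun d _ => ?_
  ring

end Pool.Agent.H80.KF
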