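import Pool.Agent.H80.KF.FejB
import Pool.Agent.H80.KF.RamB

/-!
# The Gram matrix, exactly

Write `u = 1_{q ∣ n-a} - v`, `v = (1/q) ∑_{r ∣ q, r ≤ R} c_r(n-a)`,
`c_r(n-a) = ∑_{d ∣ r} d μ(r/d) 1_{d ∣ n-a}`, `h = a' - a`, `κ = π²x/2`.
* `⟨1, 1'⟩`: `n ≡ a (q)`, `n ≡ a' (q')` is empty unless `(q,q') ∣ h`, else `n ≡ n₀ mod [q,q']`:
  `(κ/[q,q']) fej` (`ww_class`).
* `⟨1, v'⟩`: `∑_{n ≡ a (q), n ≡ a' (d)} = [(q,d) ∣ h] κ/[q,d]` (`[q,d] ≤ qR ≤ 2x`), `1/[q,d] =
  (q,d)/(q d)`, so `⟨1,v'⟩ = (κ/(qq')) ∑_{r ∣ q', r ≤ R} ∑_{d ∣ r} μ(r/d) (q,d)[(q,d) ∣ h]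
  = (κ/(qq')) ∑_{r ∣ (q,q'), r ≤ R} c_r(h)` by `ram_gcd`.
* `⟨v, 1'⟩`: the same (`c_r(-h) = c_r(h)`).
* `⟨v, v'⟩`: `∑_{d ∣ r, d' ∣ r'} d d' μ μ [(d,d') ∣ h] κ/[d,d']` (`[d,d'] ≤ R² ≤ 2x`); the sum over
  `d'` is (`ram_gcd`) `1_{r' ∣ d} c_{r'}(h)`, then `∑_{r' ∣ d ∣ r} μ(r/d) = 1_{r = r'}`; again
  `(κ/(qq')) ∑_{r ∣ (q,q'), r ≤ R} c_r(h)`.
Total `⟨1,1'⟩ - (κ/(qq')) ∑_{r ∣ (q,q'), r ≤ R} c_r(h)`.
-/

set_option autoImplicit false

namespace Pool.Agent.H80.KF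

open Finset

/-- indicator of the class `a` modulo `d` -/
private noncomputable def gramI (d : ℕ) (a n : ℤ) : ℝ := if (d : ℤ) ∣ n - a then 1 else 0

/-- `g [g ∣ h]` -/
private noncomputable def gramG (h : ℤ) (g : ℕ) : ℝ := if (g : ℤ) ∣ h then (g : ℝ) else 0

private theorem gram_lcm_dvd (d d' : ℕ) (z : ℤ) :
    ((Nat.lcm d d' : ℕ) : ℤ) ∣ z ↔ ((d : ℤ) ∣ z ∧ (d' : ℤ) ∣ z) := by
  rw [Int.natCast_dvd, Int.natCast_dvd, Int.natCast_dvd, Nat.lcm_dvd_iff]

private theorem gram_prod (d d' : ℕ) (a a' n0 n : ℤ) (h0 : (d : ℤ) ∣ n0 - a)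
    (h0' : (d' : ℤ) ∣ n0 - a') :
    gramI d a n * gramI d' a' n = if ((Nat.lcm d d' : ℕ) : ℤ) ∣ n - n0 then 1 else 0 := by
  unfold gramI
  have e1 : (d : ℤ) ∣ n - a ↔ (d : ℤ) ∣ n - n0 := by
    constructor
    · intro h
      have := dvd_sub h h0
      simpa using this
    · intro h
      have := dvd_add h h0
      simpa using this
  have e2 : (d' : ℤ) ∣ n - a' ↔ (d' : ℤ) ∣ n - n0 := by
    constructor
    · intro h
      have := dvd_sub h h0'
      simpa using this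
    · intro h
      have := dvd_add h h0'
      simpa using this
  have e3 := gram_lcm_dvd d d' (n - n0)
  by_cases h1 : (d : ℤ) ∣ n - n0 <;> by_cases h2 : (d' : ℤ) ∣ n - n0
  · rw [if_pos (e1.2 h1), if_pos (e2.2 h2), if_pos (e3.2 ⟨h1, h2⟩)]; norm_num
  · rw [if_neg (fun h => h2 (e2.1 h)), if_neg (fun h => h2 (e3.1 h).2)]; norm_num
  · rw [if_neg (fun h => h1 (e1.1 h)), if_neg (fun h => h1 (e3.1 h).1)]; norm_num
  · rw [if_neg (fun h => h1 (e1.1 h)), if_neg (fun h => h1 (e3.1 h).1)]; norm_num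

private theorem gram_exists (d d' : ℕ) (a a' : ℤ)
    (h : ((Nat.gcd d d' : ℕ) : ℤ) ∣ a' - a) :
    ∃ n0 : ℤ, (d : ℤ) ∣ n0 - a ∧ (d' : ℤ) ∣ n0 - a' := by
  obtain ⟨k, hk⟩ := h
  have hb := Nat.gcd_eq_gcd_ab d d'
  refine ⟨a + d * Nat.gcdA d d' * k, ?_, ?_⟩
  · exact ⟨Nat.gcdA d d' * k, by ring⟩
  · refine ⟨-(Nat.gcdB d d' * k), ?_⟩
    have : a' = a + (d * Nat.gcdA d d' + d' * Nat.gcdB d d') * k := by
      rw [← hb, ← hk]; ring
    rw [this]; ring

private theorem gram_notexists (d d' : ℕ) (a a' n : ℤ)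
    (h : ¬ ((Nat.gcd d d' : ℕ) : ℤ) ∣ a' - a) :
    gramI d a n * gramI d' a' n = 0 := by
  unfold gramI
  by_cases h1 : (d : ℤ) ∣ n - a
  · by_cases h2 : (d' : ℤ) ∣ n - a'
    · exfalso
      apply h
      have g1 : ((Nat.gcd d d' : ℕ) : ℤ) ∣ (d : ℤ) := by
        exact_mod_cast Nat.gcd_dvd_left d d'
      have g2 : ((Nat.gcd d d' : ℕ) : ℤ) ∣ (d' : ℤ) := by
        exact_mod_cast Nat.gcd_dvd_right d d'
      have := dvd_sub (g1.trans h1) (g2.trans h2)
      have e : n - a - (n - a') = a' - a := by ring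
      rwa [e] at this
    · simp [h2]
  · simp [h1]

private theorem gram_J (x J d d' : ℕ) (hx : 1 ≤ x) (hJ : 1 ≤ J) (hd : 1 ≤ d) (hd' : 1 ≤ d')
    (hdiv : Nat.lcm d d' ∣ 2 * x * J) (hle : Nat.lcm d d' ≤ 2 * x) (a a' : ℤ) :
    ∑ n ∈ RW x J, ww x J n * (gramI d a n * gramI d' a' n) =
      Real.pi ^ 2 * x / (2 * d * d') * gramG (a' - a) (Nat.gcd d d') := by
  by_cases h : ((Nat.gcd d d' : ℕ) : ℤ) ∣ a' - a
  · obtain ⟨n0, h0, h0'⟩ := gram_exists d d' a a' h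
    have hl : 1 ≤ Nat.lcm d d' := Nat.lcm_pos hd hd'
    have h1 := ww_class_small x J (Nat.lcm d d') hx hJ hl hdiv hle n0
    rw [Finset.sum_filter] at h1
    have h2 : ∑ n ∈ RW x J, ww x J n * (gramI d a n * gramI d' a' n) =
        ∑ n ∈ RW x J, if ((Nat.lcm d d' : ℕ) : ℤ) ∣ n - n0 then ww x J n else 0 := by
      apply Finset.sum_congr rfl
      intro n _
      rw [gram_prod d d' a a' n0 n h0 h0']
      split_ifs <;> simp
    rw [h2, h1]
    unfold gramG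
    rw [if_pos h]
    have hmul : (Nat.gcd d d' : ℝ) * (Nat.lcm d d' : ℝ) = d * d' := by
      exact_mod_cast Nat.gcd_mul_lcm d d'
    have hl0 : (Nat.lcm d d' : ℝ) ≠ 0 := by positivity
    have hd0 : (d : ℝ) ≠ 0 := by positivity
    have hd0' : (d' : ℝ) ≠ 0 := by positivity
    rw [div_mul_eq_mul_div, div_eq_div_iff (by positivity) (by positivity)]
    have : Real.pi ^ 2 * x * (2 * d * d') = Real.pi ^ 2 * x * 2 * (d * d') := by ring
    rw [this, ← hmul]; ring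
  · have h2 : ∑ n ∈ RW x J, ww x J n * (gramI d a n * gramI d' a' n) = 0 := by
      apply Finset.sum_eq_zero
      intro n _
      rw [gram_notexists d d' a a' n h, mul_zero]
    rw [h2]; unfold gramG; rw [if_neg h, mul_zero]

private theorem gram_ram (r : ℕ) (n : ℤ) (a : ℤ) :
    ram r (n - a) = ∑ d ∈ r.divisors, (d : ℝ) * (ArithmeticFunction.moebius (r / d) : ℝ) *
      gramI d a n := by
  unfold ram gramI
  rw [Finset.sum_filter]
  apply Finset.sum_congr rfl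
  intro d _
  split_ifs <;> simp

private theorem gram_ramgcd (q r : ℕ) (hq : 1 ≤ q) (hr : 1 ≤ r) (h : ℤ) :
    ∑ d ∈ r.divisors, (ArithmeticFunction.moebius (r / d) : ℝ) * gramG h (Nat.gcd q d) =
      if r ∣ q then ram r h else 0 := ram_gcd q r hq hr h

private theorem gram_mu (r r' : ℕ) (hr : 1 ≤ r) (hr' : 1 ≤ r') :
    ∑ d ∈ r.divisors, (ArithmeticFunction.moebius (r / d) : ℝ) * (if r' ∣ d then (1 : ℝ) else 0) =
      if r = r' then 1 else 0 := by
  by_cases h : r' ∣ r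
  · obtain ⟨t, rfl⟩ := h
    have ht : 1 ≤ t := by
      rcases Nat.eq_zero_or_pos t with h0 | h0
      · subst h0; simp at hr
      · exact h0
    have e1 : ∑ d ∈ (r' * t).divisors, (ArithmeticFunction.moebius (r' * t / d) : ℝ) *
        (if r' ∣ d then (1 : ℝ) else 0) =
        ∑ s ∈ t.divisors, (ArithmeticFunction.moebius (t / s) : ℝ) := by
      have e2 : ∑ d ∈ (r' * t).divisors, (ArithmeticFunction.moebius (r' * t / d) : ℝ) *
        (if r' ∣ d then (1 : ℝ) else 0) = ∑ d ∈ (r' * t).divisors.filter (fun d => r' ∣ d),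
          (ArithmeticFunction.moebius (r' * t / d) : ℝ) := by
        rw [Finset.sum_filter]
        apply Finset.sum_congr rfl
        intro d _
        split_ifs <;> simp
      rw [e2]
      symm
      apply Finset.sum_nbij' (fun s => r' * s) (fun d => d / r')
      · intro s hs
        rw [Nat.mem_divisors] at hs
        rw [Finset.mem_filter, Nat.mem_divisors]
        exact ⟨⟨Nat.mul_dvd_mul_left r' hs.1, by positivity⟩, Dvd.intro s rfl⟩
      · intro d hd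
        rw [Finset.mem_filter, Nat.mem_divisors] at hd
        obtain ⟨⟨hd1, _⟩, ⟨s, rfl⟩⟩ := hd
        have hs : s ∣ t := Nat.dvd_of_mul_dvd_mul_left hr' hd1
        rw [Nat.mul_div_cancel_left s hr', Nat.mem_divisors]
        exact ⟨hs, by omega⟩
      · intro s _
        exact Nat.mul_div_cancel_left s hr'
      · intro d hd
        rw [Finset.mem_filter] at hd
        exact Nat.mul_div_cancel' hd.2
      · intro s _
        rw [Nat.mul_div_mul_left _ _ hr']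
    rw [e1]
    have e3 : ∑ s ∈ t.divisors, (ArithmeticFunction.moebius (t / s) : ℝ) =
        ∑ s ∈ t.divisors, (ArithmeticFunction.moebius s : ℝ) :=
      Nat.sum_div_divisors t (fun s => (ArithmeticFunction.moebius s : ℝ))
    rw [e3]
    have e4 : ∑ s ∈ t.divisors, (ArithmeticFunction.moebius s : ℤ) = if t = 1 then 1 else 0 := by
      rw [← ArithmeticFunction.coe_mul_zeta_apply, ArithmeticFunction.moebius_mul_coe_zeta,
        ArithmeticFunction.one_apply]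
    have e5 : ∑ s ∈ t.divisors, (ArithmeticFunction.moebius s : ℝ) =
        ((∑ s ∈ t.divisors, (ArithmeticFunction.moebius s : ℤ) : ℤ) : ℝ) := by push_cast; rfl
    rw [e5, e4]
    by_cases ht1 : t = 1
    · subst ht1; simp
    · have : ¬ (r' * t = r') := by
        intro hc
        apply ht1
        have : r' * t = r' * 1 := by rw [hc, mul_one]
        exact Nat.eq_of_mul_eq_mul_left hr' this
      simp [ht1, this]
  · have e0 : ∑ d ∈ r.divisors, (ArithmeticFunction.moebius (r / d) : ℝ) *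
        (if r' ∣ d then (1 : ℝ) else 0) = 0 := by
      apply Finset.sum_eq_zero
      intro d hd
      rw [Nat.mem_divisors] at hd
      have : ¬ r' ∣ d := fun hc => h (hc.trans hd.1)
      simp [this]
    rw [e0, if_neg]
    rintro rfl
    exact h dvd_rfl

/-- the low part -/
private noncomputable def gramV (R q : ℕ) (a n : ℤ) : ℝ :=
  (1 / (q : ℝ)) * ∑ r ∈ q.divisors.filter (fun r => r ≤ R), ram r (n - a)

private theorem gramV_eq (R q : ℕ) (a n : ℤ) :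
    gramV R q a n = ∑ r ∈ q.divisors.filter (fun r => r ≤ R), ∑ d ∈ r.divisors,
      (1 / (q : ℝ)) * ((d : ℝ) * (ArithmeticFunction.moebius (r / d) : ℝ)) * gramI d a n := by
  unfold gramV
  rw [Finset.mul_sum]
  apply Finset.sum_congr rfl
  intro r _
  rw [gram_ram, Finset.mul_sum]
  apply Finset.sum_congr rfl
  intro d _
  ring

private theorem gram_uu (R q : ℕ) (a n : ℤ) : uu R q a n = gramI q a n - gramV R q a n := rfl

/-- the common value -/
private noncomputable def gramS (x R q q' : ℕ) (h : ℤ) : ℝ :=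
  Real.pi ^ 2 * x / (2 * q * q') *
    ∑ r ∈ (Nat.gcd q q').divisors.filter (fun r => r ≤ R), ram r h

private theorem gramS_alt (x R q q' : ℕ) (hq : 1 ≤ q) (hq' : 1 ≤ q') (h : ℤ) :
    gramS x R q q' h = Real.pi ^ 2 * x / (2 * q * q') *
      ∑ r ∈ q'.divisors.filter (fun r => r ≤ R), (if r ∣ q then ram r h else 0) := by
  unfold gramS
  congr 1
  rw [← Finset.sum_filter, Finset.filter_filter]
  apply Finset.sum_congr _ (fun _ _ => rfl)
  ext r
  rw [Finset.mem_filter, Finset.mem_filter, Nat.mem_divisors, Nat.mem_divisors]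
  constructor
  · rintro ⟨⟨h1, h2⟩, h3⟩
    exact ⟨⟨h1.trans (Nat.gcd_dvd_right q q'), by omega⟩, h3, h1.trans (Nat.gcd_dvd_left q q')⟩
  · rintro ⟨⟨h1, h2⟩, h3, h4⟩
    refine ⟨⟨Nat.dvd_gcd h4 h1, ?_⟩, h3⟩
    intro hc
    rw [Nat.gcd_eq_zero_iff] at hc
    omega

private theorem gramS_comm (x R q q' : ℕ) (h : ℤ) : gramS x R q q' h = gramS x R q' q h := by
  unfold gramS
  rw [Nat.gcd_comm]
  congr 2
  ring

/-- `⟨1, v'⟩` -/
private theorem gram_1v (x J R q q' : ℕ) (hx : 1 ≤ x) (hJ : 1 ≤ J) (hq : 1 ≤ q) (hq' : 1 ≤ q')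
    (hdiv : ∀ m, 1 ≤ m → m ≤ q * q' → m ∣ 2 * x * J) (h1 : q * R ≤ 2 * x) (a a' : ℤ) :
    ∑ n ∈ RW x J, ww x J n * (gramI q a n * gramV R q' a' n) = gramS x R q q' (a' - a) := by
  have e1 : ∑ n ∈ RW x J, ww x J n * (gramI q a n * gramV R q' a' n) =
      ∑ r ∈ q'.divisors.filter (fun r => r ≤ R), ∑ d ∈ r.divisors,
        (1 / (q' : ℝ)) * ((d : ℝ) * (ArithmeticFunction.moebius (r / d) : ℝ)) *
          ∑ n ∈ RW x J, ww x J n * (gramI q a n * gramI d a' n) := by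
    have : ∀ n ∈ RW x J, ww x J n * (gramI q a n * gramV R q' a' n) =
        ∑ r ∈ q'.divisors.filter (fun r => r ≤ R), ∑ d ∈ r.divisors,
        (1 / (q' : ℝ)) * ((d : ℝ) * (ArithmeticFunction.moebius (r / d) : ℝ)) *
          (ww x J n * (gramI q a n * gramI d a' n)) := by
      intro n _
      rw [gramV_eq, Finset.mul_sum, Finset.mul_sum]
      apply Finset.sum_congr rfl
      intro r _
      rw [Finset.mul_sum, Finset.mul_sum]
      apply Finset.sum_congr rfl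
      intro d _
      ring
    rw [Finset.sum_congr rfl this, Finset.sum_comm]
    apply Finset.sum_congr rfl
    intro r _
    rw [Finset.sum_comm]
    apply Finset.sum_congr rfl
    intro d _
    rw [Finset.mul_sum]
  rw [e1, gramS_alt x R q q' hq hq', Finset.mul_sum]
  apply Finset.sum_congr rfl
  intro r hr
  rw [Finset.mem_filter, Nat.mem_divisors] at hr
  obtain ⟨⟨hr1, _⟩, hrR⟩ := hr
  have hr0 : 1 ≤ r := Nat.pos_of_dvd_of_pos hr1 hq'
  rw [← gram_ramgcd q r hq hr0, Finset.mul_sum]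
  apply Finset.sum_congr rfl
  intro d hd
  rw [Nat.mem_divisors] at hd
  have hd0 : 1 ≤ d := Nat.pos_of_dvd_of_pos hd.1 hr0
  have hdr : d ≤ r := Nat.le_of_dvd hr0 hd.1
  have hdq : d ≤ q' := hdr.trans (Nat.le_of_dvd hq' hr1)
  have hl : Nat.lcm q d ≤ q * d := Nat.lcm_le_mul hq hd0
  have hl1 : Nat.lcm q d ≤ 2 * x := hl.trans ((Nat.mul_le_mul_left q (hdr.trans hrR)).trans h1)
  have hl2 : Nat.lcm q d ∣ 2 * x * J :=
    hdiv _ (Nat.lcm_pos hq hd0) (hl.trans (Nat.mul_le_mul_left q hdq))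
  rw [gram_J x J q d hx hJ hq hd0 hl2 hl1]
  have hq0 : (q : ℝ) ≠ 0 := by positivity
  have hq0' : (q' : ℝ) ≠ 0 := by positivity
  have hd0' : (d : ℝ) ≠ 0 := by positivity
  field_simp

/-- `⟨v, v'⟩` -/
private theorem gram_vv (x J R q q' : ℕ) (hx : 1 ≤ x) (hJ : 1 ≤ J) (hq : 1 ≤ q) (hq' : 1 ≤ q')
    (hdiv : ∀ m, 1 ≤ m → m ≤ q * q' → m ∣ 2 * x * J) (h3 : R * R ≤ 2 * x) (a a' : ℤ) :
    ∑ n ∈ RW x J, ww x J n * (gramV R q a n * gramV R q' a' n) = gramS x R q q' (a' - a) := by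
  have e1 : ∑ n ∈ RW x J, ww x J n * (gramV R q a n * gramV R q' a' n) =
      ∑ r ∈ q.divisors.filter (fun r => r ≤ R), ∑ d ∈ r.divisors,
        (1 / (q : ℝ)) * ((d : ℝ) * (ArithmeticFunction.moebius (r / d) : ℝ)) *
          ∑ n ∈ RW x J, ww x J n * (gramI d a n * gramV R q' a' n) := by
    have : ∀ n ∈ RW x J, ww x J n * (gramV R q a n * gramV R q' a' n) =
        ∑ r ∈ q.divisors.filter (fun r => r ≤ R), ∑ d ∈ r.divisors,
        (1 / (q : ℝ)) * ((d : ℝ) * (ArithmeticFunction.moebius (r / d) : ℝ)) *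
          (ww x J n * (gramI d a n * gramV R q' a' n)) := by
      intro n _
      rw [gramV_eq R q a n, Finset.sum_mul, Finset.mul_sum]
      apply Finset.sum_congr rfl
      intro r _
      rw [Finset.sum_mul, Finset.mul_sum]
      apply Finset.sum_congr rfl
      intro d _
      ring
    rw [Finset.sum_congr rfl this, Finset.sum_comm]
    apply Finset.sum_congr rfl
    intro r _
    rw [Finset.sum_comm]
    apply Finset.sum_congr rfl
    intro d _
    rw [Finset.mul_sum]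
  have e2 : ∀ r ∈ q.divisors.filter (fun r => r ≤ R), ∀ d ∈ r.divisors,
      ∑ n ∈ RW x J, ww x J n * (gramI d a n * gramV R q' a' n) =
        Real.pi ^ 2 * x / (2 * d * q') *
          ∑ r' ∈ q'.divisors.filter (fun r' => r' ≤ R), (if r' ∣ d then ram r' (a' - a) else 0) := by
    intro r hr d hd
    rw [Finset.mem_filter, Nat.mem_divisors] at hr
    obtain ⟨⟨hr1, _⟩, hrR⟩ := hr
    have hr0 : 1 ≤ r := Nat.pos_of_dvd_of_pos hr1 hq
    rw [Nat.mem_divisors] at hd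
    have hd0 : 1 ≤ d := Nat.pos_of_dvd_of_pos hd.1 hr0
    have hdr : d ≤ r := Nat.le_of_dvd hr0 hd.1
    have hdq : d ≤ q := hdr.trans (Nat.le_of_dvd hq hr1)
    rw [gram_1v x J R d q' hx hJ hd0 hq'
      (fun m hm hm' => hdiv m hm (hm'.trans (Nat.mul_le_mul_right q' hdq)))
      ((Nat.mul_le_mul_right R (hdr.trans hrR)).trans h3) a a',
      gramS_alt x R d q' hd0 hq']
  rw [e1, Finset.sum_congr rfl (fun r hr => Finset.sum_congr rfl (fun d hd => by
    rw [e2 r hr d hd]))]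
  have e3 : ∀ r ∈ q.divisors.filter (fun r => r ≤ R), ∑ d ∈ r.divisors,
      (1 / (q : ℝ)) * ((d : ℝ) * (ArithmeticFunction.moebius (r / d) : ℝ)) *
        (Real.pi ^ 2 * x / (2 * d * q') *
          ∑ r' ∈ q'.divisors.filter (fun r' => r' ≤ R), (if r' ∣ d then ram r' (a' - a) else 0)) =
      Real.pi ^ 2 * x / (2 * q * q') * (if r ∣ q' then ram r (a' - a) else 0) := by
    intro r hr
    rw [Finset.mem_filter, Nat.mem_divisors] at hr
    obtain ⟨⟨hr1, _⟩, hrR⟩ := hr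
    have hr0 : 1 ≤ r := Nat.pos_of_dvd_of_pos hr1 hq
    have f1 : ∀ d ∈ r.divisors, (1 / (q : ℝ)) * ((d : ℝ) *
        (ArithmeticFunction.moebius (r / d) : ℝ)) * (Real.pi ^ 2 * x / (2 * d * q') *
          ∑ r' ∈ q'.divisors.filter (fun r' => r' ≤ R), (if r' ∣ d then ram r' (a' - a) else 0)) =
        ∑ r' ∈ q'.divisors.filter (fun r' => r' ≤ R), Real.pi ^ 2 * x / (2 * q * q') *
          ram r' (a' - a) * ((ArithmeticFunction.moebius (r / d) : ℝ) *
            (if r' ∣ d then (1 : ℝ) else 0)) := by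
      intro d hd
      rw [Nat.mem_divisors] at hd
      have hd0 : 1 ≤ d := Nat.pos_of_dvd_of_pos hd.1 hr0
      rw [Finset.mul_sum, Finset.mul_sum]
      apply Finset.sum_congr rfl
      intro r' _
      have hq0 : (q : ℝ) ≠ 0 := by positivity
      have hq0' : (q' : ℝ) ≠ 0 := by positivity
      have hd0' : (d : ℝ) ≠ 0 := by positivity
      split_ifs
      · field_simp
      · simp
    rw [Finset.sum_congr rfl f1, Finset.sum_comm]
    have f2 : ∀ r' ∈ q'.divisors.filter (fun r' => r' ≤ R), ∑ d ∈ r.divisors,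
        Real.pi ^ 2 * x / (2 * q * q') * ram r' (a' - a) *
          ((ArithmeticFunction.moebius (r / d) : ℝ) * (if r' ∣ d then (1 : ℝ) else 0)) =
        if r = r' then Real.pi ^ 2 * x / (2 * q * q') * ram r' (a' - a) else 0 := by
      intro r' hr'
      rw [Finset.mem_filter, Nat.mem_divisors] at hr'
      have hr0' : 1 ≤ r' := Nat.pos_of_dvd_of_pos hr'.1.1 hq'
      rw [← Finset.mul_sum, gram_mu r r' hr0 hr0']
      split_ifs <;> simp
    rw [Finset.sum_congr rfl f2, Finset.sum_ite_eq]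
    have f3 : r ∈ q'.divisors.filter (fun r' => r' ≤ R) ↔ r ∣ q' := by
      rw [Finset.mem_filter, Nat.mem_divisors]
      constructor
      · exact fun h => h.1.1
      · exact fun h => ⟨⟨h, by omega⟩, hrR⟩
    by_cases hrq : r ∣ q'
    · rw [if_pos (f3.2 hrq), if_pos hrq]
    · rw [if_neg (fun h => hrq (f3.1 h)), if_neg hrq, mul_zero]
  rw [Finset.sum_congr rfl e3, ← Finset.mul_sum, gramS_comm, gramS_alt x R q' q hq' hq]
  congr 1
  ring

private theorem gram_total (x J R q q' : ℕ) (hx : 1 ≤ x) (hJ : 1 ≤ J) (hq : 1 ≤ q) (hq' : 1 ≤ q')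
    (hdiv : ∀ m, 1 ≤ m → m ≤ q * q' → m ∣ 2 * x * J) (h1 : q * R ≤ 2 * x) (h2 : q' * R ≤ 2 * x)
    (h3 : R * R ≤ 2 * x) (a a' : ℤ) :
    ∑ n ∈ RW x J, ww x J n * uu R q a n * uu R q' a' n =
      ∑ n ∈ RW x J, ww x J n * (gramI q a n * gramI q' a' n) - gramS x R q q' (a' - a) := by
  have e1 := gram_1v x J R q q' hx hJ hq hq' hdiv h1 a a'
  have e2 := gram_1v x J R q' q hx hJ hq' hq
    (fun m hm hm' => hdiv m hm (by rwa [Nat.mul_comm])) h2 a' a
  have e3 := gram_vv x J R q q' hx hJ hq hq' hdiv h3 a a'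
  have e4 : gramS x R q' q (a - a') = gramS x R q q' (a' - a) := by
    rw [gramS_comm]
    unfold gramS
    congr 1
    apply Finset.sum_congr rfl
    intro r _
    unfold ram
    have : ∀ d : ℕ, ((d : ℤ) ∣ a - a') ↔ ((d : ℤ) ∣ a' - a) := by
      intro d
      rw [← dvd_neg, neg_sub]
    simp only [this]
  rw [e4] at e2
  have e5 : ∑ n ∈ RW x J, ww x J n * uu R q a n * uu R q' a' n =
      ∑ n ∈ RW x J, ww x J n * (gramI q a n * gramI q' a' n)
      - ∑ n ∈ RW x J, ww x J n * (gramI q a n * gramV R q' a' n)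
      - ∑ n ∈ RW x J, ww x J n * (gramI q' a' n * gramV R q a n)
      + ∑ n ∈ RW x J, ww x J n * (gramV R q a n * gramV R q' a' n) := by
    rw [← Finset.sum_sub_distrib, ← Finset.sum_sub_distrib, ← Finset.sum_add_distrib]
    apply Finset.sum_congr rfl
    intro n _
    rw [gram_uu, gram_uu]
    ring
  rw [e5, e1, e2, e3]
  ring

theorem gram_in (x J R q q' : ℕ) (hx : 1 ≤ x) (hJ : 1 ≤ J) (hq : 1 ≤ q) (hq' : 1 ≤ q')
    (hdiv : ∀ m, 1 ≤ m → m ≤ q * q' → m ∣ 2 * x * J) (h1 : q * R ≤ 2 * x) (h2 : q' * R ≤ 2 * x)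
    (h3 : R * R ≤ 2 * x) (a a' n0 : ℤ) (hn : (q : ℤ) ∣ n0 - a) (hn' : (q' : ℤ) ∣ n0 - a') :
    ((∑ n ∈ RW x J, ww x J n * uu R q a n * uu R q' a' n : ℝ) : ℂ) =
      ((Real.pi ^ 2 * x / (2 * (Nat.lcm q q' : ℕ)) : ℝ) : ℂ) * fej x (Nat.lcm q q') n0 -
        ((Real.pi ^ 2 * x / (2 * q * q') *
          ∑ r ∈ (Nat.gcd q q').divisors.filter (fun r => r ≤ R), ram r (a' - a) : ℝ) : ℂ) := by
  rw [gram_total x J R q q' hx hJ hq hq' hdiv h1 h2 h3 a a']
  have hl : 1 ≤ Nat.lcm q q' := Nat.lcm_pos hq hq'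
  have e1 := ww_class x J (Nat.lcm q q') hx hJ hl (hdiv _ hl (Nat.lcm_le_mul hq hq')) n0
  have e2 : ∑ n ∈ RW x J, ww x J n * (gramI q a n * gramI q' a' n) =
      ∑ n ∈ (RW x J).filter (fun n => ((Nat.lcm q q' : ℕ) : ℤ) ∣ n - n0), ww x J n := by
    rw [Finset.sum_filter]
    apply Finset.sum_congr rfl
    intro n _
    rw [gram_prod q q' a a' n0 n hn hn']
    split_ifs <;> simp
  rw [e2, Complex.ofReal_sub, e1]
  rfl

theorem gram_out (x J R q q' : ℕ) (hx : 1 ≤ x) (hJ : 1 ≤ J) (hq : 1 ≤ q) (hq' : 1 ≤ q')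
    (hdiv : ∀ m, 1 ≤ m → m ≤ q * q' → m ∣ 2 * x * J) (h1 : q * R ≤ 2 * x) (h2 : q' * R ≤ 2 * x)
    (h3 : R * R ≤ 2 * x) (a a' : ℤ) (h : ¬ ((Nat.gcd q q' : ℕ) : ℤ) ∣ a' - a) :
    ∑ n ∈ RW x J, ww x J n * uu R q a n * uu R q' a' n =
      -(Real.pi ^ 2 * x / (2 * q * q') *
          ∑ r ∈ (Nat.gcd q q').divisors.filter (fun r => r ≤ R), ram r (a' - a)) := by
  rw [gram_total x J R q q' hx hJ hq hq' hdiv h1 h2 h3 a a']
  have e2 : ∑ n ∈ RW x J, ww x J n * (gramI q a n * gramI q' a' n) = 0 := by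
    apply Finset.sum_eq_zero
    intro n _
    rw [gram_notexists q q' a a' n h, mul_zero]
  rw [e2]
  unfold gramS
  ring

end Pool.Agent.H80.KF
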