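import Pool.Agent.H80.KF.StrA
import Pool.Agent.H80.KF.CrR

/-!
# The structured part: denominators at most `R`

`d ∣ r ∣ q` and `(a,q) = 1` give `(a,d) = 1`, so the sum is
`≤ ∑_{r ≤ R, r ≤ 2Q} ∑_{d ∣ r, (a,d)=1} d |err x d a| ∑_{q ∈ (Q,2Q], r ∣ q} 1/q
≤ 3 ∑_{r ≤ R} (1/r) ∑_{d ∣ r, (a,d)=1} d |err x d a| ≤ 3 ∑_{d ≤ R, (a,d)=1} |err x d a| ∑_{k ≤ R/d} 1/k`.
-/

set_option autoImplicit false

namespace Pool.Agent.H80.KF

open Finset
open Pool.Agent.H91.EHA (err)

private theorem strB_harm (R : ℕ) : ∑ k ∈ Icc 1 R, (1 : ℝ) / k ≤ 1 + Real.log R := by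
  have h := harmonic_le_one_add_log R
  rw [harmonic_eq_sum_Icc] at h
  push_cast at h
  simpa [one_div] using h

private theorem strB_mult (R d : ℕ) (hd : 1 ≤ d) :
    ∑ r ∈ (Icc 1 R).filter (fun r => d ∣ r), (d : ℝ) / r ≤ 1 + Real.log R := by
  have h1 : ∑ r ∈ (Icc 1 R).filter (fun r => d ∣ r), (d : ℝ) / r =
      ∑ k ∈ ((Icc 1 R).filter (fun r => d ∣ r)).image (fun r => r / d), (1 : ℝ) / k := by
    rw [Finset.sum_image]
    · refine Finset.sum_congr rfl fun r hr => ?_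
      rw [mem_filter, mem_Icc] at hr
      obtain ⟨k, rfl⟩ := hr.2
      rw [Nat.mul_div_cancel_left k (by omega)]
      have hk : (k : ℝ) ≠ 0 := by
        have : k ≠ 0 := by
          rintro rfl
          simp at hr
        exact_mod_cast this
      have hd' : (d : ℝ) ≠ 0 := by
        have : d ≠ 0 := by omega
        exact_mod_cast this
      push_cast
      field_simp
    · intro r hr s hs hrs
      rw [Finset.mem_coe, mem_filter] at hr hs
      have h2 : r / d = s / d := hrs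
      rw [← Nat.div_mul_cancel hr.2, ← Nat.div_mul_cancel hs.2, h2]
  rw [h1]
  refine le_trans ?_ (strB_harm R)
  apply Finset.sum_le_sum_of_subset_of_nonneg
  · intro k hk
    rw [mem_image] at hk
    obtain ⟨r, hr, rfl⟩ := hk
    rw [mem_filter, mem_Icc] at hr
    rw [mem_Icc]
    refine ⟨Nat.div_pos (Nat.le_of_dvd (by omega) hr.2) (by omega), (Nat.div_le_self _ _).trans hr.1.2⟩
  · intro k _ _
    positivity

theorem str_main (x Q R : ℕ) (hQ : 1 ≤ Q) (hR : 1 ≤ R) (a : ℤ) :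
    ∑ q ∈ (Ioc Q (2 * Q)).filter (fun q : ℕ => IsCoprime a (q : ℤ)),
        (1 / (q : ℝ)) * ∑ r ∈ q.divisors.filter (fun r => r ≤ R), ∑ d ∈ r.divisors,
          (d : ℝ) * |err x d (a : ZMod d)| ≤
      3 * (1 + Real.log R) *
        ∑ d ∈ (Icc 1 R).filter (fun d : ℕ => IsCoprime a (d : ℤ)), |err x d (a : ZMod d)| := by
  classical
  set E : ℕ → ℝ := fun d => |err x d (a : ZMod d)| with hE
  have hE0 : ∀ d, 0 ≤ E d := fun d => abs_nonneg _
  set G : ℕ → ℝ := fun r => ∑ d ∈ r.divisors.filter (fun d : ℕ => IsCoprime a (d : ℤ)),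
    (d : ℝ) * E d with hG
  have hG0 : ∀ r, 0 ≤ G r := fun r => Finset.sum_nonneg fun d _ =>
    mul_nonneg (Nat.cast_nonneg d) (hE0 d)
  -- step A
  have hA : ∑ q ∈ (Ioc Q (2 * Q)).filter (fun q : ℕ => IsCoprime a (q : ℤ)),
        (1 / (q : ℝ)) * ∑ r ∈ q.divisors.filter (fun r => r ≤ R), ∑ d ∈ r.divisors,
          (d : ℝ) * |err x d (a : ZMod d)| ≤
      ∑ q ∈ Ioc Q (2 * Q), ∑ r ∈ Icc 1 R, if r ∣ q then (1 / (q : ℝ)) * G r else 0 := by
    have h1 : ∀ q ∈ (Ioc Q (2 * Q)).filter (fun q : ℕ => IsCoprime a (q : ℤ)),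
        (1 / (q : ℝ)) * ∑ r ∈ q.divisors.filter (fun r => r ≤ R), ∑ d ∈ r.divisors,
          (d : ℝ) * |err x d (a : ZMod d)| =
        ∑ r ∈ Icc 1 R, if r ∣ q then (1 / (q : ℝ)) * G r else 0 := by
      intro q hq
      rw [mem_filter, mem_Ioc] at hq
      rw [← Finset.sum_filter, Finset.mul_sum]
      have hset : q.divisors.filter (fun r => r ≤ R) = (Icc 1 R).filter (fun r => r ∣ q) := by
        ext r
        simp only [mem_filter, Nat.mem_divisors, mem_Icc]
        constructor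
        · rintro ⟨⟨h2, h3⟩, h4⟩
          exact ⟨⟨Nat.pos_of_dvd_of_pos h2 (by omega), h4⟩, h2⟩
        · rintro ⟨⟨_, h4⟩, h2⟩
          exact ⟨⟨h2, by omega⟩, h4⟩
      rw [hset]
      refine Finset.sum_congr rfl fun r hr => ?_
      rw [mem_filter] at hr
      congr 1
      rw [hG]
      show ∑ d ∈ r.divisors, (d : ℝ) * |err x d (a : ZMod d)| =
        ∑ d ∈ r.divisors.filter (fun d : ℕ => IsCoprime a (d : ℤ)), (d : ℝ) * E d
      rw [Finset.filter_true_of_mem]
      intro d hd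
      have hdq : (d : ℤ) ∣ (q : ℤ) := by
        exact_mod_cast (Nat.dvd_of_mem_divisors hd).trans hr.2
      exact hq.2.of_isCoprime_of_dvd_right hdq
    rw [Finset.sum_congr rfl h1]
    apply Finset.sum_le_sum_of_subset_of_nonneg (Finset.filter_subset _ _)
    intro q _ _
    refine Finset.sum_nonneg fun r _ => ?_
    split_ifs
    · exact mul_nonneg (by positivity) (hG0 r)
    · exact le_rfl
  -- step B
  have hB : ∑ q ∈ Ioc Q (2 * Q), ∑ r ∈ Icc 1 R, (if r ∣ q then (1 / (q : ℝ)) * G r else 0) ≤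
      ∑ r ∈ Icc 1 R, G r * (3 / r) := by
    rw [Finset.sum_comm]
    refine Finset.sum_le_sum fun r hr => ?_
    rw [mem_Icc] at hr
    rw [← Finset.sum_filter, ← Finset.sum_mul, mul_comm (∑ i ∈ _, _)]
    apply mul_le_mul_of_nonneg_left _ (hG0 r)
    rcases le_or_gt r (2 * Q) with h | h
    · exact sum_inv_mult Q r hQ hr.1 h
    · rw [Finset.sum_eq_zero]
      · positivity
      · intro q hq
        exfalso
        rw [mem_filter, mem_Ioc] at hq
        have := Nat.le_of_dvd (by omega) hq.2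
        omega
  -- step C
  have hC : ∑ r ∈ Icc 1 R, G r * (3 / r) =
      3 * ∑ d ∈ (Icc 1 R).filter (fun d : ℕ => IsCoprime a (d : ℤ)),
        E d * ∑ r ∈ (Icc 1 R).filter (fun r => d ∣ r), (d : ℝ) / r := by
    have h1 : ∀ r ∈ Icc 1 R, G r * (3 / r) =
        ∑ d ∈ Icc 1 R, if IsCoprime a (d : ℤ) ∧ d ∣ r then 3 * (E d * ((d : ℝ) / r)) else 0 := by
      intro r hr
      rw [mem_Icc] at hr
      rw [← Finset.sum_filter, hG]
      show (∑ d ∈ r.divisors.filter (fun d : ℕ => IsCoprime a (d : ℤ)), (d : ℝ) * E d) * (3 / r) = _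
      rw [Finset.sum_mul]
      have hset : r.divisors.filter (fun d : ℕ => IsCoprime a (d : ℤ)) =
          (Icc 1 R).filter (fun d : ℕ => IsCoprime a (d : ℤ) ∧ d ∣ r) := by
        ext d
        simp only [mem_filter, Nat.mem_divisors, mem_Icc]
        constructor
        · rintro ⟨⟨h2, h3⟩, h4⟩
          have h5 := Nat.le_of_dvd (by omega) h2
          exact ⟨⟨Nat.pos_of_dvd_of_pos h2 (by omega), by omega⟩, h4, h2⟩
        · rintro ⟨_, h4, h2⟩
          exact ⟨⟨h2, by omega⟩, h4⟩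
      rw [hset]
      refine Finset.sum_congr rfl fun d _ => ?_
      ring
    rw [Finset.sum_congr rfl h1, Finset.sum_comm, Finset.mul_sum, Finset.sum_filter]
    refine Finset.sum_congr rfl fun d _ => ?_
    by_cases hc : IsCoprime a (d : ℤ)
    · rw [if_pos hc, Finset.mul_sum, Finset.mul_sum, Finset.sum_filter]
      refine Finset.sum_congr rfl fun r _ => ?_
      by_cases hdr : d ∣ r
      · rw [if_pos ⟨hc, hdr⟩, if_pos hdr]
      · rw [if_neg (fun h => hdr h.2), if_neg hdr]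
    · rw [if_neg hc]
      refine Finset.sum_eq_zero fun r _ => ?_
      rw [if_neg (fun h => hc h.1)]
  -- step D
  have hD : ∑ d ∈ (Icc 1 R).filter (fun d : ℕ => IsCoprime a (d : ℤ)),
        E d * ∑ r ∈ (Icc 1 R).filter (fun r => d ∣ r), (d : ℝ) / r ≤
      ∑ d ∈ (Icc 1 R).filter (fun d : ℕ => IsCoprime a (d : ℤ)), E d * (1 + Real.log R) := by
    refine Finset.sum_le_sum fun d hd => ?_
    rw [mem_filter, mem_Icc] at hd
    exact mul_le_mul_of_nonneg_left (strB_mult R d hd.1.1) (hE0 d)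
  calc _ ≤ _ := hA
    _ ≤ _ := hB
    _ = _ := hC
    _ ≤ 3 * ∑ d ∈ (Icc 1 R).filter (fun d : ℕ => IsCoprime a (d : ℤ)), E d * (1 + Real.log R) :=
        mul_le_mul_of_nonneg_left hD (by norm_num)
    _ = _ := by
        rw [← Finset.sum_mul]
        ring

end Pool.Agent.H80.KF
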