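import Pool.Agent.H80.KF.CrR

/-!
# The structured part: denominators larger than `R`

`r/φ(r) = ∑_{d ∣ r} μ²(d)/φ(d) ≤ τ(r) ≤ 2 √r` (`sum_phi`), so `μ²(r)/φ(r) ≤ 2/√r` and the sum is
`≤ ∑_{R < r ≤ 2Q} (3/r)(2/√r) = 6 ∑_{r > R} r^{-3/2} ≤ 12/√R`
(`r^{-3/2} ≤ 2/√(r-1) - 2/√r`).
-/

set_option autoImplicit false

namespace Pool.Agent.H80.KF

open Finset

private theorem StrC_card (r : ℕ) (hr : 1 ≤ r) :
    (r.divisors.card : ℝ) ≤ 2 * Real.sqrt r := by
  have h1 : r.divisors.card ≤ 2 * Nat.sqrt r := by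
    have hsub : r.divisors ⊆
        (Icc 1 (Nat.sqrt r)) ∪ ((Icc 1 (Nat.sqrt r)).image (fun d => r / d)) := by
      intro d hd
      have hd' := Nat.mem_divisors.1 hd
      have hdpos := Nat.pos_of_mem_divisors hd
      by_cases h : d ≤ Nat.sqrt r
      · exact mem_union_left _ (mem_Icc.2 ⟨hdpos, h⟩)
      · refine mem_union_right _ (mem_image.2 ⟨r / d, mem_Icc.2 ⟨?_, ?_⟩, ?_⟩)
        · exact Nat.div_pos (Nat.le_of_dvd (by omega) hd'.1) hdpos
        · by_contra hc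
          push Not at hc h
          have h3 : (Nat.sqrt r + 1) * (Nat.sqrt r + 1) ≤ d * (r / d) :=
            Nat.mul_le_mul h hc
          rw [Nat.mul_div_cancel' hd'.1] at h3
          exact absurd (Nat.lt_succ_sqrt r) (not_lt.2 h3)
        · exact Nat.div_div_self hd'.1 (by omega)
    calc r.divisors.card ≤ _ := card_le_card hsub
      _ ≤ _ := card_union_le _ _
      _ ≤ Nat.sqrt r + Nat.sqrt r := add_le_add (by simp) (card_image_le.trans (by simp))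
      _ = 2 * Nat.sqrt r := by ring
  have h2 : (Nat.sqrt r : ℝ) ≤ Real.sqrt r := Real.nat_sqrt_le_real_sqrt
  calc (r.divisors.card : ℝ) ≤ ((2 * Nat.sqrt r : ℕ) : ℝ) := by exact_mod_cast h1
    _ = 2 * (Nat.sqrt r : ℝ) := by push_cast; ring
    _ ≤ 2 * Real.sqrt r := by linarith

private theorem StrC_w (r : ℕ) (hr : 1 ≤ r) :
    (ArithmeticFunction.moebius r : ℝ) ^ 2 / (Nat.totient r : ℝ) ≤ 2 / Real.sqrt r := by
  have hφ : ∀ d : ℕ, 1 ≤ d → (1 : ℝ) ≤ (Nat.totient d : ℝ) := fun d hd => by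
    exact_mod_cast Nat.totient_pos.2 hd
  have hmu : ∀ d : ℕ, (ArithmeticFunction.moebius d : ℝ) ^ 2 ≤ 1 := fun d => by
    rw [sq_le_one_iff_abs_le_one]
    have := ArithmeticFunction.abs_moebius_le_one (n := d)
    exact_mod_cast this
  have h1 := sum_phi r hr
  have h2 : ∑ d ∈ r.divisors, (ArithmeticFunction.moebius d : ℝ) ^ 2 / (Nat.totient d : ℝ) ≤
      (r.divisors.card : ℝ) := by
    have : ∑ d ∈ r.divisors, (ArithmeticFunction.moebius d : ℝ) ^ 2 / (Nat.totient d : ℝ) ≤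
        ∑ _d ∈ r.divisors, (1 : ℝ) := by
      refine sum_le_sum fun d hd => ?_
      have h3 := hφ d (Nat.pos_of_mem_divisors hd)
      rw [div_le_one (by linarith)]
      exact (hmu d).trans h3
    simpa using this
  have h3 : (r : ℝ) / (Nat.totient r : ℝ) ≤ 2 * Real.sqrt r :=
    h1 ▸ h2.trans (StrC_card r hr)
  have h4 := hφ r hr
  have h5 : (0 : ℝ) < Real.sqrt r := Real.sqrt_pos.2 (by exact_mod_cast hr)
  have h6 : Real.sqrt r * Real.sqrt r = r := Real.mul_self_sqrt (Nat.cast_nonneg _)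
  calc (ArithmeticFunction.moebius r : ℝ) ^ 2 / (Nat.totient r : ℝ)
      ≤ 1 / (Nat.totient r : ℝ) := by
        apply div_le_div_of_nonneg_right (hmu r) (by linarith)
    _ = (r : ℝ) / (Nat.totient r : ℝ) / (Real.sqrt r * Real.sqrt r) := by
        rw [h6]
        have : (r : ℝ) ≠ 0 := by positivity
        field_simp
    _ ≤ 2 * Real.sqrt r / (Real.sqrt r * Real.sqrt r) :=
        div_le_div_of_nonneg_right h3 (by positivity)
    _ = 2 / Real.sqrt r := by field_simp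

private theorem StrC_step (r : ℕ) (hr : 1 ≤ r) :
    3 / ((r + 1 : ℕ) : ℝ) * (2 / Real.sqrt ((r + 1 : ℕ) : ℝ)) ≤
      12 / Real.sqrt r - 12 / Real.sqrt ((r + 1 : ℕ) : ℝ) := by
  have ha : (0 : ℝ) < Real.sqrt r := Real.sqrt_pos.2 (by exact_mod_cast hr)
  have hab : Real.sqrt r ≤ Real.sqrt ((r + 1 : ℕ) : ℝ) :=
    Real.sqrt_le_sqrt (by push_cast; linarith)
  have hb : (0 : ℝ) < Real.sqrt ((r + 1 : ℕ) : ℝ) := ha.trans_le hab
  have h1 : Real.sqrt r * Real.sqrt r = r := Real.mul_self_sqrt (Nat.cast_nonneg _)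
  have h2 : Real.sqrt ((r + 1 : ℕ) : ℝ) * Real.sqrt ((r + 1 : ℕ) : ℝ) = ((r + 1 : ℕ) : ℝ) :=
    Real.mul_self_sqrt (Nat.cast_nonneg _)
  have h3 : Real.sqrt ((r + 1 : ℕ) : ℝ) * Real.sqrt ((r + 1 : ℕ) : ℝ) -
      Real.sqrt r * Real.sqrt r = 1 := by
    rw [h1, h2]; push_cast; ring
  have h0 : 3 / ((r + 1 : ℕ) : ℝ) = 3 / (Real.sqrt ((r + 1 : ℕ) : ℝ) *
      Real.sqrt ((r + 1 : ℕ) : ℝ)) := by rw [h2]
  rw [h0]
  generalize Real.sqrt ((r + 1 : ℕ) : ℝ) = b at *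
  generalize Real.sqrt (r : ℝ) = a at *
  have h4 : (b - a) * (b + a) = 1 := by linarith
  have h5 : 1 ≤ (b - a) * (2 * b) := by
    rw [← h4]
    exact mul_le_mul_of_nonneg_left (by linarith) (by linarith)
  have h6 : 12 / a - 12 / b = 12 * (b - a) / (a * b) := by
    field_simp
  have h7 : 3 / (b * b) * (2 / b) = 6 / (b * b * b) := by
    field_simp; norm_num
  rw [h6, h7, div_le_div_iff₀ (by positivity) (by positivity)]
  have h8 : a * b ≤ b * b := mul_le_mul_of_nonneg_right hab hb.le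
  calc 6 * (a * b) ≤ 6 * (b * b) := by linarith
    _ ≤ 6 * (b * b) * ((b - a) * (2 * b)) := by
        have : 0 ≤ 6 * (b * b) := by positivity
        nlinarith
    _ = 12 * (b - a) * (b * b * b) := by ring

private theorem StrC_tel (R : ℕ) (hR : 1 ≤ R) (M : ℕ) (hM : R ≤ M) :
    ∑ r ∈ Ioc R M, 3 / (r : ℝ) * (2 / Real.sqrt r) ≤ 12 / Real.sqrt R - 12 / Real.sqrt M := by
  induction M, hM using Nat.le_induction with
  | base => simp
  | succ M hM ih =>
    rw [← Finset.insert_Ioc_right_eq_Ioc_add_one (by omega), sum_insert (by simp)]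
    have := StrC_step M (hR.trans hM)
    linarith

theorem str_tail (Q R : ℕ) (hQ : 1 ≤ Q) (hR : 1 ≤ R) :
    ∑ q ∈ Ioc Q (2 * Q), (1 / (q : ℝ)) * ∑ r ∈ q.divisors.filter (fun r => R < r),
        (ArithmeticFunction.moebius r : ℝ) ^ 2 / (Nat.totient r : ℝ) ≤ 12 / Real.sqrt R := by
  have e1 : ∀ q ∈ Ioc Q (2 * Q), q.divisors.filter (fun r => R < r) =
      (Ioc R (2 * Q)).filter (fun r => r ∣ q) := by
    intro q hq
    rw [mem_Ioc] at hq
    ext r
    simp only [mem_filter, Nat.mem_divisors, mem_Ioc]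
    constructor
    · rintro ⟨⟨h1, h2⟩, h3⟩
      exact ⟨⟨h3, (Nat.le_of_dvd (by omega) h1).trans hq.2⟩, h1⟩
    · rintro ⟨⟨h1, h2⟩, h3⟩
      exact ⟨⟨h3, by omega⟩, h1⟩
  have e2 : ∑ q ∈ Ioc Q (2 * Q), (1 / (q : ℝ)) * ∑ r ∈ q.divisors.filter (fun r => R < r),
        (ArithmeticFunction.moebius r : ℝ) ^ 2 / (Nat.totient r : ℝ) =
      ∑ r ∈ Ioc R (2 * Q), (∑ q ∈ (Ioc Q (2 * Q)).filter (fun q => r ∣ q), (1 : ℝ) / q) *
        ((ArithmeticFunction.moebius r : ℝ) ^ 2 / (Nat.totient r : ℝ)) := by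
    have e3 : ∀ q ∈ Ioc Q (2 * Q), (1 / (q : ℝ)) * ∑ r ∈ q.divisors.filter (fun r => R < r),
        (ArithmeticFunction.moebius r : ℝ) ^ 2 / (Nat.totient r : ℝ) =
        ∑ r ∈ Ioc R (2 * Q), if r ∣ q then (1 / (q : ℝ)) *
          ((ArithmeticFunction.moebius r : ℝ) ^ 2 / (Nat.totient r : ℝ)) else 0 := by
      intro q hq
      rw [e1 q hq, mul_sum, sum_filter]
    rw [sum_congr rfl e3, sum_comm]
    refine sum_congr rfl fun r _ => ?_
    rw [sum_mul, sum_filter]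
  rw [e2]
  by_cases h : R ≤ 2 * Q
  · calc ∑ r ∈ Ioc R (2 * Q), (∑ q ∈ (Ioc Q (2 * Q)).filter (fun q => r ∣ q), (1 : ℝ) / q) *
          ((ArithmeticFunction.moebius r : ℝ) ^ 2 / (Nat.totient r : ℝ))
        ≤ ∑ r ∈ Ioc R (2 * Q), 3 / (r : ℝ) * (2 / Real.sqrt r) := by
          refine sum_le_sum fun r hr => ?_
          rw [mem_Ioc] at hr
          refine mul_le_mul (sum_inv_mult Q r hQ (by omega) hr.2) (StrC_w r (by omega)) ?_ ?_
          · positivity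
          · positivity
      _ ≤ 12 / Real.sqrt R - 12 / Real.sqrt ((2 * Q : ℕ) : ℝ) := StrC_tel R hR (2 * Q) h
      _ ≤ 12 / Real.sqrt R := by
          have : (0 : ℝ) ≤ 12 / Real.sqrt ((2 * Q : ℕ) : ℝ) := by positivity
          linarith
  · rw [Ioc_eq_empty (by omega), sum_empty]
    positivity

end Pool.Agent.H80.KF
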