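import Pool.Agent.H80.KF.StrB
import Pool.Agent.H80.KF.StrC
import Pool.Agent.H80.KF.Ext

/-!
# The structured part

`str_id` (at `y`), `|μ| ≤ 1`, `str_main`, `str_tail` with `R = ⌊x^{1/1000}⌋`, and `ext_ints (c+2)`.  Total
`≤ 3 (1 + log x) x/(log x)^{c+2} + x · 12/√R ≤ x/(log x)^c`.
-/

set_option autoImplicit false

namespace Pool.Agent.H80.KF

open Finset
open Pool.Agent.H91.EHA (err)

private theorem strD_num (c : ℕ) : ∃ x0 : ℕ, ∀ x : ℕ, x0 ≤ x →
    1 ≤ ⌊(x : ℝ) ^ ((1 : ℝ) / 1000)⌋₊ ∧ 12 ≤ Real.log x ∧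
      24 * Real.log x ^ c ≤ Real.sqrt (⌊(x : ℝ) ^ ((1 : ℝ) / 1000)⌋₊ : ℝ) := by
  have h1 : ∀ᶠ x : ℝ in Filter.atTop, ‖Real.log x ^ ((2 * c : ℕ) : ℝ)‖ ≤
      (1 / 1152 : ℝ) * ‖x ^ ((1 : ℝ) / 1000)‖ :=
    (isLittleO_log_rpow_rpow_atTop ((2 * c : ℕ) : ℝ)
      (by norm_num : (0 : ℝ) < (1 : ℝ) / 1000)).def (by norm_num)
  have h2 : ∀ᶠ x : ℝ in Filter.atTop, (12 : ℝ) ≤ Real.log x :=
    Real.tendsto_log_atTop.eventually_ge_atTop 12
  have h3 : ∀ᶠ x : ℝ in Filter.atTop, (2 : ℝ) ≤ x ^ ((1 : ℝ) / 1000) :=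
    (tendsto_rpow_atTop (by norm_num : (0 : ℝ) < (1 : ℝ) / 1000)).eventually_ge_atTop 2
  have h4 := tendsto_natCast_atTop_atTop (R := ℝ) |>.eventually (h1.and (h2.and h3))
  obtain ⟨x0, hx0⟩ := Filter.eventually_atTop.mp h4
  refine ⟨x0, fun x hx => ?_⟩
  obtain ⟨g1, g2, g3⟩ := hx0 x hx
  set y : ℝ := (x : ℝ) ^ ((1 : ℝ) / 1000) with hy
  have hL : 0 ≤ Real.log (x : ℝ) := by linarith
  have hfl : y / 2 ≤ (⌊y⌋₊ : ℝ) := by
    have := Nat.sub_one_lt_floor y
    linarith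
  refine ⟨?_, g2, ?_⟩
  · exact Nat.le_floor (by push_cast; linarith)
  · rw [Real.rpow_natCast, Real.norm_of_nonneg (pow_nonneg hL _),
      Real.norm_of_nonneg (by linarith)] at g1
    apply Real.le_sqrt_of_sq_le
    calc (24 * Real.log (x : ℝ) ^ c) ^ 2 = 576 * Real.log (x : ℝ) ^ (2 * c) := by
          rw [mul_pow, ← pow_mul, mul_comm c 2]
          norm_num
      _ ≤ 576 * (1 / 1152 * y) := by gcongr
      _ ≤ y / 2 := by linarith
      _ ≤ _ := hfl

theorem str_sum (c : ℕ) : ∃ x0 : ℕ, ∀ x Q : ℕ, x0 ≤ x → 1 ≤ Q → ∀ y : ℕ, y ≤ x → ∀ a : ℤ,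
    ∑ q ∈ (Ioc Q (2 * Q)).filter (fun q : ℕ => IsCoprime a (q : ℤ)),
      |err y q (a : ZMod q) - ∑ p ∈ PX y, uu ⌊(x : ℝ) ^ ((1 : ℝ) / 1000)⌋₊ q a p| ≤
      x / Real.log x ^ c := by
  obtain ⟨x1, h1⟩ := ext_ints (c + 2)
  obtain ⟨x2, h2⟩ := strD_num c
  refine ⟨max 1 (max x1 x2), fun x Q hx hQ y hyx a => ?_⟩
  have hx1 : x1 ≤ x := le_trans (le_trans (le_max_left _ _) (le_max_right _ _)) hx
  have hx2 : x2 ≤ x := le_trans (le_trans (le_max_right _ _) (le_max_right _ _)) hx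
  have hx3 : 1 ≤ x := le_trans (le_max_left _ _) hx
  obtain ⟨hR, hL, hsq⟩ := h2 x hx2
  have he := h1 x hx1 y hyx a
  have hxr : (1 : ℝ) ≤ (x : ℝ) := by exact_mod_cast hx3
  set R : ℕ := ⌊(x : ℝ) ^ ((1 : ℝ) / 1000)⌋₊ with hRdef
  set L : ℝ := Real.log (x : ℝ) with hLdef
  have hL0 : 0 < L := by linarith
  have hmu : ∀ n : ℕ, |(ArithmeticFunction.moebius n : ℝ)| ≤ 1 := by
    intro n
    have h := ArithmeticFunction.abs_moebius_le_one (n := n)
    exact_mod_cast h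
  -- one modulus
  have hone : ∀ q ∈ (Ioc Q (2 * Q)).filter (fun q : ℕ => IsCoprime a (q : ℤ)),
      |err y q (a : ZMod q) - ∑ p ∈ PX y, uu R q a p| ≤
        (1 / (q : ℝ)) * ∑ r ∈ q.divisors.filter (fun r => r ≤ R), ∑ d ∈ r.divisors,
          (d : ℝ) * |err y d (a : ZMod d)| +
        (x : ℝ) * ((1 / (q : ℝ)) * ∑ r ∈ q.divisors.filter (fun r => R < r),
            (ArithmeticFunction.moebius r : ℝ) ^ 2 / (Nat.totient r : ℝ)) := by
    intro q hq
    have hq1 : 1 ≤ q := by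
      have := (mem_Ioc.mp (mem_filter.mp hq).1).1
      omega
    rw [str_id y R q hq1 a]
    refine (abs_sub _ _).trans ?_
    have hT : 0 ≤ ∑ r ∈ q.divisors.filter (fun r => R < r),
        (ArithmeticFunction.moebius r : ℝ) ^ 2 / (Nat.totient r : ℝ) :=
      sum_nonneg fun r _ => by positivity
    have hpi : (Nat.primeCounting y : ℝ) ≤ x := by
      have : Nat.primeCounting y ≤ y := by
        rw [Nat.primeCounting, Nat.primeCounting', Nat.count_eq_card_filter_range]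
        refine (card_le_card (t := Icc 1 y) ?_).trans (by rw [Nat.card_Icc]; omega)
        intro p hp
        rw [mem_filter, mem_range] at hp
        rw [mem_Icc]
        exact ⟨hp.2.one_lt.le, by omega⟩
      exact_mod_cast this.trans hyx
    apply add_le_add
    · rw [abs_mul, abs_of_nonneg (by positivity : (0 : ℝ) ≤ 1 / (q : ℝ))]
      apply mul_le_mul_of_nonneg_left _ (by positivity)
      refine (abs_sum_le_sum_abs _ _).trans (sum_le_sum fun r _ => ?_)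
      refine (abs_sum_le_sum_abs _ _).trans (sum_le_sum fun d _ => ?_)
      rw [abs_mul, abs_mul, Nat.abs_cast]
      apply mul_le_mul_of_nonneg_right _ (abs_nonneg _)
      calc (d : ℝ) * |(ArithmeticFunction.moebius (r / d) : ℝ)| ≤ d * 1 := by
            apply mul_le_mul_of_nonneg_left (hmu _) (by positivity)
        _ = d := mul_one _
    · rw [abs_of_nonneg (by positivity)]
      calc (Nat.primeCounting y : ℝ) / (q : ℝ) * _ ≤ (x : ℝ) / (q : ℝ) * _ :=
            mul_le_mul_of_nonneg_right (by gcongr) hT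
        _ = _ := by ring
  refine (sum_le_sum hone).trans ?_
  rw [sum_add_distrib, ← mul_sum]
  have hA := (str_main y Q R hQ hR a)
  have hB : ∑ q ∈ (Ioc Q (2 * Q)).filter (fun q : ℕ => IsCoprime a (q : ℤ)),
      (1 / (q : ℝ)) * ∑ r ∈ q.divisors.filter (fun r => R < r),
        (ArithmeticFunction.moebius r : ℝ) ^ 2 / (Nat.totient r : ℝ) ≤ 12 / Real.sqrt R := by
    refine le_trans ?_ (str_tail Q R hQ hR)
    apply sum_le_sum_of_subset_of_nonneg (filter_subset _ _)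
    intro q _ _
    exact mul_nonneg (by positivity) (sum_nonneg fun r _ => by positivity)
  have hRx : Real.log (R : ℝ) ≤ L := by
    apply Real.log_le_log (by exact_mod_cast hR)
    calc (R : ℝ) ≤ (x : ℝ) ^ ((1 : ℝ) / 1000) := Nat.floor_le (by positivity)
      _ ≤ (x : ℝ) ^ (1 : ℝ) := Real.rpow_le_rpow_of_exponent_le hxr (by norm_num)
      _ = x := Real.rpow_one _
  have hR0 : 0 ≤ Real.log (R : ℝ) := Real.log_nonneg (by exact_mod_cast hR)
  have hE0 : 0 ≤ ∑ d ∈ (Icc 1 R).filter (fun d : ℕ => IsCoprime a (d : ℤ)),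
      |err y d (a : ZMod d)| := sum_nonneg fun _ _ => abs_nonneg _
  have hLc : 0 < L ^ c := by positivity
  have hA2 : 3 * (1 + Real.log R) *
      ∑ d ∈ (Icc 1 R).filter (fun d : ℕ => IsCoprime a (d : ℤ)), |err y d (a : ZMod d)| ≤
      (x : ℝ) / L ^ c / 2 := by
    calc 3 * (1 + Real.log R) *
        ∑ d ∈ (Icc 1 R).filter (fun d : ℕ => IsCoprime a (d : ℤ)), |err y d (a : ZMod d)| ≤
        3 * (2 * L) * (x / L ^ (c + 2)) := by
          apply mul_le_mul _ he hE0 (by positivity)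
          linarith
      _ = (x / L ^ c) * (6 / L) := by
          rw [pow_add]
          field_simp
          norm_num
      _ ≤ (x / L ^ c) * (1 / 2) := by
          apply mul_le_mul_of_nonneg_left _ (by positivity)
          rw [div_le_div_iff₀ hL0 (by norm_num)]
          linarith
      _ = _ := by ring
  have hB2 : 12 / Real.sqrt (R : ℝ) ≤ 1 / (2 * L ^ c) := by
    have hs : 0 < Real.sqrt (R : ℝ) := lt_of_lt_of_le (by positivity) hsq
    rw [div_le_div_iff₀ hs (by positivity)]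
    linarith
  calc _ ≤ (x : ℝ) / L ^ c / 2 + (x : ℝ) * (12 / Real.sqrt R) :=
        add_le_add (hA.trans hA2) (mul_le_mul_of_nonneg_left hB (by positivity))
    _ ≤ (x : ℝ) / L ^ c / 2 + (x : ℝ) * (1 / (2 * L ^ c)) := by
        gcongr
    _ = (x : ℝ) / L ^ c := by
        field_simp
        ring

end Pool.Agent.H80.KF
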