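import Pool.Agent.H80.KF.Bas

/-!
# The second Cauchy step

`|UU|² ≤ (N+1)² ∑_{m₁,m₂} |∑_τ g_τ|²` (`|α| ≤ 1`, `#II N = N+1 ≤ 2N`), expand the square over
`(τ, τ')`.  The pairs with `Diag τ τ'` contribute at most `2 ∑_τ ∑_{m₁,m₂} |g_τ|²` (use
`|g g'| ≤ (|g|² + |g'|²)/2`; `τ ↦ (p₂, p₁, -r)` is an involution of `TT P`), and
`∑_τ ∑_{m₁,m₂} |g_τ|² ≤ #{(τ,m₁,m₂) : Adm} ≤ (2N)² #PP²`: for fixed `p₁, p₂, m₂` and
`n ∈ II N` there is at most one `m₁ ∈ II N` with `n ∣ p₁m₁ - p₂m₂` (`p₁` is invertible mod `n` and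
`II N` has `N + 1 ≤ n` elements), and `r` is determined by `n`.
-/

set_option autoImplicit false

namespace Pool.Agent.H80.KF

open Finset

private theorem Cau_cardII (N : ℕ) : (II N).card = N + 1 := by
  unfold II
  rw [Nat.card_Ioc]
  omega

open Classical in
private theorem Cau_inner (N : ℕ) (p1 p2 : ℕ) (R : Finset ℤ) (m2 : ℕ) :
    ((R ×ˢ II N).filter (fun t => Adm N p1 p2 t.1 t.2 m2)).card ≤ N + 1 := by
  rw [← Cau_cardII N]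
  apply Finset.card_le_card_of_injOn (fun t => nn p1 p2 t.1 t.2 m2)
  · intro t ht
    exact (mem_filter.1 ht).2.2.2.2.2.2.1
  · intro t ht t' ht' h
    obtain ⟨hm, -, -, -, -, h1, h2, h3⟩ := mem_filter.1 ht
    obtain ⟨hm', -, -, -, -, h1', -, -⟩ := mem_filter.1 ht'
    have hI := (mem_product.1 hm).2
    have hI' := (mem_product.1 hm').2
    simp only at h
    rw [← h] at h1'
    set n := nn p1 p2 t.1 t.2 m2 with hn
    unfold II at h2 hI hI'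
    rw [mem_Ioc] at h2 hI hI'
    have h4 : (t.1 - t'.1) * (n : ℤ) = (p1 : ℤ) * ((t.2 : ℤ) - t'.2) := by
      linear_combination h1 - h1'
    have hc : IsCoprime (n : ℤ) (p1 : ℤ) := by
      rw [Nat.isCoprime_iff_coprime]
      exact Nat.Coprime.coprime_mul_right_right h3
    have h5 : (n : ℤ) ∣ (t.2 : ℤ) - t'.2 := by
      apply hc.dvd_of_dvd_mul_left
      rw [← h4]
      exact Dvd.intro_left _ rfl
    have h6 : (t.2 : ℤ) - t'.2 = 0 := by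
      apply Int.eq_zero_of_abs_lt_dvd h5
      rw [abs_lt]
      constructor <;> omega
    have h7 : t.1 - t'.1 = 0 := by
      rw [h6, mul_zero] at h4
      rcases mul_eq_zero.1 h4 with h8 | h8
      · exact h8
      · exfalso; omega
    exact Prod.ext (by omega) (by omega)

open Classical in
private theorem Cau_gg_le (F : ℝ → ℂ) (hF : ∀ y, ‖F y‖ ≤ 1) (η : ℤ) (N : ℕ) (τ : ℕ × ℕ × ℤ)
    (m1 m2 : ℕ) :
    ‖gg F η N τ m1 m2‖ ^ 2 ≤ if Adm N τ.1 τ.2.1 τ.2.2 m1 m2 then (1 : ℝ) else 0 := by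
  unfold gg
  split_ifs with h
  · rw [norm_mul, norm_mul, RCLike.norm_conj, norm_kf, mul_one]
    have h1 := hF ((m1 : ℝ) * (nn τ.1 τ.2.1 τ.2.2 m1 m2 : ℝ))
    have h2 := hF ((m2 : ℝ) * (nn τ.1 τ.2.1 τ.2.2 m1 m2 : ℝ))
    have h3 : ‖F ((m1 : ℝ) * (nn τ.1 τ.2.1 τ.2.2 m1 m2 : ℝ))‖ *
        ‖F ((m2 : ℝ) * (nn τ.1 τ.2.1 τ.2.2 m1 m2 : ℝ))‖ ≤ 1 :=
      mul_le_one₀ h1 (norm_nonneg _) h2
    exact pow_le_one₀ (by positivity) h3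
  · simp

theorem adm_count (N P : ℕ) (hN : 1 ≤ N) (F : ℝ → ℂ) (hF : ∀ y, ‖F y‖ ≤ 1) (η : ℤ) :
    ∑ τ ∈ TT P, ∑ m1 ∈ II N, ∑ m2 ∈ II N, ‖gg F η N τ m1 m2‖ ^ 2 ≤
      (2 * N) ^ 2 * ((PP P).card : ℝ) ^ 2 := by
  classical
  calc ∑ τ ∈ TT P, ∑ m1 ∈ II N, ∑ m2 ∈ II N, ‖gg F η N τ m1 m2‖ ^ 2
      ≤ ∑ τ ∈ TT P, ∑ m1 ∈ II N, ∑ m2 ∈ II N,
          (if Adm N τ.1 τ.2.1 τ.2.2 m1 m2 then (1 : ℝ) else 0) :=
        sum_le_sum fun τ _ => sum_le_sum fun m1 _ => sum_le_sum fun m2 _ =>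
          Cau_gg_le F hF η N τ m1 m2
    _ = ∑ p1 ∈ PP P, ∑ p2 ∈ PP P, ∑ m2 ∈ II N,
          (((Icc (-(8 * P : ℤ)) (8 * P) ×ˢ II N).filter
            (fun t => Adm N p1 p2 t.1 t.2 m2)).card : ℝ) := by
        unfold TT
        rw [sum_product]
        refine sum_congr rfl fun p1 _ => ?_
        rw [sum_product]
        refine sum_congr rfl fun p2 _ => ?_
        have h1 : ∀ r ∈ Icc (-(8 * P : ℤ)) (8 * P), ∑ m1 ∈ II N, ∑ m2 ∈ II N,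
            (if Adm N p1 p2 r m1 m2 then (1 : ℝ) else 0) = ∑ m2 ∈ II N, ∑ m1 ∈ II N,
            (if Adm N p1 p2 r m1 m2 then (1 : ℝ) else 0) := fun r _ => sum_comm
        rw [sum_congr rfl h1, sum_comm]
        refine sum_congr rfl fun m2 _ => ?_
        rw [← sum_product', sum_boole]
    _ ≤ ∑ p1 ∈ PP P, ∑ p2 ∈ PP P, ∑ m2 ∈ II N, ((N + 1 : ℕ) : ℝ) :=
        sum_le_sum fun p1 _ => sum_le_sum fun p2 _ => sum_le_sum fun m2 _ =>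
          Nat.cast_le.2 (Cau_inner N p1 p2 _ m2)
    _ = ((N : ℝ) + 1) ^ 2 * ((PP P).card : ℝ) ^ 2 := by
        simp only [sum_const, nsmul_eq_mul, Cau_cardII]
        push_cast
        ring
    _ ≤ (2 * N) ^ 2 * ((PP P).card : ℝ) ^ 2 := by
        have hN' : (1 : ℝ) ≤ N := by exact_mod_cast hN
        apply mul_le_mul_of_nonneg_right _ (by positivity)
        apply pow_le_pow_left₀ (by positivity)
        linarith

private theorem Cau_first (N P : ℕ) (hN : 1 ≤ N) (η : ℤ) (α : ℕ → ℂ) (hα : ∀ m, ‖α m‖ ≤ 1)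
    (F : ℝ → ℂ) :
    ‖UU F η N P α‖ ^ 2 ≤
      (2 * N) ^ 2 * ∑ m1 ∈ II N, ∑ m2 ∈ II N, ‖∑ τ ∈ TT P, gg F η N τ m1 m2‖ ^ 2 := by
  have h1 : ‖UU F η N P α‖ ≤ ∑ t ∈ II N ×ˢ II N, ‖∑ τ ∈ TT P, gg F η N τ t.1 t.2‖ := by
    unfold UU
    rw [sum_product]
    refine (norm_sum_le _ _).trans (sum_le_sum fun m1 _ => ?_)
    refine (norm_sum_le _ _).trans (sum_le_sum fun m2 _ => ?_)
    rw [norm_mul, norm_mul, RCLike.norm_conj]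
    have h2 : ‖α m1‖ * ‖α m2‖ ≤ 1 := mul_le_one₀ (hα m1) (norm_nonneg _) (hα m2)
    calc ‖α m1‖ * ‖α m2‖ * ‖∑ τ ∈ TT P, gg F η N τ m1 m2‖
        ≤ 1 * ‖∑ τ ∈ TT P, gg F η N τ m1 m2‖ :=
          mul_le_mul_of_nonneg_right h2 (norm_nonneg _)
      _ = _ := one_mul _
  have h3 := sq_sum_le_card_mul_sum_sq (s := II N ×ˢ II N)
    (f := fun t => ‖∑ τ ∈ TT P, gg F η N τ t.1 t.2‖)
  rw [card_product, Cau_cardII] at h3
  have h4 : ∑ m1 ∈ II N, ∑ m2 ∈ II N, ‖∑ τ ∈ TT P, gg F η N τ m1 m2‖ ^ 2 =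
      ∑ t ∈ II N ×ˢ II N, ‖∑ τ ∈ TT P, gg F η N τ t.1 t.2‖ ^ 2 := by
    rw [sum_product]
  rw [h4]
  have hN' : (1 : ℝ) ≤ N := by exact_mod_cast hN
  calc ‖UU F η N P α‖ ^ 2 ≤ (∑ t ∈ II N ×ˢ II N, ‖∑ τ ∈ TT P, gg F η N τ t.1 t.2‖) ^ 2 :=
        pow_le_pow_left₀ (norm_nonneg _) h1 2
    _ ≤ (((N + 1) * (N + 1) : ℕ) : ℝ) *
          ∑ t ∈ II N ×ˢ II N, ‖∑ τ ∈ TT P, gg F η N τ t.1 t.2‖ ^ 2 := h3
    _ ≤ (2 * N) ^ 2 * ∑ t ∈ II N ×ˢ II N, ‖∑ τ ∈ TT P, gg F η N τ t.1 t.2‖ ^ 2 := by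
        apply mul_le_mul_of_nonneg_right _ (sum_nonneg fun _ _ => by positivity)
        push_cast
        nlinarith

/-- the square of a sum is the double sum, split into the diagonal and the rest -/
private theorem Cau_second (N P : ℕ) (η : ℤ) (F : ℝ → ℂ) :
    ∑ m1 ∈ II N, ∑ m2 ∈ II N, ‖∑ τ ∈ TT P, gg F η N τ m1 m2‖ ^ 2 ≤
      (∑ t ∈ (TT P ×ˢ TT P).filter (fun t => Diag t.1 t.2), ∑ m1 ∈ II N, ∑ m2 ∈ II N,
        ‖gg F η N t.1 m1 m2‖ * ‖gg F η N t.2 m1 m2‖) + OO F η N P := by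
  have h1 : ∀ m1 m2 : ℕ, ((‖∑ τ ∈ TT P, gg F η N τ m1 m2‖ ^ 2 : ℝ) : ℂ) =
      ∑ t ∈ TT P ×ˢ TT P, gg F η N t.1 m1 m2 * (starRingEnd ℂ) (gg F η N t.2 m1 m2) := by
    intro m1 m2
    rw [sum_product]
    rw [← Complex.normSq_eq_norm_sq, Complex.normSq_eq_conj_mul_self, mul_comm, map_sum,
      sum_mul_sum]
  have h2 : ((∑ m1 ∈ II N, ∑ m2 ∈ II N, ‖∑ τ ∈ TT P, gg F η N τ m1 m2‖ ^ 2 : ℝ) : ℂ) =
      ∑ t ∈ TT P ×ˢ TT P, ∑ m1 ∈ II N, ∑ m2 ∈ II N,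
        gg F η N t.1 m1 m2 * (starRingEnd ℂ) (gg F η N t.2 m1 m2) := by
    push_cast
    have h3 : ∀ m1 m2 : ℕ, ((‖∑ τ ∈ TT P, gg F η N τ m1 m2‖ : ℝ) : ℂ) ^ 2 =
        ∑ t ∈ TT P ×ˢ TT P, gg F η N t.1 m1 m2 * (starRingEnd ℂ) (gg F η N t.2 m1 m2) := by
      intro m1 m2
      rw [← h1]
      push_cast
      rfl
    simp only [h3]
    calc ∑ m1 ∈ II N, ∑ m2 ∈ II N, ∑ t ∈ TT P ×ˢ TT P,
          gg F η N t.1 m1 m2 * (starRingEnd ℂ) (gg F η N t.2 m1 m2)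
        = ∑ m1 ∈ II N, ∑ t ∈ TT P ×ˢ TT P, ∑ m2 ∈ II N,
          gg F η N t.1 m1 m2 * (starRingEnd ℂ) (gg F η N t.2 m1 m2) :=
          sum_congr rfl fun m1 _ => sum_comm
      _ = _ := sum_comm
  have h5 : ∑ m1 ∈ II N, ∑ m2 ∈ II N, ‖∑ τ ∈ TT P, gg F η N τ m1 m2‖ ^ 2 =
      ‖∑ t ∈ TT P ×ˢ TT P, ∑ m1 ∈ II N, ∑ m2 ∈ II N,
        gg F η N t.1 m1 m2 * (starRingEnd ℂ) (gg F η N t.2 m1 m2)‖ := by
    rw [← h2, Complex.norm_real, Real.norm_of_nonneg]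
    exact sum_nonneg fun _ _ => sum_nonneg fun _ _ => by positivity
  rw [h5, ← sum_filter_add_sum_filter_not (TT P ×ˢ TT P) (fun t => Diag t.1 t.2)]
  refine (norm_add_le _ _).trans (add_le_add ?_ ?_)
  · refine (norm_sum_le _ _).trans (sum_le_sum fun t _ => ?_)
    refine (norm_sum_le _ _).trans (sum_le_sum fun m1 _ => ?_)
    refine (norm_sum_le _ _).trans (sum_le_sum fun m2 _ => ?_)
    rw [norm_mul, RCLike.norm_conj]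
  · unfold OO
    refine (norm_sum_le _ _).trans (sum_le_sum fun t _ => ?_)
    exact norm_sum_le _ _

private theorem Cau_diag (T : Finset (ℕ × ℕ × ℤ)) (w : (ℕ × ℕ × ℤ) → ℝ) (hw : ∀ τ, 0 ≤ w τ) :
    ∑ t ∈ (T ×ˢ T).filter (fun t => Diag t.1 t.2), w t.1 ≤ 2 * ∑ τ ∈ T, w τ := by
  rw [sum_filter, sum_product, mul_sum]
  refine sum_le_sum fun τ _ => ?_
  rw [← sum_filter]
  simp only [sum_const, nsmul_eq_mul]
  apply mul_le_mul_of_nonneg_right _ (hw τ)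
  have h : (T.filter (fun x => Diag τ x)) ⊆ {τ, (τ.2.1, τ.1, -τ.2.2)} := by
    intro x hx
    have := (mem_filter.1 hx).2
    unfold Diag at this
    simpa using this
  calc (((T.filter (fun x => Diag τ x)).card : ℕ) : ℝ)
      ≤ ((({τ, (τ.2.1, τ.1, -τ.2.2)} : Finset (ℕ × ℕ × ℤ)).card : ℕ) : ℝ) := by
        exact_mod_cast card_le_card h
    _ ≤ 2 := by exact_mod_cast card_le_two

private theorem Cau_diag' (T : Finset (ℕ × ℕ × ℤ)) (w : (ℕ × ℕ × ℤ) → ℝ) (hw : ∀ τ, 0 ≤ w τ) :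
    ∑ t ∈ (T ×ˢ T).filter (fun t => Diag t.1 t.2), w t.2 ≤ 2 * ∑ τ ∈ T, w τ := by
  rw [sum_filter, sum_product_right, mul_sum]
  refine sum_le_sum fun τ _ => ?_
  rw [← sum_filter]
  simp only [sum_const, nsmul_eq_mul]
  apply mul_le_mul_of_nonneg_right _ (hw τ)
  have h : (T.filter (fun x => Diag x τ)) ⊆ {τ, (τ.2.1, τ.1, -τ.2.2)} := by
    intro x hx
    have h1 := (mem_filter.1 hx).2
    unfold Diag at h1
    rw [mem_insert, mem_singleton]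
    rcases h1 with h1 | h1
    · exact Or.inl h1.symm
    · right
      rw [h1]
      simp
  calc (((T.filter (fun x => Diag x τ)).card : ℕ) : ℝ)
      ≤ ((({τ, (τ.2.1, τ.1, -τ.2.2)} : Finset (ℕ × ℕ × ℤ)).card : ℕ) : ℝ) := by
        exact_mod_cast card_le_card h
    _ ≤ 2 := by exact_mod_cast card_le_two

theorem cau (N P : ℕ) (hN : 1 ≤ N) (η : ℤ) (α : ℕ → ℂ) (hα : ∀ m, ‖α m‖ ≤ 1)
    (F : ℝ → ℂ) (hF : ∀ y, ‖F y‖ ≤ 1) :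
    ‖UU F η N P α‖ ^ 2 ≤
      (2 * N) ^ 2 * (2 * ((2 * N) ^ 2 * ((PP P).card : ℝ) ^ 2) + OO F η N P) := by
  refine (Cau_first N P hN η α hα F).trans ?_
  apply mul_le_mul_of_nonneg_left _ (by positivity)
  refine (Cau_second N P η F).trans ?_
  apply add_le_add _ le_rfl
  set w : (ℕ × ℕ × ℤ) → ℝ := fun τ => ∑ m1 ∈ II N, ∑ m2 ∈ II N, ‖gg F η N τ m1 m2‖ ^ 2 with hw
  have hw0 : ∀ τ, 0 ≤ w τ := fun τ => sum_nonneg fun _ _ => sum_nonneg fun _ _ => by positivity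
  have hc : ∑ τ ∈ TT P, w τ ≤ (2 * N) ^ 2 * ((PP P).card : ℝ) ^ 2 := adm_count N P hN F hF η
  have h1 : ∑ t ∈ (TT P ×ˢ TT P).filter (fun t => Diag t.1 t.2), ∑ m1 ∈ II N, ∑ m2 ∈ II N,
      ‖gg F η N t.1 m1 m2‖ * ‖gg F η N t.2 m1 m2‖ ≤
      ∑ t ∈ (TT P ×ˢ TT P).filter (fun t => Diag t.1 t.2), (w t.1 / 2 + w t.2 / 2) := by
    refine sum_le_sum fun t _ => ?_
    rw [hw]
    simp only
    rw [sum_div, sum_div, ← sum_add_distrib]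
    refine sum_le_sum fun m1 _ => ?_
    rw [sum_div, sum_div, ← sum_add_distrib]
    refine sum_le_sum fun m2 _ => ?_
    nlinarith [sq_nonneg (‖gg F η N t.1 m1 m2‖ - ‖gg F η N t.2 m1 m2‖)]
  refine h1.trans ?_
  rw [sum_add_distrib, ← sum_div, ← sum_div]
  have h2 := Cau_diag (TT P) w hw0
  have h3 := Cau_diag' (TT P) w hw0
  linarith

end Pool.Agent.H80.KF
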