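import Pool.Agent.H80.KF.Defs

/-!
# Off the diagonal the numerator does not vanish

If `Adm N p₁ p₂ r m₁ m₂` with `p₁ ≠ p₂` primes then `p₁ ∤ r` and `p₂ ∤ r` (`p₁ ∣ r` would give
`p₁ ∣ p₂ m₂`, hence `p₁ ∣ m₂`).  If `K₀ = 0` then
`(p₁ - p₂) r p₃ p₄ = (p₃ - p₄) r' p₁ p₂`; as `p₁ ∤ (p₁ - p₂)`, `p₁ ∤ r`, `p₁ ∈ {p₃, p₄}`, in the
same way `p₂ ∈ {p₃,p₄}`; so `(p₃,p₄) = (p₁,p₂)`, `r' = r` or `(p₃,p₄) = (p₂,p₁)`, `r' = -r`.
-/

set_option autoImplicit false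

namespace Pool.Agent.H80.KF

open Finset

theorem adm_r {N p1 p2 : ℕ} {r : ℤ} {m1 m2 : ℕ} (h1 : p1.Prime) (h2 : p2.Prime)
    (h : Adm N p1 p2 r m1 m2) : IsCoprime r (p1 : ℤ) ∧ IsCoprime r (p2 : ℤ) := by
  obtain ⟨hne, hm2, hm1, -, heq, -, -⟩ := h
  have q1 : Prime (p1 : ℤ) := Nat.prime_iff_prime_int.1 h1
  have q2 : Prime (p2 : ℤ) := Nat.prime_iff_prime_int.1 h2
  constructor
  · rw [isCoprime_comm, q1.irreducible.coprime_iff_not_dvd]
    intro hd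
    have h3 : (p1 : ℤ) ∣ (p2 : ℤ) * m2 := by
      have h4 : (p1 : ℤ) ∣ (p1 : ℤ) * m1 - (p2 : ℤ) * m2 := by
        rw [← heq]
        exact Dvd.dvd.mul_right hd _
      have h5 : (p1 : ℤ) ∣ (p1 : ℤ) * m1 := dvd_mul_right _ _
      have h6 := dvd_sub h5 h4
      simpa using h6
    rcases q1.dvd_or_dvd h3 with h5 | h5
    · have h6 : p1 ∣ p2 := by exact_mod_cast h5
      exact hne ((Nat.prime_dvd_prime_iff_eq h1 h2).1 h6)
    · exact hm2 (by exact_mod_cast h5)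
  · rw [isCoprime_comm, q2.irreducible.coprime_iff_not_dvd]
    intro hd
    have h3 : (p2 : ℤ) ∣ (p1 : ℤ) * m1 := by
      have h4 : (p2 : ℤ) ∣ (p1 : ℤ) * m1 - (p2 : ℤ) * m2 := by
        rw [← heq]
        exact Dvd.dvd.mul_right hd _
      have h5 : (p2 : ℤ) ∣ (p2 : ℤ) * m2 := dvd_mul_right _ _
      have h6 := dvd_add h4 h5
      simpa using h6
    rcases q2.dvd_or_dvd h3 with h5 | h5
    · have h6 : p2 ∣ p1 := by exact_mod_cast h5
      exact hne ((Nat.prime_dvd_prime_iff_eq h2 h1).1 h6).symm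
    · exact hm1 (by exact_mod_cast h5)

private theorem kne_aux {p1 p2 p3 p4 : ℕ} {r r' : ℤ} (h1 : p1.Prime) (h2 : p2.Prime)
    (h3 : p3.Prime) (h4 : p4.Prime) (hne : p1 ≠ p2) (hr : IsCoprime r (p1 : ℤ))
    (h : ((p1 : ℤ) - p2) * r * p3 * p4 = ((p3 : ℤ) - p4) * r' * p1 * p2) :
    p1 = p3 ∨ p1 = p4 := by
  have q1 : Prime (p1 : ℤ) := Nat.prime_iff_prime_int.1 h1
  have hd : (p1 : ℤ) ∣ ((p1 : ℤ) - p2) * r * p3 * p4 := by
    rw [h]
    exact Dvd.intro_left (((p3 : ℤ) - p4) * r' * p2) (by ring)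
  rcases q1.dvd_or_dvd hd with hd | hd
  · rcases q1.dvd_or_dvd hd with hd | hd
    · rcases q1.dvd_or_dvd hd with hd | hd
      · exfalso
        have h6 : (p1 : ℤ) ∣ (p2 : ℤ) := by
          have h5 : (p1 : ℤ) ∣ (p1 : ℤ) := dvd_rfl
          have h7 := dvd_sub h5 hd
          simpa using h7
        have h8 : p1 ∣ p2 := by exact_mod_cast h6
        exact hne ((Nat.prime_dvd_prime_iff_eq h1 h2).1 h8)
      · exfalso
        rw [isCoprime_comm, q1.irreducible.coprime_iff_not_dvd] at hr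
        exact hr hd
    · left
      have h8 : p1 ∣ p3 := by exact_mod_cast hd
      exact (Nat.prime_dvd_prime_iff_eq h1 h3).1 h8
  · right
    have h8 : p1 ∣ p4 := by exact_mod_cast hd
    exact (Nat.prime_dvd_prime_iff_eq h1 h4).1 h8

private theorem kne_TT {P : ℕ} {τ : ℕ × ℕ × ℤ} (h : τ ∈ TT P) : τ.1.Prime ∧ τ.2.1.Prime := by
  unfold TT PP at h
  simp only [Finset.mem_product, Finset.mem_filter] at h
  exact ⟨h.1.2, h.2.1.2⟩

theorem k0_ne (N P : ℕ) (η : ℤ) (hη : η ≠ 0) (τ τ' : ℕ × ℕ × ℤ) (hτ : τ ∈ TT P)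
    (hτ' : τ' ∈ TT P) (hd : ¬ Diag τ τ') (m1 m2 m1' m2' : ℕ)
    (h : Adm N τ.1 τ.2.1 τ.2.2 m1 m2) (h' : Adm N τ'.1 τ'.2.1 τ'.2.2 m1' m2') :
    K0 η τ τ' ≠ 0 := by
  obtain ⟨h1, h2⟩ := kne_TT hτ
  obtain ⟨h3, h4⟩ := kne_TT hτ'
  obtain ⟨p1, p2, r⟩ := τ
  obtain ⟨p3, p4, r'⟩ := τ'
  simp only at h1 h2 h3 h4 h h'
  intro hK
  apply hd
  unfold K0 at hK
  simp only at hK
  have hK' : ((p1 : ℤ) - p2) * r * p3 * p4 = ((p3 : ℤ) - p4) * r' * p1 * p2 := by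
    rcases mul_eq_zero.1 hK with h5 | h5
    · exact absurd h5 hη
    · linarith
  obtain ⟨hr1, hr2⟩ := adm_r h1 h2 h
  have hne := h.1
  have hne' := h'.1
  have a1 := kne_aux (r' := r') h1 h2 h3 h4 hne hr1 hK'
  have a2 := kne_aux (r' := -r') h2 h1 h3 h4 hne.symm hr2 (by linear_combination -hK')
  have z1 : (p1 : ℤ) ≠ 0 := by exact_mod_cast h1.ne_zero
  have z2 : (p2 : ℤ) ≠ 0 := by exact_mod_cast h2.ne_zero
  have z3 : (p1 : ℤ) - p2 ≠ 0 := by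
    intro h5
    apply hne
    have h6 : (p1 : ℤ) = p2 := by linarith
    exact_mod_cast h6
  have z4 : ((p1 : ℤ) - p2) * p1 * p2 ≠ 0 := mul_ne_zero (mul_ne_zero z3 z1) z2
  unfold Diag
  rcases a1 with a1 | a1
  · have b2 : p2 = p4 := by
      rcases a2 with a2 | a2
      · exact absurd (a1.trans a2.symm) hne
      · exact a2
    left
    subst a1 b2
    have h7 : r = r' := by
      apply mul_left_cancel₀ z4
      linear_combination hK'
    rw [h7]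
  · have b2 : p2 = p3 := by
      rcases a2 with a2 | a2
      · exact a2
      · exact absurd (a1.trans a2.symm) hne
    right
    subst a1 b2
    have h7 : r' = -r := by
      apply mul_left_cancel₀ z4
      linear_combination hK'
    simp only
    rw [h7]

end Pool.Agent.H80.KF
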