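import Pool.Agent.H80.KF.ClsD
import Pool.Agent.H80.KF.Kne

/-!
# The number of residue classes of `m₂`

A class with a nonzero sum has a `t` with `Adm` for both triples, so `p₂ρ ≡ p₁m₁ (mod r)`,
`p₄ρ ≡ p₃m₁ (mod r')` (`r, r' ∣ M₀`); `p₂` is coprime to `r`, `p₄` to `r'` (`adm_r`), so
`ρ mod lcm(|r|,|r'|)` is the same for all such classes: at most `M₀/lcm = s p₁ p₃` classes.
-/

set_option autoImplicit false

namespace Pool.Agent.H80.KF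

open Finset

private lemma clsC_prime {P : ℕ} {τ : ℕ × ℕ × ℤ} (h : τ ∈ TT P) : τ.1.Prime ∧ τ.2.1.Prime := by
  unfold TT PP at h
  rw [mem_product, mem_product, mem_filter, mem_filter] at h
  exact ⟨h.1.2, h.2.1.2⟩

private lemma clsC_gg {F : ℝ → ℂ} {η : ℤ} {N : ℕ} {τ : ℕ × ℕ × ℤ} {m1 m2 : ℕ}
    (h : gg F η N τ m1 m2 ≠ 0) : Adm N τ.1 τ.2.1 τ.2.2 m1 m2 := by
  unfold gg at h
  by_contra hn
  rw [if_neg hn] at h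
  exact h rfl

/-- the numbers `m₂` for two admissible pairs are congruent modulo `r` -/
private lemma clsC_dvd {N p1 p2 : ℕ} {r : ℤ} {m1 m2 m2' : ℕ} (h1 : p1.Prime) (h2 : p2.Prime)
    (h : Adm N p1 p2 r m1 m2) (h' : Adm N p1 p2 r m1 m2') : r ∣ (m2 : ℤ) - m2' := by
  have hc := (adm_r h1 h2 h).2
  have e1 : r ∣ (p1 : ℤ) * m1 - (p2 : ℤ) * m2 := ⟨_, h.2.2.2.2.1.symm⟩
  have e2 : r ∣ (p1 : ℤ) * m1 - (p2 : ℤ) * m2' := ⟨_, h'.2.2.2.2.1.symm⟩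
  have e3 : r ∣ (p2 : ℤ) * ((m2 : ℤ) - m2') := by
    have e4 := dvd_sub e2 e1
    have e5 : (p1 : ℤ) * m1 - (p2 : ℤ) * m2' - ((p1 : ℤ) * m1 - (p2 : ℤ) * m2) =
        (p2 : ℤ) * ((m2 : ℤ) - m2') := by ring
    rwa [e5] at e4
  exact hc.dvd_of_dvd_mul_left e3

private lemma clsC_class {N P : ℕ} {η : ℤ} {F : ℝ → ℂ} {τ τ' : ℕ × ℕ × ℤ} (hτ : τ ∈ TT P)
    (hτ' : τ' ∈ TT P) {m1 s ρ ρ' : ℕ} (h : CS F η N τ τ' m1 s ρ ≠ 0)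
    (h' : CS F η N τ τ' m1 s ρ' ≠ 0) :
    (Nat.lcm τ.2.2.natAbs τ'.2.2.natAbs : ℤ) ∣ (ρ : ℤ) - ρ' := by
  obtain ⟨t, -, ht⟩ := exists_ne_zero_of_sum_ne_zero h
  obtain ⟨t', -, ht'⟩ := exists_ne_zero_of_sum_ne_zero h'
  have a1 := clsC_gg (left_ne_zero_of_mul ht)
  have a2 := clsC_gg (left_ne_zero_of_mul ht')
  have b1 := clsC_gg (fun h0 => right_ne_zero_of_mul ht (by rw [h0, map_zero]))
  have b2 := clsC_gg (fun h0 => right_ne_zero_of_mul ht' (by rw [h0, map_zero]))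
  have c1 := clsC_dvd (clsC_prime hτ).1 (clsC_prime hτ).2 a1 a2
  have c2 := clsC_dvd (clsC_prime hτ').1 (clsC_prime hτ').2 b1 b2
  set L := Nat.lcm τ.2.2.natAbs τ'.2.2.natAbs with hL
  have hLM : (L : ℤ) ∣ (M0 τ τ' s : ℤ) := by
    rw [Int.natCast_dvd_natCast]
    exact ⟨s * (τ.1 * τ'.1), rfl⟩
  have d1 : (L : ℤ) ∣ ((ρ + M0 τ τ' s * t : ℕ) : ℤ) - ((ρ' + M0 τ τ' s * t' : ℕ) : ℤ) := by
    have e1 : τ.2.2.natAbs ∣ (((ρ + M0 τ τ' s * t : ℕ) : ℤ) -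
        ((ρ' + M0 τ τ' s * t' : ℕ) : ℤ)).natAbs := Int.natAbs_dvd_natAbs.2 c1
    have e2 : τ'.2.2.natAbs ∣ (((ρ + M0 τ τ' s * t : ℕ) : ℤ) -
        ((ρ' + M0 τ τ' s * t' : ℕ) : ℤ)).natAbs := Int.natAbs_dvd_natAbs.2 c2
    exact Int.natCast_dvd.2 (Nat.lcm_dvd e1 e2)
  have d2 : (L : ℤ) ∣ (M0 τ τ' s : ℤ) * t' - (M0 τ τ' s : ℤ) * t :=
    dvd_sub (hLM.mul_right _) (hLM.mul_right _)
  have d3 := dvd_add d1 d2
  have e5 : ((ρ + M0 τ τ' s * t : ℕ) : ℤ) - ((ρ' + M0 τ τ' s * t' : ℕ) : ℤ) +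
      ((M0 τ τ' s : ℤ) * t' - (M0 τ τ' s : ℤ) * t) = (ρ : ℤ) - ρ' := by
    push_cast
    ring
  rwa [e5] at d3

theorem cls_card (N P : ℕ) (η : ℤ) (F : ℝ → ℂ) (τ τ' : ℕ × ℕ × ℤ) (hτ : τ ∈ TT P)
    (hτ' : τ' ∈ TT P) (m1 s : ℕ) (hs : 1 ≤ s) (hr : τ.2.2 ≠ 0) (hr' : τ'.2.2 ≠ 0) :
    (((range (M0 τ τ' s)).filter (fun ρ => CS F η N τ τ' m1 s ρ ≠ 0)).card : ℕ) ≤
      s * (τ.1 * τ'.1) := by
  classical
  set L := Nat.lcm τ.2.2.natAbs τ'.2.2.natAbs with hL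
  have hL0 : 0 < L := Nat.lcm_pos (Int.natAbs_pos.2 hr) (Int.natAbs_pos.2 hr')
  have hM : M0 τ τ' s = L * (s * (τ.1 * τ'.1)) := rfl
  have hcard : (range (s * (τ.1 * τ'.1))).card = s * (τ.1 * τ'.1) := card_range _
  rw [← hcard]
  refine card_le_card_of_injOn (fun ρ => ρ / L) ?_ ?_
  · intro ρ hρ
    rw [mem_coe, mem_filter, mem_range, hM] at hρ
    rw [mem_coe, mem_range]
    exact Nat.div_lt_of_lt_mul hρ.1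
  · intro ρ hρ ρ' hρ' he
    rw [mem_coe, mem_filter] at hρ hρ'
    simp only at he
    have h1 := clsC_class hτ hτ' hρ.2 hρ'.2
    rw [← hL] at h1
    have h2 : ρ' % L = ρ % L := (Nat.modEq_iff_dvd.2 h1)
    rw [← Nat.div_add_mod ρ L, ← Nat.div_add_mod ρ' L, he, h2]

end Pool.Agent.H80.KF
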