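import Pool.Agent.H80.KF.Defs

/-!
# The part of `m` composed of the primes dividing `B`

`pt_sum`: `pt B m` is a divisor `d` of `m` all of whose prime factors divide `B`, so
`∑_{m ≤ 3N} (pt B m)^{1/4} ≤ ∑_d d^{1/4} (3N/d) ≤ 3N ∏_{p ∣ B} (1 - p^{-3/4})^{-1}
≤ 3N · 4^{ω(B)} ≤ 3N τ(B)²` (`d` over the numbers composed of primes dividing `B`; Euler product
over a finite set of primes, `Nat.factoredNumbers`).
-/

set_option autoImplicit false

namespace Pool.Agent.H80.KF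

open Finset

/-- the complementary part -/
private def pt_qt (B m : ℕ) : ℕ :=
  ∏ p ∈ m.primeFactors.filter (fun p => ¬ p ∣ B), p ^ m.factorization p

private theorem pt_mul_qt (B m : ℕ) (hm : m ≠ 0) : pt B m * pt_qt B m = m := by
  unfold pt pt_qt
  rw [Finset.prod_filter_mul_prod_filter_not]
  exact Nat.prod_factorization_pow_eq_self hm

theorem pt_dvd (B m : ℕ) (hm : m ≠ 0) : pt B m ∣ m :=
  ⟨pt_qt B m, (pt_mul_qt B m hm).symm⟩

theorem pt_pos (B m : ℕ) : 1 ≤ pt B m := by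
  unfold pt
  refine Nat.succ_le_of_lt (Finset.prod_pos fun p hp => ?_)
  have h1 := (Finset.mem_filter.1 hp).1
  exact pow_pos (Nat.prime_of_mem_primeFactors h1).pos _

private theorem pt_qt_coprime (B m : ℕ) : Nat.Coprime (pt_qt B m) B := by
  unfold pt_qt
  refine Nat.Coprime.prod_left fun p hp => ?_
  have h1 := Finset.mem_filter.1 hp
  exact Nat.Coprime.pow_left _
    ((Nat.Prime.coprime_iff_not_dvd (Nat.prime_of_mem_primeFactors h1.1)).2 h1.2)

private theorem pt_prime_dvd {B m p : ℕ} (hp : p.Prime) (h : p ∣ pt B m) : p ∣ B := by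
  unfold pt at h
  obtain ⟨q, hq, hpq⟩ := (Prime.dvd_finsetProd_iff hp.prime _).1 h
  have h1 := Finset.mem_filter.1 hq
  have h2 := (Nat.prime_dvd_prime_iff_eq hp (Nat.prime_of_mem_primeFactors h1.1)).1
    (hp.dvd_of_dvd_pow hpq)
  rw [h2]
  exact h1.2

theorem pt_coprime (B m : ℕ) (hB : B ≠ 0) (hm : m ≠ 0) :
    Nat.Coprime (m / pt B m) B ∧ Nat.Coprime (m / pt B m) (pt B m) := by
  have h1 : m / pt B m = pt_qt B m :=
    Nat.div_eq_of_eq_mul_right (pt_pos B m) (pt_mul_qt B m hm).symm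
  rw [h1]
  refine ⟨pt_qt_coprime B m, ?_⟩
  refine Nat.Coprime.symm (Nat.coprime_of_dvd fun p hp h2 h3 => ?_)
  exact Nat.Prime.not_coprime_iff_dvd.2 ⟨p, hp, h3, pt_prime_dvd hp h2⟩ (pt_qt_coprime B m)

/-- the largest divisor composed of primes dividing `B` -/
theorem dvd_pt (B m d : ℕ) (hm : m ≠ 0) (hd : d ∣ m) (h : ∀ p, p.Prime → p ∣ d → p ∣ B) :
    d ∣ pt B m := by
  have h1 : Nat.Coprime d (pt_qt B m) := by
    refine Nat.coprime_of_dvd fun p hp h2 h3 => ?_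
    exact Nat.Prime.not_coprime_iff_dvd.2 ⟨p, hp, h3, h p hp h2⟩ (pt_qt_coprime B m)
  refine h1.dvd_of_dvd_mul_right ?_
  rw [pt_mul_qt B m hm]
  exact hd

/-- `n ↦ n^{-3/4}` -/
private noncomputable def pt_f : ℕ →* ℝ where
  toFun n := (n : ℝ) ^ (-(3 : ℝ) / 4)
  map_one' := by simp
  map_mul' a b := by
    push_cast
    exact Real.mul_rpow (Nat.cast_nonneg a) (Nat.cast_nonneg b)

private theorem pt_f_apply (n : ℕ) : pt_f n = (n : ℝ) ^ (-(3 : ℝ) / 4) := rfl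

private theorem pt_f_nonneg (n : ℕ) : 0 ≤ pt_f n := Real.rpow_nonneg (Nat.cast_nonneg n) _

private theorem pt_f_prime {p : ℕ} (hp : p.Prime) : pt_f p ≤ 3 / 4 := by
  rw [pt_f_apply]
  have h1 : (2 : ℝ) ≤ p := by exact_mod_cast hp.two_le
  have h2 : (p : ℝ) ^ (-(3 : ℝ) / 4) ≤ (2 : ℝ) ^ (-(3 : ℝ) / 4) :=
    Real.rpow_le_rpow_of_nonpos (by norm_num) h1 (by norm_num)
  refine h2.trans ?_
  have h3 : ((2 : ℝ) ^ (-(3 : ℝ) / 4)) ^ (4 : ℕ) = 1 / 8 := by
    rw [← Real.rpow_natCast, ← Real.rpow_mul (by norm_num)]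
    have : (-(3 : ℝ) / 4) * ((4 : ℕ) : ℝ) = ((-3 : ℤ) : ℝ) := by norm_num
    rw [this, Real.rpow_intCast]
    norm_num
  by_contra hlt
  push Not at hlt
  have h4 : ((3 : ℝ) / 4) ^ (4 : ℕ) < ((2 : ℝ) ^ (-(3 : ℝ) / 4)) ^ (4 : ℕ) :=
    pow_lt_pow_left₀ hlt (by norm_num) (by norm_num)
  rw [h3] at h4
  norm_num at h4

private theorem pt_count (M d : ℕ) (hd : 1 ≤ d) :
    (((Ioc 0 M).filter (fun m => d ∣ m)).card : ℝ) ≤ M / d := by
  have h1 : ((Ioc 0 M).filter (fun m => d ∣ m)).card = M / d := Nat.Ioc_filter_dvd_card_eq_div M d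
  rw [h1]
  exact Nat.cast_div_le

private theorem pt_two_pow (B : ℕ) (hB : B ≠ 0) : 2 ^ B.primeFactors.card ≤ tau B := by
  unfold tau
  rw [← Finset.card_powerset]
  refine Finset.card_le_card_of_injOn (fun s => ∏ p ∈ s, p) ?_ ?_
  · intro s hs
    have hs' : s ⊆ B.primeFactors := Finset.mem_powerset.1 hs
    show ∏ p ∈ s, p ∈ (B.divisors : Set ℕ)
    rw [Finset.mem_coe, Nat.mem_divisors]
    exact ⟨(Finset.prod_dvd_prod_of_subset _ _ _ hs').trans (Nat.prod_primeFactors_dvd B), hB⟩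
  · intro s hs t ht hst
    have hs' : s ⊆ B.primeFactors := Finset.mem_powerset.1 hs
    have ht' : t ⊆ B.primeFactors := Finset.mem_powerset.1 ht
    have h1 : ∀ u : Finset ℕ, u ⊆ B.primeFactors → (∏ p ∈ u, p).primeFactors = u := by
      intro u hu
      exact Nat.primeFactors_prod fun p hp => Nat.prime_of_mem_primeFactors (hu hp)
    rw [← h1 s hs', ← h1 t ht']
    exact congrArg Nat.primeFactors hst

private theorem pt_term (B m : ℕ) (S : Finset ℕ) (hmS : pt B m ∈ S) (hm : m ≠ 0) :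
    ((pt B m : ℕ) : ℝ) ^ ((1 : ℝ) / 4) ≤
      ∑ d ∈ S, if d ∣ m then (d : ℝ) ^ ((1 : ℝ) / 4) else 0 := by
  have h1 : (if pt B m ∣ m then ((pt B m : ℕ) : ℝ) ^ ((1 : ℝ) / 4) else 0) =
      ((pt B m : ℕ) : ℝ) ^ ((1 : ℝ) / 4) := if_pos (pt_dvd B m hm)
  rw [← h1]
  refine Finset.single_le_sum (f := fun d : ℕ => if d ∣ m then (d : ℝ) ^ ((1 : ℝ) / 4) else 0)
    (fun d _ => ?_) hmS
  split_ifs
  · exact Real.rpow_nonneg (Nat.cast_nonneg d) _
  · exact le_rfl

theorem pt_sum (N B : ℕ) (hN : 1 ≤ N) (hB : 1 ≤ B) :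
    ∑ m ∈ II N, ((pt B m : ℕ) : ℝ) ^ ((1 : ℝ) / 4) ≤ 3 * N * (tau B : ℝ) ^ 2 := by
  classical
  set S : Finset ℕ := (II N).image (pt B) with hS
  have hII : II N ⊆ Ioc 0 (3 * N) := by
    intro m hm
    have := Finset.mem_Ioc.1 hm
    exact Finset.mem_Ioc.2 ⟨by omega, by omega⟩
  have hS1 : ∀ d ∈ S, 1 ≤ d := by
    intro d hd
    obtain ⟨m, _, rfl⟩ := Finset.mem_image.1 hd
    exact pt_pos B m
  have hS2 : ∀ d ∈ S, d ∈ Nat.factoredNumbers B.primeFactors := by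
    intro d hd
    obtain ⟨m, _, rfl⟩ := Finset.mem_image.1 hd
    rw [Nat.mem_factoredNumbers']
    intro p hp hpd
    exact Nat.mem_primeFactors.2 ⟨hp, pt_prime_dvd hp hpd, by omega⟩
  -- step 1
  have h1 : ∑ m ∈ II N, ((pt B m : ℕ) : ℝ) ^ ((1 : ℝ) / 4) ≤
      ∑ d ∈ S, (d : ℝ) ^ ((1 : ℝ) / 4) * ((3 * N : ℕ) / d : ℝ) := by
    calc ∑ m ∈ II N, ((pt B m : ℕ) : ℝ) ^ ((1 : ℝ) / 4)
        ≤ ∑ m ∈ II N, ∑ d ∈ S, if d ∣ m then (d : ℝ) ^ ((1 : ℝ) / 4) else 0 := by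
          refine Finset.sum_le_sum fun m hm => ?_
          have hm0 : m ≠ 0 := by
            have := Finset.mem_Ioc.1 hm
            omega
          exact pt_term B m S (Finset.mem_image_of_mem _ hm) hm0
      _ = ∑ d ∈ S, ∑ m ∈ II N, if d ∣ m then (d : ℝ) ^ ((1 : ℝ) / 4) else 0 := Finset.sum_comm
      _ ≤ ∑ d ∈ S, (d : ℝ) ^ ((1 : ℝ) / 4) * ((3 * N : ℕ) / d : ℝ) := by
          refine Finset.sum_le_sum fun d hd => ?_
          rw [← Finset.sum_filter, Finset.sum_const, nsmul_eq_mul, mul_comm]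
          refine mul_le_mul_of_nonneg_left ?_ (Real.rpow_nonneg (Nat.cast_nonneg d) _)
          refine le_trans ?_ (pt_count (3 * N) d (hS1 d hd))
          exact_mod_cast Finset.card_le_card (Finset.filter_subset_filter _ hII)
  -- step 2
  have h2 : ∑ d ∈ S, (d : ℝ) ^ ((1 : ℝ) / 4) * ((3 * N : ℕ) / d : ℝ) =
      3 * N * ∑ d ∈ S, pt_f d := by
    rw [Finset.mul_sum]
    refine Finset.sum_congr rfl fun d hd => ?_
    have hd0 : (0 : ℝ) < d := by exact_mod_cast hS1 d hd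
    have h3 : (d : ℝ) ^ ((1 : ℝ) / 4) = pt_f d * d := by
      rw [pt_f_apply]
      nth_rw 3 [← Real.rpow_one (d : ℝ)]
      rw [← Real.rpow_add hd0]
      norm_num
    rw [h3]
    push_cast
    field_simp
  -- step 3
  have hnorm : ∀ {p : ℕ}, p.Prime → ‖pt_f p‖ < 1 := by
    intro p hp
    rw [Real.norm_of_nonneg (pt_f_nonneg p)]
    have := pt_f_prime hp
    linarith
  have h4 := EulerProduct.summable_and_hasSum_factoredNumbers_prod_filter_prime_geometric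
    (f := pt_f) hnorm B.primeFactors
  have h5 : ∑ d ∈ S, pt_f d ≤ ∏ p ∈ B.primeFactors with p.Prime, (1 - pt_f p)⁻¹ := by
    have h6 : ∑ d ∈ S.attach, pt_f d.1 = ∑ d ∈ S, pt_f d := Finset.sum_attach S (fun d => pt_f d)
    rw [← h6]
    let e : {d // d ∈ S} → Nat.factoredNumbers B.primeFactors := fun d => ⟨d.1, hS2 d.1 d.2⟩
    have he : Function.Injective e := by
      intro a b hab
      apply Subtype.ext
      exact congrArg (fun x => x.1) hab
    have h7 : ∑ d ∈ S.attach, pt_f d.1 =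
        ∑ m ∈ S.attach.image e, pt_f (m : ℕ) := by
      rw [Finset.sum_image fun a _ b _ h => he h]
    rw [h7]
    exact sum_le_hasSum _ (fun m _ => pt_f_nonneg _) h4.2
  have h6 : ∏ p ∈ B.primeFactors with p.Prime, (1 - pt_f p)⁻¹ ≤ (4 : ℝ) ^ B.primeFactors.card := by
    have h7 : B.primeFactors.filter (fun p => p.Prime) = B.primeFactors :=
      Finset.filter_true_of_mem fun p hp => Nat.prime_of_mem_primeFactors hp
    rw [h7, ← Finset.prod_const]
    refine Finset.prod_le_prod (fun p hp => ?_) fun p hp => ?_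
    · have := pt_f_prime (Nat.prime_of_mem_primeFactors hp)
      exact inv_nonneg.2 (by linarith)
    · have := pt_f_prime (Nat.prime_of_mem_primeFactors hp)
      rw [inv_le_comm₀ (by linarith) (by norm_num)]
      linarith
  have h7 : (4 : ℝ) ^ B.primeFactors.card ≤ (tau B : ℝ) ^ 2 := by
    have h8 : ((2 : ℝ) ^ B.primeFactors.card) ≤ tau B := by
      exact_mod_cast pt_two_pow B (by omega)
    calc (4 : ℝ) ^ B.primeFactors.card = ((2 : ℝ) ^ B.primeFactors.card) ^ 2 := by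
          rw [← pow_mul, mul_comm, pow_mul]
          norm_num
      _ ≤ (tau B : ℝ) ^ 2 := pow_le_pow_left₀ (by positivity) h8 2
  rw [h2] at h1
  refine h1.trans ?_
  exact mul_le_mul_of_nonneg_left (h5.trans (h6.trans h7)) (by positivity)

end Pool.Agent.H80.KF
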