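import Pool.Agent.H80.KF.Defs

/-!
# The number of primes in `(P, 4P]`

Mathlib `Chebyshev.theta_ge`, `Chebyshev.theta_le_log4_mul_x`:
`θ(4P) - θ(P) ≥ 4P log 2 - P log 4 - o(P) = 2 P log 2 - o(P)`, so there are at least
`(1.38 P - o(P))/log(4P) ≥ P/log P` primes in `(P, 4P]`.
`pp_half`: at most `log(3N)/log P ≤ 30` of them divide a given `n ≤ 3N`.
-/

set_option autoImplicit false

namespace Pool.Agent.H80.KF

open Finset

theorem pp_card_le (P : ℕ) : ((PP P).card : ℝ) ≤ 3 * P := by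
  have h : (PP P).card ≤ (Ioc P (4 * P)).card := Finset.card_filter_le _ _
  rw [Nat.card_Ioc] at h
  have h2 : (PP P).card ≤ 3 * P := by omega
  exact_mod_cast h2

private theorem ppc_theta (P : ℕ) :
    Chebyshev.theta ((4 * P : ℕ) : ℝ) - Chebyshev.theta (P : ℝ) ≤
      ((PP P).card : ℝ) * Real.log (4 * P) := by
  rcases Nat.eq_zero_or_pos P with rfl | hP
  · simp
  have h1 : Chebyshev.theta ((4 * P : ℕ) : ℝ) = ∑ p ∈ (Ioc 0 (4 * P)).filter Nat.Prime, Real.log p := by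
    rw [Chebyshev.theta, Nat.floor_natCast]
  have h2 : Chebyshev.theta (P : ℝ) = ∑ p ∈ (Ioc 0 P).filter Nat.Prime, Real.log p := by
    rw [Chebyshev.theta, Nat.floor_natCast]
  have h3 : (Ioc 0 (4 * P)).filter Nat.Prime = (Ioc 0 P).filter Nat.Prime ∪ PP P := by
    ext p
    simp only [PP, Finset.mem_filter, Finset.mem_union, Finset.mem_Ioc]
    constructor
    · rintro ⟨⟨a, b⟩, c⟩
      by_cases h : p ≤ P
      · exact Or.inl ⟨⟨a, h⟩, c⟩
      · exact Or.inr ⟨⟨by omega, b⟩, c⟩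
    · rintro (⟨⟨a, b⟩, c⟩ | ⟨⟨a, b⟩, c⟩)
      · exact ⟨⟨a, by omega⟩, c⟩
      · exact ⟨⟨by omega, b⟩, c⟩
  have h4 : Disjoint ((Ioc 0 P).filter Nat.Prime) (PP P) := by
    rw [Finset.disjoint_left]
    intro p hp hq
    simp only [PP, Finset.mem_filter, Finset.mem_Ioc] at hp hq
    omega
  rw [h1, h2, h3, Finset.sum_union h4, add_sub_cancel_left]
  calc ∑ p ∈ PP P, Real.log p ≤ ∑ p ∈ PP P, Real.log (4 * P) := by
        apply Finset.sum_le_sum
        intro p hp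
        simp only [PP, Finset.mem_filter, Finset.mem_Ioc] at hp
        apply Real.log_le_log
        · exact_mod_cast (by omega : 0 < p)
        · exact_mod_cast hp.1.2
    _ = ((PP P).card : ℝ) * Real.log (4 * P) := by
        rw [Finset.sum_const, nsmul_eq_mul]

private theorem ppc_exp {L : ℝ} (hL : 400 ≤ L) : 40 * (L + 2) ≤ Real.exp (L / 2) := by
  have h1 := Real.quadratic_le_exp_of_nonneg (x := L / 2) (by linarith)
  have h2 : 40 * (L + 2) ≤ 1 + L / 2 + (L / 2) ^ 2 / 2 := by nlinarith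
  linarith

private theorem ppc_log_bounds {P : ℕ} (hP : Real.exp 400 ≤ (P : ℝ)) :
    0 < (P : ℝ) ∧ 400 ≤ Real.log P ∧ Real.log (4 * P) ≤ Real.log P + 1.4 ∧
      Real.log (4 * P + 1) ≤ Real.log P + 2 ∧ 40 * (Real.log P + 2) ≤ Real.sqrt P ∧
      1 ≤ Real.sqrt P := by
  have hpos : 0 < (P : ℝ) := lt_of_lt_of_le (Real.exp_pos _) hP
  have hL : 400 ≤ Real.log P := by
    rw [Real.le_log_iff_exp_le hpos]
    exact hP
  have hl2 := Real.log_two_lt_d9
  have h4 : Real.log 4 = 2 * Real.log 2 := by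
    rw [show (4 : ℝ) = 2 ^ 2 by norm_num, Real.log_pow]
    norm_num
  have h8 : Real.log 8 = 3 * Real.log 2 := by
    rw [show (8 : ℝ) = 2 ^ 3 by norm_num, Real.log_pow]
    norm_num
  have hs : Real.sqrt P = Real.exp (Real.log P / 2) := by
    rw [Real.sqrt_eq_rpow, Real.rpow_def_of_pos hpos]
    congr 1
    ring
  have h5 : 1 ≤ (P : ℝ) := by
    have := Real.add_one_le_exp (400 : ℝ)
    linarith
  have hexp5 : (5 : ℝ) ≤ Real.exp 2 := by
    have := Real.quadratic_le_exp_of_nonneg (x := 2) (by norm_num)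
    linarith
  refine ⟨hpos, hL, ?_, ?_, ?_, ?_⟩
  · rw [Real.log_mul (by norm_num) hpos.ne', h4]
    linarith
  · have h6 : Real.log (4 * P + 1) ≤ Real.log (5 * P) :=
      Real.log_le_log (by linarith) (by linarith)
    rw [Real.log_mul (by norm_num) hpos.ne'] at h6
    have h7 : Real.log 5 ≤ 2 := by
      rw [Real.log_le_iff_le_exp (by norm_num)]
      exact hexp5
    linarith
  · rw [hs]
    exact ppc_exp hL
  · rw [hs]
    have := ppc_exp hL
    linarith

private theorem ppc_ge {P : ℕ} (hP : Real.exp 400 ≤ (P : ℝ)) :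
    (P : ℝ) / Real.log P ≤ ((PP P).card : ℝ) := by
  obtain ⟨hpos, hL, h1, h2, h3, h3'⟩ := ppc_log_bounds hP
  have hθ := ppc_theta P
  have hg := Chebyshev.theta_ge (4 * P)
  have hu := Chebyshev.theta_le_log4_mul_x (x := (P : ℝ)) hpos.le
  have h4 : Real.log 4 = 2 * Real.log 2 := by
    rw [show (4 : ℝ) = 2 ^ 2 by norm_num, Real.log_pow]
    norm_num
  rw [h4] at hu
  push_cast at hg hθ
  have hsq : Real.sqrt (4 * P) = 2 * Real.sqrt P := by
    rw [Real.sqrt_mul (by norm_num)]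
    congr 1
    rw [show (4 : ℝ) = 2 ^ 2 by norm_num]
    exact Real.sqrt_sq (by norm_num)
  rw [hsq] at hg
  have hss : Real.sqrt P * Real.sqrt P = P := Real.mul_self_sqrt hpos.le
  have hl2 := Real.log_two_gt_d9
  have hLpos : 0 < Real.log P := by linarith
  have h5 : 4 * Real.sqrt P * Real.log (4 * P) ≤ (1 / 10) * P := by
    have h6 : Real.log (4 * P) ≤ Real.sqrt P / 40 := by linarith
    have h7 : 4 * Real.sqrt P * Real.log (4 * P) ≤ 4 * Real.sqrt P * (Real.sqrt P / 40) :=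
      mul_le_mul_of_nonneg_left h6 (by positivity)
    nlinarith
  have h8 : Real.log (4 * P + 1) ≤ (1 / 10) * P := by
    have h9 : Real.sqrt P ≤ P := by nlinarith
    linarith
  have h10 : (1.18 : ℝ) * P ≤ ((PP P).card : ℝ) * Real.log (4 * P) := by
    have h11 : 4 * (P : ℝ) * Real.log 2 - Real.log (4 * P + 1) - 2 * (2 * Real.sqrt P) * Real.log (4 * P)
        - 2 * Real.log 2 * P ≤ ((PP P).card : ℝ) * Real.log (4 * P) := by linarith
    nlinarith
  have hc0 : (0 : ℝ) ≤ ((PP P).card : ℝ) := Nat.cast_nonneg _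
  have h12 : ((PP P).card : ℝ) * Real.log (4 * P) ≤ ((PP P).card : ℝ) * (1.0035 * Real.log P) := by
    apply mul_le_mul_of_nonneg_left _ hc0
    linarith
  rw [div_le_iff₀ hLpos]
  nlinarith [mul_nonneg hc0 hLpos.le]

theorem pp_card_ge : ∃ P0 : ℕ, ∀ P : ℕ, P0 ≤ P → (P : ℝ) / Real.log P ≤ ((PP P).card : ℝ) := by
  refine ⟨⌈Real.exp 400⌉₊, fun P hP => ppc_ge ?_⟩
  exact le_trans (Nat.le_ceil _) (by exact_mod_cast hP)

private theorem ppc_60 {P : ℕ} (hP : Real.exp 400 ≤ (P : ℝ)) : 60 ≤ (PP P).card := by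
  obtain ⟨hpos, hL, -, -, h3, h3'⟩ := ppc_log_bounds hP
  have h := ppc_ge hP
  have hss : Real.sqrt P * Real.sqrt P = P := Real.mul_self_sqrt hpos.le
  have h1 : (60 : ℝ) ≤ P / Real.log P := by
    rw [le_div_iff₀ (by linarith)]
    nlinarith
  have h2 : (60 : ℝ) ≤ ((PP P).card : ℝ) := le_trans h1 h
  exact_mod_cast h2

theorem pp_half : ∃ N0 : ℕ, ∀ N P : ℕ, N0 ≤ N → (N : ℝ) ^ ((1 : ℝ) / 25) ≤ P → ∀ n ∈ II N,
    (PP P).card ≤ 2 * ((PP P).filter (fun p => ¬ p ∣ n)).card := by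
  refine ⟨max 243 ⌈Real.exp 400 ^ (25 : ℕ)⌉₊, fun N P hN hNP n hn => ?_⟩
  have hN1 : 243 ≤ N := le_trans (le_max_left _ _) hN
  have hN2 : Real.exp 400 ^ (25 : ℕ) ≤ (N : ℝ) :=
    le_trans (Nat.le_ceil _) (by exact_mod_cast le_trans (le_max_right _ _) hN)
  have hNpos : (0 : ℝ) < N := by exact_mod_cast (by omega : 0 < N)
  have hP : Real.exp 400 ≤ (P : ℝ) := by
    refine le_trans ?_ hNP
    have h1 : Real.exp 400 = (Real.exp 400 ^ (25 : ℕ)) ^ ((1 : ℝ) / 25) := by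
      rw [← Real.rpow_natCast, ← Real.rpow_mul (Real.exp_pos _).le]
      norm_num
    rw [h1]
    exact Real.rpow_le_rpow (by positivity) hN2 (by norm_num)
  have h60 := ppc_60 hP
  have hPpos : (0 : ℝ) < P := lt_of_lt_of_le (Real.exp_pos _) hP
  have hsplit : ((PP P).filter (fun p => p ∣ n)).card + ((PP P).filter (fun p => ¬ p ∣ n)).card
      = (PP P).card := Finset.card_filter_add_card_filter_not _
  have hn' : 0 < n ∧ n ≤ 3 * N := by
    unfold II at hn
    rw [Finset.mem_Ioc] at hn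
    constructor
    · omega
    · omega
  suffices hk : ((PP P).filter (fun p => p ∣ n)).card ≤ 30 by omega
  by_contra hcon
  push Not at hcon
  have hprod : ∏ p ∈ (PP P).filter (fun p => p ∣ n), p ∣ n := by
    apply Finset.prod_primes_dvd
    · intro p hp
      simp only [PP, Finset.mem_filter] at hp
      exact hp.1.2.prime
    · intro p hp
      simp only [Finset.mem_filter] at hp
      exact hp.2
  have hle := Nat.le_of_dvd hn'.1 hprod
  have hpow : P ^ ((PP P).filter (fun p => p ∣ n)).card ≤ ∏ p ∈ (PP P).filter (fun p => p ∣ n), p := by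
    apply Finset.pow_card_le_prod
    intro p hp
    simp only [PP, Finset.mem_filter, Finset.mem_Ioc] at hp
    omega
  have hP1 : 1 ≤ P := by
    have : (0 : ℝ) < P := hPpos
    exact_mod_cast this
  have h31 : P ^ 31 ≤ P ^ ((PP P).filter (fun p => p ∣ n)).card :=
    Nat.pow_le_pow_right hP1 (by omega)
  have hfin : (P : ℝ) ^ (31 : ℕ) ≤ 3 * N := by
    have : P ^ 31 ≤ 3 * N := le_trans h31 (le_trans hpow (le_trans hle hn'.2))
    exact_mod_cast this
  have h5 : ((N : ℝ) ^ ((1 : ℝ) / 25)) ^ (31 : ℕ) ≤ (P : ℝ) ^ (31 : ℕ) :=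
    pow_le_pow_left₀ (by positivity) hNP 31
  have h6 : ((N : ℝ) ^ ((1 : ℝ) / 25)) ^ (31 : ℕ) = N * (N : ℝ) ^ ((6 : ℝ) / 25) := by
    rw [← Real.rpow_natCast, ← Real.rpow_mul hNpos.le]
    nth_rewrite 2 [← Real.rpow_one (N : ℝ)]
    rw [← Real.rpow_add hNpos]
    norm_num
  have h7 : (3 : ℝ) < (N : ℝ) ^ ((6 : ℝ) / 25) := by
    have h8 : (243 : ℝ) ^ ((6 : ℝ) / 25) ≤ (N : ℝ) ^ ((6 : ℝ) / 25) :=
      Real.rpow_le_rpow (by norm_num) (by exact_mod_cast hN1) (by norm_num)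
    have h9 : (243 : ℝ) ^ ((6 : ℝ) / 25) = 3 ^ ((6 : ℝ) / 5) := by
      rw [show (243 : ℝ) = 3 ^ (5 : ℝ) by norm_num, ← Real.rpow_mul (by norm_num)]
      norm_num
    have h10 : (3 : ℝ) ^ (1 : ℝ) < 3 ^ ((6 : ℝ) / 5) :=
      Real.rpow_lt_rpow_of_exponent_lt (by norm_num) (by norm_num)
    rw [Real.rpow_one] at h10
    linarith
  nlinarith

end Pool.Agent.H80.KF
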