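import Pool.Agent.H80.KF.Split
import Pool.Agent.H80.KF.Cau
import Pool.Agent.H80.KF.Inner
import Pool.Agent.H80.KF.PPc
import Pool.Agent.H92.EH3.DivBound

/-!
# The bilinear form with Kloosterman fractions

`P = ⌊N^{1/24}⌋`.  `oo_bound`: if a term of `OO` is nonzero for some `m₁` then `K₀ ≠ 0` (`k0_ne`;
otherwise the inner sum vanishes), so by `inner`, `pt_sum`, the divisor bound
(`Pool.Agent.H92.EH.div_bound`; `1 ≤ B₀ ≤ N^{20}`, `m₁ ≤ 3N`) and `#TT ≤ 9P²(16P+1)`: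
`OO ≤ C_ε P⁸ N^{7/4+ε}`.
`lemmaK`: Cauchy in `n`: `|S|² ≤ 2N ∑_n |T_n|²`, then `split`, `cau`, `pp_card_ge`, `pp_card_le`:
`∑_n |T_n|² ≤ C_ε (N³/P + P² N^{2+7/8}) N^ε ≤ C_ε N^{3 - 1/24 + 2ε}`, `|S| ≤ C N^{2-1/48+ε}
≤ N^{2-1/50}` for large `N`.
-/

set_option autoImplicit false

namespace Pool.Agent.H80.KF

open Finset

private theorem knum_mem_PP {P p : ℕ} (h : p ∈ PP P) : 1 ≤ p ∧ p ≤ 4 * P := by
  unfold PP at h
  rw [mem_filter, mem_Ioc] at h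
  exact ⟨h.2.one_lt.le, h.1.2⟩

private theorem knum_mem_TT {P : ℕ} {τ : ℕ × ℕ × ℤ} (h : τ ∈ TT P) :
    (1 ≤ τ.1 ∧ τ.1 ≤ 4 * P) ∧ (1 ≤ τ.2.1 ∧ τ.2.1 ≤ 4 * P) ∧ |τ.2.2| ≤ 8 * (P : ℤ) := by
  unfold TT at h
  rw [mem_product, mem_product, mem_Icc] at h
  exact ⟨knum_mem_PP h.1, knum_mem_PP h.2.1, abs_le.2 h.2.2⟩

private theorem knum_K0_le {N P : ℕ} {η : ℤ} (hη : |η| ≤ 4 * (N : ℤ) ^ 2) {τ τ' : ℕ × ℕ × ℤ}
    (hτ : τ ∈ TT P) (hτ' : τ' ∈ TT P) : |K0 η τ τ'| ≤ 4096 * (N : ℤ) ^ 2 * (P : ℤ) ^ 4 := by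
  obtain ⟨⟨a1, a2⟩, ⟨a3, a4⟩, a5⟩ := knum_mem_TT hτ
  obtain ⟨⟨b1, b2⟩, ⟨b3, b4⟩, b5⟩ := knum_mem_TT hτ'
  have hP : (0 : ℤ) ≤ P := Int.natCast_nonneg P
  have key : ∀ (p q p' q' : ℕ) (r : ℤ), 1 ≤ p → p ≤ 4 * P → 1 ≤ q → q ≤ 4 * P → p' ≤ 4 * P →
      q' ≤ 4 * P → |r| ≤ 8 * (P : ℤ) →
      |((p : ℤ) - q) * r * p' * q'| ≤ 512 * (P : ℤ) ^ 4 := by
    intro p q p' q' r h1 h2 h3 h4 h5 h6 h7
    rw [abs_mul, abs_mul, abs_mul, Nat.abs_cast, Nat.abs_cast]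
    have c1 : |((p : ℤ) - q)| ≤ 4 * P := by
      rw [abs_le]
      constructor <;> omega
    have c2 : (p' : ℤ) ≤ 4 * P := by exact_mod_cast h5
    have c3 : (q' : ℤ) ≤ 4 * P := by exact_mod_cast h6
    calc |((p : ℤ) - q)| * |r| * p' * q' ≤ (4 * P) * (8 * P) * (4 * P) * (4 * P) := by
          apply mul_le_mul _ c3 (Int.natCast_nonneg _) (by positivity)
          apply mul_le_mul _ c2 (Int.natCast_nonneg _) (by positivity)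
          exact mul_le_mul c1 h7 (abs_nonneg _) (by positivity)
      _ = 512 * (P : ℤ) ^ 4 := by ring
  have k1 := key τ.1 τ.2.1 τ'.1 τ'.2.1 τ.2.2 a1 a2 a3 a4 b2 b4 a5
  have k2 := key τ'.1 τ'.2.1 τ.1 τ.2.1 τ'.2.2 b1 b2 b3 b4 a2 a4 b5
  unfold K0
  rw [abs_mul]
  calc |η| * |((τ.1 : ℤ) - τ.2.1) * τ.2.2 * τ'.1 * τ'.2.1 -
        ((τ'.1 : ℤ) - τ'.2.1) * τ'.2.2 * τ.1 * τ.2.1|
      ≤ (4 * (N : ℤ) ^ 2) * (512 * (P : ℤ) ^ 4 + 512 * (P : ℤ) ^ 4) := by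
        apply mul_le_mul hη _ (abs_nonneg _) (by positivity)
        exact (abs_sub _ _).trans (add_le_add k1 k2)
    _ = 4096 * (N : ℤ) ^ 2 * (P : ℤ) ^ 4 := by ring

private theorem knum_B0_le {N P : ℕ} (hPN : P ≤ N) {η : ℤ} (hη : |η| ≤ 4 * (N : ℤ) ^ 2)
    {τ τ' : ℕ × ℕ × ℤ} (hτ : τ ∈ TT P) (hτ' : τ' ∈ TT P) :
    B0 η τ τ' ≤ 2 ^ 26 * N ^ 12 := by
  obtain ⟨⟨a1, a2⟩, ⟨a3, a4⟩, a5⟩ := knum_mem_TT hτ
  obtain ⟨⟨b1, b2⟩, ⟨b3, b4⟩, b5⟩ := knum_mem_TT hτ'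
  have k1 : (K0 η τ τ').natAbs ≤ 4096 * N ^ 2 * P ^ 4 := by
    have := knum_K0_le hη hτ hτ'
    rw [Int.abs_eq_natAbs] at this
    exact_mod_cast this
  have k2 : τ.2.2.natAbs ≤ 8 * P := by
    rw [Int.abs_eq_natAbs] at a5
    exact_mod_cast a5
  have k3 : τ'.2.2.natAbs ≤ 8 * P := by
    rw [Int.abs_eq_natAbs] at b5
    exact_mod_cast b5
  unfold B0
  calc (K0 η τ τ').natAbs * (τ.2.2.natAbs * τ'.2.2.natAbs) * (τ.1 * τ.2.1 * (τ'.1 * τ'.2.1))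
      ≤ (4096 * N ^ 2 * P ^ 4) * ((8 * P) * (8 * P)) * ((4 * P) * (4 * P) * ((4 * P) * (4 * P))) :=
        Nat.mul_le_mul (Nat.mul_le_mul k1 (Nat.mul_le_mul k2 k3))
          (Nat.mul_le_mul (Nat.mul_le_mul a2 a4) (Nat.mul_le_mul b2 b4))
    _ = 2 ^ 26 * (N ^ 2 * P ^ 10) := by ring
    _ ≤ 2 ^ 26 * (N ^ 2 * N ^ 10) := by
        apply Nat.mul_le_mul_left
        apply Nat.mul_le_mul_left
        exact Nat.pow_le_pow_left hPN 10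
    _ = 2 ^ 26 * N ^ 12 := by ring

private theorem knum_gg {F : ℝ → ℂ} {η : ℤ} {N : ℕ} {τ : ℕ × ℕ × ℤ} {m1 m2 : ℕ}
    (h : gg F η N τ m1 m2 ≠ 0) : Adm N τ.1 τ.2.1 τ.2.2 m1 m2 := by
  by_contra hc
  apply h
  unfold gg
  rw [if_neg hc]

private theorem knum_II {N m : ℕ} (hN : 1 ≤ N) (h : m ∈ II N) : 1 ≤ m ∧ m ≤ 3 * N := by
  unfold II at h
  rw [mem_Ioc] at h
  omega

private theorem knum_TT_card {P : ℕ} (hP : 1 ≤ P) : ((TT P).card : ℝ) ≤ 153 * (P : ℝ) ^ 3 := by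
  have hP' : (1 : ℝ) ≤ P := by exact_mod_cast hP
  unfold TT
  rw [card_product, card_product, Int.card_Icc]
  have e : ((8 * (P : ℤ) + 1 - -(8 * P : ℤ)).toNat) = 16 * P + 1 := by omega
  rw [e]
  push_cast
  have h := pp_card_le P
  have h0 : (0 : ℝ) ≤ ((PP P).card : ℝ) := Nat.cast_nonneg _
  calc ((PP P).card : ℝ) * (((PP P).card : ℝ) * (16 * P + 1))
      ≤ (3 * P) * ((3 * P) * (17 * P)) := by
        apply mul_le_mul h _ (by positivity) (by positivity)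
        apply mul_le_mul h _ (by positivity) (by positivity)
        linarith
    _ = 153 * (P : ℝ) ^ 3 := by ring

private theorem knum_term {δ C1 : ℝ} (hδ : 0 < δ) (hC1 : 1 ≤ C1)
    (hdiv : ∀ n : ℕ, 1 ≤ n → (n.divisors.card : ℝ) ≤ C1 * (n : ℝ) ^ δ)
    {N P : ℕ} (hN : 1 ≤ N) (hP : 1 ≤ P) (hPN : P ≤ N) {η : ℤ} (hη0 : η ≠ 0)
    (hη : |η| ≤ 4 * (N : ℤ) ^ 2) {F : ℝ → ℂ} (hF : Wt N F) {τ τ' : ℕ × ℕ × ℤ}
    (hτ : τ ∈ TT P) (hτ' : τ' ∈ TT P) (hd : ¬ Diag τ τ') :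
    ∑ m1 ∈ II N, ‖∑ m2 ∈ II N, gg F η N τ m1 m2 * (starRingEnd ℂ) (gg F η N τ' m1 m2)‖ ≤
      10 ^ 7 * (P : ℝ) ^ 2 * (N : ℝ) ^ ((3 : ℝ) / 4) * (Real.log N + 1) * (C1 * (3 * (N : ℝ)) ^ δ) *
        (3 * N * (C1 * (2 ^ 26 * (N : ℝ) ^ 12) ^ δ) ^ 2) := by
  have hN1 : (1 : ℝ) ≤ N := by exact_mod_cast hN
  have hlog : 0 ≤ Real.log N := Real.log_nonneg hN1
  have hC0 : 0 < C1 := by linarith
  by_cases hex : ∃ m1 ∈ II N, ∃ m2 ∈ II N, gg F η N τ m1 m2 ≠ 0 ∧ gg F η N τ' m1 m2 ≠ 0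
  · obtain ⟨m1, _, m2, _, h1, h2⟩ := hex
    have ha := knum_gg h1
    have ha' := knum_gg h2
    have hK : K0 η τ τ' ≠ 0 := k0_ne N P η hη0 τ τ' hτ hτ' hd m1 m2 m1 m2 ha ha'
    have hr : τ.2.2 ≠ 0 := ha.2.2.2.1
    have hr' : τ'.2.2 ≠ 0 := ha'.2.2.2.1
    obtain ⟨⟨a1, a2⟩, ⟨a3, a4⟩, a5⟩ := knum_mem_TT hτ
    obtain ⟨⟨b1, b2⟩, ⟨b3, b4⟩, b5⟩ := knum_mem_TT hτ'
    have hB1 : 1 ≤ B0 η τ τ' := by
      unfold B0
      have c1 : 0 < (K0 η τ τ').natAbs := Int.natAbs_pos.2 hK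
      have c2 : 0 < τ.2.2.natAbs := Int.natAbs_pos.2 hr
      have c3 : 0 < τ'.2.2.natAbs := Int.natAbs_pos.2 hr'
      exact Nat.mul_pos (Nat.mul_pos c1 (Nat.mul_pos c2 c3))
        (Nat.mul_pos (Nat.mul_pos a1 a3) (Nat.mul_pos b1 b3))
    have hB2 := knum_B0_le hPN hη hτ hτ'
    have htB : (tau (B0 η τ τ') : ℝ) ≤ C1 * (2 ^ 26 * (N : ℝ) ^ 12) ^ δ := by
      refine (hdiv _ hB1).trans ?_
      apply mul_le_mul_of_nonneg_left _ hC0.le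
      apply Real.rpow_le_rpow (Nat.cast_nonneg _) _ hδ.le
      exact_mod_cast hB2
    have htm : ∀ m ∈ II N, (tau m : ℝ) ^ ((3 : ℝ) / 4) ≤ C1 * (3 * (N : ℝ)) ^ δ := by
      intro m hm
      obtain ⟨d1, d2⟩ := knum_II hN hm
      have e1 : (tau m : ℝ) ≤ C1 * (3 * (N : ℝ)) ^ δ := by
        refine (hdiv _ d1).trans ?_
        apply mul_le_mul_of_nonneg_left _ hC0.le
        apply Real.rpow_le_rpow (Nat.cast_nonneg _) _ hδ.le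
        exact_mod_cast d2
      have e2 : (1 : ℝ) ≤ (tau m : ℝ) := by
        have : 1 ≤ m.divisors.card := Finset.card_pos.2 ⟨1, Nat.one_mem_divisors.2 (by omega)⟩
        exact_mod_cast this
      have e3 : (tau m : ℝ) ^ ((3 : ℝ) / 4) ≤ (tau m : ℝ) ^ (1 : ℝ) :=
        Real.rpow_le_rpow_of_exponent_le e2 (by norm_num)
      rw [Real.rpow_one] at e3
      exact e3.trans e1
    calc ∑ m1 ∈ II N, ‖∑ m2 ∈ II N, gg F η N τ m1 m2 * (starRingEnd ℂ) (gg F η N τ' m1 m2)‖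
        ≤ ∑ m1 ∈ II N, 10 ^ 7 * (P : ℝ) ^ 2 * (N : ℝ) ^ ((3 : ℝ) / 4) * (Real.log N + 1) *
            (C1 * (3 * (N : ℝ)) ^ δ) * ((pt (B0 η τ τ') m1 : ℕ) : ℝ) ^ ((1 : ℝ) / 4) := by
          apply Finset.sum_le_sum
          intro m hm
          refine (inner N P hN hP η hη F hF τ τ' hτ hτ' hK m hm).trans ?_
          have f1 : (0 : ℝ) ≤ ((pt (B0 η τ τ') m : ℕ) : ℝ) ^ ((1 : ℝ) / 4) :=
            Real.rpow_nonneg (Nat.cast_nonneg _) _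
          calc 10 ^ 7 * (P : ℝ) ^ 2 * (N : ℝ) ^ ((3 : ℝ) / 4) * (Real.log N + 1) *
                ((pt (B0 η τ τ') m : ℕ) : ℝ) ^ ((1 : ℝ) / 4) * (tau m : ℝ) ^ ((3 : ℝ) / 4)
              ≤ 10 ^ 7 * (P : ℝ) ^ 2 * (N : ℝ) ^ ((3 : ℝ) / 4) * (Real.log N + 1) *
                ((pt (B0 η τ τ') m : ℕ) : ℝ) ^ ((1 : ℝ) / 4) * (C1 * (3 * (N : ℝ)) ^ δ) :=
                mul_le_mul_of_nonneg_left (htm m hm) (by positivity)
            _ = _ := by ring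
      _ = 10 ^ 7 * (P : ℝ) ^ 2 * (N : ℝ) ^ ((3 : ℝ) / 4) * (Real.log N + 1) *
            (C1 * (3 * (N : ℝ)) ^ δ) *
            ∑ m1 ∈ II N, ((pt (B0 η τ τ') m1 : ℕ) : ℝ) ^ ((1 : ℝ) / 4) := by
          rw [Finset.mul_sum]
      _ ≤ _ := by
          apply mul_le_mul_of_nonneg_left _ (by positivity)
          refine (pt_sum N _ hN hB1).trans ?_
          apply mul_le_mul_of_nonneg_left _ (by positivity)
          exact pow_le_pow_left₀ (Nat.cast_nonneg _) htB 2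
  · push Not at hex
    have hz : ∑ m1 ∈ II N, ‖∑ m2 ∈ II N,
        gg F η N τ m1 m2 * (starRingEnd ℂ) (gg F η N τ' m1 m2)‖ = 0 := by
      apply Finset.sum_eq_zero
      intro m1 hm1
      rw [norm_eq_zero]
      apply Finset.sum_eq_zero
      intro m2 hm2
      by_cases h0 : gg F η N τ m1 m2 = 0
      · rw [h0, zero_mul]
      · rw [hex m1 hm1 m2 hm2 h0, map_zero, mul_zero]
    rw [hz]
    positivity

theorem oo_bound (ε : ℝ) (hε : 0 < ε) : ∃ C : ℝ, 0 < C ∧ ∀ N P : ℕ, 1 ≤ N → 1 ≤ P → P ≤ N →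
    ∀ η : ℤ, η ≠ 0 → |η| ≤ 4 * (N : ℤ) ^ 2 → ∀ F : ℝ → ℂ, Wt N F →
    OO F η N P ≤ C * (P : ℝ) ^ 8 * (N : ℝ) ^ (7 / 4 + ε) := by
  obtain ⟨δ, hδe⟩ : ∃ δ : ℝ, δ = ε / 26 := ⟨_, rfl⟩
  have hδ : 0 < δ := by rw [hδe]; positivity
  obtain ⟨C1, hC1, hdiv⟩ := Pool.Agent.H92.EH.div_bound δ hδ
  have hC0 : 0 < C1 := by linarith
  refine ⟨153 ^ 2 * (10 ^ 7 * (1 / δ + 1) * (C1 * 3 ^ δ) * (3 * (C1 * (2 ^ 26) ^ δ) ^ 2)),
    by positivity, ?_⟩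
  intro N P hN hP hPN η hη0 hη F hF
  have hN1 : (1 : ℝ) ≤ N := by exact_mod_cast hN
  have hN0 : (0 : ℝ) < N := by linarith
  have hP1 : (1 : ℝ) ≤ P := by exact_mod_cast hP
  have hlog : 0 ≤ Real.log N := Real.log_nonneg hN1
  obtain ⟨Bd, hBd⟩ : ∃ Bd : ℝ, Bd = 10 ^ 7 * (P : ℝ) ^ 2 * (N : ℝ) ^ ((3 : ℝ) / 4) *
      (Real.log N + 1) * (C1 * (3 * (N : ℝ)) ^ δ) *
        (3 * N * (C1 * (2 ^ 26 * (N : ℝ) ^ 12) ^ δ) ^ 2) := ⟨_, rfl⟩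
  have hBd0 : 0 ≤ Bd := by rw [hBd]; positivity
  have h1 : OO F η N P ≤ (153 * (P : ℝ) ^ 3) ^ 2 * Bd := by
    unfold OO
    calc _ ≤ ∑ t ∈ (TT P ×ˢ TT P).filter (fun t => ¬ Diag t.1 t.2), Bd := by
          apply Finset.sum_le_sum
          intro t ht
          rw [mem_filter, mem_product] at ht
          rw [hBd]
          exact knum_term hδ hC1 hdiv hN hP hPN hη0 hη hF ht.1.1 ht.1.2 ht.2
      _ = (((TT P ×ˢ TT P).filter (fun t => ¬ Diag t.1 t.2)).card : ℝ) * Bd := by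
          rw [Finset.sum_const, nsmul_eq_mul]
      _ ≤ (153 * (P : ℝ) ^ 3) ^ 2 * Bd := by
          apply mul_le_mul_of_nonneg_right _ hBd0
          have c1 : (((TT P ×ˢ TT P).filter (fun t => ¬ Diag t.1 t.2)).card : ℝ) ≤
              ((TT P ×ˢ TT P).card : ℝ) := by exact_mod_cast Finset.card_filter_le _ _
          refine c1.trans ?_
          rw [card_product]
          push_cast
          rw [pow_two]
          exact mul_le_mul (knum_TT_card hP) (knum_TT_card hP) (Nat.cast_nonneg _) (by positivity)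
  refine h1.trans ?_
  have hNd : (1 : ℝ) ≤ (N : ℝ) ^ δ := Real.one_le_rpow hN1 hδ.le
  have e1 : Real.log N + 1 ≤ (1 / δ + 1) * (N : ℝ) ^ δ := by
    have := Real.log_le_rpow_div hN0.le hδ
    have e : (1 / δ + 1) * (N : ℝ) ^ δ = (N : ℝ) ^ δ / δ + (N : ℝ) ^ δ := by ring
    rw [e]
    linarith
  have e2 : (3 * (N : ℝ)) ^ δ = 3 ^ δ * (N : ℝ) ^ δ := Real.mul_rpow (by norm_num) hN0.le
  have e3 : (2 ^ 26 * (N : ℝ) ^ 12) ^ δ = (2 ^ 26) ^ δ * (N : ℝ) ^ (12 * δ) := by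
    rw [Real.mul_rpow (by norm_num) (by positivity), ← Real.rpow_natCast (N : ℝ) 12,
      ← Real.rpow_mul hN0.le]
    norm_num
  have e4 : (N : ℝ) ^ (7 / 4 + ε) = (N : ℝ) ^ ((3 : ℝ) / 4) * (N : ℝ) ^ δ * (N : ℝ) ^ δ * N *
      ((N : ℝ) ^ (12 * δ)) ^ 2 := by
    rw [← Real.rpow_natCast ((N : ℝ) ^ (12 * δ)) 2, ← Real.rpow_mul hN0.le,
      ← Real.rpow_add hN0, ← Real.rpow_add hN0, ← Real.rpow_add_one hN0.ne',
      ← Real.rpow_add hN0]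
    congr 1
    rw [hδe]
    push_cast
    ring
  rw [hBd, e2, e3, e4]
  calc (153 * (P : ℝ) ^ 3) ^ 2 * (10 ^ 7 * (P : ℝ) ^ 2 * (N : ℝ) ^ ((3 : ℝ) / 4) *
        (Real.log N + 1) * (C1 * (3 ^ δ * (N : ℝ) ^ δ)) *
        (3 * N * (C1 * ((2 ^ 26) ^ δ * (N : ℝ) ^ (12 * δ))) ^ 2))
      ≤ (153 * (P : ℝ) ^ 3) ^ 2 * (10 ^ 7 * (P : ℝ) ^ 2 * (N : ℝ) ^ ((3 : ℝ) / 4) *
        ((1 / δ + 1) * (N : ℝ) ^ δ) * (C1 * (3 ^ δ * (N : ℝ) ^ δ)) *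
        (3 * N * (C1 * ((2 ^ 26) ^ δ * (N : ℝ) ^ (12 * δ))) ^ 2)) := by
        apply mul_le_mul_of_nonneg_left _ (by positivity)
        apply mul_le_mul_of_nonneg_right _ (by positivity)
        apply mul_le_mul_of_nonneg_right _ (by positivity)
        exact mul_le_mul_of_nonneg_left e1 (by positivity)
    _ = _ := by ring

private theorem knum_W {N P : ℕ} (hN : 1 ≤ N) (hP : 1 ≤ P) (hPN : P ≤ N) {c Λ U O C W e0 : ℝ}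
    (hc : (P : ℝ) / Λ ≤ c) (hΛ : 1 ≤ Λ) (hU : 0 ≤ U) (hC : 0 ≤ C)
    (hUO : U ^ 2 ≤ (2 * N) ^ 2 * (2 * ((2 * N) ^ 2 * c ^ 2) + O))
    (hO : O ≤ C * (P : ℝ) ^ 8 * (N : ℝ) ^ (7 / 4 + e0))
    (hW : W ≤ 12 * N / c ^ 2 * (c * (2 * N) ^ 2 + 2 * (2 * N) * c ^ 2 * (2 * N / P + 1) + U)) :
    W ≤ 120 * (N : ℝ) ^ 3 * Λ / P + 144 * (N : ℝ) ^ 3 / P +
      24 * Real.sqrt C * (N : ℝ) ^ (23 / 8 + e0 / 2) * (P : ℝ) ^ 2 * Λ ^ 2 := by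
  have hN1 : (1 : ℝ) ≤ N := by exact_mod_cast hN
  have hN0 : (0 : ℝ) < N := by linarith
  have hP1 : (1 : ℝ) ≤ P := by exact_mod_cast hP
  have hP0 : (0 : ℝ) < P := by linarith
  have hΛ0 : 0 < Λ := by linarith
  have hc0 : 0 < c := lt_of_lt_of_le (by positivity) hc
  have hic : 1 / c ≤ Λ / P := by
    rw [div_le_div_iff₀ hc0 hP0]
    rw [div_le_iff₀ hΛ0] at hc
    linarith
  obtain ⟨Q, hQ⟩ : ∃ Q : ℝ, Q = Real.sqrt C * (P : ℝ) ^ 4 * (N : ℝ) ^ (7 / 8 + e0 / 2) := ⟨_, rfl⟩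
  have hQ0 : 0 ≤ Q := by rw [hQ]; positivity
  have hOQ : O ≤ Q ^ 2 := by
    refine hO.trans (le_of_eq ?_)
    rw [hQ, mul_pow, mul_pow, Real.sq_sqrt hC, ← pow_mul, ← Real.rpow_natCast ((N : ℝ) ^ _) 2,
      ← Real.rpow_mul hN0.le]
    congr 2
    push_cast
    ring
  have hUle : U ≤ 6 * (N : ℝ) ^ 2 * c + 2 * N * Q := by
    apply (pow_le_pow_iff_left₀ hU (by positivity) two_ne_zero).1
    refine hUO.trans ?_
    have h1 : (2 * (N : ℝ)) ^ 2 * (2 * ((2 * N) ^ 2 * c ^ 2) + O) ≤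
        (2 * (N : ℝ)) ^ 2 * (2 * ((2 * N) ^ 2 * c ^ 2) + Q ^ 2) :=
      mul_le_mul_of_nonneg_left (by linarith) (by positivity)
    refine h1.trans ?_
    have h2 : (6 * (N : ℝ) ^ 2 * c + 2 * N * Q) ^ 2 =
        (2 * (N : ℝ)) ^ 2 * (2 * ((2 * N) ^ 2 * c ^ 2) + Q ^ 2) +
          (4 * (N : ℝ) ^ 4 * c ^ 2 + 24 * (N : ℝ) ^ 3 * c * Q) := by ring
    rw [h2]
    have h3 : 0 ≤ 4 * (N : ℝ) ^ 4 * c ^ 2 + 24 * (N : ℝ) ^ 3 * c * Q := by positivity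
    linarith
  have hstep : W ≤ 12 * N / c ^ 2 * (c * (2 * N) ^ 2 + 2 * (2 * N) * c ^ 2 * (2 * N / P + 1) +
      (6 * (N : ℝ) ^ 2 * c + 2 * N * Q)) := by
    refine hW.trans ?_
    apply mul_le_mul_of_nonneg_left _ (by positivity)
    linarith
  have heq : 12 * (N : ℝ) / c ^ 2 * (c * (2 * N) ^ 2 + 2 * (2 * N) * c ^ 2 * (2 * N / P + 1) +
      (6 * (N : ℝ) ^ 2 * c + 2 * N * Q)) =
      120 * (N : ℝ) ^ 3 * (1 / c) + 24 * (N : ℝ) ^ 2 * Q * (1 / c) ^ 2 +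
        96 * (N : ℝ) ^ 3 / P + 48 * (N : ℝ) ^ 2 := by
    field_simp
    ring
  rw [heq] at hstep
  have h1c : 0 ≤ 1 / c := by positivity
  have t1 : 120 * (N : ℝ) ^ 3 * (1 / c) ≤ 120 * (N : ℝ) ^ 3 * (Λ / P) :=
    mul_le_mul_of_nonneg_left hic (by positivity)
  have t2 : 24 * (N : ℝ) ^ 2 * Q * (1 / c) ^ 2 ≤ 24 * (N : ℝ) ^ 2 * Q * (Λ / P) ^ 2 :=
    mul_le_mul_of_nonneg_left (pow_le_pow_left₀ h1c hic 2) (by positivity)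
  have t3 : (N : ℝ) ^ 2 ≤ (N : ℝ) ^ 3 / P := by
    rw [le_div_iff₀ hP0]
    have : (P : ℝ) ≤ N := by exact_mod_cast hPN
    have h5 : (N : ℝ) ^ 2 * P ≤ (N : ℝ) ^ 2 * N := mul_le_mul_of_nonneg_left this (by positivity)
    calc (N : ℝ) ^ 2 * P ≤ (N : ℝ) ^ 2 * N := h5
      _ = (N : ℝ) ^ 3 := by ring
  have t4 : 24 * (N : ℝ) ^ 2 * Q * (Λ / P) ^ 2 =
      24 * Real.sqrt C * (N : ℝ) ^ (23 / 8 + e0 / 2) * (P : ℝ) ^ 2 * Λ ^ 2 := by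
    have e : (N : ℝ) ^ (23 / 8 + e0 / 2) = (N : ℝ) ^ 2 * (N : ℝ) ^ (7 / 8 + e0 / 2) := by
      rw [← Real.rpow_natCast (N : ℝ) 2, ← Real.rpow_add hN0]
      congr 1
      push_cast
      ring
    rw [hQ, e]
    field_simp
  calc W ≤ _ := hstep
    _ ≤ 120 * (N : ℝ) ^ 3 * (Λ / P) + 24 * (N : ℝ) ^ 2 * Q * (Λ / P) ^ 2 +
        96 * (N : ℝ) ^ 3 / P + 48 * ((N : ℝ) ^ 3 / P) := by linarith
    _ = _ := by rw [t4]; ring

private theorem knum_cauchy {N : ℕ} (hN : 1 ≤ N) (β T : ℕ → ℂ) (hβ : ∀ n, ‖β n‖ ≤ 1) :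
    ‖∑ n ∈ II N, β n * T n‖ ^ 2 ≤ 2 * N * ∑ n ∈ II N, ‖T n‖ ^ 2 := by
  have h1 : ‖∑ n ∈ II N, β n * T n‖ ≤ ∑ n ∈ II N, ‖T n‖ := by
    refine (norm_sum_le _ _).trans (Finset.sum_le_sum fun n _ => ?_)
    rw [norm_mul]
    have := mul_le_mul_of_nonneg_right (hβ n) (norm_nonneg (T n))
    rw [one_mul] at this
    exact this
  have h2 : (∑ n ∈ II N, ‖T n‖) ^ 2 ≤ ((II N).card : ℝ) * ∑ n ∈ II N, ‖T n‖ ^ 2 :=
    sq_sum_le_card_mul_sum_sq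
  have h3 : ((II N).card : ℝ) ≤ 2 * N := by
    have : (II N).card ≤ 2 * N := by
      unfold II
      rw [Nat.card_Ioc]
      omega
    exact_mod_cast this
  calc ‖∑ n ∈ II N, β n * T n‖ ^ 2 ≤ (∑ n ∈ II N, ‖T n‖) ^ 2 :=
        pow_le_pow_left₀ (norm_nonneg _) h1 2
    _ ≤ _ := h2
    _ ≤ _ := mul_le_mul_of_nonneg_right h3 (Finset.sum_nonneg fun n _ => by positivity)

private theorem knum_final {N P : ℕ} (hN : 1 ≤ N) {C W Λ : ℝ} (hC : 0 ≤ C)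
    (hΛ0 : 0 ≤ Λ) (hΛ : Λ ≤ 10000 * (N : ℝ) ^ ((1 : ℝ) / 10000))
    (hP1 : (P : ℝ) ≤ (N : ℝ) ^ ((1 : ℝ) / 24)) (hP2 : (N : ℝ) ^ ((1 : ℝ) / 24) ≤ 2 * P)
    (hW : W ≤ 120 * (N : ℝ) ^ 3 * Λ / P + 144 * (N : ℝ) ^ 3 / P +
      24 * Real.sqrt C * (N : ℝ) ^ ((23 : ℝ) / 8 + (1 / 5000) / 2) * (P : ℝ) ^ 2 * Λ ^ 2) :
    W ≤ (2400288 + 2400000000 * Real.sqrt C) * (N : ℝ) ^ ((71 : ℝ) / 24 + 3 / 10000) := by
  have hN1 : (1 : ℝ) ≤ N := by exact_mod_cast hN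
  have hN0 : (0 : ℝ) < N := by linarith
  have hx0 : 0 < (N : ℝ) ^ ((1 : ℝ) / 24) := Real.rpow_pos_of_pos hN0 _
  have hP0 : (0 : ℝ) < P := by linarith
  obtain ⟨y, hy⟩ : ∃ y : ℝ, y = (N : ℝ) ^ ((1 : ℝ) / 10000) := ⟨_, rfl⟩
  have hy1 : 1 ≤ y := by rw [hy]; exact Real.one_le_rpow hN1 (by norm_num)
  rw [← hy] at hΛ
  have hinv : (N : ℝ) ^ 3 / P ≤ 2 * (N : ℝ) ^ ((71 : ℝ) / 24) := by
    rw [div_le_iff₀ hP0]
    have e : (N : ℝ) ^ 3 = (N : ℝ) ^ ((71 : ℝ) / 24) * (N : ℝ) ^ ((1 : ℝ) / 24) := by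
      rw [← Real.rpow_natCast (N : ℝ) 3, ← Real.rpow_add hN0]
      congr 1
      push_cast
      norm_num
    rw [e]
    calc (N : ℝ) ^ ((71 : ℝ) / 24) * (N : ℝ) ^ ((1 : ℝ) / 24) ≤
          (N : ℝ) ^ ((71 : ℝ) / 24) * (2 * P) := mul_le_mul_of_nonneg_left hP2 (by positivity)
      _ = _ := by ring
  have hE : (N : ℝ) ^ ((71 : ℝ) / 24 + 3 / 10000) = (N : ℝ) ^ ((71 : ℝ) / 24) * y ^ 3 := by
    rw [hy, ← Real.rpow_natCast ((N : ℝ) ^ _) 3, ← Real.rpow_mul hN0.le, ← Real.rpow_add hN0]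
    congr 1
    push_cast
    norm_num
  have hPsq : (N : ℝ) ^ ((23 : ℝ) / 8 + (1 / 5000) / 2) * (P : ℝ) ^ 2 ≤
      (N : ℝ) ^ ((71 : ℝ) / 24) * y := by
    have e : (N : ℝ) ^ ((71 : ℝ) / 24) * y =
        (N : ℝ) ^ ((23 : ℝ) / 8 + (1 / 5000) / 2) * ((N : ℝ) ^ ((1 : ℝ) / 24)) ^ 2 := by
      rw [hy, ← Real.rpow_natCast ((N : ℝ) ^ _) 2, ← Real.rpow_mul hN0.le, ← Real.rpow_add hN0,
        ← Real.rpow_add hN0]
      congr 1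
      push_cast
      norm_num
    rw [e]
    exact mul_le_mul_of_nonneg_left (pow_le_pow_left₀ hP0.le hP1 2) (by positivity)
  rw [hE]
  obtain ⟨G, hG⟩ : ∃ G : ℝ, G = (N : ℝ) ^ ((71 : ℝ) / 24) := ⟨_, rfl⟩
  have hG0 : 0 < G := by rw [hG]; positivity
  rw [← hG] at hinv hPsq ⊢
  have hs0 : 0 ≤ Real.sqrt C := Real.sqrt_nonneg C
  have hy2 : y ≤ y ^ 3 := by
    have : y * 1 ≤ y * (y * y) := mul_le_mul_of_nonneg_left (by nlinarith) (by linarith)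
    calc y = y * 1 := by ring
      _ ≤ y * (y * y) := this
      _ = y ^ 3 := by ring
  have hy3 : 1 ≤ y ^ 3 := one_le_pow₀ hy1
  have t1 : 120 * (N : ℝ) ^ 3 * Λ / P ≤ 2400000 * (G * y ^ 3) := by
    calc 120 * (N : ℝ) ^ 3 * Λ / P = 120 * Λ * ((N : ℝ) ^ 3 / P) := by ring
      _ ≤ 120 * Λ * (2 * G) := mul_le_mul_of_nonneg_left hinv (by positivity)
      _ ≤ 120 * (10000 * y) * (2 * G) := by
          apply mul_le_mul_of_nonneg_right _ (by positivity)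
          exact mul_le_mul_of_nonneg_left hΛ (by norm_num)
      _ = 2400000 * G * y := by ring
      _ ≤ 2400000 * G * y ^ 3 := mul_le_mul_of_nonneg_left hy2 (by positivity)
      _ = _ := by ring
  have t2 : 144 * (N : ℝ) ^ 3 / P ≤ 288 * (G * y ^ 3) := by
    calc 144 * (N : ℝ) ^ 3 / P = 144 * ((N : ℝ) ^ 3 / P) := by ring
      _ ≤ 144 * (2 * G) := mul_le_mul_of_nonneg_left hinv (by norm_num)
      _ = 288 * G * 1 := by ring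
      _ ≤ 288 * G * y ^ 3 := mul_le_mul_of_nonneg_left hy3 (by positivity)
      _ = _ := by ring
  have t3 : 24 * Real.sqrt C * (N : ℝ) ^ ((23 : ℝ) / 8 + (1 / 5000) / 2) * (P : ℝ) ^ 2 * Λ ^ 2 ≤
      2400000000 * Real.sqrt C * (G * y ^ 3) := by
    calc 24 * Real.sqrt C * (N : ℝ) ^ ((23 : ℝ) / 8 + (1 / 5000) / 2) * (P : ℝ) ^ 2 * Λ ^ 2
        = 24 * Real.sqrt C * Λ ^ 2 *
          ((N : ℝ) ^ ((23 : ℝ) / 8 + (1 / 5000) / 2) * (P : ℝ) ^ 2) := by ring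
      _ ≤ 24 * Real.sqrt C * Λ ^ 2 * (G * y) := mul_le_mul_of_nonneg_left hPsq (by positivity)
      _ ≤ 24 * Real.sqrt C * (10000 * y) ^ 2 * (G * y) := by
          apply mul_le_mul_of_nonneg_right _ (by positivity)
          exact mul_le_mul_of_nonneg_left (pow_le_pow_left₀ hΛ0 hΛ 2) (by positivity)
      _ = _ := by ring
  calc W ≤ _ := hW
    _ ≤ 2400000 * (G * y ^ 3) + 288 * (G * y ^ 3) + 2400000000 * Real.sqrt C * (G * y ^ 3) := by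
        linarith
    _ = _ := by ring

private theorem knum_large (κ B : ℝ) (hκ : 0 < κ) :
    ∃ N0 : ℕ, ∀ N : ℕ, N0 ≤ N → B ≤ (N : ℝ) ^ κ := by
  have h := ((tendsto_rpow_atTop hκ).comp
    (tendsto_natCast_atTop_atTop (R := ℝ))).eventually_ge_atTop B
  obtain ⟨N0, h0⟩ := Filter.eventually_atTop.1 h
  exact ⟨N0, fun N hN => h0 N hN⟩

theorem lemmaK : ∃ N0 : ℕ, ∀ N : ℕ, N0 ≤ N → ∀ η : ℤ, η ≠ 0 → |η| ≤ 4 * (N : ℤ) ^ 2 →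
    ∀ α β : ℕ → ℂ, (∀ m, ‖α m‖ ≤ 1) → (∀ n, ‖β n‖ ≤ 1) → ∀ F : ℝ → ℂ, Wt N F →
    ‖∑ n ∈ II N, ∑ m ∈ (II N).filter (fun m => Nat.Coprime m n),
        α m * β n * F ((m : ℝ) * n) * kf n η m‖ ≤ (N : ℝ) ^ ((2 : ℝ) - 1 / 50) := by
  obtain ⟨C, hC, hOO⟩ := oo_bound (1 / 5000) (by norm_num)
  obtain ⟨P0, hP0⟩ := pp_card_ge
  obtain ⟨Nh, hNh⟩ := pp_half
  obtain ⟨N1, hN1⟩ := knum_large (1 / 24) (2 * max (P0 : ℝ) 2) (by norm_num)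
  obtain ⟨N2, hN2⟩ := knum_large (1 / 600) 2 (by norm_num)
  obtain ⟨N3, hN3⟩ := knum_large (99 / 25 - 95 / 24 - 3 / 10000)
    (2 * (2400288 + 2400000000 * Real.sqrt C)) (by norm_num)
  refine ⟨max (max (max Nh 3) N1) (max N2 N3), ?_⟩
  intro N hN η hη0 hη α β hα hβ F hF
  have l1 : Nh ≤ N := (le_max_left _ _).trans ((le_max_left _ _).trans ((le_max_left _ _).trans hN))
  have l2 : 3 ≤ N := (le_max_right _ _).trans ((le_max_left _ _).trans ((le_max_left _ _).trans hN))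
  have l3 : N1 ≤ N := (le_max_right _ _).trans ((le_max_left _ _).trans hN)
  have l4 : N2 ≤ N := (le_max_left _ _).trans ((le_max_right _ _).trans hN)
  have l5 : N3 ≤ N := (le_max_right _ _).trans ((le_max_right _ _).trans hN)
  have g1 := hN1 N l3
  have g2 := hN2 N l4
  have g3 := hN3 N l5
  have hNge : 1 ≤ N := by omega
  have hNr : (1 : ℝ) ≤ N := by exact_mod_cast hNge
  have hN0 : (0 : ℝ) < N := by linarith
  obtain ⟨P, hPdef⟩ : ∃ P : ℕ, P = ⌊(N : ℝ) ^ ((1 : ℝ) / 24)⌋₊ := ⟨_, rfl⟩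
  have hx0 : 0 ≤ (N : ℝ) ^ ((1 : ℝ) / 24) := by positivity
  have hPle : (P : ℝ) ≤ (N : ℝ) ^ ((1 : ℝ) / 24) := by rw [hPdef]; exact Nat.floor_le hx0
  have hPlt : (N : ℝ) ^ ((1 : ℝ) / 24) < P + 1 := by rw [hPdef]; exact Nat.lt_floor_add_one _
  have hx4 : 4 ≤ (N : ℝ) ^ ((1 : ℝ) / 24) := by
    have := le_max_right (P0 : ℝ) 2
    linarith
  have hP1r : (1 : ℝ) ≤ P := by linarith
  have hP1 : 1 ≤ P := by exact_mod_cast hP1r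
  have hPge : (N : ℝ) ^ ((1 : ℝ) / 24) ≤ 2 * P := by linarith
  have hPN : P ≤ N := by
    have h1 : (N : ℝ) ^ ((1 : ℝ) / 24) ≤ (N : ℝ) ^ (1 : ℝ) :=
      Real.rpow_le_rpow_of_exponent_le hNr (by norm_num)
    rw [Real.rpow_one] at h1
    exact_mod_cast hPle.trans h1
  have hPP0 : P0 ≤ P := by
    have := le_max_left (P0 : ℝ) 2
    have h1 : (P0 : ℝ) ≤ P := by linarith
    exact_mod_cast h1
  have hP2 : (2 : ℝ) ≤ P := by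
    have := le_max_right (P0 : ℝ) 2
    linarith
  have hP25 : (N : ℝ) ^ ((1 : ℝ) / 25) ≤ P := by
    have e : (N : ℝ) ^ ((1 : ℝ) / 24) = (N : ℝ) ^ ((1 : ℝ) / 25) * (N : ℝ) ^ ((1 : ℝ) / 600) := by
      rw [← Real.rpow_add hN0]
      norm_num
    have h1 : (N : ℝ) ^ ((1 : ℝ) / 25) * 2 ≤ (N : ℝ) ^ ((1 : ℝ) / 25) * (N : ℝ) ^ ((1 : ℝ) / 600) :=
      mul_le_mul_of_nonneg_left g2 (by positivity)
    rw [← e] at h1
    linarith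
  have hhalf := hNh N P l1 hP25
  have hlogP : 0 < Real.log P := Real.log_pos (by linarith)
  have hlogPN : Real.log P ≤ Real.log N :=
    Real.log_le_log (by linarith) (by exact_mod_cast hPN)
  have hΛ1 : 1 ≤ Real.log N := by
    rw [Real.le_log_iff_exp_le hN0]
    have : Real.exp 1 ≤ 3 := Real.exp_one_lt_three.le
    have h3 : (3 : ℝ) ≤ N := by exact_mod_cast l2
    linarith
  have hc : (P : ℝ) / Real.log N ≤ ((PP P).card : ℝ) := by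
    refine le_trans ?_ (hP0 P hPP0)
    exact div_le_div_of_nonneg_left (by linarith) hlogP hlogPN
  have hcpos : 0 < (PP P).card := by
    have h1 : (0 : ℝ) < ((PP P).card : ℝ) := lt_of_lt_of_le (by positivity) hc
    exact_mod_cast h1
  have hsplit := split N P hNge hP1 η α hα F hF.1 hcpos hhalf
  have hcau := cau N P hNge η α hα F hF.1
  have hO := hOO N P hNge hP1 hPN η hη0 hη F hF
  have hW := knum_W (e0 := 1 / 5000) hNge hP1 hPN hc hΛ1 (norm_nonneg (UU F η N P α)) hC.le hcau hO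
    hsplit
  have hΛle : Real.log N ≤ 10000 * (N : ℝ) ^ ((1 : ℝ) / 10000) := by
    have := Real.log_le_rpow_div hN0.le (by norm_num : (0 : ℝ) < 1 / 10000)
    rw [div_eq_mul_inv] at this
    norm_num at this ⊢
    linarith
  have hfin := knum_final hNge hC.le (by linarith) hΛle hPle hPge hW
  have hS : ∑ n ∈ II N, ∑ m ∈ (II N).filter (fun m => Nat.Coprime m n),
        α m * β n * F ((m : ℝ) * n) * kf n η m =
      ∑ n ∈ II N, β n * ∑ m ∈ (II N).filter (fun m => Nat.Coprime m n),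
        α m * F ((m : ℝ) * n) * kf n η m := by
    apply Finset.sum_congr rfl
    intro n _
    rw [Finset.mul_sum]
    apply Finset.sum_congr rfl
    intro m _
    ring
  rw [hS]
  apply (pow_le_pow_iff_left₀ (norm_nonneg _) (by positivity) two_ne_zero).1
  refine (knum_cauchy hNge β _ hβ).trans ?_
  have e1 : ((N : ℝ) ^ ((2 : ℝ) - 1 / 50)) ^ 2 =
      N * (N : ℝ) ^ ((71 : ℝ) / 24 + 3 / 10000) * (N : ℝ) ^ ((99 : ℝ) / 25 - 95 / 24 - 3 / 10000) := by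
    rw [← Real.rpow_natCast ((N : ℝ) ^ _) 2, ← Real.rpow_mul hN0.le]
    nth_rewrite 2 [← Real.rpow_one (N : ℝ)]
    rw [← Real.rpow_add hN0, ← Real.rpow_add hN0]
    congr 1
    push_cast
    norm_num
  rw [e1]
  calc 2 * (N : ℝ) * ∑ n ∈ II N, ‖∑ m ∈ (II N).filter (fun m => Nat.Coprime m n),
        α m * F ((m : ℝ) * n) * kf n η m‖ ^ 2
      ≤ 2 * N * ((2400288 + 2400000000 * Real.sqrt C) * (N : ℝ) ^ ((71 : ℝ) / 24 + 3 / 10000)) :=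
        mul_le_mul_of_nonneg_left hfin (by positivity)
    _ = N * (N : ℝ) ^ ((71 : ℝ) / 24 + 3 / 10000) *
        (2 * (2400288 + 2400000000 * Real.sqrt C)) := by ring
    _ ≤ _ := mul_le_mul_of_nonneg_left g3 (by positivity)

end Pool.Agent.H80.KF
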