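import Pool.Agent.H80.KF.Bas

/-!
# The Fejér weight: size

`W = 2xJ`, `|∑_{j<J} e(jn/W)| = |sin(πJn/W)/sin(πn/W)|` for `W ∤ n`.  `|n| ≤ x`, `n ≠ 0`:
`|Jn/W| = |n|/(2x) ≤ 1/2`, so `|sin(πJn/W)| ≥ 2|n|/(2x)`, `|sin(πn/W)| ≤ π|n|/W`: the quotient is
`≥ 2J/π`.  Trivial bound `J`, `π²/4 ≤ 3`.  `0 < |n| ≤ xJ = W/2`: `|sin(πn/W)| ≥ 2|n|/W`, so the
sum is at most `W/(2|n|) = xJ/|n|`.
-/

set_option autoImplicit false

namespace Pool.Agent.H80.KF

open Finset

private theorem fejA_norm (s : ℝ) : ‖ee s - 1‖ = 2 * |Real.sin (Real.pi * s)| := by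
  have h := Complex.norm_exp_I_mul_ofReal_sub_one (2 * Real.pi * s)
  have h1 : ee s = Complex.exp (Complex.I * ((2 * Real.pi * s : ℝ) : ℂ)) := by
    unfold ee
    congr 1
    push_cast
    ring
  rw [h1, h, norm_mul, Real.norm_eq_abs, Real.norm_eq_abs, abs_of_pos (by norm_num : (0 : ℝ) < 2)]
  congr 3
  ring

private theorem fejA_geom (J : ℕ) (t : ℝ) :
    (∑ j ∈ range J, ee ((j : ℝ) * t)) * (ee t - 1) = ee ((J : ℝ) * t) - 1 := by
  induction J with
  | zero => simp [ee_zero]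
  | succ J ih =>
    rw [Finset.sum_range_succ, add_mul, ih]
    have h : ee (((J + 1 : ℕ) : ℝ) * t) = ee ((J : ℝ) * t) * ee t := by
      rw [← ee_add]
      congr 1
      push_cast
      ring
    rw [h]
    ring

private theorem fejA_sin (J : ℕ) (t : ℝ) :
    ‖∑ j ∈ range J, ee ((j : ℝ) * t)‖ * |Real.sin (Real.pi * t)| =
      |Real.sin (Real.pi * (J * t))| := by
  have h := congrArg (fun z : ℂ => ‖z‖) (fejA_geom J t)
  simp only [norm_mul, fejA_norm] at h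
  linarith

private theorem fejA_sum (x J : ℕ) (n : ℤ) :
    ∑ j ∈ range J, ee ((j : ℝ) * n / (2 * x * J)) =
      ∑ j ∈ range J, ee ((j : ℝ) * ((n : ℝ) / (2 * x * J))) :=
  Finset.sum_congr rfl fun j _ => by rw [mul_div_assoc]

private theorem fejA_pi_sq : Real.pi ^ 2 / 4 ≤ 3 := by
  have h := Real.pi_lt_d2
  have h0 := Real.pi_pos
  nlinarith

theorem ww_nonneg (x J : ℕ) (n : ℤ) : 0 ≤ ww x J n := by
  unfold ww
  positivity

theorem ww_ge_one (x J : ℕ) (hx : 1 ≤ x) (hJ : 1 ≤ J) (n : ℤ) (hn : |n| ≤ x) : 1 ≤ ww x J n := by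
  have hx' : (0 : ℝ) < x := by exact_mod_cast hx
  have hJ' : (0 : ℝ) < J := by exact_mod_cast hJ
  have hpi := Real.pi_pos
  have hn' : |(n : ℝ)| ≤ x := by exact_mod_cast hn
  have key : 2 * J / Real.pi ≤ ‖∑ j ∈ range J, ee ((j : ℝ) * n / (2 * x * J))‖ := by
    rw [fejA_sum]
    rcases eq_or_ne n 0 with h0 | h0
    · subst h0
      simp only [Int.cast_zero, zero_div, mul_zero, ee_zero, Finset.sum_const, Finset.card_range,
        nsmul_eq_mul, mul_one, Complex.norm_natCast]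
      rw [div_le_iff₀ hpi]
      have := Real.two_le_pi
      nlinarith
    · have hn0 : 0 < |(n : ℝ)| := abs_pos.2 (by exact_mod_cast h0)
      have h1 := fejA_sin J ((n : ℝ) / (2 * x * J))
      have h2 : Real.pi * (J * ((n : ℝ) / (2 * x * J))) = Real.pi / 2 * (n / x) := by
        field_simp
      have h3 : |Real.pi / 2 * ((n : ℝ) / x)| = Real.pi / 2 * (|(n : ℝ)| / x) := by
        rw [abs_mul, abs_of_pos (by positivity : 0 < Real.pi / 2), abs_div, abs_of_pos hx']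
      have h4 : |(n : ℝ)| / x ≤ |Real.sin (Real.pi / 2 * ((n : ℝ) / x))| := by
        have h5 := Real.mul_abs_le_abs_sin (x := Real.pi / 2 * ((n : ℝ) / x)) (by
          rw [h3]
          have : |(n : ℝ)| / x ≤ 1 := (div_le_one hx').2 hn'
          nlinarith)
        rw [h3] at h5
        refine le_trans (le_of_eq ?_) h5
        field_simp
      have h6 : |Real.sin (Real.pi * ((n : ℝ) / (2 * x * J)))| ≤
          Real.pi * (|(n : ℝ)| / (2 * x * J)) := by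
        refine (Real.abs_sin_le_abs).trans (le_of_eq ?_)
        rw [abs_mul, abs_div, abs_of_pos hpi, abs_of_pos (by positivity : (0 : ℝ) < 2 * x * J)]
      rw [h2] at h1
      rw [← h1] at h4
      have h7 := h4.trans (mul_le_mul_of_nonneg_left h6 (norm_nonneg _))
      rw [div_le_iff₀ hpi]
      have h8 : |(n : ℝ)| / x = (2 * J) * (|(n : ℝ)| / (2 * x * J)) := by
        field_simp
      rw [h8] at h7
      have h9 : 0 < |(n : ℝ)| / (2 * x * J) := by positivity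
      rw [← mul_assoc] at h7
      exact le_of_mul_le_mul_right h7 h9
  unfold ww
  have h1 : (2 * J / Real.pi) ^ 2 ≤ ‖∑ j ∈ range J, ee ((j : ℝ) * n / (2 * x * J))‖ ^ 2 :=
    pow_le_pow_left₀ (by positivity) key 2
  calc (1 : ℝ) = Real.pi ^ 2 / 4 / (J : ℝ) ^ 2 * (2 * J / Real.pi) ^ 2 := by
        field_simp
        norm_num
    _ ≤ _ := mul_le_mul_of_nonneg_left h1 (by positivity)

theorem ww_le (x J : ℕ) (hx : 1 ≤ x) (hJ : 1 ≤ J) (n : ℤ) : ww x J n ≤ 3 := by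
  have hJ' : (0 : ℝ) < J := by exact_mod_cast hJ
  have h1 : ‖∑ j ∈ range J, ee ((j : ℝ) * n / (2 * x * J))‖ ≤ J := by
    refine (norm_sum_le _ _).trans ?_
    simp only [norm_ee, Finset.sum_const, Finset.card_range, nsmul_eq_mul, mul_one, le_refl]
  have h2 := pow_le_pow_left₀ (norm_nonneg _) h1 2
  unfold ww
  calc Real.pi ^ 2 / 4 / (J : ℝ) ^ 2 * ‖∑ j ∈ range J, ee ((j : ℝ) * n / (2 * x * J))‖ ^ 2
      ≤ Real.pi ^ 2 / 4 / (J : ℝ) ^ 2 * (J : ℝ) ^ 2 := mul_le_mul_of_nonneg_left h2 (by positivity)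
    _ = Real.pi ^ 2 / 4 := by field_simp
    _ ≤ 3 := fejA_pi_sq

theorem ww_decay (x J : ℕ) (hx : 1 ≤ x) (hJ : 1 ≤ J) (n : ℤ) (hn : |n| ≤ x * J) :
    ww x J n * (n : ℝ) ^ 2 ≤ 3 * (x : ℝ) ^ 2 := by
  have hx' : (0 : ℝ) < x := by exact_mod_cast hx
  have hJ' : (0 : ℝ) < J := by exact_mod_cast hJ
  have hpi := Real.pi_pos
  have hn' : |(n : ℝ)| ≤ x * J := by exact_mod_cast hn
  have key : ‖∑ j ∈ range J, ee ((j : ℝ) * n / (2 * x * J))‖ * |(n : ℝ)| ≤ x * J := by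
    rw [fejA_sum]
    have h1 := fejA_sin J ((n : ℝ) / (2 * x * J))
    have h3 : |Real.pi * ((n : ℝ) / (2 * x * J))| = Real.pi * (|(n : ℝ)| / (2 * x * J)) := by
      rw [abs_mul, abs_div, abs_of_pos hpi, abs_of_pos (by positivity : (0 : ℝ) < 2 * x * J)]
    have h4 : |(n : ℝ)| / (x * J) ≤ |Real.sin (Real.pi * ((n : ℝ) / (2 * x * J)))| := by
      have h5 := Real.mul_abs_le_abs_sin (x := Real.pi * ((n : ℝ) / (2 * x * J))) (by
        rw [h3]
        have : |(n : ℝ)| / (2 * x * J) ≤ 1 / 2 := by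
          rw [div_le_div_iff₀ (by positivity) (by norm_num)]
          nlinarith
        nlinarith)
      rw [h3] at h5
      refine le_trans (le_of_eq ?_) h5
      field_simp
    have h5 : ‖∑ j ∈ range J, ee ((j : ℝ) * ((n : ℝ) / (2 * x * J)))‖ * (|(n : ℝ)| / (x * J)) ≤
        1 := by
      refine (mul_le_mul_of_nonneg_left h4 (norm_nonneg _)).trans ?_
      rw [h1]
      exact Real.abs_sin_le_one _
    rw [← mul_div_assoc, div_le_one (by positivity)] at h5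
    exact h5
  have h2 := pow_le_pow_left₀ (by positivity) key 2
  unfold ww
  calc Real.pi ^ 2 / 4 / (J : ℝ) ^ 2 * ‖∑ j ∈ range J, ee ((j : ℝ) * n / (2 * x * J))‖ ^ 2 *
        (n : ℝ) ^ 2
      = Real.pi ^ 2 / 4 / (J : ℝ) ^ 2 *
        (‖∑ j ∈ range J, ee ((j : ℝ) * n / (2 * x * J))‖ * |(n : ℝ)|) ^ 2 := by
        rw [mul_pow, sq_abs]
        ring
    _ ≤ Real.pi ^ 2 / 4 / (J : ℝ) ^ 2 * ((x : ℝ) * J) ^ 2 :=
        mul_le_mul_of_nonneg_left h2 (by positivity)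
    _ = Real.pi ^ 2 / 4 * (x : ℝ) ^ 2 := by field_simp
    _ ≤ 3 * (x : ℝ) ^ 2 := mul_le_mul_of_nonneg_right fejA_pi_sq (by positivity)

end Pool.Agent.H80.KF
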