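import Pool.Agent.H80.KF.Defs

/-!
# Basic facts on `ee` and `kf`

`iv q m` is the representative in `[0, q)` of the inverse of `m` mod `q` (`ZMod.mul_inv_eq_gcd`,
`ZMod.coe_mul_inv_eq_one`).  `kf_eq`: if `m y ≡ 1 (q)` then `iv q m ≡ y (q)`.
Reciprocity: `u ū_v + v v̄_u ≡ 1 (mod u v)`, so `ū_v / v + v̄_u / u - 1/(uv)` is an integer.
`kf_crt`: `e(a m̄ /(cd)) = e(a (m d)^{-1}_c / c) e(a (m c)^{-1}_d / d)`, because
`d (md)^{-1}_c + c (mc)^{-1}_d ≡ m̄ (mod cd)`.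
-/

set_option autoImplicit false

namespace Pool.Agent.H80.KF

open Finset

theorem ee_add (s t : ℝ) : ee (s + t) = ee s * ee t := by
  unfold ee
  rw [← Complex.exp_add]
  congr 1
  push_cast
  ring

theorem ee_zero : ee 0 = 1 := by
  unfold ee
  simp

theorem ee_int (k : ℤ) : ee (k : ℝ) = 1 := by
  unfold ee
  rw [← Complex.exp_int_mul_two_pi_mul_I k]
  congr 1
  push_cast
  ring

theorem norm_ee (t : ℝ) : ‖ee t‖ = 1 := by
  unfold ee
  have : (2 * Real.pi * t * Complex.I : ℂ) = ((2 * Real.pi * t : ℝ) : ℂ) * Complex.I := by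
    push_cast; ring
  rw [this, Complex.norm_exp_ofReal_mul_I]

theorem conj_ee (t : ℝ) : (starRingEnd ℂ) (ee t) = ee (-t) := by
  unfold ee
  rw [← Complex.exp_conj]
  congr 1
  simp only [map_mul, Complex.conj_I, Complex.conj_ofReal, map_ofNat]
  push_cast
  ring

theorem ee_lip (s t : ℝ) : ‖ee s - ee t‖ ≤ 2 * Real.pi * |s - t| := by
  have h1 : ee s - ee t = ee t * (ee (s - t) - 1) := by
    rw [mul_sub, mul_one, ← ee_add, add_sub_cancel]
  have h2 : ee (s - t) = Complex.exp (Complex.I * ((2 * Real.pi * (s - t) : ℝ) : ℂ)) := by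
    unfold ee
    congr 1
    push_cast
    ring
  rw [h1, norm_mul, norm_ee, one_mul, h2]
  refine (Real.norm_exp_I_mul_ofReal_sub_one_le (x := 2 * Real.pi * (s - t))).trans ?_
  rw [Real.norm_eq_abs, abs_mul, abs_of_pos (by positivity)]

theorem ee_eq_of_int {s t : ℝ} (k : ℤ) (h : s - t = k) : ee s = ee t := by
  have h1 : s = t + (k : ℝ) := by linarith
  rw [h1, ee_add, ee_int, mul_one]

theorem norm_kf (q : ℕ) (a : ℤ) (m : ℕ) : ‖kf q a m‖ = 1 := norm_ee _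

theorem iv_spec {q m : ℕ} (hq : 1 ≤ q) (h : Nat.Coprime m q) : (q : ℤ) ∣ m * (iv q m : ℤ) - 1 := by
  have : NeZero q := ⟨by omega⟩
  rw [← ZMod.intCast_zmod_eq_zero_iff_dvd]
  push_cast
  have h1 : ((iv q m : ℕ) : ZMod q) = (m : ZMod q)⁻¹ := by
    unfold iv
    exact ZMod.natCast_zmod_val _
  rw [h1, ZMod.coe_mul_inv_eq_one m h, sub_self]

private theorem Bas_coprime {q m : ℕ} {y : ℤ} (h : (q : ℤ) ∣ m * y - 1) : Nat.Coprime m q := by
  rw [← Nat.isCoprime_iff_coprime]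
  obtain ⟨k, hk⟩ := h
  exact ⟨y, -k, by linear_combination hk⟩

private theorem Bas_unique {q m : ℕ} {y z : ℤ} (hy : (q : ℤ) ∣ m * y - 1)
    (hz : (q : ℤ) ∣ m * z - 1) : (q : ℤ) ∣ y - z := by
  have hco : IsCoprime (q : ℤ) (m : ℤ) := (Nat.isCoprime_iff_coprime.2 (Bas_coprime hy)).symm
  have h1 : (q : ℤ) ∣ m * (y - z) := by
    have := dvd_sub hy hz
    have e : (m : ℤ) * y - 1 - (m * z - 1) = m * (y - z) := by ring
    rwa [e] at this
  exact hco.dvd_of_dvd_mul_left h1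

/-- any integer inverse may be used -/
theorem kf_eq {q m : ℕ} (hq : 1 ≤ q) (a y : ℤ) (h : (q : ℤ) ∣ m * y - 1) :
    kf q a m = ee ((a : ℝ) * y / q) := by
  obtain ⟨k, hk⟩ := Bas_unique (iv_spec hq (Bas_coprime h)) h
  have hq0 : (q : ℝ) ≠ 0 := by
    have : (1 : ℝ) ≤ q := by exact_mod_cast hq
    linarith
  apply ee_eq_of_int (a * k)
  have hk' : (iv q m : ℝ) - (y : ℝ) = q * k := by exact_mod_cast hk
  rw [← sub_div, ← mul_sub, hk']
  push_cast
  field_simp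

theorem kf_zero (q m : ℕ) : kf q 0 m = 1 := by
  unfold kf
  rw [Int.cast_zero, zero_mul, zero_div, ee_zero]

theorem kf_add (q : ℕ) (a b : ℤ) (m : ℕ) : kf q (a + b) m = kf q a m * kf q b m := by
  unfold kf
  rw [← ee_add]
  congr 1
  push_cast
  ring

theorem kf_neg (q : ℕ) (a : ℤ) (m : ℕ) : kf q (-a) m = (starRingEnd ℂ) (kf q a m) := by
  unfold kf
  rw [conj_ee]
  congr 1
  push_cast
  ring

theorem kf_congr {q m m' : ℕ} (hq : 1 ≤ q) {a a' : ℤ} (ha : (q : ℤ) ∣ a - a')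
    (hm : m ≡ m' [MOD q]) : kf q a m = kf q a' m' := by
  have h1 : (m : ZMod q) = (m' : ZMod q) := (ZMod.natCast_eq_natCast_iff m m' q).2 hm
  have h2 : iv q m = iv q m' := by
    unfold iv
    rw [h1]
  have hq0 : (q : ℝ) ≠ 0 := by
    have : (1 : ℝ) ≤ q := by exact_mod_cast hq
    linarith
  obtain ⟨k, hk⟩ := ha
  unfold kf
  rw [h2]
  apply ee_eq_of_int (k * iv q m')
  have hk' : (a : ℝ) - (a' : ℝ) = q * k := by exact_mod_cast hk
  rw [← sub_div, ← sub_mul, hk']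
  push_cast
  field_simp

theorem kf_mul_left {q c m : ℕ} (hq : 1 ≤ q) (a : ℤ) (hc : Nat.Coprime c q)
    (hm : Nat.Coprime m q) : kf q (a * c) (c * m) = kf q a m := by
  have h1 := iv_spec hq (Nat.Coprime.mul_left hc hm)
  have h2 : (q : ℤ) ∣ m * ((c : ℤ) * (iv q (c * m) : ℤ)) - 1 := by
    have e : (m : ℤ) * ((c : ℤ) * (iv q (c * m) : ℤ)) - 1 = ((c * m : ℕ) : ℤ) * (iv q (c * m) : ℤ) - 1 := by
      push_cast; ring
    rw [e]; exact h1
  rw [kf_eq hq a _ h2]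
  unfold kf
  congr 1
  push_cast
  ring

/-- reciprocity -/
theorem kf_recip {u v : ℕ} (hu : 1 ≤ u) (hv : 1 ≤ v) (h : Nat.Coprime u v) (a : ℤ) :
    kf v a u = kf u (-a) v * ee ((a : ℝ) / (u * v)) := by
  have h1 := iv_spec hv h
  have h2 := iv_spec hu h.symm
  have h3 : (u : ℤ) * v ∣ u * (iv v u : ℤ) + v * (iv u v : ℤ) - 1 := by
    apply IsCoprime.mul_dvd (Nat.isCoprime_iff_coprime.2 h)
    · have e : (u : ℤ) * (iv v u : ℤ) + v * (iv u v : ℤ) - 1 =
        u * (iv v u : ℤ) + (v * (iv u v : ℤ) - 1) := by ring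
      rw [e]
      exact dvd_add (dvd_mul_right _ _) h2
    · have e : (u : ℤ) * (iv v u : ℤ) + v * (iv u v : ℤ) - 1 =
        (u * (iv v u : ℤ) - 1) + v * (iv u v : ℤ) := by ring
      rw [e]
      exact dvd_add h1 (dvd_mul_right _ _)
  obtain ⟨k, hk⟩ := h3
  have hu0 : (u : ℝ) ≠ 0 := by
    have : (1 : ℝ) ≤ u := by exact_mod_cast hu
    linarith
  have hv0 : (v : ℝ) ≠ 0 := by
    have : (1 : ℝ) ≤ v := by exact_mod_cast hv
    linarith
  have hk' : (u : ℝ) * (iv v u : ℝ) + v * (iv u v : ℝ) - 1 = u * v * k := by exact_mod_cast hk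
  unfold kf
  rw [← ee_add]
  apply ee_eq_of_int (a * k)
  push_cast
  field_simp
  linear_combination (a : ℝ) * hk'

theorem kf_crt {c d m : ℕ} (hc : 1 ≤ c) (hd : 1 ≤ d) (hcd : Nat.Coprime c d)
    (hm : Nat.Coprime m (c * d)) (a : ℤ) :
    kf (c * d) a m = kf c a (m * d) * kf d a (m * c) := by
  have hmc : Nat.Coprime m c := Nat.Coprime.coprime_mul_right_right hm
  have hmd : Nat.Coprime m d := Nat.Coprime.coprime_mul_left_right hm
  have h1 := iv_spec hc (Nat.Coprime.mul_left hmc hcd.symm)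
  have h2 := iv_spec hd (Nat.Coprime.mul_left hmd hcd)
  have hc0 : (c : ℝ) ≠ 0 := by
    have : (1 : ℝ) ≤ c := by exact_mod_cast hc
    linarith
  have hd0 : (d : ℝ) ≠ 0 := by
    have : (1 : ℝ) ≤ d := by exact_mod_cast hd
    linarith
  set A := iv c (m * d) with hA
  set B := iv d (m * c) with hB
  have h3 : ((c * d : ℕ) : ℤ) ∣ m * ((d : ℤ) * A + c * B) - 1 := by
    push_cast
    apply IsCoprime.mul_dvd (Nat.isCoprime_iff_coprime.2 hcd)
    · have e : (m : ℤ) * ((d : ℤ) * A + c * B) - 1 = (((m * d : ℕ) : ℤ) * A - 1) + c * (m * B) := by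
        push_cast; ring
      rw [e]
      exact dvd_add h1 (dvd_mul_right _ _)
    · have e : (m : ℤ) * ((d : ℤ) * A + c * B) - 1 = (((m * c : ℕ) : ℤ) * B - 1) + d * (m * A) := by
        push_cast; ring
      rw [e]
      exact dvd_add h2 (dvd_mul_right _ _)
  rw [kf_eq (Nat.mul_pos hc hd) a _ h3]
  unfold kf
  rw [← ee_add]
  congr 1
  push_cast
  field_simp
  rw [← hA, ← hB]

end Pool.Agent.H80.KF
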