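import Pool.Agent.H80.KF.Defs

/-!
# Partial summation with a weight of bounded variation

`∑_{t<T} G(t) f(t) = G(T-1) F_T - ∑_{t<T-1} (G(t+1) - G(t)) F_{t+1}`, `F_j = ∑_{t<j} f(t)`.
`bv_prod`: the increments of a product of functions bounded by one add up.
-/

set_option autoImplicit false

namespace Pool.Agent.H80.KF

open Finset

theorem abel_bv (f G : ℕ → ℂ) (T : ℕ) (B V : ℝ)
    (hB : ∀ j ≤ T, ‖∑ t ∈ range j, f t‖ ≤ B) (hG : ∀ t < T, ‖G t‖ ≤ 1)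
    (hV : ∑ t ∈ range (T - 1), ‖G (t + 1) - G t‖ ≤ V) :
    ‖∑ t ∈ range T, G t * f t‖ ≤ (1 + V) * B := by
  have hB0 : 0 ≤ B := (norm_nonneg _).trans (hB 0 (Nat.zero_le _))
  have hV0 : 0 ≤ V := (Finset.sum_nonneg fun _ _ => norm_nonneg _).trans hV
  rcases Nat.eq_zero_or_pos T with rfl | hT
  · simp only [range_zero, sum_empty, norm_zero]
    positivity
  have h := Finset.sum_range_by_parts G f T
  simp only [smul_eq_mul] at h
  rw [h]
  have h1 : ‖G (T - 1) * ∑ i ∈ range T, f i‖ ≤ 1 * B := by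
    rw [norm_mul]
    exact mul_le_mul (hG _ (by omega)) (hB T le_rfl) (norm_nonneg _) zero_le_one
  have h2 : ‖∑ i ∈ range (T - 1), (G (i + 1) - G i) * ∑ i ∈ range (i + 1), f i‖ ≤ V * B := by
    refine (norm_sum_le _ _).trans ?_
    calc ∑ i ∈ range (T - 1), ‖(G (i + 1) - G i) * ∑ i ∈ range (i + 1), f i‖
        ≤ ∑ i ∈ range (T - 1), ‖G (i + 1) - G i‖ * B := by
          refine Finset.sum_le_sum fun i hi => ?_
          rw [norm_mul]
          have := Finset.mem_range.1 hi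
          exact mul_le_mul_of_nonneg_left (hB (i + 1) (by omega)) (norm_nonneg _)
      _ = (∑ i ∈ range (T - 1), ‖G (i + 1) - G i‖) * B := by rw [Finset.sum_mul]
      _ ≤ V * B := mul_le_mul_of_nonneg_right hV hB0
  calc ‖G (T - 1) * ∑ i ∈ range T, f i -
        ∑ i ∈ range (T - 1), (G (i + 1) - G i) * ∑ i ∈ range (i + 1), f i‖
      ≤ ‖G (T - 1) * ∑ i ∈ range T, f i‖ +
        ‖∑ i ∈ range (T - 1), (G (i + 1) - G i) * ∑ i ∈ range (i + 1), f i‖ := norm_sub_le _ _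
    _ ≤ 1 * B + V * B := add_le_add h1 h2
    _ = (1 + V) * B := by ring

theorem bv_mul (G H : ℕ → ℂ) (T : ℕ) (hG : ∀ t < T, ‖G t‖ ≤ 1) (hH : ∀ t < T, ‖H t‖ ≤ 1) :
    ∑ t ∈ range (T - 1), ‖G (t + 1) * H (t + 1) - G t * H t‖ ≤
      ∑ t ∈ range (T - 1), ‖G (t + 1) - G t‖ + ∑ t ∈ range (T - 1), ‖H (t + 1) - H t‖ := by
  rw [← Finset.sum_add_distrib]
  refine Finset.sum_le_sum fun t ht => ?_
  have ht' := Finset.mem_range.1 ht
  have e : G (t + 1) * H (t + 1) - G t * H t =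
      (G (t + 1) - G t) * H (t + 1) + G t * (H (t + 1) - H t) := by ring
  rw [e]
  refine (norm_add_le _ _).trans ?_
  rw [norm_mul, norm_mul]
  have h1 : ‖G (t + 1) - G t‖ * ‖H (t + 1)‖ ≤ ‖G (t + 1) - G t‖ * 1 :=
    mul_le_mul_of_nonneg_left (hH _ (by omega)) (norm_nonneg _)
  have h2 : ‖G t‖ * ‖H (t + 1) - H t‖ ≤ 1 * ‖H (t + 1) - H t‖ :=
    mul_le_mul_of_nonneg_right (hG _ (by omega)) (norm_nonneg _)
  linarith

end Pool.Agent.H80.KF
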