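import Pool.Agent.H80.KF.Bas

/-!
# Amplification

For `p` coprime to `n`: `e(η m̄/n) = e(η p (pm)^{-1}/n)`.  So
`#𝒫 ∑_m f(m) e(η m̄/n) = ∑_{u mod n} ∑_{p,m: pm ≡ u} f(m) e(η p ū/n)`; Cauchy in `u` gives
`#𝒫² |∑|² ≤ n ∑_u |∑_{p m ≡ u} f(m) e(η p ū / n)|²`, and expanding the square
`p₁ m₁ ≡ p₂ m₂ ≡ u`, phase `e(η (p₁ - p₂) ū/n)`, `u ≡ p₁ m₁`.
-/

set_option autoImplicit false

namespace Pool.Agent.H80.KF

open Finset

/-- Cauchy over residue classes, for a general family -/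
private theorem amp_cauchy {X : Type} (n : ℕ) (hn : 1 ≤ n) (P : Finset X) (r : X → ℕ) (c : X → ℂ) :
    ‖∑ x ∈ P, c x‖ ^ 2 ≤
      n * (∑ x ∈ P, ∑ y ∈ P.filter (fun y => r x ≡ r y [MOD n]), c x * (starRingEnd ℂ) (c y)).re := by
  classical
  set G : ℕ → ℂ := fun u => ∑ x ∈ P.filter (fun x => r x % n = u), c x with hG
  have h1 : ∑ x ∈ P, c x = ∑ u ∈ range n, G u := by
    refine (Finset.sum_fiberwise_of_maps_to (fun x _ => ?_) c).symm
    exact mem_range.2 (Nat.mod_lt _ (by omega))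
  have h2 : ‖∑ u ∈ range n, G u‖ ^ 2 ≤ n * ∑ u ∈ range n, ‖G u‖ ^ 2 := by
    calc ‖∑ u ∈ range n, G u‖ ^ 2 ≤ (∑ u ∈ range n, ‖G u‖) ^ 2 := by
          gcongr
          exact norm_sum_le _ _
      _ ≤ ((range n).card : ℝ) * ∑ u ∈ range n, ‖G u‖ ^ 2 := sq_sum_le_card_mul_sum_sq
      _ = n * ∑ u ∈ range n, ‖G u‖ ^ 2 := by rw [card_range]
  have h3 : ∑ u ∈ range n, ‖G u‖ ^ 2
      = (∑ x ∈ P, ∑ y ∈ P.filter (fun y => r x ≡ r y [MOD n]), c x * (starRingEnd ℂ) (c y)).re := by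
    have h4 : ∀ u, ‖G u‖ ^ 2 = (∑ x ∈ P.filter (fun x => r x % n = u),
        ∑ y ∈ P.filter (fun y => r x ≡ r y [MOD n]), c x * (starRingEnd ℂ) (c y)).re := by
      intro u
      have h5 : ((‖G u‖ ^ 2 : ℝ) : ℂ) = G u * (starRingEnd ℂ) (G u) := by
        rw [Complex.mul_conj, Complex.normSq_eq_norm_sq]
      have h6 : G u * (starRingEnd ℂ) (G u) = ∑ x ∈ P.filter (fun x => r x % n = u),
          ∑ y ∈ P.filter (fun y => r x ≡ r y [MOD n]), c x * (starRingEnd ℂ) (c y) := by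
        rw [hG]
        simp only
        rw [map_sum, Finset.sum_mul]
        refine Finset.sum_congr rfl fun x hx => ?_
        rw [Finset.mul_sum]
        refine Finset.sum_congr ?_ fun y _ => rfl
        have hx' := (mem_filter.1 hx).2
        ext y
        simp only [mem_filter]
        refine and_congr_right fun _ => ?_
        rw [← hx']
        exact ⟨fun h => h.symm, fun h => h.symm⟩
      have h7 := h5.trans h6
      rw [← h7, Complex.ofReal_re]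
    rw [Finset.sum_congr rfl fun u _ => h4 u, ← Complex.re_sum]
    congr 1
    exact Finset.sum_fiberwise_of_maps_to (fun x _ => mem_range.2 (Nat.mod_lt _ (by omega))) _
  rw [h1, ← h3]
  exact h2

theorem amp (n : ℕ) (hn : 1 ≤ n) (η : ℤ) (M Ps : Finset ℕ) (hM : ∀ m ∈ M, Nat.Coprime m n)
    (hP : ∀ p ∈ Ps, Nat.Coprime p n) (f : ℕ → ℂ) :
    (Ps.card : ℝ) ^ 2 * ‖∑ m ∈ M, f m * kf n η m‖ ^ 2 ≤
      n * (∑ p1 ∈ Ps, ∑ p2 ∈ Ps, ∑ m1 ∈ M, ∑ m2 ∈ M.filter (fun m2 => p1 * m1 ≡ p2 * m2 [MOD n]),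
        f m1 * (starRingEnd ℂ) (f m2) * kf n (η * ((p1 : ℤ) - p2)) (p1 * m1)).re := by
  classical
  have key := amp_cauchy n hn (Ps ×ˢ M) (fun x => x.1 * x.2)
    (fun x => f x.2 * kf n (η * (x.1 : ℤ)) (x.1 * x.2))
  have h1 : ∑ x ∈ Ps ×ˢ M, f x.2 * kf n (η * (x.1 : ℤ)) (x.1 * x.2)
      = (Ps.card : ℂ) * ∑ m ∈ M, f m * kf n η m := by
    rw [Finset.sum_product]
    have : ∀ p ∈ Ps, ∑ m ∈ M, f m * kf n (η * (p : ℤ)) (p * m) = ∑ m ∈ M, f m * kf n η m := by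
      intro p hp
      refine Finset.sum_congr rfl fun m hm => ?_
      rw [kf_mul_left hn η (hP p hp) (hM m hm)]
    rw [Finset.sum_congr rfl this, Finset.sum_const, nsmul_eq_mul]
  rw [h1] at key
  have h2 : ‖(Ps.card : ℂ) * ∑ m ∈ M, f m * kf n η m‖ ^ 2
      = (Ps.card : ℝ) ^ 2 * ‖∑ m ∈ M, f m * kf n η m‖ ^ 2 := by
    rw [norm_mul, mul_pow, Complex.norm_natCast]
  rw [h2] at key
  refine le_trans key (le_of_eq ?_)
  congr 2
  rw [Finset.sum_product]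
  refine Finset.sum_congr rfl fun p1 _ => ?_
  rw [Finset.sum_comm]
  refine Finset.sum_congr rfl fun m1 _ => ?_
  simp only
  rw [Finset.sum_filter, Finset.sum_product]
  refine Finset.sum_congr rfl fun p2 _ => ?_
  rw [Finset.sum_filter]
  refine Finset.sum_congr rfl fun m2 _ => ?_
  simp only
  split_ifs with h
  · have e1 : (starRingEnd ℂ) (f m2 * kf n (η * (p2 : ℤ)) (p2 * m2))
        = (starRingEnd ℂ) (f m2) * kf n (-(η * (p2 : ℤ))) (p1 * m1) := by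
      rw [map_mul, ← kf_neg]
      congr 1
      exact kf_congr hn (by simp) h.symm
    rw [e1]
    have e2 : η * ((p1 : ℤ) - p2) = η * (p1 : ℤ) + -(η * (p2 : ℤ)) := by ring
    rw [e2, kf_add]
    ring
  · rfl

end Pool.Agent.H80.KF
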