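import Pool.Agent.H80.KF.RamB
import Pool.Agent.H91.EHA.Defs

/-!
# The structured part, exactly

`∑_p [d ∣ p - a] = π(x;d,a) = err x d a + π(x)/φ(d)` (`d ∣ p - a` iff `(p : ZMod d) = a`), so
`∑_p ∑_{r ∣ q, r ≤ R} c_r(p-a) = ∑_{r ∣ q, r ≤ R} ∑_{d ∣ r} d μ(r/d) (err x d a + π(x)/φ(d))` and
`∑_{d ∣ r} d μ(r/d)/φ(d) = μ²(r)/φ(r)` (`ram_phi`), `∑_{r ∣ q} μ²(r)/φ(r) = q/φ(q)` (`sum_phi`).
-/

set_option autoImplicit false

namespace Pool.Agent.H80.KF

open Finset
open Pool.Agent.H91.EHA (err)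

/-- the primes up to `x` -/
def PX (x : ℕ) : Finset ℕ := (Icc 1 x).filter Nat.Prime

private theorem strA_count (x d : ℕ) (a : ℤ) :
    ∑ p ∈ PX x, (if (d : ℤ) ∣ (p : ℤ) - a then (1 : ℝ) else 0) =
      err x d (a : ZMod d) + (Nat.primeCounting x : ℝ) / (Nat.totient d : ℝ) := by
  unfold err PX
  rw [← Finset.sum_filter, Finset.filter_filter, Finset.sum_const, nsmul_eq_mul, mul_one]
  have h : ((Icc 1 x).filter (fun p : ℕ => Nat.Prime p ∧ (d : ℤ) ∣ (p : ℤ) - a)) =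
      ((Icc 1 x).filter (fun p : ℕ => Nat.Prime p ∧ ((p : ZMod d) = (a : ZMod d)))) := by
    refine Finset.filter_congr fun p _ => ?_
    have h1 : ((p : ZMod d) = (a : ZMod d)) ↔ (d : ℤ) ∣ (p : ℤ) - a := by
      have h2 := ZMod.intCast_eq_intCast_iff_dvd_sub a (p : ℤ) d
      rw [Int.cast_natCast] at h2
      rw [← h2]
      exact eq_comm
    rw [h1]
  rw [h]
  ring

private theorem strA_ram (x r : ℕ) (a : ℤ) (hr : 1 ≤ r) :
    ∑ p ∈ PX x, ram r ((p : ℤ) - a) =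
      ∑ d ∈ r.divisors, (d : ℝ) * (ArithmeticFunction.moebius (r / d) : ℝ) *
          err x d (a : ZMod d) +
        (Nat.primeCounting x : ℝ) *
          ((ArithmeticFunction.moebius r : ℝ) ^ 2 / (Nat.totient r : ℝ)) := by
  unfold ram
  have h1 : ∀ p ∈ PX x, ∑ d ∈ r.divisors.filter (fun d : ℕ => (d : ℤ) ∣ (p : ℤ) - a),
      (d : ℝ) * (ArithmeticFunction.moebius (r / d) : ℝ) =
      ∑ d ∈ r.divisors, (d : ℝ) * (ArithmeticFunction.moebius (r / d) : ℝ) *
        (if (d : ℤ) ∣ (p : ℤ) - a then (1 : ℝ) else 0) := by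
    intro p _
    rw [Finset.sum_filter]
    refine Finset.sum_congr rfl fun d _ => ?_
    split_ifs <;> ring
  rw [Finset.sum_congr rfl h1, Finset.sum_comm]
  have h2 : ∀ d ∈ r.divisors, ∑ p ∈ PX x, (d : ℝ) * (ArithmeticFunction.moebius (r / d) : ℝ) *
        (if (d : ℤ) ∣ (p : ℤ) - a then (1 : ℝ) else 0) =
      (d : ℝ) * (ArithmeticFunction.moebius (r / d) : ℝ) * err x d (a : ZMod d) +
        (Nat.primeCounting x : ℝ) *
          ((d : ℝ) * (ArithmeticFunction.moebius (r / d) : ℝ) / (Nat.totient d : ℝ)) := by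
    intro d _
    rw [← Finset.mul_sum, strA_count]
    ring
  rw [Finset.sum_congr rfl h2, Finset.sum_add_distrib, ← Finset.mul_sum, ram_phi r hr]

theorem str_id (x R q : ℕ) (hq : 1 ≤ q) (a : ℤ) :
    err x q (a : ZMod q) - ∑ p ∈ PX x, uu R q a p =
      (1 / (q : ℝ)) * ∑ r ∈ q.divisors.filter (fun r => r ≤ R), ∑ d ∈ r.divisors,
          (d : ℝ) * (ArithmeticFunction.moebius (r / d) : ℝ) * err x d (a : ZMod d) -
        (Nat.primeCounting x : ℝ) / (q : ℝ) *
          ∑ r ∈ q.divisors.filter (fun r => R < r),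
            (ArithmeticFunction.moebius r : ℝ) ^ 2 / (Nat.totient r : ℝ) := by
  have hq0 : (q : ℝ) ≠ 0 := by
    have : q ≠ 0 := by omega
    exact_mod_cast this
  have h1 : ∑ p ∈ PX x, uu R q a p =
      err x q (a : ZMod q) + (Nat.primeCounting x : ℝ) / (Nat.totient q : ℝ) -
        (1 / (q : ℝ)) * ∑ r ∈ q.divisors.filter (fun r => r ≤ R),
          ∑ p ∈ PX x, ram r ((p : ℤ) - a) := by
    unfold uu
    rw [Finset.sum_sub_distrib, strA_count, ← Finset.mul_sum, Finset.sum_comm]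
  have h2 : ∑ r ∈ q.divisors.filter (fun r => r ≤ R), ∑ p ∈ PX x, ram r ((p : ℤ) - a) =
      ∑ r ∈ q.divisors.filter (fun r => r ≤ R), ∑ d ∈ r.divisors,
          (d : ℝ) * (ArithmeticFunction.moebius (r / d) : ℝ) * err x d (a : ZMod d) +
        (Nat.primeCounting x : ℝ) * ∑ r ∈ q.divisors.filter (fun r => r ≤ R),
          (ArithmeticFunction.moebius r : ℝ) ^ 2 / (Nat.totient r : ℝ) := by
    rw [Finset.mul_sum, ← Finset.sum_add_distrib]
    refine Finset.sum_congr rfl fun r hr => ?_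
    have hr1 : 1 ≤ r := Nat.pos_of_mem_divisors (Finset.mem_filter.1 hr).1
    exact strA_ram x r a hr1
  have h3 := sum_phi q hq
  have h4 : ∑ r ∈ q.divisors, (ArithmeticFunction.moebius r : ℝ) ^ 2 / (Nat.totient r : ℝ) =
      ∑ r ∈ q.divisors.filter (fun r => r ≤ R),
          (ArithmeticFunction.moebius r : ℝ) ^ 2 / (Nat.totient r : ℝ) +
        ∑ r ∈ q.divisors.filter (fun r => R < r),
          (ArithmeticFunction.moebius r : ℝ) ^ 2 / (Nat.totient r : ℝ) := by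
    rw [← Finset.sum_filter_add_sum_filter_not q.divisors (fun r => r ≤ R)]
    congr 1
    refine Finset.sum_congr (Finset.filter_congr fun r _ => ?_) fun _ _ => rfl
    exact not_le
  rw [h4] at h3
  rw [h1, h2]
  set A := ∑ r ∈ q.divisors.filter (fun r => r ≤ R),
          (ArithmeticFunction.moebius r : ℝ) ^ 2 / (Nat.totient r : ℝ) with hA
  set B := ∑ r ∈ q.divisors.filter (fun r => R < r),
          (ArithmeticFunction.moebius r : ℝ) ^ 2 / (Nat.totient r : ℝ) with hB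
  have h5 : (Nat.primeCounting x : ℝ) / (Nat.totient q : ℝ) =
      (Nat.primeCounting x : ℝ) / q * (A + B) := by
    rw [h3]
    field_simp
  rw [h5]
  ring

end Pool.Agent.H80.KF
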