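import Pool.Agent.H80.KF.FejA
import Pool.Agent.H80.KF.StrA

/-!
# Signs, and Cauchy's inequality over the primes

`bk_sign`: `c_a(q) = sign(∑_p u_{a,q}(p))` if `(a,q) = 1`, and `0` otherwise.
`bk_cauchy`: Cauchy's inequality over the at most `x` primes `p ≤ y ≤ x`, `p ∉ A`; they are distinct
elements of `RW` outside `A` (`p ≤ x < xJ`, as `J ≥ 2`) with `ww ≥ 1` (`ww_ge_one`); the other
terms are nonnegative (`ww_nonneg`).
-/

set_option autoImplicit false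

namespace Pool.Agent.H80.KF

open Finset

theorem bk_sign (x Q R : ℕ) (A : Finset ℤ) :
    ∃ cf : ℤ → ℕ → ℝ, (∀ a q, |cf a q| ≤ 1) ∧
      ∑ a ∈ A, ∑ q ∈ (Ioc Q (2 * Q)).filter (fun q : ℕ => IsCoprime a (q : ℤ)),
        |∑ p ∈ PX x, uu R q a p| = ∑ p ∈ PX x, ∑ a ∈ A, SS R Q (cf a) a p := by
  classical
  refine ⟨fun a q => if IsCoprime a (q : ℤ) then
    (if 0 ≤ ∑ p ∈ PX x, uu R q a p then 1 else -1) else 0, ?_, ?_⟩
  · intro a q
    dsimp only
    split_ifs <;> simp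
  · have h1 : ∀ (a : ℤ) (q : ℕ), (if IsCoprime a (q : ℤ) then
        |∑ p ∈ PX x, uu R q a p| else 0) =
        (if IsCoprime a (q : ℤ) then
          (if 0 ≤ ∑ p ∈ PX x, uu R q a p then (1 : ℝ) else -1) else 0) *
          ∑ p ∈ PX x, uu R q a p := by
      intro a q
      split_ifs with h2 h3
      · rw [one_mul, abs_of_nonneg h3]
      · rw [abs_of_neg (not_le.1 h3)]
        ring
      · rw [zero_mul]
    simp only [Finset.sum_filter]
    rw [Finset.sum_comm (s := PX x) (t := A)]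
    refine Finset.sum_congr rfl fun a _ => ?_
    unfold SS
    rw [Finset.sum_comm]
    refine Finset.sum_congr rfl fun q _ => ?_
    rw [h1, Finset.mul_sum]

theorem bk_cauchy (x y Q R J : ℕ) (hx : 1 ≤ x) (hyx : y ≤ x) (hJ : 2 ≤ J) (A : Finset ℤ)
    (cf : ℤ → ℕ → ℝ) :
    (∑ p ∈ (PX y).filter (fun p : ℕ => (p : ℤ) ∉ A), ∑ a ∈ A, SS R Q (cf a) a p) ^ 2 ≤
      x * ∑ n ∈ (RW x J).filter (fun n => n ∉ A), ww x J n * (∑ a ∈ A, SS R Q (cf a) a n) ^ 2 := by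
  classical
  have h1 := sq_sum_le_card_mul_sum_sq (s := (PX y).filter (fun p : ℕ => (p : ℤ) ∉ A))
    (f := fun p : ℕ => ∑ a ∈ A, SS R Q (cf a) a p)
  have hc : (((PX y).filter (fun p : ℕ => (p : ℤ) ∉ A)).card : ℝ) ≤ x := by
    have h2 : ((PX y).filter (fun p : ℕ => (p : ℤ) ∉ A)).card ≤ x := by
      refine (Finset.card_filter_le _ _).trans ?_
      unfold PX
      refine (Finset.card_filter_le _ _).trans ?_
      simpa using hyx
    exact_mod_cast h2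
  have hx0 : (0 : ℝ) ≤ x := Nat.cast_nonneg x
  have h3 : ∑ p ∈ (PX y).filter (fun p : ℕ => (p : ℤ) ∉ A), (∑ a ∈ A, SS R Q (cf a) a p) ^ 2 ≤
      ∑ n ∈ (RW x J).filter (fun n => n ∉ A), ww x J n * (∑ a ∈ A, SS R Q (cf a) a n) ^ 2 := by
    have h4 : ∑ p ∈ (PX y).filter (fun p : ℕ => (p : ℤ) ∉ A),
        (∑ a ∈ A, SS R Q (cf a) a p) ^ 2 ≤
        ∑ p ∈ (PX y).filter (fun p : ℕ => (p : ℤ) ∉ A),
          ww x J (p : ℤ) * (∑ a ∈ A, SS R Q (cf a) a (p : ℤ)) ^ 2 := by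
      refine Finset.sum_le_sum fun p hp => ?_
      have hp1 : 1 ≤ p ∧ p ≤ x := by
        have h5 := (Finset.mem_filter.1 (Finset.mem_filter.1 hp).1).1
        exact ⟨(Finset.mem_Icc.1 h5).1, (Finset.mem_Icc.1 h5).2.trans hyx⟩
      have h6 : 1 ≤ ww x J (p : ℤ) := ww_ge_one x J hx (by omega) _ (by
        rw [abs_of_nonneg (by positivity)]
        exact_mod_cast hp1.2)
      nlinarith [sq_nonneg (∑ a ∈ A, SS R Q (cf a) a (p : ℤ))]
    refine h4.trans ?_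
    rw [← Finset.sum_image (s := (PX y).filter (fun p : ℕ => (p : ℤ) ∉ A))
      (g := fun p : ℕ => (p : ℤ))
      (f := fun n : ℤ => ww x J n * (∑ a ∈ A, SS R Q (cf a) a n) ^ 2)
      (fun p _ p' _ h => by simpa using h)]
    refine Finset.sum_le_sum_of_subset_of_nonneg ?_ ?_
    · intro n hn
      obtain ⟨p, hp, rfl⟩ := Finset.mem_image.1 hn
      have hp0 := Finset.mem_filter.1 hp
      have hp2 := Finset.mem_Icc.1 (Finset.mem_filter.1 hp0.1).1
      have hp1 : 1 ≤ p ∧ p ≤ x := ⟨hp2.1, hp2.2.trans hyx⟩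
      refine Finset.mem_filter.2 ⟨?_, hp0.2⟩
      unfold RW
      rw [Finset.mem_Ico]
      constructor
      · have : (0 : ℤ) ≤ (x : ℤ) * J := by positivity
        have : (0 : ℤ) ≤ (p : ℤ) := by positivity
        linarith
      · have h7 : (p : ℤ) ≤ x := by exact_mod_cast hp1.2
        have h8 : (2 : ℤ) ≤ J := by exact_mod_cast hJ
        have h9 : (1 : ℤ) ≤ x := by exact_mod_cast hx
        nlinarith
    · intro n _ _
      exact mul_nonneg (ww_nonneg x J n) (sq_nonneg _)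
  calc (∑ p ∈ (PX y).filter (fun p : ℕ => (p : ℤ) ∉ A), ∑ a ∈ A, SS R Q (cf a) a p) ^ 2
      ≤ (((PX y).filter (fun p : ℕ => (p : ℤ) ∉ A)).card : ℝ) *
        ∑ p ∈ (PX y).filter (fun p : ℕ => (p : ℤ) ∉ A),
          (∑ a ∈ A, SS R Q (cf a) a p) ^ 2 := h1
    _ ≤ x * ∑ n ∈ (RW x J).filter (fun n => n ∉ A),
        ww x J n * (∑ a ∈ A, SS R Q (cf a) a n) ^ 2 :=
        mul_le_mul hc h3 (Finset.sum_nonneg fun _ _ => sq_nonneg _) hx0

end Pool.Agent.H80.KF
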