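import Pool.Agent.H80.KF.Tail
import Pool.Agent.H80.KF.CrR
import Pool.Agent.H92.EH3.DivBound

/-!
# The diagonal, and pointwise bounds

`u = 1_{q ∣ n-a} - v`.  For `n ≠ a`: `∑_q 1_{q ∣ n-a} = A(n)`,
`∑_q |v| ≤ ∑_{r ≤ R, r ≤ 2Q} |c_r(n-a)| ∑_{q, r ∣ q} 1/q ≤ 3 ∑_{r ≤ R} (1/r) ∑_{d ∣ r, d ∣ n-a} d
≤ 3 (1 + log R) D(n)`, `D(n) = #{d ≤ R : d ∣ n-a}`.
`∑_{n ≠ a} ww A² = ∑_{q,q'} ∑_{n ≠ a, [q,q'] ∣ n-a} ww ≤ 100x ∑ 1/[q,q']` (`ww_tail`) and
`∑_{q,q'} (q,q')/(qq') ≤ ∑_{g ≤ 2Q} g (3/g)² ≤ 9(1 + log 2Q)`; in the same way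
`∑ ww D² ≤ 100 x ∑_{d,d' ≤ R} (d,d')/(dd') ≤ 100 x (1 + log R)³`.  `SS² ≤ 2A² + 2(∑|v|)²`.
`pt_bd`: `A, D ≤ τ(|n-a|)`, divisor bound.  `pt_ctr`: `u(a) = 1 - (1/q) ∑_{r ∣ q, r ≤ R} φ(r) ∈ [0,1]`.
-/

set_option autoImplicit false

namespace Pool.Agent.H80.KF

open Finset

/-- number of the elements of `S` dividing `h` -/
noncomputable def Dg_cnt (S : Finset ℕ) (h : ℤ) : ℝ :=
  ((S.filter (fun d : ℕ => (d : ℤ) ∣ h)).card : ℝ)

theorem Dg_cnt_nonneg (S : Finset ℕ) (h : ℤ) : 0 ≤ Dg_cnt S h := Nat.cast_nonneg _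

theorem Dg_cnt_eq (S : Finset ℕ) (h : ℤ) :
    Dg_cnt S h = ∑ d ∈ S, if (d : ℤ) ∣ h then (1 : ℝ) else 0 := by
  unfold Dg_cnt
  rw [Finset.card_filter]
  push_cast
  rfl

theorem Dg_harm (R : ℕ) : ∑ k ∈ Icc 1 R, (1 : ℝ) / k ≤ 1 + Real.log R := by
  have h := harmonic_le_one_add_log R
  rw [harmonic_eq_sum_Icc] at h
  push_cast at h
  simpa [one_div] using h

theorem Dg_one_log (R : ℕ) : 0 ≤ 1 + Real.log R := by
  rcases Nat.eq_zero_or_pos R with h | h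
  · subst h
    simp
  · have : 0 ≤ Real.log R := Real.log_nonneg (by exact_mod_cast h)
    linarith

theorem Dg_inv_mult (R d : ℕ) (hd : 1 ≤ d) :
    ∑ r ∈ (Icc 1 R).filter (fun r => d ∣ r), (1 : ℝ) / r ≤ (1 + Real.log R) / d := by
  have hd0 : (0 : ℝ) < d := by exact_mod_cast hd
  have hsub : (Icc 1 R).filter (fun r => d ∣ r) ⊆ (Icc 1 R).image (fun k => d * k) := by
    intro r hr
    rw [mem_filter, mem_Icc] at hr
    obtain ⟨⟨h1, h2⟩, k, rfl⟩ := hr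
    rw [mem_image]
    refine ⟨k, ?_, rfl⟩
    rw [mem_Icc]
    constructor
    · by_contra h
      have : k = 0 := by omega
      subst this
      simp at h1
    · exact le_trans (Nat.le_mul_of_pos_left k hd) h2
  calc ∑ r ∈ (Icc 1 R).filter (fun r => d ∣ r), (1 : ℝ) / r
      ≤ ∑ r ∈ (Icc 1 R).image (fun k => d * k), (1 : ℝ) / r :=
        sum_le_sum_of_subset_of_nonneg hsub fun r _ _ => by positivity
    _ = ∑ k ∈ Icc 1 R, (1 : ℝ) / ((d * k : ℕ) : ℝ) := by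
        apply sum_image
        intro k _ k' _ h
        exact Nat.eq_of_mul_eq_mul_left hd h
    _ = (∑ k ∈ Icc 1 R, (1 : ℝ) / k) / d := by
        rw [sum_div]
        apply sum_congr rfl
        intro k _
        push_cast
        rw [div_div, mul_comm]
    _ ≤ (1 + Real.log R) / d := div_le_div_of_nonneg_right (Dg_harm R) hd0.le

theorem Dg_ram (R r : ℕ) (hr : r ∈ Icc 1 R) (h : ℤ) :
    |ram r h| ≤ ∑ d ∈ Icc 1 R, if d ∣ r ∧ (d : ℤ) ∣ h then (d : ℝ) else 0 := by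
  refine (ram_abs r h).trans (le_of_eq ?_)
  rw [← sum_filter]
  apply sum_congr _ fun _ _ => rfl
  rw [mem_Icc] at hr
  ext d
  rw [mem_filter, mem_filter, mem_Icc, Nat.mem_divisors]
  constructor
  · rintro ⟨⟨h1, h2⟩, h3⟩
    exact ⟨⟨Nat.pos_of_dvd_of_pos h1 (by omega), (Nat.le_of_dvd (by omega) h1).trans hr.2⟩, h1, h3⟩
  · rintro ⟨_, h1, h3⟩
    exact ⟨⟨h1, by omega⟩, h3⟩

theorem Dg_vv (Q R : ℕ) (hQ : 1 ≤ Q) (h : ℤ) :
    ∑ q ∈ Ioc Q (2 * Q), |(1 / (q : ℝ)) * ∑ r ∈ q.divisors.filter (fun r => r ≤ R), ram r h| ≤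
      3 * (1 + Real.log R) * Dg_cnt (Icc 1 R) h := by
  have e1 : ∀ q ∈ Ioc Q (2 * Q),
      |(1 / (q : ℝ)) * ∑ r ∈ q.divisors.filter (fun r => r ≤ R), ram r h| ≤
        ∑ r ∈ Icc 1 R, if r ∣ q then (1 / (q : ℝ)) * |ram r h| else 0 := by
    intro q hq
    rw [mem_Ioc] at hq
    have hq0 : (0 : ℝ) < q := by
      have : 0 < q := by omega
      exact_mod_cast this
    rw [abs_mul, abs_of_pos (by positivity : (0 : ℝ) < 1 / q), ← sum_filter, ← mul_sum]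
    apply mul_le_mul_of_nonneg_left _ (by positivity)
    refine (abs_sum_le_sum_abs _ _).trans (le_of_eq ?_)
    apply sum_congr _ fun _ _ => rfl
    ext r
    rw [mem_filter, mem_filter, mem_Icc, Nat.mem_divisors]
    constructor
    · rintro ⟨⟨h1, h2⟩, h3⟩
      exact ⟨⟨Nat.pos_of_dvd_of_pos h1 (by omega), h3⟩, h1⟩
    · rintro ⟨⟨_, h3⟩, h1⟩
      exact ⟨⟨h1, by omega⟩, h3⟩
  have e2 : ∀ r ∈ Icc 1 R, (∑ q ∈ Ioc Q (2 * Q), if r ∣ q then (1 / (q : ℝ)) * |ram r h| else 0) ≤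
      (3 / (r : ℝ)) * |ram r h| := by
    intro r hr
    rw [mem_Icc] at hr
    rw [← sum_filter, ← sum_mul]
    apply mul_le_mul_of_nonneg_right _ (abs_nonneg _)
    by_cases hrQ : r ≤ 2 * Q
    · exact sum_inv_mult Q r hQ hr.1 hrQ
    · have : (Ioc Q (2 * Q)).filter (fun q => r ∣ q) = ∅ := by
        apply filter_eq_empty_iff.2
        intro q hq hrq
        rw [mem_Ioc] at hq
        have := Nat.le_of_dvd (by omega) hrq
        omega
      rw [this, sum_empty]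
      positivity
  have e3 : ∀ r ∈ Icc 1 R, (3 / (r : ℝ)) * |ram r h| ≤
      ∑ d ∈ Icc 1 R, if d ∣ r ∧ (d : ℤ) ∣ h then (3 / (r : ℝ)) * d else 0 := by
    intro r hr
    have h1 := mul_le_mul_of_nonneg_left (Dg_ram R r hr h) (by positivity : (0 : ℝ) ≤ 3 / r)
    refine h1.trans (le_of_eq ?_)
    rw [mul_sum]
    apply sum_congr rfl
    intro d _
    rw [mul_ite, mul_zero]
  have e4 : ∀ d ∈ Icc 1 R, (∑ r ∈ Icc 1 R, if d ∣ r ∧ (d : ℤ) ∣ h then (3 / (r : ℝ)) * d else 0) ≤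
      if (d : ℤ) ∣ h then 3 * (1 + Real.log R) else 0 := by
    intro d hd
    rw [mem_Icc] at hd
    have hd0 : (0 : ℝ) < d := by exact_mod_cast hd.1
    by_cases hdh : (d : ℤ) ∣ h
    · rw [if_pos hdh]
      have h1 : (∑ r ∈ Icc 1 R, if d ∣ r ∧ (d : ℤ) ∣ h then (3 / (r : ℝ)) * d else 0) =
          3 * d * ∑ r ∈ (Icc 1 R).filter (fun r => d ∣ r), (1 : ℝ) / r := by
        rw [mul_sum, sum_filter]
        apply sum_congr rfl
        intro r _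
        by_cases hdr : d ∣ r
        · rw [if_pos ⟨hdr, hdh⟩, if_pos hdr]
          ring
        · rw [if_neg (fun h => hdr h.1), if_neg hdr]
      rw [h1]
      have h2 := mul_le_mul_of_nonneg_left (Dg_inv_mult R d hd.1) (by positivity : (0 : ℝ) ≤ 3 * d)
      refine h2.trans (le_of_eq ?_)
      field_simp
    · rw [if_neg hdh]
      apply le_of_eq
      apply sum_eq_zero
      intro r _
      rw [if_neg (fun h => hdh h.2)]
  calc ∑ q ∈ Ioc Q (2 * Q), |(1 / (q : ℝ)) * ∑ r ∈ q.divisors.filter (fun r => r ≤ R), ram r h|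
      ≤ ∑ q ∈ Ioc Q (2 * Q), ∑ r ∈ Icc 1 R, (if r ∣ q then (1 / (q : ℝ)) * |ram r h| else 0) :=
        sum_le_sum e1
    _ = ∑ r ∈ Icc 1 R, ∑ q ∈ Ioc Q (2 * Q), (if r ∣ q then (1 / (q : ℝ)) * |ram r h| else 0) :=
        sum_comm
    _ ≤ ∑ r ∈ Icc 1 R, (3 / (r : ℝ)) * |ram r h| := sum_le_sum e2
    _ ≤ ∑ r ∈ Icc 1 R, ∑ d ∈ Icc 1 R, (if d ∣ r ∧ (d : ℤ) ∣ h then (3 / (r : ℝ)) * d else 0) :=
        sum_le_sum e3
    _ = ∑ d ∈ Icc 1 R, ∑ r ∈ Icc 1 R, (if d ∣ r ∧ (d : ℤ) ∣ h then (3 / (r : ℝ)) * d else 0) :=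
        sum_comm
    _ ≤ ∑ d ∈ Icc 1 R, (if (d : ℤ) ∣ h then 3 * (1 + Real.log R) else 0) := sum_le_sum e4
    _ = 3 * (1 + Real.log R) * Dg_cnt (Icc 1 R) h := by
        rw [Dg_cnt_eq, mul_sum]
        apply sum_congr rfl
        intro d _
        rw [mul_ite, mul_one, mul_zero]

theorem Dg_sq (x J : ℕ) (hx : 1 ≤ x) (hJ : 1 ≤ J) (a : ℤ) (ha : |a| ≤ x) (S : Finset ℕ) (M : ℕ)
    (hS : ∀ d ∈ S, 1 ≤ d ∧ d ≤ M) :
    ∑ n ∈ (RW x J).filter (fun n => n ≠ a), ww x J n * Dg_cnt S (n - a) ^ 2 ≤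
      100 * x * ∑ g ∈ Icc 1 M, (g : ℝ) * (∑ d ∈ S.filter (fun d => g ∣ d), (1 : ℝ) / d) ^ 2 := by
  have e1 : ∀ n : ℤ, ww x J n * Dg_cnt S (n - a) ^ 2 = ∑ d ∈ S, ∑ d' ∈ S,
      (if ((Nat.lcm d d' : ℕ) : ℤ) ∣ n - a then ww x J n else 0) := by
    intro n
    rw [Dg_cnt_eq, sq, sum_mul_sum, mul_sum]
    apply sum_congr rfl
    intro d _
    rw [mul_sum]
    apply sum_congr rfl
    intro d' _
    have hl : ((Nat.lcm d d' : ℕ) : ℤ) ∣ n - a ↔ (d : ℤ) ∣ n - a ∧ (d' : ℤ) ∣ n - a := by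
      rw [Int.natCast_dvd, Int.natCast_dvd, Int.natCast_dvd, Nat.lcm_dvd_iff]
    by_cases h1 : (d : ℤ) ∣ n - a <;> by_cases h2 : (d' : ℤ) ∣ n - a
    · rw [if_pos h1, if_pos h2, if_pos (hl.2 ⟨h1, h2⟩)]
      ring
    · rw [if_neg h2, if_neg (fun h => h2 (hl.1 h).2)]
      ring
    · rw [if_neg h1, if_neg (fun h => h1 (hl.1 h).1)]
      ring
    · rw [if_neg h1, if_neg (fun h => h1 (hl.1 h).1)]
      ring
  have e2 : ∀ d ∈ S, ∀ d' ∈ S, (∑ n ∈ (RW x J).filter (fun n => n ≠ a),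
      (if ((Nat.lcm d d' : ℕ) : ℤ) ∣ n - a then ww x J n else 0)) ≤
      100 * x * ∑ g ∈ Icc 1 M, (if g ∣ d ∧ g ∣ d' then (g : ℝ) * ((1 / (d : ℝ)) * (1 / d')) else 0) := by
    intro d hd d' hd'
    have hd1 := hS d hd
    have hd2 := hS d' hd'
    have hd0 : (0 : ℝ) < d := by exact_mod_cast hd1.1
    have hd0' : (0 : ℝ) < d' := by exact_mod_cast hd2.1
    have hl1 : 1 ≤ Nat.lcm d d' := Nat.lcm_pos (by omega) (by omega)
    rw [← sum_filter, filter_filter]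
    refine (ww_tail x J (Nat.lcm d d') hx hJ hl1 a ha).trans ?_
    have hg1 : Nat.gcd d d' ∈ Icc 1 M := by
      rw [mem_Icc]
      exact ⟨Nat.gcd_pos_of_pos_left _ (by omega), (Nat.gcd_le_left _ (by omega)).trans hd1.2⟩
    have h1 : (if Nat.gcd d d' ∣ d ∧ Nat.gcd d d' ∣ d' then
        ((Nat.gcd d d' : ℕ) : ℝ) * ((1 / (d : ℝ)) * (1 / d')) else 0) ≤
        ∑ g ∈ Icc 1 M, (if g ∣ d ∧ g ∣ d' then (g : ℝ) * ((1 / (d : ℝ)) * (1 / d')) else 0) := by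
      apply single_le_sum (f := fun g : ℕ =>
        if g ∣ d ∧ g ∣ d' then (g : ℝ) * ((1 / (d : ℝ)) * (1 / d')) else 0) _ hg1
      intro g _
      split_ifs
      · positivity
      · exact le_rfl
    rw [if_pos ⟨Nat.gcd_dvd_left d d', Nat.gcd_dvd_right d d'⟩] at h1
    have h2 : 100 * (x : ℝ) / ((Nat.lcm d d' : ℕ) : ℝ) =
        100 * x * (((Nat.gcd d d' : ℕ) : ℝ) * ((1 / (d : ℝ)) * (1 / d'))) := by
      have h3 : ((Nat.gcd d d' : ℕ) : ℝ) * ((Nat.lcm d d' : ℕ) : ℝ) = d * d' := by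
        exact_mod_cast Nat.gcd_mul_lcm d d'
      have hl0 : (0 : ℝ) < ((Nat.lcm d d' : ℕ) : ℝ) := by exact_mod_cast hl1
      rw [div_eq_iff hl0.ne']
      have h4 : 100 * (x : ℝ) * (((Nat.gcd d d' : ℕ) : ℝ) * ((1 / (d : ℝ)) * (1 / d'))) *
          ((Nat.lcm d d' : ℕ) : ℝ) = 100 * x * ((((Nat.gcd d d' : ℕ) : ℝ) *
          ((Nat.lcm d d' : ℕ) : ℝ)) / (d * d')) := by
        field_simp
      rw [h4, h3, div_self (by positivity), mul_one]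
    rw [h2]
    exact mul_le_mul_of_nonneg_left h1 (by positivity)
  calc ∑ n ∈ (RW x J).filter (fun n => n ≠ a), ww x J n * Dg_cnt S (n - a) ^ 2
      = ∑ n ∈ (RW x J).filter (fun n => n ≠ a), ∑ d ∈ S, ∑ d' ∈ S,
          (if ((Nat.lcm d d' : ℕ) : ℤ) ∣ n - a then ww x J n else 0) :=
        sum_congr rfl fun n _ => e1 n
    _ = ∑ d ∈ S, ∑ d' ∈ S, ∑ n ∈ (RW x J).filter (fun n => n ≠ a),
          (if ((Nat.lcm d d' : ℕ) : ℤ) ∣ n - a then ww x J n else 0) := by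
        rw [sum_comm]
        exact sum_congr rfl fun d _ => sum_comm
    _ ≤ ∑ d ∈ S, ∑ d' ∈ S, 100 * x *
          ∑ g ∈ Icc 1 M, (if g ∣ d ∧ g ∣ d' then (g : ℝ) * ((1 / (d : ℝ)) * (1 / d')) else 0) :=
        sum_le_sum fun d hd => sum_le_sum fun d' hd' => e2 d hd d' hd'
    _ = 100 * x * ∑ g ∈ Icc 1 M, ∑ d ∈ S, ∑ d' ∈ S,
          (if g ∣ d ∧ g ∣ d' then (g : ℝ) * ((1 / (d : ℝ)) * (1 / d')) else 0) := by
        simp only [← mul_sum]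
        congr 1
        rw [sum_congr rfl fun d (_ : d ∈ S) => (sum_comm : (∑ d' ∈ S, ∑ g ∈ Icc 1 M,
          (if g ∣ d ∧ g ∣ d' then (g : ℝ) * ((1 / (d : ℝ)) * (1 / d')) else 0)) = _)]
        rw [sum_comm]
    _ = 100 * x * ∑ g ∈ Icc 1 M, (g : ℝ) * (∑ d ∈ S.filter (fun d => g ∣ d), (1 : ℝ) / d) ^ 2 := by
        congr 1
        apply sum_congr rfl
        intro g _
        rw [sq, sum_filter, sum_mul_sum, mul_sum]
        apply sum_congr rfl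
        intro d _
        rw [mul_sum]
        apply sum_congr rfl
        intro d' _
        by_cases h1 : g ∣ d <;> by_cases h2 : g ∣ d' <;> simp [h1, h2]

/-- the pointwise bound -/
theorem Dg_ss (R Q : ℕ) (hQ : 1 ≤ Q) (c : ℕ → ℝ) (hc : ∀ q, |c q| ≤ 1) (a n : ℤ) :
    |SS R Q c a n| ≤ Dg_cnt (Ioc Q (2 * Q)) (n - a) +
      3 * (1 + Real.log R) * Dg_cnt (Icc 1 R) (n - a) := by
  refine le_trans ?_ (add_le_add le_rfl (Dg_vv Q R hQ (n - a)))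
  rw [Dg_cnt_eq, ← sum_add_distrib]
  unfold SS
  refine (abs_sum_le_sum_abs _ _).trans (sum_le_sum fun q _ => ?_)
  rw [abs_mul]
  have h1 : |c q| * |uu R q a n| ≤ 1 * |uu R q a n| :=
    mul_le_mul_of_nonneg_right (hc q) (abs_nonneg _)
  rw [one_mul] at h1
  refine h1.trans ?_
  unfold uu
  refine (abs_sub _ _).trans ?_
  apply add_le_add _ le_rfl
  split_ifs
  · rw [abs_one]
  · rw [abs_zero]

theorem Dg_log (x : ℕ) (hx : 3 ≤ x) : 1 ≤ Real.log x := by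
  have h1 : Real.exp 1 ≤ 3 := by
    have := Real.exp_one_lt_d9
    linarith
  have h2 : (3 : ℝ) ≤ x := by exact_mod_cast hx
  rw [Real.le_log_iff_exp_le (by linarith)]
  linarith

theorem diag (x Q R J : ℕ) (hx : 3 ≤ x) (hQ : 1 ≤ Q) (hQx : 2 * Q ≤ x) (hR : 1 ≤ R) (hRx : R ≤ x)
    (hJ : 1 ≤ J) (a : ℤ) (ha : |a| ≤ x) (c : ℕ → ℝ) (hc : ∀ q, |c q| ≤ 1) :
    ∑ n ∈ (RW x J).filter (fun n => n ≠ a), ww x J n * SS R Q c a n ^ 2 ≤
      10 ^ 5 * x * Real.log x ^ 5 := by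
  have hL := Dg_log x hx
  set L : ℝ := Real.log x with hLdef
  have hx0 : (0 : ℝ) < x := by
    have : 0 < x := by omega
    exact_mod_cast this
  have hlogR : Real.log R ≤ L := Real.log_le_log (by exact_mod_cast hR) (by exact_mod_cast hRx)
  have hlogR0 : 0 ≤ Real.log R := Real.log_nonneg (by exact_mod_cast hR)
  have hlogQ : Real.log (2 * Q : ℕ) ≤ L :=
    Real.log_le_log (by exact_mod_cast (by omega : 0 < 2 * Q)) (by exact_mod_cast hQx)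
  have hlogQ0 : 0 ≤ Real.log (2 * Q : ℕ) :=
    Real.log_nonneg (by exact_mod_cast (by omega : 1 ≤ 2 * Q))
  -- the two sums
  have hA : ∑ n ∈ (RW x J).filter (fun n => n ≠ a), ww x J n * Dg_cnt (Ioc Q (2 * Q)) (n - a) ^ 2 ≤
      1800 * x * L := by
    refine (Dg_sq x J (by omega) hJ a ha (Ioc Q (2 * Q)) (2 * Q) (fun d hd => by
      rw [mem_Ioc] at hd; omega)).trans ?_
    have h1 : ∑ g ∈ Icc 1 (2 * Q), (g : ℝ) *
        (∑ d ∈ (Ioc Q (2 * Q)).filter (fun d => g ∣ d), (1 : ℝ) / d) ^ 2 ≤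
        ∑ g ∈ Icc 1 (2 * Q), 9 * (1 / (g : ℝ)) := by
      apply sum_le_sum
      intro g hg
      rw [mem_Icc] at hg
      have hg0 : (0 : ℝ) < g := by exact_mod_cast hg.1
      have h2 := sum_inv_mult Q g hQ hg.1 hg.2
      have h3 : 0 ≤ ∑ d ∈ (Ioc Q (2 * Q)).filter (fun d => g ∣ d), (1 : ℝ) / d :=
        sum_nonneg fun d _ => by positivity
      have h4 := pow_le_pow_left₀ h3 h2 2
      calc (g : ℝ) * (∑ d ∈ (Ioc Q (2 * Q)).filter (fun d => g ∣ d), (1 : ℝ) / d) ^ 2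
          ≤ g * (3 / g) ^ 2 := mul_le_mul_of_nonneg_left h4 hg0.le
        _ = 9 * (1 / (g : ℝ)) := by field_simp; norm_num
    rw [← mul_sum] at h1
    have h5 := Dg_harm (2 * Q)
    have h6 : ∑ g ∈ Icc 1 (2 * Q), (g : ℝ) *
        (∑ d ∈ (Ioc Q (2 * Q)).filter (fun d => g ∣ d), (1 : ℝ) / d) ^ 2 ≤ 18 * L := by linarith
    calc _ ≤ 100 * (x : ℝ) * (18 * L) := mul_le_mul_of_nonneg_left h6 (by positivity)
      _ = 1800 * x * L := by ring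
  have hD : ∑ n ∈ (RW x J).filter (fun n => n ≠ a), ww x J n * Dg_cnt (Icc 1 R) (n - a) ^ 2 ≤
      100 * x * (1 + Real.log R) ^ 3 := by
    refine (Dg_sq x J (by omega) hJ a ha (Icc 1 R) R (fun d hd => by
      rw [mem_Icc] at hd; exact hd)).trans ?_
    apply mul_le_mul_of_nonneg_left _ (by positivity)
    have h1 : ∑ g ∈ Icc 1 R, (g : ℝ) *
        (∑ d ∈ (Icc 1 R).filter (fun d => g ∣ d), (1 : ℝ) / d) ^ 2 ≤
        ∑ g ∈ Icc 1 R, (1 + Real.log R) ^ 2 * (1 / (g : ℝ)) := by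
      apply sum_le_sum
      intro g hg
      rw [mem_Icc] at hg
      have hg0 : (0 : ℝ) < g := by exact_mod_cast hg.1
      have h2 := Dg_inv_mult R g hg.1
      have h3 : 0 ≤ ∑ d ∈ (Icc 1 R).filter (fun d => g ∣ d), (1 : ℝ) / d :=
        sum_nonneg fun d _ => by positivity
      have h4 := pow_le_pow_left₀ h3 h2 2
      calc (g : ℝ) * (∑ d ∈ (Icc 1 R).filter (fun d => g ∣ d), (1 : ℝ) / d) ^ 2
          ≤ g * ((1 + Real.log R) / g) ^ 2 := mul_le_mul_of_nonneg_left h4 hg0.le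
        _ = (1 + Real.log R) ^ 2 * (1 / (g : ℝ)) := by field_simp
    rw [← mul_sum] at h1
    refine h1.trans ?_
    calc (1 + Real.log R) ^ 2 * ∑ g ∈ Icc 1 R, (1 : ℝ) / g ≤ (1 + Real.log R) ^ 2 * (1 + Real.log R) :=
          mul_le_mul_of_nonneg_left (Dg_harm R) (by positivity)
      _ = (1 + Real.log R) ^ 3 := by ring
  have hpt : ∀ n : ℤ, ww x J n * SS R Q c a n ^ 2 ≤
      2 * (ww x J n * Dg_cnt (Ioc Q (2 * Q)) (n - a) ^ 2) +
      18 * (1 + Real.log R) ^ 2 * (ww x J n * Dg_cnt (Icc 1 R) (n - a) ^ 2) := by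
    intro n
    have h1 := Dg_ss R Q hQ c hc a n
    have h2 : SS R Q c a n ^ 2 ≤ (Dg_cnt (Ioc Q (2 * Q)) (n - a) +
        3 * (1 + Real.log R) * Dg_cnt (Icc 1 R) (n - a)) ^ 2 := by
      rw [← sq_abs]
      exact pow_le_pow_left₀ (abs_nonneg _) h1 2
    have h3 : (Dg_cnt (Ioc Q (2 * Q)) (n - a) +
        3 * (1 + Real.log R) * Dg_cnt (Icc 1 R) (n - a)) ^ 2 ≤
        2 * Dg_cnt (Ioc Q (2 * Q)) (n - a) ^ 2 +
        2 * (3 * (1 + Real.log R) * Dg_cnt (Icc 1 R) (n - a)) ^ 2 := by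
      have := sq_nonneg (Dg_cnt (Ioc Q (2 * Q)) (n - a) -
        3 * (1 + Real.log R) * Dg_cnt (Icc 1 R) (n - a))
      linarith
    have h4 := mul_le_mul_of_nonneg_left (h2.trans h3) (ww_nonneg x J n)
    refine h4.trans (le_of_eq ?_)
    ring
  calc ∑ n ∈ (RW x J).filter (fun n => n ≠ a), ww x J n * SS R Q c a n ^ 2
      ≤ ∑ n ∈ (RW x J).filter (fun n => n ≠ a),
          (2 * (ww x J n * Dg_cnt (Ioc Q (2 * Q)) (n - a) ^ 2) +
          18 * (1 + Real.log R) ^ 2 * (ww x J n * Dg_cnt (Icc 1 R) (n - a) ^ 2)) :=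
        sum_le_sum fun n _ => hpt n
    _ = 2 * (∑ n ∈ (RW x J).filter (fun n => n ≠ a),
          ww x J n * Dg_cnt (Ioc Q (2 * Q)) (n - a) ^ 2) +
        18 * (1 + Real.log R) ^ 2 * (∑ n ∈ (RW x J).filter (fun n => n ≠ a),
          ww x J n * Dg_cnt (Icc 1 R) (n - a) ^ 2) := by
        rw [sum_add_distrib, mul_sum, mul_sum]
    _ ≤ 2 * (1800 * x * L) + 18 * (1 + Real.log R) ^ 2 * (100 * x * (1 + Real.log R) ^ 3) :=
        add_le_add (mul_le_mul_of_nonneg_left hA (by norm_num))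
          (mul_le_mul_of_nonneg_left hD (by positivity))
    _ = 3600 * x * L + 1800 * x * (1 + Real.log R) ^ 5 := by ring
    _ ≤ 3600 * x * L ^ 5 + 1800 * x * (2 * L) ^ 5 := by
        apply add_le_add
        · apply mul_le_mul_of_nonneg_left _ (by positivity)
          exact le_self_pow₀ hL (by norm_num)
        · apply mul_le_mul_of_nonneg_left _ (by positivity)
          exact pow_le_pow_left₀ (by linarith) (by linarith) 5
    _ ≤ 10 ^ 5 * x * L ^ 5 := by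
        have : 0 ≤ (x : ℝ) * L ^ 5 := by positivity
        nlinarith

/-- the sum of the absolute values -/
noncomputable def SA (R Q : ℕ) (a n : ℤ) : ℝ := ∑ q ∈ Ioc Q (2 * Q), |uu R q a n|

theorem ss_le_sa (R Q : ℕ) (c : ℕ → ℝ) (hc : ∀ q, |c q| ≤ 1) (a n : ℤ) :
    |SS R Q c a n| ≤ SA R Q a n := by
  unfold SS SA
  refine (abs_sum_le_sum_abs _ _).trans (sum_le_sum fun q _ => ?_)
  rw [abs_mul]
  have h1 : |c q| * |uu R q a n| ≤ 1 * |uu R q a n| :=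
    mul_le_mul_of_nonneg_right (hc q) (abs_nonneg _)
  rwa [one_mul] at h1

theorem pt_ctr (R Q : ℕ) (a : ℤ) : SA R Q a a ≤ Q := by
  unfold SA
  have h1 : ∀ q ∈ Ioc Q (2 * Q), |uu R q a a| ≤ 1 := by
    intro q hq
    rw [mem_Ioc] at hq
    have hq0 : (0 : ℝ) < q := by
      have : 0 < q := by omega
      exact_mod_cast this
    unfold uu
    rw [sub_self, if_pos (dvd_zero _)]
    have h2 : ∀ r, ram r 0 = (Nat.totient r : ℝ) := ram_at_zero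
    simp only [h2]
    have h3 : ∑ r ∈ q.divisors.filter (fun r => r ≤ R), (Nat.totient r : ℝ) ≤ q := by
      calc ∑ r ∈ q.divisors.filter (fun r => r ≤ R), (Nat.totient r : ℝ)
          ≤ ∑ r ∈ q.divisors, (Nat.totient r : ℝ) :=
            sum_le_sum_of_subset_of_nonneg (filter_subset _ _) fun _ _ _ => Nat.cast_nonneg _
        _ = q := by exact_mod_cast Nat.sum_totient q
    have h4 : 0 ≤ ∑ r ∈ q.divisors.filter (fun r => r ≤ R), (Nat.totient r : ℝ) :=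
      sum_nonneg fun _ _ => Nat.cast_nonneg _
    have h5 : 1 / (q : ℝ) * ∑ r ∈ q.divisors.filter (fun r => r ≤ R), (Nat.totient r : ℝ) ≤ 1 := by
      rw [one_div_mul_eq_div, div_le_one hq0]
      exact h3
    have h6 : 0 ≤ 1 / (q : ℝ) * ∑ r ∈ q.divisors.filter (fun r => r ≤ R), (Nat.totient r : ℝ) := by
      positivity
    rw [abs_le]
    constructor <;> linarith
  calc ∑ q ∈ Ioc Q (2 * Q), |uu R q a a| ≤ ∑ q ∈ Ioc Q (2 * Q), (1 : ℝ) := sum_le_sum h1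
    _ = Q := by
        rw [sum_const, Nat.card_Ioc, nsmul_eq_mul, mul_one]
        congr 1
        omega

theorem Dg_cnt_le (S : Finset ℕ) (h : ℤ) (hh : h ≠ 0) : Dg_cnt S h ≤ (h.natAbs.divisors.card : ℝ) := by
  unfold Dg_cnt
  have : (S.filter (fun d : ℕ => (d : ℤ) ∣ h)).card ≤ h.natAbs.divisors.card := by
    apply card_le_card
    intro d hd
    rw [mem_filter] at hd
    rw [Nat.mem_divisors]
    exact ⟨Int.natCast_dvd.1 hd.2, Int.natAbs_ne_zero.2 hh⟩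
  exact_mod_cast this

theorem pt_bd : ∃ x0 : ℕ, ∀ x Q R : ℕ, x0 ≤ x → 1 ≤ Q → 1 ≤ R → R ≤ x → ∀ a n : ℤ, a ≠ n →
    |a| ≤ x → |n| ≤ x → SA R Q a n ≤ (x : ℝ) ^ ((1 : ℝ) / 1000) := by
  obtain ⟨C, hC1, hC⟩ := Pool.Agent.H92.EH.div_bound (1 / 4000) (by norm_num)
  refine ⟨⌈(24008 * C) ^ 2000⌉₊ + 1, ?_⟩
  intro x Q R hx hQ hR hRx a n han ha hn
  have hx1 : 1 ≤ x := by omega
  have hx1' : (1 : ℝ) ≤ x := by exact_mod_cast hx1
  have hx0 : (0 : ℝ) < x := by linarith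
  have hbig : (24008 * C) ^ 2000 ≤ (x : ℝ) := by
    have h1 : (24008 * C) ^ 2000 ≤ (⌈(24008 * C) ^ 2000⌉₊ : ℝ) := Nat.le_ceil _
    have h2 : (⌈(24008 * C) ^ 2000⌉₊ : ℝ) ≤ x := by exact_mod_cast (by omega)
    linarith
  have hroot : 24008 * C ≤ (x : ℝ) ^ ((1 : ℝ) / 2000) := by
    have h1 : ((24008 * C) ^ 2000) ^ ((1 : ℝ) / 2000) ≤ (x : ℝ) ^ ((1 : ℝ) / 2000) :=
      Real.rpow_le_rpow (by positivity) hbig (by norm_num)
    have h2 : ((24008 * C) ^ 2000) ^ ((1 : ℝ) / 2000) = 24008 * C := by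
      rw [← Real.rpow_natCast (24008 * C) 2000, ← Real.rpow_mul (by positivity)]
      norm_num
    rwa [h2] at h1
  set h : ℤ := n - a with hh
  have hh0 : h ≠ 0 := by
    intro h0
    exact han (by omega)
  have hhx : (h.natAbs : ℝ) ≤ 2 * x := by
    have h1 : |h| ≤ 2 * x := by
      rw [hh]
      exact (abs_sub n a).trans (by linarith)
    have h2 : ((h.natAbs : ℕ) : ℤ) ≤ 2 * x := by
      rw [Int.natCast_natAbs]
      exact h1
    exact_mod_cast h2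
  have hhp : 1 ≤ h.natAbs := Int.natAbs_pos.2 hh0
  have hSA : SA R Q a n ≤ Dg_cnt (Ioc Q (2 * Q)) h + 3 * (1 + Real.log R) * Dg_cnt (Icc 1 R) h := by
    have h1 := Dg_ss R Q hQ (fun q => if 0 ≤ uu R q a n then 1 else -1) (fun q => by
      split_ifs
      · rw [abs_one]
      · rw [abs_neg, abs_one]) a n
    refine le_trans ?_ h1
    refine le_trans (le_of_eq ?_) (le_abs_self _)
    unfold SA SS
    apply sum_congr rfl
    intro q _
    change |uu R q a n| = (if 0 ≤ uu R q a n then (1 : ℝ) else -1) * uu R q a n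
    split_ifs with h2
    · rw [abs_of_nonneg h2, one_mul]
    · rw [abs_of_neg (not_le.1 h2)]
      ring
  have hlogR : Real.log R ≤ Real.log x :=
    Real.log_le_log (by exact_mod_cast hR) (by exact_mod_cast hRx)
  have hlogR0 : 0 ≤ Real.log R := Real.log_nonneg (by exact_mod_cast hR)
  set T : ℝ := (h.natAbs.divisors.card : ℝ) with hT
  have hT0 : 0 ≤ T := Nat.cast_nonneg _
  have h1 : SA R Q a n ≤ T * (4 + 3 * Real.log x) := by
    have h2 := Dg_cnt_le (Ioc Q (2 * Q)) h hh0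
    have h3 := Dg_cnt_le (Icc 1 R) h hh0
    have h4 : 3 * (1 + Real.log R) * Dg_cnt (Icc 1 R) h ≤ 3 * (1 + Real.log x) * T :=
      mul_le_mul (by linarith) h3 (Dg_cnt_nonneg _ _) (by linarith)
    calc SA R Q a n ≤ T + 3 * (1 + Real.log x) * T := hSA.trans (add_le_add h2 h4)
      _ = T * (4 + 3 * Real.log x) := by ring
  have h2 : T ≤ 2 * C * (x : ℝ) ^ ((1 : ℝ) / 4000) := by
    have h3 := hC h.natAbs hhp
    have h4 : (h.natAbs : ℝ) ^ ((1 : ℝ) / 4000) ≤ (2 * (x : ℝ)) ^ ((1 : ℝ) / 4000) :=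
      Real.rpow_le_rpow (Nat.cast_nonneg _) hhx (by norm_num)
    have h5 : (2 * (x : ℝ)) ^ ((1 : ℝ) / 4000) = (2 : ℝ) ^ ((1 : ℝ) / 4000) * (x : ℝ) ^ ((1 : ℝ) / 4000) :=
      Real.mul_rpow (by norm_num) hx0.le
    have h6 : (2 : ℝ) ^ ((1 : ℝ) / 4000) ≤ 2 := by
      calc (2 : ℝ) ^ ((1 : ℝ) / 4000) ≤ (2 : ℝ) ^ (1 : ℝ) :=
            Real.rpow_le_rpow_of_exponent_le (by norm_num) (by norm_num)
        _ = 2 := Real.rpow_one 2
    have h7 : (0 : ℝ) ≤ (x : ℝ) ^ ((1 : ℝ) / 4000) := by positivity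
    calc T ≤ C * (h.natAbs : ℝ) ^ ((1 : ℝ) / 4000) := h3
      _ ≤ C * ((2 : ℝ) ^ ((1 : ℝ) / 4000) * (x : ℝ) ^ ((1 : ℝ) / 4000)) := by
          rw [← h5]
          exact mul_le_mul_of_nonneg_left h4 (by linarith)
      _ ≤ C * (2 * (x : ℝ) ^ ((1 : ℝ) / 4000)) :=
          mul_le_mul_of_nonneg_left (mul_le_mul_of_nonneg_right h6 h7) (by linarith)
      _ = 2 * C * (x : ℝ) ^ ((1 : ℝ) / 4000) := by ring
  have h3 : 4 + 3 * Real.log x ≤ 12004 * (x : ℝ) ^ ((1 : ℝ) / 4000) := by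
    have h4 : Real.log x ≤ (x : ℝ) ^ ((1 : ℝ) / 4000) / (1 / 4000) :=
      Real.log_le_rpow_div hx0.le (by norm_num)
    have h5 : (1 : ℝ) ≤ (x : ℝ) ^ ((1 : ℝ) / 4000) := Real.one_le_rpow hx1' (by norm_num)
    have h6 : (x : ℝ) ^ ((1 : ℝ) / 4000) / (1 / 4000) = 4000 * (x : ℝ) ^ ((1 : ℝ) / 4000) := by ring
    rw [h6] at h4
    linarith
  have hlx : 0 ≤ Real.log x := Real.log_nonneg hx1'
  calc SA R Q a n ≤ T * (4 + 3 * Real.log x) := h1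
    _ ≤ (2 * C * (x : ℝ) ^ ((1 : ℝ) / 4000)) * (12004 * (x : ℝ) ^ ((1 : ℝ) / 4000)) :=
        mul_le_mul h2 h3 (by linarith) (by positivity)
    _ = 24008 * C * ((x : ℝ) ^ ((1 : ℝ) / 4000) * (x : ℝ) ^ ((1 : ℝ) / 4000)) := by ring
    _ = 24008 * C * (x : ℝ) ^ ((1 : ℝ) / 2000) := by
        rw [← Real.rpow_add hx0]
        norm_num
    _ ≤ (x : ℝ) ^ ((1 : ℝ) / 2000) * (x : ℝ) ^ ((1 : ℝ) / 2000) :=
        mul_le_mul_of_nonneg_right hroot (by positivity)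
    _ = (x : ℝ) ^ ((1 : ℝ) / 1000) := by
        rw [← Real.rpow_add hx0]
        norm_num

end Pool.Agent.H80.KF
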