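import Pool.Agent.H80.KF.FejA
import Pool.Agent.H80.KF.Dg

/-!
# Expanding the square

`(∑_a S_a)² = ∑_a S_a² + ∑_{a ≠ a'} S_a S_{a'}`.  For `n ∉ A`, `n ≠ a`: the squares are at most
`∑_{n ≠ a} ww S_a² ≤ D`.  For `a ≠ a'`: `∑_{n ∈ RW, n ∉ A} = ∑_{n ∈ RW} - ∑_{n ∈ RW ∩ A}`, the first is
at most `E`, the second at most `∑_{n ∈ A} 3 |S_a(n)| |S_{a'}(n)|` with `|S_a(n)| ≤ M` for `n ≠ a` and
`≤ Q` for `n = a` (`ss_le_sa`): at most `3 K M² + 6 Q M` (`ww_le`).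
-/

set_option autoImplicit false

namespace Pool.Agent.H80.KF

open Finset

private theorem bkB_pt (Q R : ℕ) (A : Finset ℤ) (cf : ℤ → ℕ → ℝ)
    (hcf : ∀ a q, |cf a q| ≤ 1) (M : ℝ) (hM0 : 0 ≤ M)
    (hM : ∀ a ∈ A, ∀ n ∈ A, a ≠ n → SA R Q a n ≤ M) (hC : ∀ a ∈ A, SA R Q a a ≤ Q)
    (a a' : ℤ) (ha : a ∈ A) (ha' : a' ∈ A) (haa : a ≠ a') (n : ℤ) (hn : n ∈ A) :
    |SS R Q (cf a) a n| * |SS R Q (cf a') a' n| ≤
      M ^ 2 + (if n = a then (Q : ℝ) * M else 0) + (if n = a' then (Q : ℝ) * M else 0) := by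
  have hQ : (0 : ℝ) ≤ Q := Nat.cast_nonneg Q
  have hQM : (0 : ℝ) ≤ Q * M := mul_nonneg hQ hM0
  have hM2 : (0 : ℝ) ≤ M ^ 2 := sq_nonneg M
  have h1 := ss_le_sa R Q (cf a) (hcf a) a n
  have h2 := ss_le_sa R Q (cf a') (hcf a') a' n
  by_cases hna : n = a
  · subst hna
    have h3 := hC n ha
    have h4 := hM a' ha' n hn haa.symm
    have h5 : |SS R Q (cf n) n n| * |SS R Q (cf a') a' n| ≤ Q * M :=
      mul_le_mul (h1.trans h3) (h2.trans h4) (abs_nonneg _) hQ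
    rw [if_pos rfl]
    split_ifs <;> linarith
  · have h3 := hM a ha n hn (Ne.symm hna)
    by_cases hna' : n = a'
    · subst hna'
      have h4 := hC n ha'
      have h5 : |SS R Q (cf a) a n| * |SS R Q (cf n) n n| ≤ M * Q :=
        mul_le_mul (h1.trans h3) (h2.trans h4) (abs_nonneg _) hM0
      rw [if_neg hna, if_pos rfl]
      linarith
    · have h4 := hM a' ha' n hn (Ne.symm hna')
      have h5 : |SS R Q (cf a) a n| * |SS R Q (cf a') a' n| ≤ M * M :=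
        mul_le_mul (h1.trans h3) (h2.trans h4) (abs_nonneg _) hM0
      rw [if_neg hna, if_neg hna']
      nlinarith

private theorem bkB_off (x Q R J : ℕ) (hx : 1 ≤ x) (hJ : 1 ≤ J) (A : Finset ℤ) (cf : ℤ → ℕ → ℝ)
    (hcf : ∀ a q, |cf a q| ≤ 1) (E M : ℝ) (hM0 : 0 ≤ M)
    (hM : ∀ a ∈ A, ∀ n ∈ A, a ≠ n → SA R Q a n ≤ M) (hC : ∀ a ∈ A, SA R Q a a ≤ Q)
    (a a' : ℤ) (ha : a ∈ A) (ha' : a' ∈ A) (haa : a ≠ a')
    (hE : |∑ n ∈ RW x J, ww x J n * (SS R Q (cf a) a n * SS R Q (cf a') a' n)| ≤ E) :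
    ∑ n ∈ (RW x J).filter (fun n => n ∉ A), ww x J n *
        (SS R Q (cf a) a n * SS R Q (cf a') a' n) ≤
      E + 3 * A.card * M ^ 2 + 6 * Q * M := by
  have h1 := Finset.sum_filter_add_sum_filter_not (RW x J) (fun n => n ∉ A)
    (fun n => ww x J n * (SS R Q (cf a) a n * SS R Q (cf a') a' n))
  have h2 := (abs_le.1 hE).2
  have h3 : -(∑ n ∈ (RW x J).filter (fun n => ¬ n ∉ A), ww x J n *
      (SS R Q (cf a) a n * SS R Q (cf a') a' n)) ≤
      ∑ n ∈ A, 3 * (M ^ 2 + (if n = a then (Q : ℝ) * M else 0) +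
        (if n = a' then (Q : ℝ) * M else 0)) := by
    rw [← Finset.sum_neg_distrib]
    have hnn : ∀ n, 0 ≤ 3 * (M ^ 2 + (if n = a then (Q : ℝ) * M else 0) +
        (if n = a' then (Q : ℝ) * M else 0)) := by
      intro n
      have hQM : (0 : ℝ) ≤ Q * M := mul_nonneg (Nat.cast_nonneg Q) hM0
      have hM2 : (0 : ℝ) ≤ M ^ 2 := sq_nonneg M
      split_ifs <;> linarith
    refine le_trans (Finset.sum_le_sum fun n hn => ?_)
      (Finset.sum_le_sum_of_subset_of_nonneg (s := (RW x J).filter (fun n => ¬ n ∉ A)) ?_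
        fun n _ _ => hnn n)
    · have hnA : n ∈ A := not_not.1 (Finset.mem_filter.1 hn).2
      have h4 := bkB_pt Q R A cf hcf M hM0 hM hC a a' ha ha' haa n hnA
      have h5 := ww_nonneg x J n
      have h6 := ww_le x J hx hJ n
      have h7 : -(ww x J n * (SS R Q (cf a) a n * SS R Q (cf a') a' n)) ≤
          ww x J n * (|SS R Q (cf a) a n| * |SS R Q (cf a') a' n|) := by
        rw [← abs_mul, ← mul_neg]
        exact mul_le_mul_of_nonneg_left (neg_le_abs _) h5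
      refine h7.trans ?_
      exact mul_le_mul h6 h4 (mul_nonneg (abs_nonneg _) (abs_nonneg _)) (by norm_num)
    · intro n hn
      exact not_not.1 (Finset.mem_filter.1 hn).2
  have h4 : ∑ n ∈ A, 3 * (M ^ 2 + (if n = a then (Q : ℝ) * M else 0) +
        (if n = a' then (Q : ℝ) * M else 0)) = 3 * (A.card * M ^ 2 + Q * M + Q * M) := by
    rw [← Finset.mul_sum, Finset.sum_add_distrib, Finset.sum_add_distrib, Finset.sum_const,
      Finset.sum_ite_eq' A a, Finset.sum_ite_eq' A a', if_pos ha, if_pos ha', nsmul_eq_mul]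
  rw [h4] at h3
  linarith

theorem bk_expand (x Q R J : ℕ) (hx : 1 ≤ x) (hJ : 1 ≤ J) (A : Finset ℤ) (cf : ℤ → ℕ → ℝ)
    (hcf : ∀ a q, |cf a q| ≤ 1) (D E M : ℝ) (hM0 : 0 ≤ M) (hE0 : 0 ≤ E)
    (hD : ∀ a ∈ A, ∑ n ∈ (RW x J).filter (fun n => n ≠ a), ww x J n * SS R Q (cf a) a n ^ 2 ≤ D)
    (hE : ∀ a ∈ A, ∀ a' ∈ A, a ≠ a' →
      |∑ n ∈ RW x J, ww x J n * (SS R Q (cf a) a n * SS R Q (cf a') a' n)| ≤ E)
    (hM : ∀ a ∈ A, ∀ n ∈ A, a ≠ n → SA R Q a n ≤ M) (hC : ∀ a ∈ A, SA R Q a a ≤ Q) :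
    ∑ n ∈ (RW x J).filter (fun n => n ∉ A), ww x J n * (∑ a ∈ A, SS R Q (cf a) a n) ^ 2 ≤
      A.card * D + (A.card : ℝ) ^ 2 * (E + 3 * A.card * M ^ 2 + 6 * Q * M) := by
  classical
  set B : ℝ := E + 3 * A.card * M ^ 2 + 6 * Q * M with hB
  have hB0 : 0 ≤ B := by
    have h1 : (0 : ℝ) ≤ 3 * A.card * M ^ 2 := by positivity
    have h2 : (0 : ℝ) ≤ 6 * Q * M := by positivity
    linarith
  have h1 : ∑ n ∈ (RW x J).filter (fun n => n ∉ A), ww x J n * (∑ a ∈ A, SS R Q (cf a) a n) ^ 2 =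
      ∑ a ∈ A, ∑ a' ∈ A, ∑ n ∈ (RW x J).filter (fun n => n ∉ A), ww x J n *
        (SS R Q (cf a) a n * SS R Q (cf a') a' n) := by
    have h2 : ∀ n, ww x J n * (∑ a ∈ A, SS R Q (cf a) a n) ^ 2 =
        ∑ a ∈ A, ∑ a' ∈ A, ww x J n * (SS R Q (cf a) a n * SS R Q (cf a') a' n) := by
      intro n
      rw [pow_two, Finset.sum_mul_sum, Finset.mul_sum]
      exact Finset.sum_congr rfl fun a _ => Finset.mul_sum _ _ _
    rw [Finset.sum_congr rfl fun n _ => h2 n, Finset.sum_comm]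
    exact Finset.sum_congr rfl fun a _ => Finset.sum_comm
  rw [h1]
  have h3 : ∀ a ∈ A, ∀ a' ∈ A, ∑ n ∈ (RW x J).filter (fun n => n ∉ A), ww x J n *
      (SS R Q (cf a) a n * SS R Q (cf a') a' n) ≤ (if a' = a then D else 0) + B := by
    intro a ha a' ha'
    by_cases haa : a' = a
    · subst haa
      rw [if_pos rfl]
      have h4 := hD a' ha
      have h5 : ∑ n ∈ (RW x J).filter (fun n => n ∉ A), ww x J n *
          (SS R Q (cf a') a' n * SS R Q (cf a') a' n) ≤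
          ∑ n ∈ (RW x J).filter (fun n => n ≠ a'), ww x J n * SS R Q (cf a') a' n ^ 2 := by
        simp only [← pow_two]
        refine Finset.sum_le_sum_of_subset_of_nonneg ?_ fun n _ _ =>
          mul_nonneg (ww_nonneg x J n) (sq_nonneg _)
        intro n hn
        rw [Finset.mem_filter] at hn ⊢
        exact ⟨hn.1, fun h => hn.2 (h ▸ ha)⟩
      linarith
    · rw [if_neg haa, zero_add]
      exact bkB_off x Q R J hx hJ A cf hcf E M hM0 hM hC a a' ha ha' (Ne.symm haa)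
        (hE a ha a' ha' (Ne.symm haa))
  refine le_trans (Finset.sum_le_sum fun a ha => Finset.sum_le_sum fun a' ha' => h3 a ha a' ha') ?_
  have h6 : ∀ a ∈ A, ∑ a' ∈ A, ((if a' = a then D else 0) + B) = D + A.card * B := by
    intro a ha
    rw [Finset.sum_add_distrib, Finset.sum_const, nsmul_eq_mul, Finset.sum_ite_eq' A a, if_pos ha]
  rw [Finset.sum_congr rfl h6, Finset.sum_const, nsmul_eq_mul]
  apply le_of_eq
  ring

end Pool.Agent.H80.KF
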