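import Pool.Agent.H80.KF.CKc
import Pool.Agent.H80.KF.CrR
import Pool.Agent.H80.KF.Gram
import Pool.Agent.H92.EH3.DivBound

/-!
# Different residues are nearly orthogonal

Expand `SS` and use `gram_in` (with `n₀(q,q')` a solution of the two congruences, which exists when
`(q,q') ∣ h`) and `gram_out`; by `ram_sum` `[g ∣ h]/[q,q'] = (1/(qq')) ∑_{r ∣ g} c_r(h)`, so the sum
is `XK + ∑ c c' (π²x/(2qq')) ∑_{r ∣ g, r > R} c_r(h)`.  `xk_bound`: `100 Q^{99/50} ≤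
100 x^{9999/10000}`; `cross_ram`: `100 x τ(|h|)/R`, `R ≥ x^{1/1000}/2`, `τ(|h|) ≤ x^{1/10^4}`
(`div_bound`).  `q R ≤ 2Q R ≤ 2x` for `q ≤ 2Q`.
-/

set_option autoImplicit false

namespace Pool.Agent.H80.KF

open Finset

/-- solution of two congruences -/
private theorem cross_n0 (a a' : ℤ) : ∃ n0 : ℕ → ℕ → ℤ, ∀ q q' : ℕ,
    ((Nat.gcd q q' : ℕ) : ℤ) ∣ a' - a → (q : ℤ) ∣ n0 q q' - a ∧ (q' : ℤ) ∣ n0 q q' - a' := by
  classical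
  have h : ∀ q q' : ℕ, ∃ n0 : ℤ, ((Nat.gcd q q' : ℕ) : ℤ) ∣ a' - a →
      (q : ℤ) ∣ n0 - a ∧ (q' : ℤ) ∣ n0 - a' := by
    intro q q'
    by_cases hd : ((Nat.gcd q q' : ℕ) : ℤ) ∣ a' - a
    · obtain ⟨t, ht⟩ := hd
      have hb := Nat.gcd_eq_gcd_ab q q'
      refine ⟨a + q * Nat.gcdA q q' * t, fun _ => ⟨?_, ?_⟩⟩
      · exact ⟨Nat.gcdA q q' * t, by ring⟩
      · refine ⟨-(Nat.gcdB q q' * t), ?_⟩
        rw [hb] at ht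
        linear_combination -ht
    · exact ⟨0, fun h => absurd h hd⟩
  choose n0 hn0 using h
  exact ⟨n0, hn0⟩

/-- one Gram entry -/
private theorem cross_entry (x J R q q' : ℕ) (hx : 1 ≤ x) (hJ : 1 ≤ J) (hq : 1 ≤ q) (hq' : 1 ≤ q')
    (hdiv : ∀ m, 1 ≤ m → m ≤ q * q' → m ∣ 2 * x * J) (h1 : q * R ≤ 2 * x) (h2 : q' * R ≤ 2 * x)
    (h3 : R * R ≤ 2 * x) (a a' : ℤ) (n0 : ℕ → ℕ → ℤ)
    (hn0 : ((Nat.gcd q q' : ℕ) : ℤ) ∣ a' - a →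
      (q : ℤ) ∣ n0 q q' - a ∧ (q' : ℤ) ∣ n0 q q' - a') :
    ((∑ n ∈ RW x J, ww x J n * uu R q a n * uu R q' a' n : ℝ) : ℂ) =
      (if ((Nat.gcd q q' : ℕ) : ℤ) ∣ a' - a then
        ((Real.pi ^ 2 * x / (2 * (Nat.lcm q q' : ℕ)) : ℝ) : ℂ) *
          (fej x (Nat.lcm q q') (n0 q q') - 1) else 0) +
        ((Real.pi ^ 2 * x / (2 * q * q') *
          ∑ r ∈ (Nat.gcd q q').divisors.filter (fun r => R < r), ram r (a' - a) : ℝ) : ℂ) := by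
  have hg : 1 ≤ Nat.gcd q q' := Nat.gcd_pos_of_pos_left _ hq
  have hsum := ram_sum (Nat.gcd q q') hg (a' - a)
  have hsplit : ∑ r ∈ (Nat.gcd q q').divisors.filter (fun r => R < r), ram r (a' - a)
      = (∑ r ∈ (Nat.gcd q q').divisors, ram r (a' - a)) -
        ∑ r ∈ (Nat.gcd q q').divisors.filter (fun r => r ≤ R), ram r (a' - a) := by
    have h4 := Finset.sum_filter_add_sum_filter_not (Nat.gcd q q').divisors (fun r => r ≤ R)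
      (fun r => ram r (a' - a))
    have h5 : (Nat.gcd q q').divisors.filter (fun r => ¬ r ≤ R)
        = (Nat.gcd q q').divisors.filter (fun r => R < r) := by
      refine Finset.filter_congr fun r _ => ?_
      exact not_le
    rw [h5] at h4
    linarith
  by_cases hd : ((Nat.gcd q q' : ℕ) : ℤ) ∣ a' - a
  · rw [if_pos hd]
    have h4 := gram_in x J R q q' hx hJ hq hq' hdiv h1 h2 h3 a a' (n0 q q') (hn0 hd).1 (hn0 hd).2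
    rw [h4, hsplit, hsum, if_pos hd]
    have hgl : ((Nat.gcd q q' : ℕ) : ℝ) * (Nat.lcm q q' : ℕ) = q * q' := by
      exact_mod_cast Nat.gcd_mul_lcm q q'
    have hq0 : (q : ℝ) ≠ 0 := by
      have : (1 : ℝ) ≤ q := by exact_mod_cast hq
      linarith
    have hq0' : (q' : ℝ) ≠ 0 := by
      have : (1 : ℝ) ≤ q' := by exact_mod_cast hq'
      linarith
    have hl0 : ((Nat.lcm q q' : ℕ) : ℝ) ≠ 0 := by
      have : Nat.lcm q q' ≠ 0 := Nat.lcm_ne_zero (by omega) (by omega)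
      exact_mod_cast this
    have h6 : Real.pi ^ 2 * x / (2 * q * q') * ((Nat.gcd q q' : ℕ) : ℝ)
        = Real.pi ^ 2 * x / (2 * (Nat.lcm q q' : ℕ)) := by
      rw [div_mul_eq_mul_div, div_eq_div_iff (by positivity) (by positivity)]
      linear_combination (2 * Real.pi ^ 2 * x) * hgl
    rw [mul_sub (Real.pi ^ 2 * (x : ℝ) / (2 * q * q')), h6]
    push_cast
    ring
  · rw [if_neg hd]
    have h4 := gram_out x J R q q' hx hJ hq hq' hdiv h1 h2 h3 a a' hd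
    rw [h4, hsplit, hsum, if_neg hd]
    push_cast
    ring

/-- the numerical part -/
private theorem cross_num : ∃ x0 : ℕ, ∀ x : ℕ, x0 ≤ x → 1 ≤ x ∧ 1 ≤ ⌊(x : ℝ) ^ ((1 : ℝ) / 1000)⌋₊ ∧
    (∀ Q : ℕ, 1 ≤ Q → (Q : ℝ) ≤ (x : ℝ) ^ ((101 : ℝ) / 200) →
      2 * Q * ⌊(x : ℝ) ^ ((1 : ℝ) / 1000)⌋₊ ≤ 2 * x ∧
      100 * (Q : ℝ) ^ ((2 : ℝ) - 1 / 50) ≤ (x : ℝ) ^ ((1 : ℝ) - 1 / 20000) / 2) ∧
    ⌊(x : ℝ) ^ ((1 : ℝ) / 1000)⌋₊ * ⌊(x : ℝ) ^ ((1 : ℝ) / 1000)⌋₊ ≤ 2 * x ∧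
    ∀ h : ℤ, h ≠ 0 → |h| ≤ x →
      100 * x * (tau h.natAbs : ℝ) / (⌊(x : ℝ) ^ ((1 : ℝ) / 1000)⌋₊ : ℝ) ≤
        (x : ℝ) ^ ((1 : ℝ) - 1 / 20000) / 2 := by
  obtain ⟨C, hC1, hC⟩ := Pool.Agent.H92.EH.div_bound (1 / 20000) (by norm_num)
  have ht1 : Filter.Tendsto (fun x : ℕ => ((x : ℝ)) ^ ((1 : ℝ) / 20000)) Filter.atTop Filter.atTop :=
    (tendsto_rpow_atTop (by norm_num)).comp tendsto_natCast_atTop_atTop
  have ht2 : Filter.Tendsto (fun x : ℕ => ((x : ℝ)) ^ ((9 : ℝ) / 10000)) Filter.atTop Filter.atTop :=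
    (tendsto_rpow_atTop (by norm_num)).comp tendsto_natCast_atTop_atTop
  obtain ⟨X1, hX1⟩ := Filter.eventually_atTop.1 (ht1.eventually_ge_atTop 200)
  obtain ⟨X2, hX2⟩ := Filter.eventually_atTop.1 (ht2.eventually_ge_atTop (400 * C))
  refine ⟨max 1 (max X1 X2), fun x hx => ?_⟩
  have hx1 : 1 ≤ x := (le_max_left _ _).trans hx
  have hxX1 : X1 ≤ x := ((le_max_left _ _).trans (le_max_right _ _)).trans hx
  have hxX2 : X2 ≤ x := ((le_max_right _ _).trans (le_max_right _ _)).trans hx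
  have hxr : (1 : ℝ) ≤ x := by exact_mod_cast hx1
  have hxpos : (0 : ℝ) < x := by linarith
  have b1 := hX1 x hxX1
  have b2 := hX2 x hxX2
  have hr1 : (1 : ℝ) ≤ (x : ℝ) ^ ((1 : ℝ) / 1000) := Real.one_le_rpow hxr (by norm_num)
  have hR1 : 1 ≤ ⌊(x : ℝ) ^ ((1 : ℝ) / 1000)⌋₊ := Nat.one_le_floor_iff _ |>.2 hr1
  have hRle : (⌊(x : ℝ) ^ ((1 : ℝ) / 1000)⌋₊ : ℝ) ≤ (x : ℝ) ^ ((1 : ℝ) / 1000) :=
    Nat.floor_le (by positivity)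
  have hRge : (x : ℝ) ^ ((1 : ℝ) / 1000) / 2 ≤ (⌊(x : ℝ) ^ ((1 : ℝ) / 1000)⌋₊ : ℝ) := by
    have h1 := Nat.lt_floor_add_one ((x : ℝ) ^ ((1 : ℝ) / 1000))
    have h2 : (1 : ℝ) ≤ (⌊(x : ℝ) ^ ((1 : ℝ) / 1000)⌋₊ : ℝ) := by exact_mod_cast hR1
    linarith
  refine ⟨hx1, hR1, ?_, ?_, ?_⟩
  · intro Q hQ1 hQ
    have hQr : (1 : ℝ) ≤ Q := by exact_mod_cast hQ1
    constructor
    · have h1 : (Q : ℝ) * (⌊(x : ℝ) ^ ((1 : ℝ) / 1000)⌋₊ : ℝ) ≤ x := by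
        calc (Q : ℝ) * (⌊(x : ℝ) ^ ((1 : ℝ) / 1000)⌋₊ : ℝ)
            ≤ (x : ℝ) ^ ((101 : ℝ) / 200) * (x : ℝ) ^ ((1 : ℝ) / 1000) := by gcongr
          _ = (x : ℝ) ^ ((101 : ℝ) / 200 + 1 / 1000) := (Real.rpow_add hxpos _ _).symm
          _ ≤ (x : ℝ) ^ (1 : ℝ) := Real.rpow_le_rpow_of_exponent_le hxr (by norm_num)
          _ = x := Real.rpow_one _
      have h2 : Q * ⌊(x : ℝ) ^ ((1 : ℝ) / 1000)⌋₊ ≤ x := by exact_mod_cast h1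
      rw [mul_assoc]
      exact Nat.mul_le_mul_left 2 h2
    · have h1 : (Q : ℝ) ^ ((2 : ℝ) - 1 / 50) ≤ (x : ℝ) ^ ((9999 : ℝ) / 10000) := by
        calc (Q : ℝ) ^ ((2 : ℝ) - 1 / 50)
            ≤ ((x : ℝ) ^ ((101 : ℝ) / 200)) ^ ((2 : ℝ) - 1 / 50) :=
              Real.rpow_le_rpow (by positivity) hQ (by norm_num)
          _ = (x : ℝ) ^ ((101 : ℝ) / 200 * ((2 : ℝ) - 1 / 50)) := (Real.rpow_mul hxpos.le _ _).symm
          _ = (x : ℝ) ^ ((9999 : ℝ) / 10000) := by norm_num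
      have h2 : (x : ℝ) ^ ((1 : ℝ) - 1 / 20000)
          = (x : ℝ) ^ ((9999 : ℝ) / 10000) * (x : ℝ) ^ ((1 : ℝ) / 20000) := by
        rw [← Real.rpow_add hxpos]
        norm_num
      have h3 : 0 < (x : ℝ) ^ ((9999 : ℝ) / 10000) := by positivity
      rw [h2]
      have h4 : (x : ℝ) ^ ((9999 : ℝ) / 10000) * 200 ≤
          (x : ℝ) ^ ((9999 : ℝ) / 10000) * (x : ℝ) ^ ((1 : ℝ) / 20000) :=
        mul_le_mul_of_nonneg_left b1 h3.le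
      linarith
  · have h1 : (⌊(x : ℝ) ^ ((1 : ℝ) / 1000)⌋₊ : ℝ) * (⌊(x : ℝ) ^ ((1 : ℝ) / 1000)⌋₊ : ℝ) ≤ x := by
      calc (⌊(x : ℝ) ^ ((1 : ℝ) / 1000)⌋₊ : ℝ) * (⌊(x : ℝ) ^ ((1 : ℝ) / 1000)⌋₊ : ℝ)
          ≤ (x : ℝ) ^ ((1 : ℝ) / 1000) * (x : ℝ) ^ ((1 : ℝ) / 1000) := by gcongr
        _ = (x : ℝ) ^ ((1 : ℝ) / 1000 + 1 / 1000) := (Real.rpow_add hxpos _ _).symm
        _ ≤ (x : ℝ) ^ (1 : ℝ) := Real.rpow_le_rpow_of_exponent_le hxr (by norm_num)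
        _ = x := Real.rpow_one _
    have h2 : ⌊(x : ℝ) ^ ((1 : ℝ) / 1000)⌋₊ * ⌊(x : ℝ) ^ ((1 : ℝ) / 1000)⌋₊ ≤ x := by
      exact_mod_cast h1
    omega
  · intro h hh hhx
    have hnat : 1 ≤ h.natAbs := Int.natAbs_pos.2 hh
    have hle : (h.natAbs : ℝ) ≤ x := by
      have h1 : ((h.natAbs : ℕ) : ℤ) ≤ x := by
        rw [Int.natCast_natAbs]
        exact hhx
      exact_mod_cast h1
    have ht : (tau h.natAbs : ℝ) ≤ C * (x : ℝ) ^ ((1 : ℝ) / 20000) := by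
      refine (hC h.natAbs hnat).trans ?_
      exact mul_le_mul_of_nonneg_left
        (Real.rpow_le_rpow (Nat.cast_nonneg _) hle (by norm_num)) (by linarith)
    have hRpos : 0 < (⌊(x : ℝ) ^ ((1 : ℝ) / 1000)⌋₊ : ℝ) := by
      have : (1 : ℝ) ≤ (⌊(x : ℝ) ^ ((1 : ℝ) / 1000)⌋₊ : ℝ) := by exact_mod_cast hR1
      linarith
    rw [div_le_iff₀ hRpos]
    have e1 : (x : ℝ) ^ ((1 : ℝ) - 1 / 20000) * (x : ℝ) ^ ((1 : ℝ) / 1000)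
        = x * (x : ℝ) ^ ((1 : ℝ) / 20000) * (x : ℝ) ^ ((9 : ℝ) / 10000) := by
      have e2 : (x : ℝ) * (x : ℝ) ^ ((1 : ℝ) / 20000) * (x : ℝ) ^ ((9 : ℝ) / 10000)
          = (x : ℝ) ^ (1 : ℝ) * (x : ℝ) ^ ((1 : ℝ) / 20000) * (x : ℝ) ^ ((9 : ℝ) / 10000) := by
        rw [Real.rpow_one]
      rw [e2, ← Real.rpow_add hxpos, ← Real.rpow_add hxpos, ← Real.rpow_add hxpos]
      norm_num
    have e3 : 0 < (x : ℝ) * (x : ℝ) ^ ((1 : ℝ) / 20000) := by positivity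
    have e4 : (x : ℝ) * (x : ℝ) ^ ((1 : ℝ) / 20000) * (400 * C) ≤
        x * (x : ℝ) ^ ((1 : ℝ) / 20000) * (x : ℝ) ^ ((9 : ℝ) / 10000) :=
      mul_le_mul_of_nonneg_left b2 e3.le
    have e5 : 100 * (x : ℝ) * (tau h.natAbs : ℝ) ≤ 100 * x * (C * (x : ℝ) ^ ((1 : ℝ) / 20000)) :=
      mul_le_mul_of_nonneg_left ht (by positivity)
    have e6 : (x : ℝ) ^ ((1 : ℝ) - 1 / 20000) / 2 * ((x : ℝ) ^ ((1 : ℝ) / 1000) / 2) ≤
        (x : ℝ) ^ ((1 : ℝ) - 1 / 20000) / 2 * (⌊(x : ℝ) ^ ((1 : ℝ) / 1000)⌋₊ : ℝ) :=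
      mul_le_mul_of_nonneg_left hRge (by positivity)
    nlinarith [e1, e4, e5, e6]

theorem cross : ∃ x0 : ℕ, ∀ x Q J : ℕ, x0 ≤ x → 1 ≤ Q → 1 ≤ J →
    (Q : ℝ) ≤ (x : ℝ) ^ ((101 : ℝ) / 200) → (∀ m, 1 ≤ m → m ≤ 4 * Q ^ 2 → m ∣ 2 * x * J) →
    ∀ a a' : ℤ, a ≠ a' → |a| ≤ x → |a'| ≤ x → |a' - a| ≤ x →
    ∀ c c' : ℕ → ℝ, (∀ q, |c q| ≤ 1) → (∀ q, |c' q| ≤ 1) →
    |∑ n ∈ RW x J, ww x J n * (SS ⌊(x : ℝ) ^ ((1 : ℝ) / 1000)⌋₊ Q c a n *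
        SS ⌊(x : ℝ) ^ ((1 : ℝ) / 1000)⌋₊ Q c' a' n)| ≤ (x : ℝ) ^ ((1 : ℝ) - 1 / 20000) := by
  obtain ⟨X1, hX1⟩ := cross_num
  obtain ⟨X2, hX2⟩ := xk_bound
  refine ⟨max X1 X2, fun x Q J hx hQ1 hJ hQ hdiv a a' haa ha ha' hd c c' hc hc' => ?_⟩
  obtain ⟨hx1, hR1, hnQ, hRR, hτ⟩ := hX1 x ((le_max_left _ _).trans hx)
  obtain ⟨hQR, hQn⟩ := hnQ Q hQ1 hQ
  set R : ℕ := ⌊(x : ℝ) ^ ((1 : ℝ) / 1000)⌋₊ with hR
  obtain ⟨n0, hn0⟩ := cross_n0 a a'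
  have hxk := hX2 x Q ((le_max_right _ _).trans hx) hQ1 hQ a a' haa ha ha' hd c c' hc hc' n0 hn0
  have hh : a' - a ≠ 0 := sub_ne_zero.2 haa.symm
  have hcr := cross_ram x Q R hQ1 hR1 c c' hc hc' (a' - a) hh
  have hτ' := hτ (a' - a) hh hd
  set Y : ℝ := ∑ q ∈ Ioc Q (2 * Q), ∑ q' ∈ Ioc Q (2 * Q), c q * c' q' *
    (Real.pi ^ 2 * x / (2 * q * q')) *
        ∑ r ∈ (Nat.gcd q q').divisors.filter (fun r => R < r), ram r (a' - a) with hY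
  have hexp : ∑ n ∈ RW x J, ww x J n * (SS R Q c a n * SS R Q c' a' n) =
      ∑ q ∈ Ioc Q (2 * Q), ∑ q' ∈ Ioc Q (2 * Q), c q * c' q' *
        ∑ n ∈ RW x J, ww x J n * uu R q a n * uu R q' a' n := by
    have e1 : ∀ n ∈ RW x J, ww x J n * (SS R Q c a n * SS R Q c' a' n) =
        ∑ q ∈ Ioc Q (2 * Q), ∑ q' ∈ Ioc Q (2 * Q), c q * c' q' *
          (ww x J n * uu R q a n * uu R q' a' n) := by
      intro n _
      unfold SS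
      rw [Finset.sum_mul_sum, Finset.mul_sum]
      refine Finset.sum_congr rfl fun q _ => ?_
      rw [Finset.mul_sum]
      refine Finset.sum_congr rfl fun q' _ => ?_
      ring
    rw [Finset.sum_congr rfl e1, Finset.sum_comm]
    refine Finset.sum_congr rfl fun q _ => ?_
    rw [Finset.sum_comm]
    refine Finset.sum_congr rfl fun q' _ => ?_
    rw [Finset.mul_sum]
  have hkey : ((∑ n ∈ RW x J, ww x J n * (SS R Q c a n * SS R Q c' a' n) : ℝ) : ℂ) =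
      XK x Q c c' a a' n0 + (Y : ℂ) := by
    rw [hexp, hY, XK]
    push_cast
    rw [← Finset.sum_add_distrib]
    refine Finset.sum_congr rfl fun q hq => ?_
    rw [← Finset.sum_add_distrib]
    refine Finset.sum_congr rfl fun q' hq' => ?_
    rw [mem_Ioc] at hq hq'
    have hent := cross_entry x J R q q' hx1 hJ (by omega) (by omega)
      (fun m hm1 hm2 => hdiv m hm1 (hm2.trans (by nlinarith [hq.2, hq'.2])))
      (le_trans (Nat.mul_le_mul_right R hq.2) hQR) (le_trans (Nat.mul_le_mul_right R hq'.2) hQR)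
      hRR a a' n0 (hn0 q q')
    push_cast at hent
    rw [hent]
    split_ifs
    · ring
    · ring
  have h1 : |∑ n ∈ RW x J, ww x J n * (SS R Q c a n * SS R Q c' a' n)| =
      ‖((∑ n ∈ RW x J, ww x J n * (SS R Q c a n * SS R Q c' a' n) : ℝ) : ℂ)‖ := by
    rw [Complex.norm_real, Real.norm_eq_abs]
  rw [h1, hkey]
  calc ‖XK x Q c c' a a' n0 + (Y : ℂ)‖ ≤ ‖XK x Q c c' a a' n0‖ + ‖(Y : ℂ)‖ := norm_add_le _ _
    _ ≤ (x : ℝ) ^ ((1 : ℝ) - 1 / 20000) / 2 + (x : ℝ) ^ ((1 : ℝ) - 1 / 20000) / 2 := by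
        refine add_le_add (hxk.trans hQn) ?_
        rw [Complex.norm_real, Real.norm_eq_abs]
        exact hcr.trans hτ'
    _ = (x : ℝ) ^ ((1 : ℝ) - 1 / 20000) := by ring

end Pool.Agent.H80.KF
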