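import Pool.Agent.H80.KF.BkA
import Pool.Agent.H80.KF.BkB
import Pool.Agent.H80.KF.Cross
import Pool.Agent.H80.KF.StrD

/-!
# One dyadic block of moduli and a small set of residues

`L = log x`, `K = #A`, `R = ⌊x^{1/1000}⌋`, `J = 2 (4Q²)!`.  `str_sum (c+1)` replaces `err` by
`∑_p u`, error `K x/L^{c+1}`; `bk_sign`.  Primes in `A`: at most `K(Q + K x^{1/1000}) ≤ K x^{3/5}`
(`ss_le_sa`, `pt_ctr`, `pt_bd`).  Primes outside `A`: `bk_cauchy` and `bk_expand` with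
`D = 10⁵ x L⁵` (`diag`), `E = x^{1-1/20000}` (`cross`), `M = x^{1/1000}`; `K ≤ x^{1/40000}` gives
`K² (E + 3KM² + 6QM) ≤ K x`, so the square is at most `x (10⁵ K x L⁵ + K x) ≤ 2·10⁵ K x² L⁵` and the
sum is at most `450 √K x L^{5/2} ≤ √K x L³/4` for large `x`.
-/

set_option autoImplicit false

namespace Pool.Agent.H80.KF

open Finset
open Pool.Agent.H91.EHA (err)

private theorem Blk_num (c : ℕ) : ∃ x0 : ℕ, ∀ x : ℕ, x0 ≤ x → 3 ≤ x ∧
    (10 : ℝ) ≤ (x : ℝ) ^ ((1 : ℝ) / 40000) ∧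
    2 * Real.log x ^ (c + 1) ≤ (x : ℝ) ^ ((99 : ℝ) / 200) ∧ (4 * 10 ^ 6 : ℝ) ≤ Real.log x := by
  have hcast := tendsto_natCast_atTop_atTop (R := ℝ)
  have e1 : ∀ᶠ x : ℕ in Filter.atTop, (10 : ℝ) ≤ (x : ℝ) ^ ((1 : ℝ) / 40000) :=
    ((tendsto_rpow_atTop (by norm_num)).comp hcast).eventually_ge_atTop 10
  have e2 : ∀ᶠ x : ℕ in Filter.atTop, (4 * 10 ^ 6 : ℝ) ≤ Real.log x :=
    (Real.tendsto_log_atTop.comp hcast).eventually_ge_atTop _
  have e3 : ∀ᶠ x : ℕ in Filter.atTop, 2 * Real.log x ^ (c + 1) ≤ (x : ℝ) ^ ((99 : ℝ) / 200) := by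
    have h := (isLittleO_log_rpow_rpow_atTop ((c + 1 : ℕ) : ℝ) (s := (99 : ℝ) / 200)
      (by norm_num)).bound (c := 1 / 2) (by norm_num)
    have h' := hcast.eventually h
    filter_upwards [h', e2] with x hx hl
    rw [Real.rpow_natCast, Real.norm_of_nonneg (by positivity),
      Real.norm_of_nonneg (by positivity)] at hx
    linarith
  have e4 : ∀ᶠ x : ℕ in Filter.atTop, 3 ≤ x := Filter.eventually_ge_atTop 3
  have := e4.and (e1.and (e3.and e2))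
  exact Filter.eventually_atTop.1 this

theorem blk (c : ℕ) : ∃ x0 : ℕ, ∀ x Q : ℕ, x0 ≤ x → 1 ≤ Q →
    (Q : ℝ) ≤ (x : ℝ) ^ ((101 : ℝ) / 200) → ∀ A : Finset ℤ, (∀ a ∈ A, |a| ≤ x) →
    (∀ a ∈ A, ∀ a' ∈ A, |a' - a| ≤ x) → (A.card : ℝ) ≤ (x : ℝ) ^ ((1 : ℝ) / 40000) →
    ∀ y : ℕ, y ≤ x →
    ∑ a ∈ A, ∑ q ∈ (Ioc Q (2 * Q)).filter (fun q : ℕ => IsCoprime a (q : ℤ)),
      |err y q (a : ZMod q)| ≤
      Real.sqrt A.card * x * Real.log x ^ 3 / 4 + A.card * x / Real.log x ^ c := by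
  obtain ⟨x1, h1⟩ := Blk_num c
  obtain ⟨x2, h2⟩ := str_sum (c + 1)
  obtain ⟨x3, h3⟩ := cross
  obtain ⟨x4, h4⟩ := pt_bd
  refine ⟨x1 + x2 + x3 + x4, ?_⟩
  intro x Q hx hQ hQx A hA hAA hK y hyx
  obtain ⟨hx3, n1, n2, n3⟩ := h1 x (by omega)
  have hstr := h2 x Q (by omega) hQ y hyx
  have hcr := h3 x Q (2 * (4 * Q ^ 2).factorial) (by omega) hQ
    (by have := Nat.factorial_pos (4 * Q ^ 2); omega) hQx
    (by
      intro m hm1 hm2
      have := Nat.dvd_factorial (by omega : 0 < m) hm2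
      exact Dvd.dvd.mul_left (Dvd.dvd.mul_left this 2) (2 * x))
  set R : ℕ := ⌊(x : ℝ) ^ ((1 : ℝ) / 1000)⌋₊ with hR
  set J : ℕ := 2 * (4 * Q ^ 2).factorial with hJ
  set K : ℝ := (A.card : ℝ) with hKdef
  set L : ℝ := Real.log x with hL
  have hJ2 : 2 ≤ J := by have := Nat.factorial_pos (4 * Q ^ 2); omega
  have hX0 : (0 : ℝ) < x := by exact_mod_cast (by omega : 0 < x)
  have hX1 : (1 : ℝ) ≤ x := by exact_mod_cast (by omega : 1 ≤ x)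
  have hK0 : 0 ≤ K := by positivity
  have hL1 : 1 ≤ L := by linarith only [n3]
  -- R
  have hM1 : (1 : ℝ) ≤ (x : ℝ) ^ ((1 : ℝ) / 1000) := Real.one_le_rpow hX1 (by norm_num)
  have hR1 : 1 ≤ R := Nat.le_floor (by simpa using hM1)
  have hRx : R ≤ x := by
    have : (R : ℝ) ≤ x := by
      refine (Nat.floor_le (by positivity)).trans ?_
      calc (x : ℝ) ^ ((1 : ℝ) / 1000) ≤ (x : ℝ) ^ (1 : ℝ) :=
            Real.rpow_le_rpow_of_exponent_le hX1 (by norm_num)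
        _ = x := Real.rpow_one _
    exact_mod_cast this
  have hpt := h4 x Q R (by omega) hQ hR1 hRx
  -- powers
  have hpw : ∀ s t : ℝ, (x : ℝ) ^ s * (x : ℝ) ^ t = (x : ℝ) ^ (s + t) := fun s t =>
    (Real.rpow_add hX0 s t).symm
  have hmono : ∀ s t : ℝ, s ≤ t → (x : ℝ) ^ s ≤ (x : ℝ) ^ t := fun s t h =>
    Real.rpow_le_rpow_of_exponent_le hX1 h
  have hx1 : (x : ℝ) ^ (1 : ℝ) = x := Real.rpow_one _
  -- 2 Q ≤ x
  have hQ2 : 2 * Q ≤ x := by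
    have : 2 * (Q : ℝ) ≤ x := by
      have h2 : (2 : ℝ) ≤ (x : ℝ) ^ ((99 : ℝ) / 200) := by
        have := hmono (1 / 40000) (99 / 200) (by norm_num)
        linarith
      calc 2 * (Q : ℝ) ≤ (x : ℝ) ^ ((99 : ℝ) / 200) * (x : ℝ) ^ ((101 : ℝ) / 200) := by gcongr
        _ = x := by rw [hpw, ← hx1]; norm_num
    exact_mod_cast this
  -- signs
  obtain ⟨cf, hcf, hsign⟩ := bk_sign y Q R A
  -- structured part
  have hS1 : ∑ a ∈ A, ∑ q ∈ (Ioc Q (2 * Q)).filter (fun q : ℕ => IsCoprime a (q : ℤ)),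
      |err y q (a : ZMod q)| ≤
      ∑ p ∈ PX y, ∑ a ∈ A, SS R Q (cf a) a p + K * (x / L ^ (c + 1)) := by
    rw [← hsign]
    have : K * (x / L ^ (c + 1)) = ∑ a ∈ A, (x / L ^ (c + 1)) := by
      rw [sum_const, nsmul_eq_mul]
    rw [this, ← sum_add_distrib]
    refine sum_le_sum fun a ha => ?_
    have h := hstr a
    calc ∑ q ∈ (Ioc Q (2 * Q)).filter (fun q : ℕ => IsCoprime a (q : ℤ)), |err y q (a : ZMod q)|
        ≤ ∑ q ∈ (Ioc Q (2 * Q)).filter (fun q : ℕ => IsCoprime a (q : ℤ)),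
          (|∑ p ∈ PX y, uu R q a p| +
            |err y q (a : ZMod q) - ∑ p ∈ PX y, uu R q a p|) := by
          refine sum_le_sum fun q _ => ?_
          have := abs_add_le (∑ p ∈ PX y, uu R q a p)
            (err y q (a : ZMod q) - ∑ p ∈ PX y, uu R q a p)
          rwa [add_sub_cancel] at this
      _ ≤ _ := by
          rw [sum_add_distrib]
          gcongr
  -- primes in A
  have hM := hpt
  have hS2 : ∑ p ∈ (PX y).filter (fun p : ℕ => (p : ℤ) ∈ A), ∑ a ∈ A, SS R Q (cf a) a p ≤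
      K * (Q + K * (x : ℝ) ^ ((1 : ℝ) / 1000)) := by
    have hcard : (((PX y).filter (fun p : ℕ => (p : ℤ) ∈ A)).card : ℝ) ≤ K := by
      have : ((PX y).filter (fun p : ℕ => (p : ℤ) ∈ A)).card ≤ A.card := by
        refine card_le_card_of_injOn (fun p : ℕ => (p : ℤ)) ?_ ?_
        · intro p hp
          exact (mem_filter.1 hp).2
        · intro p _ p' _ h
          exact Int.ofNat.inj h
      rw [hKdef]
      exact Nat.cast_le.2 this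
    have hone : ∀ p ∈ (PX y).filter (fun p : ℕ => (p : ℤ) ∈ A), ∑ a ∈ A, SS R Q (cf a) a p ≤
        Q + K * (x : ℝ) ^ ((1 : ℝ) / 1000) := by
      intro p hp
      rw [mem_filter] at hp
      have hpx : |(p : ℤ)| ≤ x := hA _ hp.2
      have hb : ∀ a ∈ A, SS R Q (cf a) a p ≤
          (if a = (p : ℤ) then (Q : ℝ) else 0) + (x : ℝ) ^ ((1 : ℝ) / 1000) := by
        intro a ha
        refine (le_abs_self _).trans ((ss_le_sa R Q (cf a) (hcf a) a p).trans ?_)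
        by_cases hap : a = (p : ℤ)
        · rw [if_pos hap, hap]
          have := pt_ctr R Q (p : ℤ)
          linarith only [hM1, this]
        · rw [if_neg hap, zero_add]
          exact hpt a p hap (hA a ha) hpx
      refine (sum_le_sum hb).trans ?_
      rw [sum_add_distrib, sum_ite_eq' A (p : ℤ) (fun _ => (Q : ℝ)), if_pos hp.2, sum_const,
        nsmul_eq_mul]
    refine (sum_le_sum hone).trans ?_
    rw [sum_const, nsmul_eq_mul]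
    gcongr
  -- primes outside A
  have hD : ∀ a ∈ A, ∑ n ∈ (RW x J).filter (fun n => n ≠ a), ww x J n * SS R Q (cf a) a n ^ 2 ≤
      10 ^ 5 * x * L ^ 5 := fun a ha =>
    diag x Q R J hx3 hQ hQ2 hR1 hRx (by omega) a (hA a ha) (cf a) (hcf a)
  have hE : ∀ a ∈ A, ∀ a' ∈ A, a ≠ a' →
      |∑ n ∈ RW x J, ww x J n * (SS R Q (cf a) a n * SS R Q (cf a') a' n)| ≤
        (x : ℝ) ^ ((1 : ℝ) - 1 / 20000) := fun a ha a' ha' haa =>
    hcr a a' haa (hA a ha) (hA a' ha') (hAA a ha a' ha') (cf a) (cf a') (hcf a) (hcf a')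
  have hexp := bk_expand x Q R J (by omega) (by omega) A cf hcf (10 ^ 5 * x * L ^ 5)
    ((x : ℝ) ^ ((1 : ℝ) - 1 / 20000)) ((x : ℝ) ^ ((1 : ℝ) / 1000)) (by positivity)
    (by positivity) hD hE (fun a ha n hn han => hpt a n han (hA a ha) (hA n hn))
    (fun a _ => pt_ctr R Q a)
  have hcau := bk_cauchy x y Q R J (by omega) hyx hJ2 A cf
  -- numerics
  have hKEM : K * ((x : ℝ) ^ ((1 : ℝ) - 1 / 20000) + 3 * K * ((x : ℝ) ^ ((1 : ℝ) / 1000)) ^ 2 +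
      6 * Q * (x : ℝ) ^ ((1 : ℝ) / 1000)) ≤ x := by
    have t1 : K * (x : ℝ) ^ ((1 : ℝ) - 1 / 20000) ≤ (x : ℝ) ^ ((1 : ℝ) - 1 / 40000) := by
      calc K * (x : ℝ) ^ ((1 : ℝ) - 1 / 20000)
          ≤ (x : ℝ) ^ ((1 : ℝ) / 40000) * (x : ℝ) ^ ((1 : ℝ) - 1 / 20000) := by gcongr
        _ = (x : ℝ) ^ ((1 : ℝ) - 1 / 40000) := by rw [hpw]; norm_num
    have t2 : K * (3 * K * ((x : ℝ) ^ ((1 : ℝ) / 1000)) ^ 2) ≤
        3 * (x : ℝ) ^ ((1 : ℝ) - 1 / 40000) := by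
      calc K * (3 * K * ((x : ℝ) ^ ((1 : ℝ) / 1000)) ^ 2)
          ≤ (x : ℝ) ^ ((1 : ℝ) / 40000) * (3 * (x : ℝ) ^ ((1 : ℝ) / 40000) *
            ((x : ℝ) ^ ((1 : ℝ) / 1000)) ^ 2) := by gcongr
        _ = 3 * ((x : ℝ) ^ ((1 : ℝ) / 40000) * (x : ℝ) ^ ((1 : ℝ) / 40000) *
            ((x : ℝ) ^ ((1 : ℝ) / 1000) * (x : ℝ) ^ ((1 : ℝ) / 1000))) := by ring
        _ = 3 * (x : ℝ) ^ ((1 : ℝ) / 40000 + 1 / 40000 + (1 / 1000 + 1 / 1000)) := by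
            rw [hpw, hpw, hpw]
        _ ≤ 3 * (x : ℝ) ^ ((1 : ℝ) - 1 / 40000) := by
            have := hmono (1 / 40000 + 1 / 40000 + (1 / 1000 + 1 / 1000)) (1 - 1 / 40000)
              (by norm_num)
            linarith only [this]
    have t3 : K * (6 * Q * (x : ℝ) ^ ((1 : ℝ) / 1000)) ≤
        6 * (x : ℝ) ^ ((1 : ℝ) - 1 / 40000) := by
      calc K * (6 * Q * (x : ℝ) ^ ((1 : ℝ) / 1000))
          ≤ (x : ℝ) ^ ((1 : ℝ) / 40000) * (6 * (x : ℝ) ^ ((101 : ℝ) / 200) *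
            (x : ℝ) ^ ((1 : ℝ) / 1000)) := by gcongr
        _ = 6 * ((x : ℝ) ^ ((1 : ℝ) / 40000) * (x : ℝ) ^ ((101 : ℝ) / 200) *
            (x : ℝ) ^ ((1 : ℝ) / 1000)) := by ring
        _ = 6 * (x : ℝ) ^ ((1 : ℝ) / 40000 + 101 / 200 + 1 / 1000) := by rw [hpw, hpw]
        _ ≤ 6 * (x : ℝ) ^ ((1 : ℝ) - 1 / 40000) := by
            have := hmono (1 / 40000 + 101 / 200 + 1 / 1000) (1 - 1 / 40000) (by norm_num)
            linarith only [this]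
    have t4 : 10 * (x : ℝ) ^ ((1 : ℝ) - 1 / 40000) ≤ x := by
      calc 10 * (x : ℝ) ^ ((1 : ℝ) - 1 / 40000)
          ≤ (x : ℝ) ^ ((1 : ℝ) / 40000) * (x : ℝ) ^ ((1 : ℝ) - 1 / 40000) := by gcongr
        _ = x := by rw [hpw, ← hx1]; norm_num
    nlinarith only [t1, t2, t3, t4]
  set S := ∑ p ∈ (PX y).filter (fun p : ℕ => (p : ℤ) ∉ A), ∑ a ∈ A, SS R Q (cf a) a p with hS
  have hS3 : S ≤ Real.sqrt K * x * L ^ 3 / 4 := by
    have hL5 : 1 ≤ L ^ 5 := one_le_pow₀ hL1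
    have hsq : S ^ 2 ≤ (Real.sqrt K * x * L ^ 3 / 4) ^ 2 := by
      have e1 : (Real.sqrt K * x * L ^ 3 / 4) ^ 2 = K * x ^ 2 * L ^ 6 / 16 := by
        have := Real.sq_sqrt hK0
        calc (Real.sqrt K * x * L ^ 3 / 4) ^ 2 = (Real.sqrt K) ^ 2 * x ^ 2 * L ^ 6 / 16 := by ring
          _ = _ := by rw [this]
      rw [e1]
      calc S ^ 2 ≤ x * ∑ n ∈ (RW x J).filter (fun n => n ∉ A),
            ww x J n * (∑ a ∈ A, SS R Q (cf a) a n) ^ 2 := hcau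
        _ ≤ x * (K * (10 ^ 5 * x * L ^ 5) + K ^ 2 * ((x : ℝ) ^ ((1 : ℝ) - 1 / 20000) +
            3 * K * ((x : ℝ) ^ ((1 : ℝ) / 1000)) ^ 2 + 6 * Q * (x : ℝ) ^ ((1 : ℝ) / 1000))) := by
            gcongr
        _ = x * (K * (10 ^ 5 * x * L ^ 5) + K * (K * ((x : ℝ) ^ ((1 : ℝ) - 1 / 20000) +
            3 * K * ((x : ℝ) ^ ((1 : ℝ) / 1000)) ^ 2 + 6 * Q * (x : ℝ) ^ ((1 : ℝ) / 1000)))) := by
            ring
        _ ≤ x * (K * (10 ^ 5 * x * L ^ 5) + K * x) := by gcongr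
        _ = K * x ^ 2 * (10 ^ 5 * L ^ 5 + 1) := by ring
        _ ≤ K * x ^ 2 * (L ^ 6 / 16) := by
            refine mul_le_mul_of_nonneg_left ?_ (by positivity)
            have : L ^ 6 = L * L ^ 5 := by ring
            rw [this]
            nlinarith only [n3, hL5]
        _ = K * x ^ 2 * L ^ 6 / 16 := by ring
    exact (le_abs_self _).trans (abs_le_of_sq_le_sq hsq (by positivity))
  have hsplit : ∑ p ∈ PX y, ∑ a ∈ A, SS R Q (cf a) a p =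
      ∑ p ∈ (PX y).filter (fun p : ℕ => (p : ℤ) ∈ A), ∑ a ∈ A, SS R Q (cf a) a p + S := by
    rw [hS, sum_filter_add_sum_filter_not]
  have hS4 : K * (Q + K * (x : ℝ) ^ ((1 : ℝ) / 1000)) ≤ K * (x / L ^ (c + 1)) := by
    refine mul_le_mul_of_nonneg_left ?_ hK0
    rw [le_div_iff₀ (by positivity)]
    have t1 : K * (x : ℝ) ^ ((1 : ℝ) / 1000) ≤ (x : ℝ) ^ ((101 : ℝ) / 200) := by
      calc K * (x : ℝ) ^ ((1 : ℝ) / 1000)
          ≤ (x : ℝ) ^ ((1 : ℝ) / 40000) * (x : ℝ) ^ ((1 : ℝ) / 1000) := by gcongr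
        _ = (x : ℝ) ^ ((1 : ℝ) / 40000 + 1 / 1000) := hpw _ _
        _ ≤ _ := hmono _ _ (by norm_num)
    calc (Q + K * (x : ℝ) ^ ((1 : ℝ) / 1000)) * L ^ (c + 1)
        ≤ ((x : ℝ) ^ ((101 : ℝ) / 200) + (x : ℝ) ^ ((101 : ℝ) / 200)) * L ^ (c + 1) := by gcongr
      _ = (x : ℝ) ^ ((101 : ℝ) / 200) * (2 * L ^ (c + 1)) := by ring
      _ ≤ (x : ℝ) ^ ((101 : ℝ) / 200) * (x : ℝ) ^ ((99 : ℝ) / 200) := by gcongr
      _ = x := by rw [hpw, ← hx1]; norm_num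
  have hS5 : K * (x / L ^ (c + 1)) + K * (x / L ^ (c + 1)) ≤ K * x / L ^ c := by
    have e : K * x / L ^ c = K * (x / L ^ (c + 1)) * L := by
      rw [pow_succ]; field_simp
    rw [e]
    have : 0 ≤ K * (x / L ^ (c + 1)) := by positivity
    nlinarith only [n3, this]
  linarith only [hS1, hS2, hS3, hsplit, hS4, hS5]

end Pool.Agent.H80.KF
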