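import Pool.Agent.H80.KF.Bas

/-!
# The Kloosterman fraction of a pair of classes

`q = g m`, `q' = g n`, `(m,n) = 1`, `g h₁ = a' - a`, `n₀ ≡ a (gm)`, `n₀ ≡ a' (gn)`:
`n₀ = a + g m t`, `g m t ≡ g h₁ (mod g n)`, `t ≡ h₁ m̄ (mod n)`, so
`l n₀/(gmn) = l a/(gmn) + l t/n`.
-/

set_option autoImplicit false

namespace Pool.Agent.H80.KF

open Finset

theorem crt_phase (g m n : ℕ) (hg : 1 ≤ g) (hm : 1 ≤ m) (hn : 1 ≤ n) (hc : Nat.Coprime m n)
    (a a' h1 n0 l : ℤ) (hh : (g : ℤ) * h1 = a' - a) (h0 : ((g * m : ℕ) : ℤ) ∣ n0 - a)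
    (h0' : ((g * n : ℕ) : ℤ) ∣ n0 - a') :
    ee ((l : ℝ) * n0 / ((g : ℝ) * m * n)) =
      ee ((l : ℝ) * a / ((g : ℝ) * m * n)) * kf n (l * h1) m := by
  obtain ⟨t, ht⟩ := h0
  obtain ⟨w, hw⟩ := h0'
  obtain ⟨z, hz⟩ := iv_spec hn hc
  have hgpos : (g : ℤ) ≠ 0 := by
    have : (1 : ℤ) ≤ g := by exact_mod_cast hg
    omega
  have hmt : (m : ℤ) * t = h1 + n * w := by
    apply mul_left_cancel₀ hgpos
    push_cast at ht hw
    linear_combination (-1 : ℤ) * ht + hw - hh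
  rw [kf_eq hn (l * h1) (iv n m : ℤ) ⟨z, hz⟩, ← ee_add]
  have hgR : (g : ℝ) ≠ 0 := by
    have : (1 : ℝ) ≤ g := by exact_mod_cast hg
    linarith
  have hmR : (m : ℝ) ≠ 0 := by
    have : (1 : ℝ) ≤ m := by exact_mod_cast hm
    linarith
  have hnR : (n : ℝ) ≠ 0 := by
    have : (1 : ℝ) ≤ n := by exact_mod_cast hn
    linarith
  apply ee_eq_of_int (l * ((iv n m : ℤ) * w - z * t))
  have ht' : (n0 : ℝ) - a = (g : ℝ) * m * t := by exact_mod_cast ht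
  have hmt' : (m : ℝ) * t = h1 + n * w := by exact_mod_cast hmt
  have hz' : (m : ℝ) * (iv n m : ℝ) - 1 = n * z := by exact_mod_cast hz
  push_cast
  field_simp
  linear_combination (l : ℝ) * ht' + (g : ℝ) * m * l * (iv n m : ℝ) * hmt' -
    (g : ℝ) * m * l * t * hz'

end Pool.Agent.H80.KF
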