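import Mathlib

/-!
# Cutting a set into pieces

Induction on the size of `A`: if `#A ≤ K` use `h`; otherwise remove a subset of size exactly `K`.
-/

set_option autoImplicit false

namespace Pool.Agent.H80.KF

open Finset

private lemma Chk_aux (f : ℤ → ℝ) (K : ℕ) (hK : 1 ≤ K) (M : ℝ) (hM : 0 ≤ M) :
    ∀ n : ℕ, ∀ A : Finset ℤ, A.card ≤ n →
      (∀ B : Finset ℤ, B ⊆ A → B.card ≤ K → ∑ a ∈ B, f a ≤ M) →
      ∑ a ∈ A, f a ≤ ((A.card : ℝ) / K + 1) * M := by
  intro n
  induction n with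
  | zero =>
    intro A hA _
    have h0 : A = ∅ := card_eq_zero.1 (Nat.le_zero.1 hA)
    subst h0
    simpa using hM
  | succ n ih =>
    intro A hA h
    have hK0 : (0 : ℝ) < K := by exact_mod_cast hK
    by_cases hc : A.card ≤ K
    · refine (h A (Subset.refl _) hc).trans ?_
      have h1 : 0 ≤ (A.card : ℝ) / K := by positivity
      nlinarith
    · push Not at hc
      obtain ⟨B, hB, hBc⟩ := exists_subset_card_eq hc.le
      have h1 : (A \ B).card = A.card - K := by rw [card_sdiff_of_subset hB, hBc]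
      have h2 := ih (A \ B) (by omega) (fun D hD hDc => h D (hD.trans sdiff_subset) hDc)
      have h3 := h B hB (by omega)
      have h4 : ∑ a ∈ A, f a = ∑ a ∈ A \ B, f a + ∑ a ∈ B, f a := (sum_sdiff hB).symm
      have h5 : ((A \ B).card : ℝ) = A.card - K := by
        rw [h1, Nat.cast_sub hc.le]
      rw [h5] at h2
      have h6 : ((A.card : ℝ) - K) / K = (A.card : ℝ) / K - 1 := by
        rw [sub_div, div_self hK0.ne']
      rw [h6] at h2
      rw [h4]
      linarith

theorem chunk (f : ℤ → ℝ) (A : Finset ℤ) (K : ℕ) (hK : 1 ≤ K) (M : ℝ) (hM : 0 ≤ M)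
    (h : ∀ B : Finset ℤ, B ⊆ A → B.card ≤ K → ∑ a ∈ B, f a ≤ M) :
    ∑ a ∈ A, f a ≤ ((A.card : ℝ) / K + 1) * M :=
  Chk_aux f K hK M hM A.card A le_rfl h

end Pool.Agent.H80.KF
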