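import Pool.Agent.H80.KF.Bas

/-!
# The phase after reciprocity

`m₁ = s k`, `r n = p₁ m₁ - p₂ m₂`, `(n, p₁m₁) = 1`, `k` coprime to `p₁ p₂ s r`.
Reciprocity: `e(ξ (p₁m₁)^{-1}/n) = e(-ξ n̄/(p₁m₁)) e(ξ/(p₁m₁n))`; `p₁m₁ = (p₁s) k` with coprime
factors, so `kf_crt` splits the phase into one modulo `p₁ s` and `e(-ξ (n p₁ s)^{-1}/k)`; and
`p₁p₂ s m₂ ≡ -r n p₁ s (mod k)` (as `k ∣ m₁`), so the last factor is
`e(ξ r (p₁p₂ s m₂)^{-1}/k)`.
`phase2`: for two triples with the same `m₁ = s k`, `m₂` the product of the `k`-parts is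
`e(K₀ (s p₁p₂p₃p₄ m₂)^{-1}/k)` (use `kf_mul_left`, `kf_add`, `kf_neg`).
-/

set_option autoImplicit false

namespace Pool.Agent.H80.KF

open Finset

theorem phase {p1 p2 s k m2 n : ℕ} {r : ℤ} (hp1 : 1 ≤ p1) (hs : 1 ≤ s) (hk : 1 ≤ k) (hn : 1 ≤ n)
    (hrn : r * (n : ℤ) = (p1 : ℤ) * (s * k : ℕ) - (p2 : ℤ) * m2)
    (hcop : Nat.Coprime n (p1 * (s * k))) (h1 : Nat.Coprime k (p1 * s)) (h2 : Nat.Coprime k p2)
    (h3 : IsCoprime (k : ℤ) r) (ξ : ℤ) :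
    Nat.Coprime m2 k ∧
    kf n ξ (p1 * (s * k)) = ee ((ξ : ℝ) / ((p1 : ℝ) * (s * k : ℕ) * n)) *
      kf (p1 * s) (-ξ) (n * k) * kf k (ξ * r) (p1 * p2 * s * m2) := by
  have hnk : Nat.Coprime n k := by
    have h5 : k ∣ p1 * (s * k) := ⟨p1 * s, by ring⟩
    exact hcop.coprime_dvd_right h5
  have hkn : IsCoprime (k : ℤ) (n : ℤ) := Nat.isCoprime_iff_coprime.2 hnk.symm
  have hm2 : Nat.Coprime m2 k := by
    have h5 : IsCoprime (k : ℤ) (r * n) := h3.mul_right hkn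
    rw [hrn] at h5
    have h6 : (p1 : ℤ) * (s * k : ℕ) - (p2 : ℤ) * m2 = -((p2 : ℤ) * m2) + (k : ℤ) * (p1 * s) := by
      push_cast; ring
    rw [h6] at h5
    have h7 : IsCoprime (k : ℤ) (-((p2 : ℤ) * m2)) := by
      have := IsCoprime.add_mul_left_right_iff (x := (k : ℤ)) (y := -((p2 : ℤ) * m2)) (z := (p1 * s : ℤ))
      exact this.1 h5
    have h8 : IsCoprime (k : ℤ) ((p2 : ℤ) * m2) := by
      have := h7.neg_right
      rwa [neg_neg] at this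
    have h9 := h8.of_mul_right_right
    exact (Nat.isCoprime_iff_coprime.1 h9).symm
  refine ⟨hm2, ?_⟩
  have hu : 1 ≤ p1 * (s * k) := Nat.mul_pos hp1 (Nat.mul_pos hs hk)
  have hps : 1 ≤ p1 * s := Nat.mul_pos hp1 hs
  rw [kf_recip hu hn hcop.symm ξ]
  have e1 : p1 * (s * k) = (p1 * s) * k := by ring
  have e2 : kf (p1 * (s * k)) (-ξ) n = kf (p1 * s) (-ξ) (n * k) * kf k (-ξ) (n * (p1 * s)) := by
    rw [e1]
    exact kf_crt hps hk h1.symm (by rw [← e1]; exact hcop) _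
  rw [e2]
  -- the factor modulo k
  set c : ℕ := ((-r) % (k : ℤ)).toNat with hc
  have hk0 : (0 : ℤ) < k := by exact_mod_cast hk
  have hcz : (c : ℤ) = (-r) % (k : ℤ) := Int.toNat_of_nonneg (Int.emod_nonneg _ hk0.ne')
  have hcr : (k : ℤ) ∣ (c : ℤ) - (-r) := by
    rw [hcz]
    have := Int.emod_add_mul_ediv (-r) (k : ℤ)
    refine ⟨-((-r) / (k : ℤ)), ?_⟩
    linarith
  obtain ⟨t, ht⟩ := hcr
  have hcop2 : Nat.Coprime c k := by
    have h5 : IsCoprime (k : ℤ) (-r) := h3.neg_right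
    have h6 : (c : ℤ) = -r + (k : ℤ) * t := by linarith
    have h7 : IsCoprime (k : ℤ) (c : ℤ) := by
      rw [h6]
      exact (IsCoprime.add_mul_left_right_iff (x := (k : ℤ)) (y := -r) (z := t)).2 h5
    exact (Nat.isCoprime_iff_coprime.1 h7).symm
  have hcop3 : Nat.Coprime (n * (p1 * s)) k := Nat.Coprime.mul_left hnk h1.symm
  have e3 : kf k (-ξ) (n * (p1 * s)) = kf k (ξ * r) (p1 * p2 * s * m2) := by
    rw [← kf_mul_left hk (-ξ) hcop2 hcop3]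
    apply kf_congr hk
    · refine ⟨-ξ * t, ?_⟩
      have h6 : (c : ℤ) = -r + (k : ℤ) * t := by linarith
      rw [h6]; ring
    · apply (Nat.modEq_iff_dvd).2
      have h6 : (c : ℤ) = -r + (k : ℤ) * t := by linarith
      push_cast at hrn
      refine ⟨p1 * s * (p1 * s) - t * n * (p1 * s), ?_⟩
      push_cast
      rw [h6]
      linear_combination (p1 : ℤ) * s * hrn
  rw [e3]
  push_cast
  ring

theorem phase2 {k s m2 p1 p2 p3 p4 : ℕ} (hk : 1 ≤ k) (h : Nat.Coprime k (s * (p1 * p2 * (p3 * p4))))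
    (hm : Nat.Coprime m2 k) (η r r' : ℤ) :
    kf k (η * ((p1 : ℤ) - p2) * r) (p1 * p2 * s * m2) *
        (starRingEnd ℂ) (kf k (η * ((p3 : ℤ) - p4) * r') (p3 * p4 * s * m2)) =
      kf k (K0 η (p1, p2, r) (p3, p4, r')) (s * (p1 * p2 * (p3 * p4)) * m2) := by
  have hks : Nat.Coprime k s := h.coprime_dvd_right ⟨_, rfl⟩
  have hk12 : Nat.Coprime k (p1 * p2) := h.coprime_dvd_right ⟨s * (p3 * p4), by ring⟩
  have hk34 : Nat.Coprime k (p3 * p4) := h.coprime_dvd_right ⟨s * (p1 * p2), by ring⟩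
  have c1 : Nat.Coprime (p1 * p2 * s * m2) k :=
    Nat.Coprime.mul_left (Nat.Coprime.mul_left hk12.symm hks.symm) hm
  have c2 : Nat.Coprime (p3 * p4 * s * m2) k :=
    Nat.Coprime.mul_left (Nat.Coprime.mul_left hk34.symm hks.symm) hm
  rw [← kf_neg, ← kf_mul_left hk (η * ((p1 : ℤ) - p2) * r) hk34.symm c1,
    ← kf_mul_left hk (-(η * ((p3 : ℤ) - p4) * r')) hk12.symm c2]
  have e1 : p3 * p4 * (p1 * p2 * s * m2) = s * (p1 * p2 * (p3 * p4)) * m2 := by ring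
  have e2 : p1 * p2 * (p3 * p4 * s * m2) = s * (p1 * p2 * (p3 * p4)) * m2 := by ring
  rw [e1, e2, ← kf_add]
  congr 1
  unfold K0
  push_cast
  ring

end Pool.Agent.H80.KF
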