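import Pool.Agent.H80.KF.ClsD
import Pool.Agent.H80.KF.Phase

/-!
# The summand on a residue class of `m₂`

Let `τ = (p₁,p₂,r)`, `τ' = (p₃,p₄,r')`, `m₁ = s k`, `k` coprime to `r r' p₁p₂p₃p₄ s`,
`M₀ = lcm(|r|,|r'|) s p₁ p₃`, `m₂ = ρ + M₀ t`, and suppose that for one `t*` both `Adm` hold.  Then
`r ∣ p₁m₁ - p₂m₂`, `r' ∣ p₃m₁ - p₄m₂` for all `t` (`r, r' ∣ M₀`),
`n(t) = (p₁m₁ - p₂m₂)/r = n₀ + ν t`, `ν = -p₂M₀/r` a multiple of `p₁ s`,
`n'(t) = n₁ + ν' t`, `ν' = -p₄M₀/r'` a multiple of `p₃ s`; `m₂ mod p₁`, `m₂ mod p₃` are constant.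
Hence for `m₂ ∈ II N`: both `Adm` hold iff `n(t), n'(t) ∈ II N` and `(m₂, k) = 1`: the conditions
`p₁ ∤ m₂`, `(n(t), p₁ s) = 1` hold for all `t` because they hold for `t*`; `(n(t), k) = 1` iff
`(m₂, k) = 1` because `r n ≡ -p₂ m₂ (mod k)` and `r, p₂` are units mod `k`.  `nn = n(t)` since
`n(t) > 0` and `r n(t) = p₁m₁ - p₂m₂`.  By `phase`, `phase2` the summand is
`c · GG F m₁ c₁ c₂ m₂ n n' · kf k K₀ (s p₁p₂p₃p₄ m₂)`,
`c = kf (p₁s) (-ξ) (n k) · conj (kf (p₃s) (-ξ') (n' k))` is independent of `t` (`kf_congr`).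
-/

set_option autoImplicit false

namespace Pool.Agent.H80.KF

open Finset

private theorem clsa_adm {N p1 p2 s k M ρ tst : ℕ} {r q : ℤ} (hN : 1 ≤ N) (hp1 : 1 ≤ p1)
    (hs : 1 ≤ s) (hk : 1 ≤ k) (h1 : Nat.Coprime k (p1 * s)) (h2 : Nat.Coprime k p2)
    (h3 : IsCoprime (k : ℤ) r) (hrM : r * q = (M : ℤ)) (hq : ((p1 * s : ℕ) : ℤ) ∣ q)
    (hpM : p1 ∣ M) (ha : Adm N p1 p2 r (s * k) (ρ + M * tst)) :
    ∃ n0 ν : ℤ, ∃ ns : ℕ, (∀ t : ℕ, Adm N p1 p2 r (s * k) (ρ + M * t) ↔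
        ((N : ℤ) < n0 + ν * t ∧ n0 + ν * t ≤ 2 * N + 1) ∧ Nat.Coprime (ρ + M * t) k) ∧
      ∀ t : ℕ, Adm N p1 p2 r (s * k) (ρ + M * t) →
        (nn p1 p2 r (s * k) (ρ + M * t) : ℤ) = n0 + ν * t ∧
        nn p1 p2 r (s * k) (ρ + M * t) ≡ ns [MOD p1 * s] := by
  obtain ⟨a1, a2, a3, a4, a5, a6, a7⟩ := ha
  set ns := nn p1 p2 r (s * k) (ρ + M * tst) with hns
  have hr : ∀ t : ℕ, r * ((ns : ℤ) - (-(p2 : ℤ) * q) * tst + (-(p2 : ℤ) * q) * t) =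
      (p1 : ℤ) * (s * k : ℕ) - (p2 : ℤ) * (ρ + M * t : ℕ) := by
    intro t
    have e1 : r * ((ns : ℤ) - (-(p2 : ℤ) * q) * tst + (-(p2 : ℤ) * q) * t) =
        r * (ns : ℤ) + (p2 : ℤ) * (r * q) * tst - (p2 : ℤ) * (r * q) * t := by ring
    rw [e1, a5, hrM]
    push_cast
    ring
  have hnn : ∀ t : ℕ, 0 ≤ (ns : ℤ) - (-(p2 : ℤ) * q) * tst + (-(p2 : ℤ) * q) * t →
      (nn p1 p2 r (s * k) (ρ + M * t) : ℤ) =
        (ns : ℤ) - (-(p2 : ℤ) * q) * tst + (-(p2 : ℤ) * q) * t := by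
    intro t ht
    unfold nn
    rw [← hr t, Int.mul_ediv_cancel_left _ a4]
    exact Int.toNat_of_nonneg ht
  have hmod : ∀ t : ℕ, (nn p1 p2 r (s * k) (ρ + M * t) : ℤ) =
        (ns : ℤ) - (-(p2 : ℤ) * q) * tst + (-(p2 : ℤ) * q) * t →
      nn p1 p2 r (s * k) (ρ + M * t) ≡ ns [MOD p1 * s] := by
    intro t ht
    apply (Nat.modEq_iff_dvd.2 _).symm
    rw [ht]
    have e : (ns : ℤ) - (-(p2 : ℤ) * q) * tst + (-(p2 : ℤ) * q) * t - (ns : ℤ) =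
        q * ((p2 : ℤ) * tst - (p2 : ℤ) * t) := by ring
    rw [e]
    exact Dvd.dvd.mul_right hq _
  have hval : ∀ t : ℕ, Adm N p1 p2 r (s * k) (ρ + M * t) →
      (nn p1 p2 r (s * k) (ρ + M * t) : ℤ) =
        (ns : ℤ) - (-(p2 : ℤ) * q) * tst + (-(p2 : ℤ) * q) * t := by
    rintro t ⟨_, _, _, _, b5, _, _⟩
    have e : r * (nn p1 p2 r (s * k) (ρ + M * t) : ℤ) =
        r * ((ns : ℤ) - (-(p2 : ℤ) * q) * tst + (-(p2 : ℤ) * q) * t) := by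
      rw [b5, hr t]
    exact mul_left_cancel₀ a4 e
  refine ⟨(ns : ℤ) - (-(p2 : ℤ) * q) * tst, -(p2 : ℤ) * q, ns, fun t => ⟨fun hA => ?_, ?_⟩,
    fun t hA => ⟨hval t hA, hmod t (hval t hA)⟩⟩
  · have hv := hval t hA
    obtain ⟨b1, b2, b3, b4, b5, b6, b7⟩ := hA
    rw [II, Finset.mem_Ioc] at b6
    refine ⟨⟨by rw [← hv]; exact_mod_cast b6.1, by rw [← hv]; exact_mod_cast b6.2⟩, ?_⟩
    exact (phase hp1 hs hk (by omega) b5 b7 h1 h2 h3 0).1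
  · rintro ⟨⟨c1, c2⟩, c3⟩
    have hv := hnn t (by omega)
    have hm := hmod t hv
    have hv5 : r * (nn p1 p2 r (s * k) (ρ + M * t) : ℤ) =
        (p1 : ℤ) * (s * k : ℕ) - (p2 : ℤ) * (ρ + M * t : ℕ) := by
      rw [hv, hr t]
    refine ⟨a1, ?_, a3, a4, hv5, ?_, ?_⟩
    · intro hd
      apply a2
      have h4 : p1 ∣ M * t := Dvd.dvd.mul_right hpM t
      have h5 : p1 ∣ M * tst := Dvd.dvd.mul_right hpM tst
      have h6 : p1 ∣ ρ := (Nat.dvd_add_left h4).1 hd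
      exact dvd_add h6 h5
    · rw [II, Finset.mem_Ioc]
      rw [← hv] at c1 c2
      exact ⟨by exact_mod_cast c1, by exact_mod_cast c2⟩
    · have h4 : Nat.Coprime ns (p1 * s) := by
        have : p1 * (s * k) = (p1 * s) * k := by ring
        rw [this] at a7
        exact Nat.Coprime.coprime_mul_right_right a7
      have h5 : Nat.Coprime (nn p1 p2 r (s * k) (ρ + M * t)) (p1 * s) := by
        unfold Nat.Coprime at h4 ⊢
        rw [← h4]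
        exact Nat.ModEq.gcd_eq hm
      have h6 : Nat.Coprime (nn p1 p2 r (s * k) (ρ + M * t)) k := by
        by_contra hne
        obtain ⟨l, hl, hl1, hl2⟩ := Nat.Prime.not_coprime_iff_dvd.1 hne
        have h7 : (l : ℤ) ∣ (p2 : ℤ) * (ρ + M * t : ℕ) := by
          have e : (p2 : ℤ) * (ρ + M * t : ℕ) = (p1 : ℤ) * (s * k : ℕ) -
              r * (nn p1 p2 r (s * k) (ρ + M * t) : ℤ) := by
            rw [hv5]
            ring
          rw [e]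
          apply dvd_sub
          · apply Dvd.dvd.mul_left
            exact_mod_cast Dvd.dvd.mul_left hl2 s
          · apply Dvd.dvd.mul_left
            exact_mod_cast hl1
        have h8 : l ∣ p2 * (ρ + M * t) := by exact_mod_cast h7
        rcases (Nat.Prime.dvd_mul hl).1 h8 with h9 | h9
        · exact Nat.not_coprime_of_dvd_of_dvd hl.one_lt hl2 h9 h2
        · exact Nat.not_coprime_of_dvd_of_dvd hl.one_lt h9 hl2 c3
      have : p1 * (s * k) = (p1 * s) * k := by ring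
      rw [this]
      exact Nat.Coprime.mul_right h5 h6

private theorem clsa_gg {N p1 p2 s k M ρ t ns : ℕ} {r : ℤ} (hp1 : 1 ≤ p1)
    (hs : 1 ≤ s) (hk : 1 ≤ k) (h1 : Nat.Coprime k (p1 * s)) (h2 : Nat.Coprime k p2)
    (h3 : IsCoprime (k : ℤ) r) (η : ℤ) (F : ℝ → ℂ) {x : ℝ}
    (hA : Adm N p1 p2 r (s * k) (ρ + M * t))
    (hx : (nn p1 p2 r (s * k) (ρ + M * t) : ℝ) = x)
    (hm : nn p1 p2 r (s * k) (ρ + M * t) ≡ ns [MOD p1 * s]) :
    gg F η N (p1, p2, r) (s * k) (ρ + M * t) =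
      F (((s * k : ℕ) : ℝ) * x) * (starRingEnd ℂ) (F (((ρ + M * t : ℕ) : ℝ) * x)) *
        (ee (cc η (p1, p2, r) (s * k) / x) * kf (p1 * s) (-(η * ((p1 : ℤ) - p2))) (ns * k) *
          kf k (η * ((p1 : ℤ) - p2) * r) (p1 * p2 * s * (ρ + M * t))) := by
  have hA' := hA
  obtain ⟨b1, b2, b3, b4, b5, b6, b7⟩ := hA'
  rw [II, Finset.mem_Ioc] at b6
  have hph := (phase hp1 hs hk (by omega) b5 b7 h1 h2 h3 (η * ((p1 : ℤ) - p2))).2
  unfold gg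
  rw [if_pos hA]
  change F (((s * k : ℕ) : ℝ) * (nn p1 p2 r (s * k) (ρ + M * t) : ℝ)) *
    (starRingEnd ℂ) (F (((ρ + M * t : ℕ) : ℝ) * (nn p1 p2 r (s * k) (ρ + M * t) : ℝ))) *
    kf (nn p1 p2 r (s * k) (ρ + M * t)) (η * ((p1 : ℤ) - p2)) (p1 * (s * k)) = _
  rw [hph, hx]
  have hkf : kf (p1 * s) (-(η * ((p1 : ℤ) - p2))) (nn p1 p2 r (s * k) (ρ + M * t) * k) =
      kf (p1 * s) (-(η * ((p1 : ℤ) - p2))) (ns * k) :=
    kf_congr (Nat.mul_pos hp1 hs) (by simp) (Nat.ModEq.mul_right k hm)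
  rw [hkf]
  have hcc : ((η * ((p1 : ℤ) - p2) : ℤ) : ℝ) / ((p1 : ℝ) * (s * k : ℕ) * x) =
      cc η (p1, p2, r) (s * k) / x := by
    unfold cc
    rw [div_div]
  rw [hcc]

open Classical in
theorem cls_formula (N : ℕ) (hN : 1 ≤ N) (η : ℤ) (F : ℝ → ℂ) (τ τ' : ℕ × ℕ × ℤ)
    (h1 : τ.1.Prime) (h2 : τ.2.1.Prime) (h3 : τ'.1.Prime) (h4 : τ'.2.1.Prime)
    (s k : ℕ) (hs : 1 ≤ s) (hk : 1 ≤ k) (hm : s * k ∈ II N)
    (hcop : Nat.Coprime k (τ.2.2.natAbs * τ'.2.2.natAbs * (τ.1 * τ.2.1 * (τ'.1 * τ'.2.1)) * s))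
    (ρ tst : ℕ) (ha : Adm N τ.1 τ.2.1 τ.2.2 (s * k) (ρ + M0 τ τ' s * tst))
    (ha' : Adm N τ'.1 τ'.2.1 τ'.2.2 (s * k) (ρ + M0 τ τ' s * tst)) :
    ∃ c : ℂ, ‖c‖ = 1 ∧ ∃ n0 ν n1 ν' : ℤ, ∀ t : ℕ, ρ + M0 τ τ' s * t ∈ II N →
      gg F η N τ (s * k) (ρ + M0 τ τ' s * t) *
          (starRingEnd ℂ) (gg F η N τ' (s * k) (ρ + M0 τ τ' s * t)) =
        if ((N : ℤ) < n0 + ν * t ∧ n0 + ν * t ≤ 2 * N + 1) ∧
            ((N : ℤ) < n1 + ν' * t ∧ n1 + ν' * t ≤ 2 * N + 1) ∧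
            Nat.Coprime (ρ + M0 τ τ' s * t) k then
          c * GG F ((s * k : ℕ) : ℝ) (cc η τ (s * k)) (cc η τ' (s * k))
              ((ρ : ℝ) + (M0 τ τ' s : ℝ) * t) ((n0 : ℝ) + (ν : ℝ) * t) ((n1 : ℝ) + (ν' : ℝ) * t) *
            kf k (K0 η τ τ') (sp τ τ' s * (ρ + M0 τ τ' s * t))
        else 0 := by
  obtain ⟨p1, p2, r⟩ := τ
  obtain ⟨p3, p4, r'⟩ := τ'
  change Nat.Prime p1 at h1
  change Nat.Prime p2 at h2
  change Nat.Prime p3 at h3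
  change Nat.Prime p4 at h4
  change Nat.Coprime k (r.natAbs * r'.natAbs * (p1 * p2 * (p3 * p4)) * s) at hcop
  set M := M0 (p1, p2, r) (p3, p4, r') s with hM
  change Adm N p1 p2 r (s * k) (ρ + M * tst) at ha
  change Adm N p3 p4 r' (s * k) (ρ + M * tst) at ha'
  have hMdef : M = Nat.lcm r.natAbs r'.natAbs * (s * (p1 * p3)) := rfl
  have hks : Nat.Coprime k s := Nat.Coprime.coprime_mul_left_right hcop
  have hkA : Nat.Coprime k (r.natAbs * r'.natAbs * (p1 * p2 * (p3 * p4))) :=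
    Nat.Coprime.coprime_mul_right_right hcop
  have hkP : Nat.Coprime k (p1 * p2 * (p3 * p4)) := Nat.Coprime.coprime_mul_left_right hkA
  have hkR : Nat.Coprime k (r.natAbs * r'.natAbs) := Nat.Coprime.coprime_mul_right_right hkA
  have hk12 : Nat.Coprime k (p1 * p2) := Nat.Coprime.coprime_mul_right_right hkP
  have hk34 : Nat.Coprime k (p3 * p4) := Nat.Coprime.coprime_mul_left_right hkP
  have hk1 : Nat.Coprime k p1 := Nat.Coprime.coprime_mul_right_right hk12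
  have hk2 : Nat.Coprime k p2 := Nat.Coprime.coprime_mul_left_right hk12
  have hk3 : Nat.Coprime k p3 := Nat.Coprime.coprime_mul_right_right hk34
  have hk4 : Nat.Coprime k p4 := Nat.Coprime.coprime_mul_left_right hk34
  have hkr : IsCoprime (k : ℤ) r := by
    rw [Int.isCoprime_iff_gcd_eq_one]
    have h5 : Nat.Coprime k r.natAbs := Nat.Coprime.coprime_mul_right_right hkR
    exact h5
  have hkr' : IsCoprime (k : ℤ) r' := by
    rw [Int.isCoprime_iff_gcd_eq_one]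
    have h5 : Nat.Coprime k r'.natAbs := Nat.Coprime.coprime_mul_left_right hkR
    exact h5
  have hq : ∀ {a : ℤ} {p : ℕ}, a.natAbs ∣ Nat.lcm r.natAbs r'.natAbs → p ∣ p1 * p3 →
      ∃ q : ℤ, a * q = (M : ℤ) ∧ ((p * s : ℕ) : ℤ) ∣ q ∧ p ∣ M := by
    intro a p ha1 hp
    have h5 : a ∣ (Nat.lcm r.natAbs r'.natAbs : ℤ) := Int.natAbs_dvd_natAbs.1 (by simpa using ha1)
    obtain ⟨b, hb⟩ := h5
    obtain ⟨c, hc⟩ := hp
    refine ⟨b * (s * (p1 * p3) : ℕ), ?_, ?_, ?_⟩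
    · rw [← mul_assoc, ← hb, hMdef]
      push_cast
      ring
    · apply Dvd.dvd.mul_left
      rw [hc]
      exact_mod_cast (⟨c, by ring⟩ : p * s ∣ s * (p * c))
    · rw [hMdef, hc]
      exact ⟨Nat.lcm r.natAbs r'.natAbs * (s * c), by ring⟩
  obtain ⟨q, hq1, hq2, hq3⟩ := hq (a := r) (p := p1) (Nat.dvd_lcm_left _ _) (Dvd.intro _ rfl)
  obtain ⟨q', hq1', hq2', hq3'⟩ := hq (a := r') (p := p3) (Nat.dvd_lcm_right _ _)
    (Dvd.intro_left _ rfl)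
  obtain ⟨n0, ν, ns, hadm, hval⟩ := clsa_adm hN h1.one_le hs hk (Nat.Coprime.mul_right hk1 hks)
    hk2 hkr hq1 hq2 hq3 ha
  obtain ⟨n1, ν', ns', hadm', hval'⟩ := clsa_adm hN h3.one_le hs hk (Nat.Coprime.mul_right hk3 hks)
    hk4 hkr' hq1' hq2' hq3' ha'
  refine ⟨kf (p1 * s) (-(η * ((p1 : ℤ) - p2))) (ns * k) *
    (starRingEnd ℂ) (kf (p3 * s) (-(η * ((p3 : ℤ) - p4))) (ns' * k)), ?_, n0, ν, n1, ν', ?_⟩
  · rw [norm_mul, RCLike.norm_conj, norm_kf, norm_kf, one_mul]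
  intro t _
  split_ifs with hif
  · obtain ⟨hi1, hi2, hi3⟩ := hif
    have hA := (hadm t).2 ⟨hi1, hi3⟩
    have hA' := (hadm' t).2 ⟨hi2, hi3⟩
    obtain ⟨v1, v2⟩ := hval t hA
    obtain ⟨v1', v2'⟩ := hval' t hA'
    have hx : (nn p1 p2 r (s * k) (ρ + M * t) : ℝ) = (n0 : ℝ) + (ν : ℝ) * t := by
      exact_mod_cast v1
    have hx' : (nn p3 p4 r' (s * k) (ρ + M * t) : ℝ) = (n1 : ℝ) + (ν' : ℝ) * t := by
      exact_mod_cast v1'
    have g1 := clsa_gg h1.one_le hs hk (Nat.Coprime.mul_right hk1 hks) hk2 hkr η F hA hx v2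
    have g2 := clsa_gg h3.one_le hs hk (Nat.Coprime.mul_right hk3 hks) hk4 hkr' η F hA' hx' v2'
    have hph2 := phase2 (p1 := p1) (p2 := p2) (p3 := p3) (p4 := p4) hk
      (Nat.Coprime.mul_right hks hkP) hi3 η r r'
    rw [g1, g2]
    have hsp : sp (p1, p2, r) (p3, p4, r') s = s * (p1 * p2 * (p3 * p4)) := rfl
    rw [hsp, ← hph2]
    unfold GG
    simp only [map_mul, Complex.conj_conj]
    push_cast
    ring
  · by_cases hA : Adm N p1 p2 r (s * k) (ρ + M * t)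
    · by_cases hA' : Adm N p3 p4 r' (s * k) (ρ + M * t)
      · exfalso
        exact hif ⟨((hadm t).1 hA).1, ((hadm' t).1 hA').1, ((hadm t).1 hA).2⟩
      · have : gg F η N (p3, p4, r') (s * k) (ρ + M * t) = 0 := by
          unfold gg
          exact if_neg hA'
        rw [this, map_zero, mul_zero]
    · have : gg F η N (p1, p2, r) (s * k) (ρ + M * t) = 0 := by
        unfold gg
        exact if_neg hA
      rw [this, zero_mul]

end Pool.Agent.H80.KF
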