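import Pool.Agent.H80.KF.KlB

/-!
# Incomplete Kloosterman sums along a progression

Let `B = (2 (a,q) q³ τ(q)³)^{1/4}`, so `|S(a,b;q)| ≤ B` for all `b`.  The values `ρ + M t`,
`t < T`, `(M,q) = 1`: cut `[0,T)` into `⌊T/q⌋` complete periods, each giving `S(a,0;q)`, and a rest
of length `T' < q`.  With `f(y) = 1_{(y,q)=1} e(a ȳ/q)` and
`f(y) = (1/q) ∑_{b mod q} S(a,-b;q) e(b y/q)` the rest is at most
`B (1/q) ∑_{b mod q} |∑_{t < T'} e(b M t/q)| ≤ B (1/q)(T' + ∑_{b=1}^{q-1} 1/(2‖b/q‖))`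
`≤ B (2 + log q)` (`b M` runs over all classes; geometric sums, `|sin π t| ≥ 2‖t‖`).
-/

set_option autoImplicit false

namespace Pool.Agent.H80.KF

open Finset

private theorem klc_ee_nat_mul (n : ℕ) (t : ℝ) : ee ((n : ℝ) * t) = ee t ^ n := by
  unfold ee
  rw [← Complex.exp_nat_mul]
  congr 1
  push_cast
  ring

private theorem klc_ee_eq_one {t : ℝ} (h : ee t = 1) : ∃ n : ℤ, t = n := by
  unfold ee at h
  obtain ⟨n, hn⟩ := Complex.exp_eq_one_iff.1 h
  refine ⟨n, ?_⟩
  have h2 : (2 * (Real.pi : ℂ) * Complex.I) ≠ 0 := by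
    simp [Real.pi_ne_zero, Complex.I_ne_zero]
  have h3 : (2 * (Real.pi : ℂ) * Complex.I) * ((t : ℂ) - n) = 0 := by
    linear_combination hn
  have h4 : (t : ℂ) - n = 0 := (mul_eq_zero.1 h3).resolve_left h2
  have h5 : (t : ℂ) = ((n : ℝ) : ℂ) := by
    rw [sub_eq_zero.1 h4]
    push_cast
    rfl
  exact_mod_cast h5

private theorem klc_orth (q : ℕ) (hq : 1 ≤ q) (k : ℤ) :
    ∑ b ∈ range q, ee ((b : ℝ) * k / q) = if (q : ℤ) ∣ k then (q : ℂ) else 0 := by
  have hq0 : (q : ℝ) ≠ 0 := by positivity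
  have h1 : ∀ b ∈ range q, ee ((b : ℝ) * k / q) = ee ((k : ℝ) / q) ^ b := by
    intro b _
    rw [← klc_ee_nat_mul]
    congr 1
    ring
  rw [Finset.sum_congr rfl h1]
  split_ifs with hk
  · obtain ⟨m, rfl⟩ := hk
    have : ee ((((q : ℤ) * m : ℤ) : ℝ) / q) = 1 := by
      have h2 : ((((q : ℤ) * m : ℤ) : ℝ) / q) = (m : ℝ) := by
        push_cast
        field_simp
      rw [h2, ee_int]
    rw [this]
    simp
  · have hne : ee ((k : ℝ) / q) ≠ 1 := by
      intro h
      obtain ⟨n, hn⟩ := klc_ee_eq_one h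
      apply hk
      refine ⟨n, ?_⟩
      rw [div_eq_iff hq0] at hn
      have : (k : ℝ) = ((q * n : ℤ) : ℝ) := by
        push_cast
        rw [hn]
        ring
      exact_mod_cast this
    have hpow : ee ((k : ℝ) / q) ^ q = 1 := by
      rw [← klc_ee_nat_mul]
      have : (q : ℝ) * ((k : ℝ) / q) = (k : ℝ) := by field_simp
      rw [this, ee_int]
    rw [geom_sum_eq hne, hpow]
    simp

/-- the function with period `q` to be summed -/
private noncomputable def klg (q : ℕ) (a : ℤ) (y : ℕ) : ℂ :=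
  if Nat.Coprime y q then kf q a y else 0

private theorem klg_congr {q : ℕ} (hq : 1 ≤ q) (a : ℤ) {y y' : ℕ} (h : y ≡ y' [MOD q]) :
    klg q a y = klg q a y' := by
  unfold klg
  have h1 : Nat.Coprime y q ↔ Nat.Coprime y' q := by
    unfold Nat.Coprime
    rw [h.gcd_eq]
  by_cases hc : Nat.Coprime y q
  · rw [if_pos hc, if_pos (h1.1 hc)]
    exact kf_congr hq (by simp) h
  · rw [if_neg hc, if_neg (fun h' => hc (h1.2 h'))]

private theorem klS_eq (q : ℕ) (a b : ℤ) :
    klS q a b = ∑ x ∈ range q, ee ((b : ℝ) * x / q) * klg q a x := by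
  unfold klS klg
  rw [Finset.sum_filter]
  apply Finset.sum_congr rfl
  intro x _
  split_ifs <;> simp

private theorem klg_fourier {q : ℕ} (hq : 1 ≤ q) (a : ℤ) (y : ℕ) :
    ∑ b ∈ range q, klS q a (-(b : ℤ)) * ee ((b : ℝ) * y / q) = (q : ℂ) * klg q a y := by
  have hq0 : (q : ℝ) ≠ 0 := by positivity
  have h1 : ∀ b ∈ range q, klS q a (-(b : ℤ)) * ee ((b : ℝ) * y / q) =
      ∑ x ∈ range q, klg q a x * ee ((b : ℝ) * (((y : ℤ) - x : ℤ) : ℝ) / q) := by
    intro b _
    rw [klS_eq, Finset.sum_mul]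
    apply Finset.sum_congr rfl
    intro x _
    have : ee ((b : ℝ) * (((y : ℤ) - x : ℤ) : ℝ) / q) =
        ee (((-(b : ℤ) : ℤ) : ℝ) * x / q) * ee ((b : ℝ) * y / q) := by
      rw [← ee_add]
      congr 1
      push_cast
      ring
    rw [this]
    ring
  rw [Finset.sum_congr rfl h1, Finset.sum_comm]
  have h2 : ∀ x ∈ range q, ∑ b ∈ range q,
      klg q a x * ee ((b : ℝ) * (((y : ℤ) - x : ℤ) : ℝ) / q) =
      klg q a x * (if (q : ℤ) ∣ ((y : ℤ) - x) then (q : ℂ) else 0) := by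
    intro x _
    rw [← Finset.mul_sum, klc_orth q hq]
  rw [Finset.sum_congr rfl h2, Finset.sum_eq_single (y % q)]
  · have hd : (q : ℤ) ∣ ((y : ℤ) - ((y % q : ℕ) : ℤ)) := by
      rw [Int.natCast_mod]
      exact Int.dvd_self_sub_emod
    rw [if_pos hd, klg_congr hq a (Nat.mod_modEq y q), mul_comm]
  · intro x hx hne
    rw [if_neg, mul_zero]
    intro hd
    apply hne
    have h3 : x ≡ y [MOD q] := by
      rw [Nat.modEq_iff_dvd]
      exact hd
    have h4 : x % q = y % q := h3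
    rw [Nat.mod_eq_of_lt (Finset.mem_range.1 hx)] at h4
    exact h4
  · intro hx
    exact absurd (Finset.mem_range.2 (Nat.mod_lt _ (by omega))) hx

private theorem klc_sin {x : ℝ} (h0 : 0 < x) (h1 : x < 1) :
    1 / Real.sin (Real.pi * x) ≤ (1 / 2) * (1 / x + 1 / (1 - x)) := by
  have hpi := Real.pi_pos
  have h1x : 0 < 1 - x := by linarith
  by_cases hx : x ≤ 1 / 2
  · have hs : 2 * x ≤ Real.sin (Real.pi * x) := by
      have := Real.mul_le_sin (x := Real.pi * x) (by positivity) (by nlinarith)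
      calc 2 * x = 2 / Real.pi * (Real.pi * x) := by field_simp
        _ ≤ _ := this
    calc 1 / Real.sin (Real.pi * x) ≤ 1 / (2 * x) :=
          one_div_le_one_div_of_le (by positivity) hs
      _ = (1 / 2) * (1 / x) := by field_simp
      _ ≤ _ := by
          have : 0 < 1 / (1 - x) := by positivity
          linarith
  · push Not at hx
    have hs : 2 * (1 - x) ≤ Real.sin (Real.pi * x) := by
      have := Real.mul_le_sin (x := Real.pi * (1 - x)) (by positivity) (by nlinarith)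
      have h3 : Real.sin (Real.pi * (1 - x)) = Real.sin (Real.pi * x) := by
        rw [← Real.sin_pi_sub]
        congr 1
        ring
      calc 2 * (1 - x) = 2 / Real.pi * (Real.pi * (1 - x)) := by field_simp
        _ ≤ _ := this
        _ = _ := h3
    calc 1 / Real.sin (Real.pi * x) ≤ 1 / (2 * (1 - x)) :=
          one_div_le_one_div_of_le (by positivity) hs
      _ = (1 / 2) * (1 / (1 - x)) := by field_simp
      _ ≤ _ := by
          have : 0 < 1 / x := by positivity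
          linarith

private theorem klc_geom {x : ℝ} (h0 : 0 < x) (h1 : x < 1) (T : ℕ) :
    ‖∑ t ∈ range T, ee x ^ t‖ ≤ (1 / 2) * (1 / x + 1 / (1 - x)) := by
  have hpi := Real.pi_pos
  have hsin : 0 < Real.sin (Real.pi * x) := by
    apply Real.sin_pos_of_pos_of_lt_pi (by positivity)
    nlinarith
  have hnorm : ‖ee x - 1‖ = 2 * Real.sin (Real.pi * x) := by
    have h2 : ee x = Complex.exp (Complex.I * ((2 * Real.pi * x : ℝ) : ℂ)) := by
      unfold ee
      congr 1
      push_cast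
      ring
    rw [h2, Complex.norm_exp_I_mul_ofReal_sub_one, Real.norm_eq_abs]
    have h3 : 2 * Real.pi * x / 2 = Real.pi * x := by ring
    rw [h3, abs_of_pos (by positivity)]
  have hne : ee x ≠ 1 := by
    intro h
    rw [h] at hnorm
    simp at hnorm
    exact hsin.ne' hnorm
  rw [geom_sum_eq hne, norm_div, hnorm]
  have hn2 : ‖ee x ^ T - 1‖ ≤ 2 := by
    calc ‖ee x ^ T - 1‖ ≤ ‖ee x ^ T‖ + ‖(1 : ℂ)‖ := norm_sub_le _ _
      _ = 2 := by
          rw [norm_pow, norm_ee]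
          norm_num
  calc ‖ee x ^ T - 1‖ / (2 * Real.sin (Real.pi * x)) ≤ 2 / (2 * Real.sin (Real.pi * x)) := by
        gcongr
    _ = 1 / Real.sin (Real.pi * x) := by
        field_simp
    _ ≤ _ := klc_sin h0 h1

private theorem klc_perm {q M : ℕ} (hM : Nat.Coprime M q) (h : ℕ → ℝ) :
    ∑ b ∈ Ico 1 q, h (b * M % q) = ∑ b ∈ Ico 1 q, h b := by
  have hinj : Set.InjOn (fun b => b * M % q) (Ico 1 q : Finset ℕ) := by
    intro b hb b' hb' hbb
    have hb1 := Finset.mem_Ico.1 (Finset.mem_coe.1 hb)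
    have hb2 := Finset.mem_Ico.1 (Finset.mem_coe.1 hb')
    have h1 : b * M ≡ b' * M [MOD q] := hbb
    have h2 : b ≡ b' [MOD q] := Nat.ModEq.cancel_right_of_coprime hM.symm h1
    exact Nat.ModEq.eq_of_lt_of_lt h2 hb1.2 hb2.2
  have himg : (Ico 1 q).image (fun b => b * M % q) = Ico 1 q := by
    apply Finset.eq_of_subset_of_card_le
    · intro y hy
      obtain ⟨b, hb, rfl⟩ := Finset.mem_image.1 hy
      have hb1 := Finset.mem_Ico.1 hb
      refine Finset.mem_Ico.2 ⟨?_, Nat.mod_lt _ (by omega)⟩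
      rw [Nat.one_le_iff_ne_zero]
      intro h0
      have hd : q ∣ b * M := Nat.dvd_of_mod_eq_zero h0
      have hd2 : q ∣ b := Nat.Coprime.dvd_of_dvd_mul_right hM.symm hd
      exact absurd (Nat.le_of_dvd (by omega) hd2) (by omega)
    · rw [Finset.card_image_of_injOn hinj]
  conv_rhs => rw [← himg]
  rw [Finset.sum_image hinj]

private theorem klc_harm (q : ℕ) (hq : 1 ≤ q) :
    ∑ b ∈ Ico 1 q, (1 : ℝ) / b ≤ 1 + Real.log q := by
  have h1 : ∑ b ∈ Ico 1 q, (1 : ℝ) / b = ((harmonic (q - 1) : ℚ) : ℝ) := by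
    rw [Finset.sum_Ico_eq_sum_range]
    unfold harmonic
    push_cast
    apply Finset.sum_congr rfl
    intro i _
    rw [one_div, add_comm]
  rw [h1]
  by_cases h : q = 1
  · subst h
    simp
  · calc ((harmonic (q - 1) : ℚ) : ℝ) ≤ 1 + Real.log ((q - 1 : ℕ) : ℝ) :=
          harmonic_le_one_add_log _
      _ ≤ 1 + Real.log q := by
          have : Real.log ((q - 1 : ℕ) : ℝ) ≤ Real.log q := by
            apply Real.log_le_log
            · have : 0 < q - 1 := by omega
              exact_mod_cast this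
            · exact_mod_cast Nat.sub_le q 1
          linarith

private theorem klc_sum {q : ℕ} (hq : 1 ≤ q) :
    ∑ b ∈ Ico 1 q, (1 / 2 : ℝ) * (1 / ((b : ℝ) / q) + 1 / (1 - (b : ℝ) / q)) ≤
      q * (1 + Real.log q) := by
  have hq0 : (q : ℝ) ≠ 0 := by positivity
  have h1 : ∀ b ∈ Ico 1 q, (1 / 2 : ℝ) * (1 / ((b : ℝ) / q) + 1 / (1 - (b : ℝ) / q)) =
      (q / 2 : ℝ) * (1 / (b : ℝ)) + (q / 2 : ℝ) * (1 / ((q - b : ℕ) : ℝ)) := by
    intro b hb
    have hb1 := Finset.mem_Ico.1 hb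
    have hb0 : (b : ℝ) ≠ 0 := by
      have : b ≠ 0 := by omega
      exact_mod_cast this
    have hqb : (q : ℝ) - b ≠ 0 := by
      have : (b : ℝ) < q := by exact_mod_cast hb1.2
      linarith
    rw [Nat.cast_sub hb1.2.le]
    have h3 : 1 - (b : ℝ) / q = ((q : ℝ) - b) / q := by field_simp
    rw [h3]
    field_simp
  rw [Finset.sum_congr rfl h1, Finset.sum_add_distrib, ← Finset.mul_sum, ← Finset.mul_sum]
  have h2 : ∑ b ∈ Ico 1 q, (1 : ℝ) / ((q - b : ℕ) : ℝ) = ∑ b ∈ Ico 1 q, (1 : ℝ) / (b : ℝ) := by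
    apply Finset.sum_nbij' (fun b => q - b) (fun b => q - b)
    · intro b hb
      have := Finset.mem_Ico.1 hb
      exact Finset.mem_Ico.2 ⟨by omega, by omega⟩
    · intro b hb
      have := Finset.mem_Ico.1 hb
      exact Finset.mem_Ico.2 ⟨by omega, by omega⟩
    · intro b hb
      have := Finset.mem_Ico.1 hb
      show q - (q - b) = b
      omega
    · intro b hb
      have := Finset.mem_Ico.1 hb
      show q - (q - b) = b
      omega
    · intro b hb
      rfl
  rw [h2]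
  have h3 := klc_harm q hq
  have hq1 : (0 : ℝ) ≤ q := by positivity
  nlinarith [mul_le_mul_of_nonneg_left h3 hq1]

theorem kl_incomplete (q : ℕ) (hq : 1 ≤ q) (a : ℤ) (M ρ T : ℕ) (hM : Nat.Coprime M q) :
    ‖∑ t ∈ (range T).filter (fun t => Nat.Coprime (ρ + M * t) q), kf q a (ρ + M * t)‖ ≤
      ((T : ℝ) / q + 3 + Real.log q) *
        (2 * (Int.gcd a q : ℝ) * (q : ℝ) ^ 3 * (tau q : ℝ) ^ 3) ^ ((1 : ℝ) / 4) := by
  set B : ℝ := (2 * (Int.gcd a q : ℝ) * (q : ℝ) ^ 3 * (tau q : ℝ) ^ 3) ^ ((1 : ℝ) / 4) with hB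
  have hB0 : 0 ≤ B := by positivity
  have hq0 : (0 : ℝ) < q := by positivity
  have hkl : ∀ b : ℤ, ‖klS q a b‖ ≤ B := by
    intro b
    have h1 := klS_le q hq a b
    have h2 : ‖klS q a b‖ = (‖klS q a b‖ ^ 4) ^ ((1 : ℝ) / 4) := by
      rw [← Real.rpow_natCast, ← Real.rpow_mul (norm_nonneg _)]
      norm_num
    rw [h2]
    exact Real.rpow_le_rpow (by positivity) h1 (by norm_num)
  -- the Fourier expansion
  have hexp : (q : ℂ) * ∑ t ∈ (range T).filter (fun t => Nat.Coprime (ρ + M * t) q),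
      kf q a (ρ + M * t) = ∑ b ∈ range q, klS q a (-(b : ℤ)) *
        (ee ((b : ℝ) * ρ / q) * ∑ t ∈ range T, ee ((b : ℝ) * M / q) ^ t) := by
    rw [Finset.sum_filter, Finset.mul_sum]
    have h1 : ∀ t ∈ range T, (q : ℂ) * (if Nat.Coprime (ρ + M * t) q then kf q a (ρ + M * t) else 0)
        = ∑ b ∈ range q, klS q a (-(b : ℤ)) *
          (ee ((b : ℝ) * ρ / q) * ee ((b : ℝ) * M / q) ^ t) := by
      intro t _
      have h2 := klg_fourier hq a (ρ + M * t)
      unfold klg at h2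
      rw [← h2]
      apply Finset.sum_congr rfl
      intro b _
      congr 1
      rw [← klc_ee_nat_mul, ← ee_add]
      congr 1
      push_cast
      ring
    rw [Finset.sum_congr rfl h1, Finset.sum_comm]
    apply Finset.sum_congr rfl
    intro b _
    rw [Finset.mul_sum, Finset.mul_sum]
  have hnq : (q : ℝ) * ‖∑ t ∈ (range T).filter (fun t => Nat.Coprime (ρ + M * t) q),
      kf q a (ρ + M * t)‖ ≤ B * (T + q * (1 + Real.log q)) := by
    have h0 : (q : ℝ) = ‖(q : ℂ)‖ := by simp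
    rw [h0, ← norm_mul, hexp, ← h0]
    have hterm : ∀ b ∈ range q, ‖klS q a (-(b : ℤ)) *
        (ee ((b : ℝ) * ρ / q) * ∑ t ∈ range T, ee ((b : ℝ) * M / q) ^ t)‖ ≤
        B * ‖∑ t ∈ range T, ee ((b : ℝ) * M / q) ^ t‖ := by
      intro b _
      rw [norm_mul, norm_mul, norm_ee, one_mul]
      exact mul_le_mul_of_nonneg_right (hkl _) (norm_nonneg _)
    refine (norm_sum_le _ _).trans ((Finset.sum_le_sum hterm).trans ?_)
    rw [← Finset.mul_sum]
    apply mul_le_mul_of_nonneg_left _ hB0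
    rw [Finset.range_eq_Ico, Finset.sum_eq_sum_Ico_succ_bot (by omega)]
    have hz : ‖∑ t ∈ range T, ee (((0 : ℕ) : ℝ) * M / q) ^ t‖ = T := by
      have : (((0 : ℕ) : ℝ) * M / q) = 0 := by simp
      rw [this, ee_zero]
      simp
    rw [hz]
    have hrest : ∀ b ∈ Ico (0 + 1) q, ‖∑ t ∈ range T, ee ((b : ℝ) * M / q) ^ t‖ ≤
        (fun c : ℕ => (1 / 2 : ℝ) * (1 / ((c : ℝ) / q) + 1 / (1 - (c : ℝ) / q))) (b * M % q) := by
      intro b hb
      have hb1 := Finset.mem_Ico.1 hb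
      have hc1 : 1 ≤ b * M % q := by
        rw [Nat.one_le_iff_ne_zero]
        intro h0
        have hd : q ∣ b * M := Nat.dvd_of_mod_eq_zero h0
        have hd2 : q ∣ b := Nat.Coprime.dvd_of_dvd_mul_right hM.symm hd
        exact absurd (Nat.le_of_dvd (by omega) hd2) (by omega)
      have hc2 : b * M % q < q := Nat.mod_lt _ (by omega)
      have hee : ee ((b : ℝ) * M / q) = ee (((b * M % q : ℕ) : ℝ) / q) := by
        obtain ⟨w, hw⟩ : ∃ w : ℕ, w = b * M / q := ⟨_, rfl⟩
        apply ee_eq_of_int (w : ℤ)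
        have h3 : (b : ℝ) * M = (q : ℝ) * w + ((b * M % q : ℕ) : ℝ) := by
          have h4 : b * M = q * w + b * M % q := by
            rw [hw]
            exact (Nat.div_add_mod _ _).symm
          exact_mod_cast h4
        rw [h3, Int.cast_natCast]
        field_simp
        ring
      rw [hee]
      apply klc_geom
      · have : (0 : ℝ) < ((b * M % q : ℕ) : ℝ) := by exact_mod_cast hc1
        positivity
      · rw [div_lt_one hq0]
        exact_mod_cast hc2
    have h5 := Finset.sum_le_sum hrest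
    have h6 := klc_perm hM (fun c : ℕ => (1 / 2 : ℝ) * (1 / ((c : ℝ) / q) + 1 / (1 - (c : ℝ) / q)))
    have h7 := klc_sum hq
    rw [zero_add] at h5 ⊢
    linarith
  have hfin : ‖∑ t ∈ (range T).filter (fun t => Nat.Coprime (ρ + M * t) q),
      kf q a (ρ + M * t)‖ ≤ B * (T + q * (1 + Real.log q)) / q := by
    rw [le_div_iff₀ hq0, mul_comm]
    exact hnq
  refine hfin.trans ?_
  have h8 : B * (T + q * (1 + Real.log q)) / q = ((T : ℝ) / q + 1 + Real.log q) * B := by
    field_simp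
    ring
  rw [h8]
  apply mul_le_mul_of_nonneg_right _ hB0
  linarith

end Pool.Agent.H80.KF
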