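import Pool.Agent.H80.KF.Bas

/-!
# Definitions for the residue classes of `m₂`
-/

set_option autoImplicit false

namespace Pool.Agent.H80.KF

open Finset

/-- the smooth weight -/
noncomputable def GG (F : ℝ → ℂ) (A c1 c2 : ℝ) (m n n' : ℝ) : ℂ :=
  F (A * n) * (starRingEnd ℂ) (F (m * n)) * ((starRingEnd ℂ) (F (A * n')) * F (m * n')) *
    (ee (c1 / n) * (starRingEnd ℂ) (ee (c2 / n')))

/-- the modulus of the classes -/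
def M0 (τ τ' : ℕ × ℕ × ℤ) (s : ℕ) : ℕ :=
  Nat.lcm τ.2.2.natAbs τ'.2.2.natAbs * (s * (τ.1 * τ'.1))

/-- the sum over the class `ρ mod M₀` -/
noncomputable def CS (F : ℝ → ℂ) (η : ℤ) (N : ℕ) (τ τ' : ℕ × ℕ × ℤ) (m1 s ρ : ℕ) : ℂ :=
  ∑ t ∈ (range (2 * N + 2)).filter (fun t => ρ + M0 τ τ' s * t ∈ II N),
    gg F η N τ m1 (ρ + M0 τ τ' s * t) * (starRingEnd ℂ) (gg F η N τ' m1 (ρ + M0 τ τ' s * t))

/-- `ξ/(p₁ m₁)` with `ξ = η (p₁ - p₂)` -/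
noncomputable def cc (η : ℤ) (τ : ℕ × ℕ × ℤ) (m1 : ℕ) : ℝ :=
  ((η * ((τ.1 : ℤ) - τ.2.1) : ℤ) : ℝ) / ((τ.1 : ℝ) * m1)

/-- the product `s p₁ p₂ p₃ p₄` -/
def sp (τ τ' : ℕ × ℕ × ℤ) (s : ℕ) : ℕ := s * (τ.1 * τ.2.1 * (τ'.1 * τ'.2.1))

end Pool.Agent.H80.KF
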