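import Mathlib

/-!
# Project KF: definitions

Elliott-Halberstam beyond `x^{1/2}` for all residues outside a very small set; the tool is a bound
for bilinear forms with Kloosterman fractions (Duke-Friedlander-Iwaniec, Bettin-Chandee).
-/

set_option autoImplicit false

namespace Pool.Agent.H80.KF

open Finset

/-- `e(t) = exp(2 π i t)` -/
noncomputable def ee (t : ℝ) : ℂ := Complex.exp (2 * Real.pi * t * Complex.I)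

/-- a natural number inverse to `m` modulo `q` (if `(m, q) = 1`, `q ≥ 1`) -/
noncomputable def iv (q m : ℕ) : ℕ := ((m : ZMod q)⁻¹).val

/-- the Kloosterman fraction phase `e(a m̄ / q)` -/
noncomputable def kf (q : ℕ) (a : ℤ) (m : ℕ) : ℂ := ee ((a : ℝ) * (iv q m : ℝ) / (q : ℝ))

/-- the Kloosterman sum `∑_{x mod q, (x,q)=1} e((a x̄ + b x)/q)` -/
noncomputable def klS (q : ℕ) (a b : ℤ) : ℂ :=
  ∑ x ∈ (range q).filter (fun x => Nat.Coprime x q), ee ((b : ℝ) * x / q) * kf q a x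

/-- the number of divisors -/
def tau (n : ℕ) : ℕ := n.divisors.card

/-- the part of `m` composed of the primes dividing `B` -/
def pt (B m : ℕ) : ℕ := ∏ p ∈ m.primeFactors.filter (fun p => p ∣ B), p ^ m.factorization p

/-- the basic interval `(N, 2N+1]` -/
def II (N : ℕ) : Finset ℕ := Ioc N (2 * N + 1)

/-- the amplifier: primes in `(P, 4P]` -/
def PP (P : ℕ) : Finset ℕ := (Ioc P (4 * P)).filter Nat.Prime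

/-- `(p₁ m₁ - p₂ m₂) / r` -/
def nn (p1 p2 : ℕ) (r : ℤ) (m1 m2 : ℕ) : ℕ := (((p1 : ℤ) * m1 - (p2 : ℤ) * m2) / r).toNat

/-- `p₁ m₁ - p₂ m₂ = r n` with `n ∈ (N, 2N+1]` coprime to `p₁ m₁`, and `p₁ ≠ p₂`, `p₁ ∤ m₂`,
`p₂ ∤ m₁` -/
def Adm (N p1 p2 : ℕ) (r : ℤ) (m1 m2 : ℕ) : Prop :=
  p1 ≠ p2 ∧ ¬ p1 ∣ m2 ∧ ¬ p2 ∣ m1 ∧ r ≠ 0 ∧
    r * (nn p1 p2 r m1 m2 : ℤ) = (p1 : ℤ) * m1 - (p2 : ℤ) * m2 ∧
    nn p1 p2 r m1 m2 ∈ II N ∧ Nat.Coprime (nn p1 p2 r m1 m2) (p1 * m1)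

open Classical in
/-- the terms of the amplified sum; `τ = (p₁, p₂, r)` -/
noncomputable def gg (F : ℝ → ℂ) (η : ℤ) (N : ℕ) (τ : ℕ × ℕ × ℤ) (m1 m2 : ℕ) : ℂ :=
  if Adm N τ.1 τ.2.1 τ.2.2 m1 m2 then
    F ((m1 : ℝ) * (nn τ.1 τ.2.1 τ.2.2 m1 m2 : ℝ)) *
      (starRingEnd ℂ) (F ((m2 : ℝ) * (nn τ.1 τ.2.1 τ.2.2 m1 m2 : ℝ))) *
      kf (nn τ.1 τ.2.1 τ.2.2 m1 m2) (η * ((τ.1 : ℤ) - τ.2.1)) (τ.1 * m1)
  else 0

/-- the index set of the triples `τ` -/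
noncomputable def TT (P : ℕ) : Finset (ℕ × ℕ × ℤ) := PP P ×ˢ (PP P ×ˢ Icc (-(8 * P : ℤ)) (8 * P))

/-- the pairs of triples for which the Kloosterman fraction degenerates -/
def Diag (τ τ' : ℕ × ℕ × ℤ) : Prop := τ' = τ ∨ τ' = (τ.2.1, τ.1, -τ.2.2)

instance (τ τ' : ℕ × ℕ × ℤ) : Decidable (Diag τ τ') := by unfold Diag; infer_instance

/-- the numerator of the phase in the second Cauchy step -/
def K0 (η : ℤ) (τ τ' : ℕ × ℕ × ℤ) : ℤ :=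
  η * (((τ.1 : ℤ) - τ.2.1) * τ.2.2 * τ'.1 * τ'.2.1 -
    ((τ'.1 : ℤ) - τ'.2.1) * τ'.2.2 * τ.1 * τ.2.1)

/-- `|K₀ r r'| p₁ p₂ p₃ p₄` -/
def B0 (η : ℤ) (τ τ' : ℕ × ℕ × ℤ) : ℕ :=
  (K0 η τ τ').natAbs * (τ.2.2.natAbs * τ'.2.2.natAbs) * (τ.1 * τ.2.1 * (τ'.1 * τ'.2.1))

/-- the amplified sum -/
noncomputable def UU (F : ℝ → ℂ) (η : ℤ) (N P : ℕ) (α : ℕ → ℂ) : ℂ :=
  ∑ m1 ∈ II N, ∑ m2 ∈ II N, α m1 * (starRingEnd ℂ) (α m2) *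
    ∑ τ ∈ TT P, gg F η N τ m1 m2

/-- the off-diagonal part of the second Cauchy step -/
noncomputable def OO (F : ℝ → ℂ) (η : ℤ) (N P : ℕ) : ℝ :=
  ∑ t ∈ (TT P ×ˢ TT P).filter (fun t => ¬ Diag t.1 t.2), ∑ m1 ∈ II N,
    ‖∑ m2 ∈ II N, gg F η N t.1 m1 m2 * (starRingEnd ℂ) (gg F η N t.2 m1 m2)‖

/-- `F` is bounded by one and Lipschitz on the scale `N²` -/
def Wt (N : ℕ) (F : ℝ → ℂ) : Prop :=
  (∀ y, ‖F y‖ ≤ 1) ∧ ∀ y z : ℝ, (N : ℝ) ^ 2 ≤ y → y ≤ 9 * (N : ℝ) ^ 2 → (N : ℝ) ^ 2 ≤ z →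
    z ≤ 9 * (N : ℝ) ^ 2 → ‖F y - F z‖ ≤ 40 / (N : ℝ) ^ 2 * |y - z|

/-! ### The Gram matrix -/

/-- the Ramanujan sum `c_r(n)` for an integer `n` -/
noncomputable def ram (r : ℕ) (n : ℤ) : ℝ :=
  ∑ d ∈ r.divisors.filter (fun d : ℕ => (d : ℤ) ∣ n), (d : ℝ) * (ArithmeticFunction.moebius (r / d) : ℝ)

/-- the indicator of `n ≡ a mod q` without the frequencies of denominator `≤ R` -/
noncomputable def uu (R q : ℕ) (a n : ℤ) : ℝ :=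
  (if (q : ℤ) ∣ n - a then 1 else 0) -
    (1 / (q : ℝ)) * ∑ r ∈ q.divisors.filter (fun r => r ≤ R), ram r (n - a)

/-- the Fejér weight modulo `2 x J` -/
noncomputable def ww (x J : ℕ) (n : ℤ) : ℝ :=
  Real.pi ^ 2 / 4 / (J : ℝ) ^ 2 * ‖∑ j ∈ range J, ee ((j : ℝ) * n / (2 * x * J))‖ ^ 2

/-- representatives modulo `2 x J` -/
noncomputable def RW (x J : ℕ) : Finset ℤ := Ico (-(x * J : ℤ)) (x * J)

/-- `∑_l (1 - 2 x |l| / m)⁺ e(l c / m)` -/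
noncomputable def fej (x m : ℕ) (c : ℤ) : ℂ :=
  ∑ l ∈ Icc (-(m : ℤ)) m, ((max 0 (1 - 2 * x * |(l : ℝ)| / m) : ℝ) : ℂ) * ee ((l : ℝ) * c / m)

/-- the linear form `∑_{Q < q ≤ 2Q} c_q u_{a,q}(n)` -/
noncomputable def SS (R Q : ℕ) (c : ℕ → ℝ) (a n : ℤ) : ℝ := ∑ q ∈ Ioc Q (2 * Q), c q * uu R q a n

end Pool.Agent.H80.KF
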