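import Pool.Agent.H80.KF.Blk

/-!
# All moduli, a small set of residues

The moduli `2 ≤ q ≤ x^{101/200}` lie in the blocks `(2^j, 2^{j+1}]` with `2^j ≤ x^{101/200}`: at most
`log_2 (x^{101/200}) + 1 ≤ log x` blocks (`x` large); `err y 1 a = 0`
(`ext_err_one`, `ext_dyadic` with `F q = ∑_{a ∈ A, (a,q)=1} |err y q a|`).  `blk (c+1)` for each.
-/

set_option autoImplicit false

namespace Pool.Agent.H80.KF

open Finset
open Pool.Agent.H91.EHA (err)

/-- the sum of the errors at `y` of the residue `a` over the moduli up to `x^{101/200}` -/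
noncomputable def EE (x y : ℕ) (a : ℤ) : ℝ :=
  ∑ q ∈ (Icc 1 ⌊(x : ℝ) ^ ((101 : ℝ) / 200)⌋₊).filter (fun q : ℕ => IsCoprime a (q : ℤ)),
    |err y q (a : ZMod q)|

open Classical in
private theorem DyS_swap (x : ℕ) (A : Finset ℤ) (T : Finset ℕ) :
    ∑ a ∈ A, ∑ q ∈ T.filter (fun q : ℕ => IsCoprime a (q : ℤ)), |err x q (a : ZMod q)| =
      ∑ q ∈ T, ∑ a ∈ A, (if IsCoprime a (q : ℤ) then |err x q (a : ZMod q)| else 0) := by
  rw [sum_comm]
  refine sum_congr rfl fun a _ => ?_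
  rw [sum_filter]

theorem dysum (c : ℕ) : ∃ x0 : ℕ, ∀ x : ℕ, x0 ≤ x → ∀ A : Finset ℤ, (∀ a ∈ A, |a| ≤ x) →
    (∀ a ∈ A, ∀ a' ∈ A, |a' - a| ≤ x) → (A.card : ℝ) ≤ (x : ℝ) ^ ((1 : ℝ) / 40000) →
    ∀ y : ℕ, y ≤ x → ∑ a ∈ A, EE x y a ≤
      Real.sqrt A.card * x * Real.log x ^ 4 / 4 + A.card * x / Real.log x ^ c := by
  classical
  obtain ⟨x1, h1⟩ := blk (c + 1)
  refine ⟨max x1 (max 1 ⌈Real.exp 4⌉₊), fun x hx A hA hA' hcard y hy => ?_⟩
  have hx1 : x1 ≤ x := (le_max_left _ _).trans hx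
  have hx2 : 1 ≤ x := (le_max_left _ _).trans ((le_max_right _ _).trans hx)
  have hx3 : ⌈Real.exp 4⌉₊ ≤ x := (le_max_right _ _).trans ((le_max_right _ _).trans hx)
  have hx4 : Real.exp 4 ≤ x := (Nat.le_ceil _).trans (by exact_mod_cast hx3)
  have hxpos : (0 : ℝ) < x := by exact_mod_cast hx2
  have hxone : (1 : ℝ) ≤ x := by exact_mod_cast hx2
  set L := Real.log x with hL
  have hL4 : 4 ≤ L := by
    rw [hL, Real.le_log_iff_exp_le hxpos]
    exact hx4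
  have hLpos : 0 < L := by linarith
  set M := ⌊(x : ℝ) ^ ((101 : ℝ) / 200)⌋₊ with hM
  have hMr : (M : ℝ) ≤ (x : ℝ) ^ ((101 : ℝ) / 200) := Nat.floor_le (by positivity)
  have hM1 : 1 ≤ M := by
    rw [hM, Nat.one_le_floor_iff]
    exact Real.one_le_rpow hxone (by norm_num)
  set J := Nat.log 2 M + 1 with hJ
  have hMJ : M < 2 ^ J := Nat.lt_pow_succ_log_self (by norm_num) M
  have hJL : (J : ℝ) ≤ L := by
    have e1 : 2 ^ (Nat.log 2 M) ≤ M := Nat.pow_log_le_self 2 (by omega)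
    have e2 : ((2 : ℝ)) ^ (Nat.log 2 M) ≤ (x : ℝ) ^ ((101 : ℝ) / 200) :=
      le_trans (by exact_mod_cast e1) hMr
    have e3 := Real.log_le_log (by positivity) e2
    rw [Real.log_pow, Real.log_rpow hxpos, ← hL] at e3
    have e4 : (0.6931471803 : ℝ) < Real.log 2 := Real.log_two_gt_d9
    have e5 : (0 : ℝ) ≤ (Nat.log 2 M : ℕ) := Nat.cast_nonneg _
    rw [hJ]
    push_cast
    nlinarith
  set b : ℝ := Real.sqrt A.card * x * L ^ 3 / 4 + A.card * x / L ^ (c + 1) with hb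
  have hb0 : 0 ≤ b := by positivity
  have hsw : ∑ a ∈ A, EE x y a = ∑ q ∈ Icc 1 M,
      ∑ a ∈ A, (if IsCoprime a (q : ℤ) then |err y q (a : ZMod q)| else 0) := by
    rw [← DyS_swap y A (Icc 1 M)]
    rfl
  rw [hsw]
  have hblock : ∀ j : ℕ, j < J → 2 ^ j ≤ M → ∑ q ∈ Ioc ((2 : ℕ) ^ j) (2 * (2 : ℕ) ^ j),
      (∑ a ∈ A, (if IsCoprime a (q : ℤ) then |err y q (a : ZMod q)| else 0)) ≤ b := by
    intro j _ hjM
    rw [← DyS_swap y A (Ioc (2 ^ j) (2 * 2 ^ j))]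
    exact h1 x (2 ^ j) hx1 Nat.one_le_two_pow (le_trans (by exact_mod_cast hjM) hMr) A hA hA' hcard y hy
  have key := ext_dyadic
    (fun q => ∑ a ∈ A, (if IsCoprime a (q : ℤ) then |err y q (a : ZMod q)| else 0))
    (fun q => sum_nonneg fun a _ => by split_ifs <;> positivity) M J hMJ
    (sum_eq_zero fun a _ => by
      split_ifs
      · rw [ext_err_one, abs_zero]
      · rfl) b hb0 hblock
  refine key.trans ((mul_le_mul_of_nonneg_right hJL hb0).trans (le_of_eq ?_))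
  rw [hb]
  have hLc : L ^ (c + 1) = L * L ^ c := by ring
  have hL0 : L ≠ 0 := hLpos.ne'
  have hLc0 : L ^ c ≠ 0 := pow_ne_zero _ hL0
  rw [hLc]
  field_simp

end Pool.Agent.H80.KF
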