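import Pool.Agent.H80.KF.DyS
import Pool.Agent.H80.KF.Chk

/-!
# Every set of residues, and the exceptional residues

`L = log x`.  One-sided sets (`|a' - a| ≤ x`): `K' = ⌈L^{2c+12}⌉`; if `#A ≤ K'` use `dysum (c+1)`;
otherwise `chunk` with `M = √K' x L⁴/4 + K' x/L^{c+1}`:
`≤ (2#A/K') M ≤ 2 #A x (L⁴/(4 √K') + 1/L^{c+1}) ≤ #A x/(2 L^c)`.
`few_set`: the nonnegative and the negative elements of `A` separately.
`few_exc`: for the set `E`, `#E x/L^c ≤ √#E x L⁴ + #E x/L^{c+1}`, so `√#E (1 - 1/L) ≤ L^{c+4}`.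
-/

set_option autoImplicit false

namespace Pool.Agent.H80.KF

open Finset
open Pool.Agent.H91.EHA (err)

private lemma few_ev (c : ℕ) : ∃ x0 : ℕ, ∀ x : ℕ, x0 ≤ x → 5 ≤ Real.log x ∧ 1 ≤ x ∧
    (⌈Real.log x ^ (2 * c + 12)⌉₊ : ℝ) ≤ (x : ℝ) ^ ((1 : ℝ) / 40000) := by
  have h1 : ∀ᶠ x : ℝ in Filter.atTop, 5 ≤ Real.log x :=
    Real.tendsto_log_atTop.eventually_ge_atTop 5
  have h2 := (isLittleO_log_rpow_rpow_atTop (((2 * c + 12 : ℕ) : ℝ))
    (by norm_num : (0 : ℝ) < (1 : ℝ) / 40000)).bound (by norm_num : (0 : ℝ) < 1 / 2)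
  have h3 := tendsto_natCast_atTop_atTop.eventually (h1.and h2)
  obtain ⟨x0, hx0⟩ := Filter.eventually_atTop.1 h3
  refine ⟨max x0 1, fun x hx => ?_⟩
  obtain ⟨h4, h5⟩ := hx0 x ((le_max_left _ _).trans hx)
  refine ⟨h4, (le_max_right _ _).trans hx, ?_⟩
  rw [Real.rpow_natCast] at h5
  have hL : 0 ≤ Real.log x := by linarith
  have h6 : (0 : ℝ) ≤ Real.log x ^ (2 * c + 12) := by positivity
  have h7 : (0 : ℝ) ≤ (x : ℝ) ^ ((1 : ℝ) / 40000) := by positivity
  rw [Real.norm_of_nonneg h6, Real.norm_of_nonneg h7] at h5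
  have h8 : (1 : ℝ) ≤ Real.log x ^ (2 * c + 12) := one_le_pow₀ (by linarith)
  have h9 := Nat.ceil_lt_add_one h6
  linarith

theorem few_one (c : ℕ) : ∃ x0 : ℕ, ∀ x : ℕ, x0 ≤ x → ∀ A : Finset ℤ, (∀ a ∈ A, |a| ≤ x) →
    (∀ a ∈ A, ∀ a' ∈ A, |a' - a| ≤ x) → ∀ y : ℕ, y ≤ x →
    ∑ a ∈ A, EE x y a ≤
      Real.sqrt A.card * x * Real.log x ^ 4 / 4 + A.card * x / (2 * Real.log x ^ c) := by
  obtain ⟨x1, h1⟩ := dysum (c + 1)
  obtain ⟨x2, h2⟩ := few_ev c
  refine ⟨max x1 x2, fun x hx A hA hA' y hy => ?_⟩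
  obtain ⟨hL5, hx1, hK⟩ := h2 x ((le_max_right _ _).trans hx)
  have h1' := h1 x ((le_max_left _ _).trans hx)
  set L := Real.log x with hLdef
  set K := ⌈L ^ (2 * c + 12)⌉₊ with hKdef
  have hL0 : 0 < L := by linarith
  have hxr : (0 : ℝ) < x := by exact_mod_cast hx1
  have hKge : L ^ (2 * c + 12) ≤ K := Nat.le_ceil _
  have hLp : (1 : ℝ) ≤ L ^ (2 * c + 12) := one_le_pow₀ (by linarith)
  have hK0 : (0 : ℝ) < K := by linarith
  have hK1 : 1 ≤ K := by exact_mod_cast hK0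
  have hsK : L ^ (c + 6) ≤ Real.sqrt K := by
    apply Real.le_sqrt_of_sq_le
    rw [← pow_mul]
    have e1 : (c + 6) * 2 = 2 * c + 12 := by ring
    rw [e1]
    exact hKge
  by_cases hcase : A.card ≤ K
  · have h3 := h1' A hA hA' (le_trans (by exact_mod_cast hcase) hK) y hy
    refine h3.trans ?_
    have h4 : (A.card : ℝ) * x / L ^ (c + 1) ≤ A.card * x / (2 * L ^ c) := by
      apply div_le_div_of_nonneg_left (by positivity) (by positivity)
      rw [pow_succ]
      nlinarith only [hL5, pow_pos hL0 c]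
    linarith only [h4]
  · push Not at hcase
    have hcase' : (K : ℝ) ≤ A.card := by exact_mod_cast hcase.le
    set M : ℝ := Real.sqrt K * x * L ^ 4 / 4 + K * x / L ^ (c + 1) with hM
    have hM0 : 0 ≤ M := by positivity
    have h3 := chunk (EE x y) A K hK1 M hM0 (by
      intro B hB hBc
      have hBc' : (B.card : ℝ) ≤ K := by exact_mod_cast hBc
      have h5 := h1' B (fun a ha => hA a (hB ha)) (fun a ha a' ha' => hA' a (hB ha) a' (hB ha'))
        (hBc'.trans hK) y hy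
      refine h5.trans ?_
      have h6 : Real.sqrt B.card ≤ Real.sqrt K := Real.sqrt_le_sqrt hBc'
      rw [hM]
      gcongr)
    refine h3.trans ?_
    have h7 : ((A.card : ℝ) / K + 1) * M ≤ (2 * ((A.card : ℝ) / K)) * M := by
      apply mul_le_mul_of_nonneg_right _ hM0
      have : (1 : ℝ) ≤ (A.card : ℝ) / K := by
        rw [le_div_iff₀ hK0, one_mul]
        exact hcase'
      linarith only [this]
    refine h7.trans ?_
    have hsK0 : 0 < Real.sqrt K := Real.sqrt_pos.2 hK0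
    have hsq : Real.sqrt K * Real.sqrt K = K := Real.mul_self_sqrt hK0.le
    have h8 : 2 * ((A.card : ℝ) / K) * M =
        A.card * x * (L ^ 4 / (2 * Real.sqrt K) + 2 / L ^ (c + 1)) := by
      rw [hM]
      have e1 : (A.card : ℝ) / K = A.card / (Real.sqrt K * Real.sqrt K) := by rw [hsq]
      have e2 : (2 : ℝ) * ((A.card : ℝ) / K) * (Real.sqrt K * x * L ^ 4 / 4 + K * x / L ^ (c + 1)) =
          2 * ((A.card : ℝ) / K) * (Real.sqrt K * x * L ^ 4 / 4) +
            2 * ((A.card : ℝ) / K) * (K * x / L ^ (c + 1)) := by ring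
      rw [e2]
      have e3 : 2 * ((A.card : ℝ) / K) * (K * x / L ^ (c + 1)) = A.card * x * (2 / L ^ (c + 1)) := by
        field_simp
      have e4 : 2 * ((A.card : ℝ) / K) * (Real.sqrt K * x * L ^ 4 / 4) =
          A.card * x * (L ^ 4 / (2 * Real.sqrt K)) := by
        rw [e1]
        field_simp
        ring
      rw [e3, e4]
      ring
    rw [h8]
    have h9 : L ^ 4 / (2 * Real.sqrt K) + 2 / L ^ (c + 1) ≤ 1 / (2 * L ^ c) := by
      have e1 : L ^ 4 / (2 * Real.sqrt K) ≤ L ^ 4 / (2 * L ^ (c + 6)) := by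
        apply div_le_div_of_nonneg_left (by positivity) (by positivity)
        linarith
      have e2 : L ^ 4 / (2 * L ^ (c + 6)) = 1 / (2 * L ^ c) * (1 / L ^ 2) := by
        field_simp
        ring
      have e3 : 2 / L ^ (c + 1) = 1 / (2 * L ^ c) * (4 / L) := by
        field_simp
        ring
      have e4 : 1 / L ^ 2 + 4 / L ≤ 1 := by
        have f1 : 1 / L ≤ 1 / 5 := one_div_le_one_div_of_le (by norm_num) hL5
        have f2 : 1 / L ^ 2 = 1 / L * (1 / L) := by field_simp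
        have f3 : 4 / L = 4 * (1 / L) := by ring
        have f4 : 0 < 1 / L := by positivity
        rw [f2, f3]
        nlinarith only [f1, f4]
      have e5 : 0 < 1 / (2 * L ^ c) := by positivity
      calc L ^ 4 / (2 * Real.sqrt K) + 2 / L ^ (c + 1)
          ≤ 1 / (2 * L ^ c) * (1 / L ^ 2) + 1 / (2 * L ^ c) * (4 / L) := by rw [← e2, ← e3]; linarith only [e1]
        _ = 1 / (2 * L ^ c) * (1 / L ^ 2 + 4 / L) := by ring
        _ ≤ 1 / (2 * L ^ c) * 1 := mul_le_mul_of_nonneg_left e4 e5.le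
        _ = 1 / (2 * L ^ c) := mul_one _
    have h10 : (A.card : ℝ) * x * (L ^ 4 / (2 * Real.sqrt K) + 2 / L ^ (c + 1)) ≤
        A.card * x * (1 / (2 * L ^ c)) := mul_le_mul_of_nonneg_left h9 (by positivity)
    have h11 : (A.card : ℝ) * x * (1 / (2 * L ^ c)) = A.card * x / (2 * L ^ c) := by ring
    have h12 : 0 ≤ Real.sqrt A.card * x * L ^ 4 / 4 := by positivity
    linarith only [h10, h11, h12]

theorem few_set (c : ℕ) : ∃ x0 : ℕ, ∀ x : ℕ, x0 ≤ x → ∀ A : Finset ℤ, (∀ a ∈ A, |a| ≤ x) →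
    ∀ y : ℕ, y ≤ x →
    ∑ a ∈ A, EE x y a ≤ Real.sqrt A.card * x * Real.log x ^ 4 + A.card * x / Real.log x ^ c := by
  obtain ⟨x1, h1⟩ := few_one c
  obtain ⟨x2, h2⟩ := few_ev c
  refine ⟨max x1 x2, fun x hx A hA y hy => ?_⟩
  obtain ⟨hL5, hx1, -⟩ := h2 x ((le_max_right _ _).trans hx)
  have h1' := h1 x ((le_max_left _ _).trans hx)
  set L := Real.log x with hLdef
  have hL0 : 0 < L := by linarith
  have hxr : (0 : ℝ) < x := by exact_mod_cast hx1
  set B := A.filter (fun a => 0 ≤ a) with hB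
  set C := A.filter (fun a => ¬ 0 ≤ a) with hC
  have hBA : B ⊆ A := filter_subset _ _
  have hCA : C ⊆ A := filter_subset _ _
  have hcard : B.card + C.card = A.card := card_filter_add_card_filter_not _
  have hcard' : (B.card : ℝ) + C.card = A.card := by exact_mod_cast hcard
  have hb := h1' B (fun a ha => hA a (hBA ha)) (by
    intro a ha a' ha'
    have e1 := hA a (hBA ha)
    have e2 := hA a' (hBA ha')
    have e3 : 0 ≤ a := (mem_filter.1 ha).2
    have e4 : 0 ≤ a' := (mem_filter.1 ha').2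
    rw [abs_le] at *
    constructor <;> linarith [e1.2, e2.2]) y hy
  have hc := h1' C (fun a ha => hA a (hCA ha)) (by
    intro a ha a' ha'
    have e1 := hA a (hCA ha)
    have e2 := hA a' (hCA ha')
    have e3 : a < 0 := not_le.1 (mem_filter.1 ha).2
    have e4 : a' < 0 := not_le.1 (mem_filter.1 ha').2
    rw [abs_le] at *
    constructor <;> linarith [e1.1, e2.1]) y hy
  have hsum : ∑ a ∈ A, EE x y a = ∑ a ∈ B, EE x y a + ∑ a ∈ C, EE x y a :=
    (sum_filter_add_sum_filter_not A _ _).symm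
  have hsB : Real.sqrt B.card ≤ Real.sqrt A.card :=
    Real.sqrt_le_sqrt (by exact_mod_cast card_le_card hBA)
  have hsC : Real.sqrt C.card ≤ Real.sqrt A.card :=
    Real.sqrt_le_sqrt (by exact_mod_cast card_le_card hCA)
  have hxL : 0 < (x : ℝ) * L ^ 4 := by positivity
  have g1 : Real.sqrt B.card * x * L ^ 4 / 4 ≤ Real.sqrt A.card * x * L ^ 4 / 4 := by gcongr
  have g2 : Real.sqrt C.card * x * L ^ 4 / 4 ≤ Real.sqrt A.card * x * L ^ 4 / 4 := by gcongr
  have g3 : 0 ≤ Real.sqrt A.card * x * L ^ 4 := by positivity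
  have g4 : (B.card : ℝ) * x / (2 * L ^ c) + C.card * x / (2 * L ^ c) = A.card * x / L ^ c / 2 := by
    rw [← hcard']
    field_simp
  have g5 : 0 ≤ (A.card : ℝ) * x / L ^ c := by positivity
  rw [hsum]
  linarith only [hb, hc, g1, g2, g3, g4, g5]

theorem few_exc (c : ℕ) : ∃ x0 : ℕ, ∀ x : ℕ, x0 ≤ x → ∀ A : Finset ℤ, (∀ a ∈ A, |a| ≤ x) →
    (∀ a ∈ A, x / Real.log x ^ c < EE x x a) → (A.card : ℝ) ≤ Real.log x ^ (2 * c + 9) := by
  obtain ⟨x1, h1⟩ := few_set (c + 1)
  obtain ⟨x2, h2⟩ := few_ev c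
  refine ⟨max x1 x2, fun x hx A hA hAE => ?_⟩
  obtain ⟨hL5, hx1, -⟩ := h2 x ((le_max_right _ _).trans hx)
  have h3 := h1 x ((le_max_left _ _).trans hx) A hA x le_rfl
  set L := Real.log x with hLdef
  have hL0 : 0 < L := by linarith
  have hxr : (0 : ℝ) < x := by exact_mod_cast hx1
  have h4 : (A.card : ℝ) * (x / L ^ c) ≤ ∑ a ∈ A, EE x x a := by
    rw [← nsmul_eq_mul]
    exact card_nsmul_le_sum A _ _ fun a ha => (hAE a ha).le
  have h5 := h4.trans h3
  set t := Real.sqrt A.card with ht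
  have ht0 : 0 ≤ t := Real.sqrt_nonneg _
  have htt : t * t = A.card := Real.mul_self_sqrt (Nat.cast_nonneg _)
  rw [← htt] at h5 ⊢
  have h6 : t * t * L ≤ t * L ^ (c + 5) + t * t := by
    have e1 : t * t * (x / L ^ c) * (L ^ (c + 1) / x) = t * t * L := by
      field_simp
      ring
    have e2 : (t * x * L ^ 4 + t * t * x / L ^ (c + 1)) * (L ^ (c + 1) / x) =
        t * L ^ (c + 5) + t * t := by
      field_simp
      ring
    have e3 : 0 ≤ L ^ (c + 1) / x := by positivity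
    have e4 := mul_le_mul_of_nonneg_right h5 e3
    rw [e1, e2] at e4
    exact e4
  rcases ht0.eq_or_lt with h0 | h0
  · rw [← h0]
    have : 0 < L ^ (2 * c + 9) := by positivity
    linarith
  · have h7 : t * (L - 1) ≤ L ^ (c + 5) := by
      have e1 : t * (t * (L - 1)) ≤ t * L ^ (c + 5) := by nlinarith only [h6]
      exact le_of_mul_le_mul_left e1 h0
    have h8 : 0 < t * (L - 1) := mul_pos h0 (by linarith)
    have h9 : (t * (L - 1)) * (t * (L - 1)) ≤ L ^ (c + 5) * L ^ (c + 5) :=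
      mul_le_mul h7 h7 h8.le (by positivity)
    have h10 : L ^ (c + 5) * L ^ (c + 5) = L ^ (2 * c + 9) * L := by
      rw [← pow_add, ← pow_succ]
      congr 1
      ring
    have h11 : L ≤ (L - 1) * (L - 1) := by nlinarith only [hL5]
    have h12 : t * t * L ≤ L ^ (2 * c + 9) * L := by
      calc t * t * L ≤ t * t * ((L - 1) * (L - 1)) :=
            mul_le_mul_of_nonneg_left h11 (by positivity)
        _ = (t * (L - 1)) * (t * (L - 1)) := by ring
        _ ≤ L ^ (2 * c + 9) * L := by rw [← h10]; exact h9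
    exact le_of_mul_le_mul_right h12 hL0

end Pool.Agent.H80.KF
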