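import Pool.Agent.H80.KF.Defs

/-!
# The counting behind the fourth moment of Kloosterman sums

Count of `x₁ + x₂ = x₃ + x₄`, `x₁⁻¹ + x₂⁻¹ = x₃⁻¹ + x₄⁻¹` in the units of `ZMod q`.
Put `s = x₁ + x₂`; multiplying the second equation by `x₁x₂x₃x₄` gives `s (x₃x₄ - x₁x₂) = 0`, and
`x₃x₄ - x₁x₂ = x₃(s - x₃) - x₁x₂ = -(x₃ - x₁)(x₃ - x₂)`.  So `A B C = 0` with `A = x₁ + x₂`,
`B = x₃ - x₁`, `C = x₃ - x₂` in `ZMod q`; `x₄ = x₁ + x₂ - x₃` is determined, and
`(x₁,x₂,x₃) ↦ (A,B,C)` is at most 2-to-1 (two preimages differ by `δ(1,1,1)`, `2δ = 0`).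
Finally `#{(A,B,C) mod q : ABC = 0} ≤ ∑_{d₁d₂d₃ = q} (q/d₁)(q/d₂)(q/d₃) = q² #{(d₁,d₂,d₃)} ≤ q² τ(q)²`:
if `q ∣ A B C` take `d₁ = (A,q)`, `d₂ = (B, q/d₁)`, `d₃ = q/(d₁d₂)`; then `d₃ ∣ C`.
-/

set_option autoImplicit false

namespace Pool.Agent.H80.KF

open Finset

private theorem kla_dvd {n x y : ℕ} (hn : 0 < n) (h : n ∣ x * y) : n / Nat.gcd x n ∣ y := by
  have hg : 0 < Nat.gcd x n := Nat.gcd_pos_of_pos_right _ hn
  have hc := Nat.coprime_div_gcd_div_gcd hg
  obtain ⟨a, ha⟩ := Nat.gcd_dvd_left x n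
  obtain ⟨b, hb⟩ := Nat.gcd_dvd_right x n
  set g := Nat.gcd x n with hgdef
  have hxa : x / g = a := Nat.div_eq_of_eq_mul_right hg ha
  have hnb : n / g = b := Nat.div_eq_of_eq_mul_right hg hb
  rw [hxa, hnb] at hc
  rw [hnb]
  rw [ha, hb, mul_assoc] at h
  have h2 : b ∣ a * y := Nat.dvd_of_mul_dvd_mul_left hg h
  exact hc.symm.dvd_of_dvd_mul_left h2

private theorem kla_mult (q : ℕ) [NeZero q] (d : ℕ) (hd : d ∣ q) :
    (univ.filter (fun A : ZMod q => d ∣ A.val)).card ≤ q / d := by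
  have hq : 0 < q := Nat.pos_of_ne_zero (NeZero.ne q)
  have hd0 : 0 < d := Nat.pos_of_dvd_of_pos hd hq
  rw [← card_range (q / d)]
  apply Finset.card_le_card_of_injOn (fun A => A.val / d)
  · intro A hA
    rw [Finset.mem_coe, mem_filter] at hA
    rw [Finset.mem_coe, mem_range]
    obtain ⟨k, hk⟩ := hA.2
    obtain ⟨l, hl⟩ := hd
    have h1 : A.val < q := ZMod.val_lt A
    show A.val / d < q / d
    rw [hk, Nat.mul_div_cancel_left _ hd0]
    have h2 : q / d = l := Nat.div_eq_of_eq_mul_right hd0 hl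
    rw [h2]
    rw [hk, hl] at h1
    exact lt_of_mul_lt_mul_left h1 (Nat.zero_le _)
  · intro A hA B hB h
    rw [Finset.mem_coe, mem_filter] at hA hB
    have h' : A.val / d = B.val / d := h
    apply ZMod.val_injective q
    rw [← Nat.div_mul_cancel hA.2, ← Nat.div_mul_cancel hB.2, h']

theorem abc_count (q : ℕ) [NeZero q] :
    ((univ.filter (fun x : ZMod q × ZMod q × ZMod q => x.1 * x.2.1 * x.2.2 = 0)).card : ℕ)
      ≤ q ^ 2 * tau q ^ 2 := by
  classical
  have hq : 0 < q := Nat.pos_of_ne_zero (NeZero.ne q)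
  set F : ℕ → Finset (ZMod q) := fun d => univ.filter (fun A : ZMod q => d ∣ A.val) with hF
  set D : Finset (ℕ × ℕ) := (q.divisors ×ˢ q.divisors).filter (fun d => d.1 * d.2 ∣ q) with hD
  have hsub : (univ.filter (fun x : ZMod q × ZMod q × ZMod q => x.1 * x.2.1 * x.2.2 = 0)) ⊆
      D.biUnion (fun d => F d.1 ×ˢ (F d.2 ×ˢ F (q / (d.1 * d.2)))) := by
    intro x hx
    rw [mem_filter] at hx
    have h1 : q ∣ x.1.val * x.2.1.val * x.2.2.val := by
      rw [← ZMod.natCast_eq_zero_iff]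
      push_cast
      rw [ZMod.natCast_zmod_val, ZMod.natCast_zmod_val, ZMod.natCast_zmod_val]
      exact hx.2
    rw [mul_assoc] at h1
    have h2 := kla_dvd hq h1
    set d1 := Nat.gcd x.1.val q with hd1
    have hd1q : d1 ∣ q := Nat.gcd_dvd_right _ _
    have hd10 : 0 < d1 := Nat.gcd_pos_of_pos_right _ hq
    have hn1 : 0 < q / d1 := Nat.div_pos (Nat.le_of_dvd hq hd1q) hd10
    have h3 := kla_dvd hn1 h2
    set d2 := Nat.gcd x.2.1.val (q / d1) with hd2
    have hd2q : d2 ∣ q / d1 := Nat.gcd_dvd_right _ _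
    have hmul : d1 * d2 ∣ q := by
      obtain ⟨k, hk⟩ := hd2q
      refine ⟨k, ?_⟩
      rw [mul_assoc, ← hk, Nat.mul_div_cancel' hd1q]
    rw [mem_biUnion]
    refine ⟨(d1, d2), ?_, ?_⟩
    · rw [hD, mem_filter, mem_product]
      refine ⟨⟨Nat.mem_divisors.2 ⟨hd1q, hq.ne'⟩, Nat.mem_divisors.2 ⟨?_, hq.ne'⟩⟩, hmul⟩
      exact hd2q.trans (Nat.div_dvd_of_dvd hd1q)
    · rw [mem_product, mem_product]
      refine ⟨?_, ?_, ?_⟩
      · rw [hF, mem_filter]
        exact ⟨mem_univ _, Nat.gcd_dvd_left _ _⟩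
      · rw [hF, mem_filter]
        exact ⟨mem_univ _, Nat.gcd_dvd_left _ _⟩
      · rw [hF, mem_filter]
        refine ⟨mem_univ _, ?_⟩
        show q / (d1 * d2) ∣ x.2.2.val
        rw [← Nat.div_div_eq_div_mul]
        exact h3
  refine (Finset.card_le_card hsub).trans ?_
  refine Finset.card_biUnion_le.trans ?_
  have hterm : ∀ d ∈ D, (F d.1 ×ˢ (F d.2 ×ˢ F (q / (d.1 * d.2)))).card ≤ q ^ 2 := by
    intro d hd
    rw [hD, mem_filter, mem_product] at hd
    obtain ⟨⟨h1, h2⟩, h3⟩ := hd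
    have h1' := Nat.dvd_of_mem_divisors h1
    have h2' := Nat.dvd_of_mem_divisors h2
    have h3' : q / (d.1 * d.2) ∣ q := Nat.div_dvd_of_dvd h3
    rw [card_product, card_product]
    have e3 : q / (q / (d.1 * d.2)) = d.1 * d.2 := Nat.div_div_self h3 hq.ne'
    calc (F d.1).card * ((F d.2).card * (F (q / (d.1 * d.2))).card)
        ≤ (q / d.1) * ((q / d.2) * (q / (q / (d.1 * d.2)))) :=
          Nat.mul_le_mul (kla_mult q _ h1') (Nat.mul_le_mul (kla_mult q _ h2') (kla_mult q _ h3'))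
      _ = ((q / d.1) * d.1) * ((q / d.2) * d.2) := by rw [e3]; ring
      _ = q ^ 2 := by rw [Nat.div_mul_cancel h1', Nat.div_mul_cancel h2']; ring
  calc ∑ d ∈ D, (F d.1 ×ˢ (F d.2 ×ˢ F (q / (d.1 * d.2)))).card ≤ ∑ d ∈ D, q ^ 2 :=
        Finset.sum_le_sum hterm
    _ = D.card * q ^ 2 := by rw [sum_const, smul_eq_mul]
    _ ≤ (tau q * tau q) * q ^ 2 := by
        apply Nat.mul_le_mul_right
        rw [hD]
        refine (Finset.card_filter_le _ _).trans ?_
        rw [card_product]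
        exact le_rfl
    _ = q ^ 2 * tau q ^ 2 := by ring

private theorem kla_two (q : ℕ) [NeZero q] (c : ZMod q) (y : ZMod q) (hy : y + y = c) :
    y = ((c.val / 2 : ℕ) : ZMod q) ∨ y = (((c.val + q) / 2 : ℕ) : ZMod q) := by
  have hq : 0 < q := Nat.pos_of_ne_zero (NeZero.ne q)
  have h1 : (y.val + y.val) % q = c.val := by
    rw [← hy, ZMod.val_add]
  have h2 : y.val < q := ZMod.val_lt y
  have h3 : ((y.val : ℕ) : ZMod q) = y := ZMod.natCast_zmod_val y
  by_cases h : y.val + y.val < q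
  · left
    rw [Nat.mod_eq_of_lt h] at h1
    rw [← h3]
    congr 1
    omega
  · right
    have h4 : (y.val + y.val) % q = y.val + y.val - q := by
      rw [Nat.mod_eq_sub_mod (by omega), Nat.mod_eq_of_lt (by omega)]
    rw [h4] at h1
    rw [← h3]
    congr 1
    omega

theorem kl_count (q : ℕ) [NeZero q] :
    (univ.filter (fun x : (ZMod q)ˣ × (ZMod q)ˣ × (ZMod q)ˣ × (ZMod q)ˣ =>
      ((x.1 : ZMod q) + x.2.1 = x.2.2.1 + x.2.2.2) ∧
      (((x.1⁻¹ : (ZMod q)ˣ) : ZMod q) + ((x.2.1⁻¹ : (ZMod q)ˣ) : ZMod q) =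
        ((x.2.2.1⁻¹ : (ZMod q)ˣ) : ZMod q) + ((x.2.2.2⁻¹ : (ZMod q)ˣ) : ZMod q)))).card
      ≤ 2 * q ^ 2 * tau q ^ 2 := by
  classical
  set S := (univ.filter (fun x : (ZMod q)ˣ × (ZMod q)ˣ × (ZMod q)ˣ × (ZMod q)ˣ =>
      ((x.1 : ZMod q) + x.2.1 = x.2.2.1 + x.2.2.2) ∧
      (((x.1⁻¹ : (ZMod q)ˣ) : ZMod q) + ((x.2.1⁻¹ : (ZMod q)ˣ) : ZMod q) =
        ((x.2.2.1⁻¹ : (ZMod q)ˣ) : ZMod q) + ((x.2.2.2⁻¹ : (ZMod q)ˣ) : ZMod q)))) with hS
  set f : (ZMod q)ˣ × (ZMod q)ˣ × (ZMod q)ˣ × (ZMod q)ˣ → ZMod q × ZMod q × ZMod q := fun x =>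
    ((x.1 : ZMod q) + x.2.1, (x.2.2.1 : ZMod q) - x.1, (x.2.2.1 : ZMod q) - x.2.1) with hf
  have himg : S.image f ⊆ univ.filter (fun x : ZMod q × ZMod q × ZMod q => x.1 * x.2.1 * x.2.2 = 0) := by
    intro z hz
    rw [mem_image] at hz
    obtain ⟨x, hx, rfl⟩ := hz
    rw [hS, mem_filter] at hx
    obtain ⟨_, h1, h2⟩ := hx
    rw [mem_filter]
    refine ⟨mem_univ _, ?_⟩
    simp only [hf]
    set a : ZMod q := (x.1 : ZMod q) with ha
    set b : ZMod q := (x.2.1 : ZMod q) with hb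
    set c : ZMod q := (x.2.2.1 : ZMod q) with hc
    set d : ZMod q := (x.2.2.2 : ZMod q) with hd
    set a' : ZMod q := ((x.1⁻¹ : (ZMod q)ˣ) : ZMod q) with ha'
    set b' : ZMod q := ((x.2.1⁻¹ : (ZMod q)ˣ) : ZMod q) with hb'
    set c' : ZMod q := ((x.2.2.1⁻¹ : (ZMod q)ˣ) : ZMod q) with hc'
    set d' : ZMod q := ((x.2.2.2⁻¹ : (ZMod q)ˣ) : ZMod q) with hd'
    have haa : a * a' = 1 := Units.mul_inv _
    have hbb : b * b' = 1 := Units.mul_inv _
    have hcc : c * c' = 1 := Units.mul_inv _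
    have hdd : d * d' = 1 := Units.mul_inv _
    have e1 : a * b * c * d * (a' + b') = (a + b) * (c * d) := by
      calc a * b * c * d * (a' + b') = (a * a') * (b * c * d) + (b * b') * (a * c * d) := by ring
        _ = (a + b) * (c * d) := by rw [haa, hbb]; ring
    have e2 : a * b * c * d * (c' + d') = (c + d) * (a * b) := by
      calc a * b * c * d * (c' + d') = (c * c') * (a * b * d) + (d * d') * (a * b * c) := by ring
        _ = (c + d) * (a * b) := by rw [hcc, hdd]; ring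
    have e3 : (a + b) * (c * d) = (c + d) * (a * b) := by rw [← e1, ← e2, h2]
    have e4 : d = a + b - c := by rw [h1]; ring
    rw [← h1, e4] at e3
    linear_combination -e3
  have hfib : ∀ z ∈ S.image f, (S.filter (fun x => f x = z)).card ≤ 2 := by
    intro z _
    -- the fibre is determined by the third coordinate
    set c := z.1 + z.2.1 + z.2.2 with hc
    have hsub : ((S.filter (fun x => f x = z)).image (fun x => (x.2.2.1 : ZMod q))) ⊆
        {((c.val / 2 : ℕ) : ZMod q), (((c.val + q) / 2 : ℕ) : ZMod q)} := by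
      intro y hy
      rw [mem_image] at hy
      obtain ⟨x, hx, rfl⟩ := hy
      rw [mem_filter] at hx
      obtain ⟨_, hx⟩ := hx
      rw [mem_insert, mem_singleton]
      apply kla_two
      rw [hc, ← hx]
      simp only [hf]
      ring
    have hinj : Set.InjOn (fun x : (ZMod q)ˣ × (ZMod q)ˣ × (ZMod q)ˣ × (ZMod q)ˣ =>
        (x.2.2.1 : ZMod q)) (S.filter (fun x => f x = z)) := by
      intro x hx y hy hxy
      rw [Finset.mem_coe, mem_filter] at hx hy
      have hxy' : (x.2.2.1 : ZMod q) = y.2.2.1 := hxy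
      have hz : f x = f y := hx.2.trans hy.2.symm
      simp only [hf, Prod.mk.injEq] at hz
      obtain ⟨z1, z2, z3⟩ := hz
      rw [hxy'] at z2 z3
      have g1 : (x.1 : ZMod q) = y.1 := by linear_combination -z2
      have g2 : (x.2.1 : ZMod q) = y.2.1 := by linear_combination -z3
      have hx1 := hx.1
      have hy1 := hy.1
      rw [hS, mem_filter] at hx1 hy1
      have g4 : (x.2.2.2 : ZMod q) = y.2.2.2 := by
        have k1 := hx1.2.1
        have k2 := hy1.2.1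
        rw [g1, g2, hxy'] at k1
        linear_combination k2 - k1
      refine Prod.ext (Units.ext g1) (Prod.ext (Units.ext g2) (Prod.ext (Units.ext hxy') (Units.ext g4)))
    calc (S.filter (fun x => f x = z)).card
        = ((S.filter (fun x => f x = z)).image (fun x => (x.2.2.1 : ZMod q))).card :=
          (Finset.card_image_of_injOn hinj).symm
      _ ≤ _ := Finset.card_le_card hsub
      _ ≤ 2 := Finset.card_le_two
  have h1 := Finset.card_le_mul_card_image S 2 hfib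
  have h2 := Finset.card_le_card himg
  have h3 := abc_count q
  calc S.card ≤ 2 * (S.image f).card := h1
    _ ≤ 2 * (q ^ 2 * tau q ^ 2) := Nat.mul_le_mul_left _ (h2.trans h3)
    _ = 2 * q ^ 2 * tau q ^ 2 := by ring

end Pool.Agent.H80.KF
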