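import Pool.Agent.H80.KF.KlA
import Pool.Agent.H80.KF.Bas

/-!
# Kloosterman's bound (fourth moment), for every modulus

`∑_{a,b mod q} |S(a,b)|⁴ = q² N₄`, `N₄` the number counted in `kl_count` (expand, orthogonality in
`a` and `b`).  For a unit `u`: `S(a, b) = S(a ū, b u)` (substitute `x → u x`; here `a` multiplies
the inverse).  The pairs `(a ū, b u)` take at least `φ(q)/(a,q)` different values mod `q`: already
`a ū` does, since `a ū = a v̄` iff `ū ≡ v̄ mod q/(a,q)` and a class mod `q/(a,q)` contains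
`(a,q)` residues mod `q`.  Hence `|S(a,b)|⁴ φ(q) ≤ (a,q) q² N₄ ≤ 2 (a,q) q⁴ τ(q)²`, and
`q ≤ φ(q) τ(q)` (`q/φ(q) = ∏ p/(p-1) ≤ 2^{ω(q)} ≤ τ(q)`).
-/

set_option autoImplicit false

namespace Pool.Agent.H80.KF

open Finset

/-- the Kloosterman sum over the units of `ZMod q` -/
private noncomputable def klB_T (q : ℕ) [NeZero q] (A B : ZMod q) : ℂ :=
  ∑ u : (ZMod q)ˣ, ZMod.stdAddChar (A * ((u⁻¹ : (ZMod q)ˣ) : ZMod q) + B * (u : ZMod q))

private theorem klB_char (q : ℕ) [NeZero q] (j : ℤ) :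
    ZMod.stdAddChar (j : ZMod q) = ee ((j : ℝ) / q) := by
  rw [ZMod.stdAddChar_coe, ee]
  congr 1
  push_cast
  ring

private theorem klB_T_eq (q : ℕ) [NeZero q] (a b : ℤ) :
    klS q a b = klB_T q (a : ZMod q) (b : ZMod q) := by
  unfold klS klB_T
  refine Finset.sum_bij' (fun x hx => ZMod.unitOfCoprime x (mem_filter.mp hx).2)
    (fun u _ => (u : ZMod q).val) (fun _ _ => mem_univ _) ?_ ?_ ?_ ?_
  · intro u _
    rw [mem_filter, mem_range]
    exact ⟨ZMod.val_lt _, ZMod.val_coe_unit_coprime u⟩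
  · intro x hx
    rw [mem_filter, mem_range] at hx
    simp only [ZMod.coe_unitOfCoprime]
    exact ZMod.val_cast_of_lt hx.1
  · intro u _
    apply Units.ext
    simp only [ZMod.coe_unitOfCoprime]
    exact ZMod.natCast_zmod_val _
  · intro x hx
    simp only [ZMod.coe_unitOfCoprime, ← ZMod.inv_coe_unit]
    have h1 : (a : ZMod q) * ((x : ℕ) : ZMod q)⁻¹ + (b : ZMod q) * (x : ZMod q) =
        ((a * (iv q x : ℤ) + b * (x : ℤ) : ℤ) : ZMod q) := by
      unfold iv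
      push_cast
      rw [ZMod.natCast_zmod_val]
    rw [h1, klB_char, kf, ← ee_add]
    congr 1
    push_cast
    ring

private theorem klB_T_inv (q : ℕ) [NeZero q] (A B : ZMod q) (v : (ZMod q)ˣ) :
    klB_T q (A * ((v⁻¹ : (ZMod q)ˣ) : ZMod q)) (B * (v : ZMod q)) = klB_T q A B := by
  unfold klB_T
  rw [← Equiv.sum_comp (Equiv.mulLeft v)
    (fun u : (ZMod q)ˣ => ZMod.stdAddChar (A * ((u⁻¹ : (ZMod q)ˣ) : ZMod q) + B * (u : ZMod q)))]
  refine Finset.sum_congr rfl fun u _ => ?_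
  simp only [Equiv.coe_mulLeft, mul_inv_rev, Units.val_mul]
  congr 1
  ring

private theorem klB_four {ι : Type*} [Fintype ι] (f g : ι → ℂ) :
    (∑ i, f i) * ((∑ i, f i) * ((∑ i, g i) * (∑ i, g i))) =
      ∑ x : ι × ι × ι × ι, f x.1 * (f x.2.1 * (g x.2.2.1 * g x.2.2.2)) := by
  simp_rw [Fintype.sum_prod_type, ← Finset.mul_sum, ← Finset.sum_mul]

private theorem klB_norm (q : ℕ) [NeZero q] (A B : ZMod q) :
    ((‖klB_T q A B‖ ^ 4 : ℝ) : ℂ) =
      ∑ x : (ZMod q)ˣ × (ZMod q)ˣ × (ZMod q)ˣ × (ZMod q)ˣ,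
        ZMod.stdAddChar (A * ((((x.1⁻¹ : (ZMod q)ˣ) : ZMod q) + ((x.2.1⁻¹ : (ZMod q)ˣ) : ZMod q)) -
          (((x.2.2.1⁻¹ : (ZMod q)ˣ) : ZMod q) + ((x.2.2.2⁻¹ : (ZMod q)ˣ) : ZMod q)))) *
        ZMod.stdAddChar (B * (((x.1 : ZMod q) + (x.2.1 : ZMod q)) -
          ((x.2.2.1 : ZMod q) + (x.2.2.2 : ZMod q)))) := by
  have h1 : ((‖klB_T q A B‖ ^ 4 : ℝ) : ℂ) = klB_T q A B * (klB_T q A B *
      ((starRingEnd ℂ) (klB_T q A B) * (starRingEnd ℂ) (klB_T q A B))) := by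
    have h2 := Complex.mul_conj' (klB_T q A B)
    have h3 : klB_T q A B * (klB_T q A B *
      ((starRingEnd ℂ) (klB_T q A B) * (starRingEnd ℂ) (klB_T q A B))) =
      (klB_T q A B * (starRingEnd ℂ) (klB_T q A B)) ^ 2 := by ring
    rw [h3, h2]
    push_cast
    ring
  have h4 : (starRingEnd ℂ) (klB_T q A B) = ∑ u : (ZMod q)ˣ,
      ZMod.stdAddChar (-(A * ((u⁻¹ : (ZMod q)ˣ) : ZMod q) + B * (u : ZMod q))) := by
    unfold klB_T
    rw [map_sum]
    refine Finset.sum_congr rfl fun u _ => ?_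
    rw [AddChar.map_neg_eq_conj]
  rw [h1, h4]
  unfold klB_T
  rw [klB_four]
  refine Finset.sum_congr rfl fun x _ => ?_
  rw [← AddChar.map_add_eq_mul, ← AddChar.map_add_eq_mul, ← AddChar.map_add_eq_mul,
    ← AddChar.map_add_eq_mul]
  congr 1
  ring

private theorem klB_moment (q : ℕ) [NeZero q] :
    ∑ x : ZMod q × ZMod q, ‖klB_T q x.1 x.2‖ ^ 4 ≤ 2 * (q : ℝ) ^ 4 * (tau q : ℝ) ^ 2 := by
  classical
  have hc : ((∑ x : ZMod q × ZMod q, ‖klB_T q x.1 x.2‖ ^ 4 : ℝ) : ℂ) =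
      (((q : ℝ) ^ 2 * ((univ.filter (fun x : (ZMod q)ˣ × (ZMod q)ˣ × (ZMod q)ˣ × (ZMod q)ˣ =>
      ((x.1 : ZMod q) + x.2.1 = x.2.2.1 + x.2.2.2) ∧
      (((x.1⁻¹ : (ZMod q)ˣ) : ZMod q) + ((x.2.1⁻¹ : (ZMod q)ˣ) : ZMod q) =
        ((x.2.2.1⁻¹ : (ZMod q)ˣ) : ZMod q) + ((x.2.2.2⁻¹ : (ZMod q)ˣ) : ZMod q)))).card : ℝ) : ℝ) :
        ℂ) := by
    rw [Complex.ofReal_sum]
    simp_rw [klB_norm]
    rw [Finset.sum_comm]
    have hs : ∀ x : (ZMod q)ˣ × (ZMod q)ˣ × (ZMod q)ˣ × (ZMod q)ˣ,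
        ∑ y : ZMod q × ZMod q, ZMod.stdAddChar (y.1 *
          ((((x.1⁻¹ : (ZMod q)ˣ) : ZMod q) + ((x.2.1⁻¹ : (ZMod q)ˣ) : ZMod q)) -
          (((x.2.2.1⁻¹ : (ZMod q)ˣ) : ZMod q) + ((x.2.2.2⁻¹ : (ZMod q)ˣ) : ZMod q)))) *
        ZMod.stdAddChar (y.2 * (((x.1 : ZMod q) + (x.2.1 : ZMod q)) -
          ((x.2.2.1 : ZMod q) + (x.2.2.2 : ZMod q)))) =
        if ((x.1 : ZMod q) + x.2.1 = x.2.2.1 + x.2.2.2) ∧
      (((x.1⁻¹ : (ZMod q)ˣ) : ZMod q) + ((x.2.1⁻¹ : (ZMod q)ˣ) : ZMod q) =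
        ((x.2.2.1⁻¹ : (ZMod q)ˣ) : ZMod q) + ((x.2.2.2⁻¹ : (ZMod q)ˣ) : ZMod q)) then
          (q : ℂ) ^ 2 else 0 := by
      intro x
      rw [Fintype.sum_prod_type]
      simp_rw [← Finset.mul_sum, ← Finset.sum_mul]
      rw [AddChar.sum_mulShift _ (ZMod.isPrimitive_stdAddChar q),
        AddChar.sum_mulShift _ (ZMod.isPrimitive_stdAddChar q), ZMod.card]
      by_cases h1 : ((x.1⁻¹ : (ZMod q)ˣ) : ZMod q) + ((x.2.1⁻¹ : (ZMod q)ˣ) : ZMod q) =
        ((x.2.2.1⁻¹ : (ZMod q)ˣ) : ZMod q) + ((x.2.2.2⁻¹ : (ZMod q)ˣ) : ZMod q)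
      · by_cases h2 : (x.1 : ZMod q) + x.2.1 = x.2.2.1 + x.2.2.2
        · rw [if_pos (sub_eq_zero.mpr h1), if_pos (sub_eq_zero.mpr h2), if_pos ⟨h2, h1⟩]
          ring
        · simp [sub_eq_zero, h1, h2]
      · simp [sub_eq_zero, h1]
    rw [Finset.sum_congr rfl fun x _ => hs x, ← Finset.sum_filter, Finset.sum_const, nsmul_eq_mul]
    push_cast
    ring
  have hr := Complex.ofReal_injective hc
  rw [hr]
  have hcount : (((univ.filter (fun x : (ZMod q)ˣ × (ZMod q)ˣ × (ZMod q)ˣ × (ZMod q)ˣ =>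
      ((x.1 : ZMod q) + x.2.1 = x.2.2.1 + x.2.2.2) ∧
      (((x.1⁻¹ : (ZMod q)ˣ) : ZMod q) + ((x.2.1⁻¹ : (ZMod q)ˣ) : ZMod q) =
        ((x.2.2.1⁻¹ : (ZMod q)ˣ) : ZMod q) + ((x.2.2.2⁻¹ : (ZMod q)ˣ) : ZMod q)))).card : ℕ) : ℝ) ≤
        2 * (q : ℝ) ^ 2 * (tau q : ℝ) ^ 2 := by
    have h1 := kl_count q
    have h2 : ∀ m : ℕ, m ≤ 2 * q ^ 2 * tau q ^ 2 → (m : ℝ) ≤ 2 * (q : ℝ) ^ 2 * (tau q : ℝ) ^ 2 := by
      intro m hm
      exact_mod_cast hm
    apply h2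
    convert h1 using 2
  have hq0 : (0 : ℝ) ≤ (q : ℝ) ^ 2 := by positivity
  calc _ ≤ (q : ℝ) ^ 2 * (2 * (q : ℝ) ^ 2 * (tau q : ℝ) ^ 2) := mul_le_mul_of_nonneg_left hcount hq0
    _ = _ := by ring

/-- the number of solutions of `a z = 0` modulo `q` -/
private theorem klB_ker (q : ℕ) [NeZero q] (a : ℤ) :
    (univ.filter (fun z : ZMod q => (a : ZMod q) * z = 0)).card ≤ Int.gcd a q := by
  have hq : 0 < q := Nat.pos_of_ne_zero (NeZero.ne q)
  obtain ⟨m', q', hco, hm, hq'⟩ := Nat.exists_coprime a.natAbs q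
  have hg : Int.gcd a q = Nat.gcd a.natAbs q := by
    rw [Int.gcd_eq_natAbs, Int.natAbs_natCast]
  rw [hg]
  set g := Nat.gcd a.natAbs q with hgdef
  have hg0 : 0 < g := Nat.gcd_pos_of_pos_right _ hq
  have hq'0 : 0 < q' := by
    rcases Nat.eq_zero_or_pos q' with h | h
    · rw [h, zero_mul] at hq'; omega
    · exact h
  have hdvd : ∀ z : ZMod q, (a : ZMod q) * z = 0 → q' ∣ z.val := by
    intro z hz
    have h1 : ((a * (z.val : ℤ) : ℤ) : ZMod q) = 0 := by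
      push_cast
      rw [ZMod.natCast_zmod_val]
      exact hz
    rw [ZMod.intCast_zmod_eq_zero_iff_dvd] at h1
    have h2 : q ∣ a.natAbs * z.val := by
      have h3 := Int.natAbs_dvd_natAbs.mpr h1
      rwa [Int.natAbs_mul, Int.natAbs_natCast, Int.natAbs_natCast] at h3
    have h4 : q' * g ∣ (m' * z.val) * g := by
      have e1 : a.natAbs * z.val = m' * z.val * g := by
        rw [hm]; ring
      rw [e1] at h2
      rw [← hq']
      exact h2
    have h5 : q' ∣ m' * z.val := Nat.dvd_of_mul_dvd_mul_right hg0 h4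
    exact hco.symm.dvd_of_dvd_mul_left h5
  calc (univ.filter (fun z : ZMod q => (a : ZMod q) * z = 0)).card ≤ (range g).card := by
        apply Finset.card_le_card_of_injOn (fun z : ZMod q => z.val / q')
        · intro z hz
          rw [Finset.mem_coe, mem_filter] at hz
          rw [Finset.mem_coe, mem_range]
          apply Nat.div_lt_of_lt_mul
          have := ZMod.val_lt z
          omega
        · intro z hz w hw hzw
          rw [Finset.mem_coe, mem_filter] at hz hw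
          have h1 := hdvd z hz.2
          have h2 := hdvd w hw.2
          have h3 : z.val / q' = w.val / q' := hzw
          have h4 : z.val = w.val := by
            rw [← Nat.div_mul_cancel h1, ← Nat.div_mul_cancel h2, h3]
          exact ZMod.val_injective q h4
    _ = g := card_range g

/-- `n ≤ φ(n) τ(n)` -/
private theorem klB_phi (n : ℕ) : n ≤ Nat.totient n * tau n := by
  induction n using Nat.recOnPosPrimePosCoprime with
  | prime_pow p n hp hn =>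
    obtain ⟨k, rfl⟩ : ∃ k, n = k + 1 := ⟨n - 1, by omega⟩
    rw [Nat.totient_prime_pow_succ hp, tau, Nat.divisors_prime_pow hp, card_map, card_range,
      pow_succ]
    have h2 := hp.two_le
    have h3 : p ≤ (p - 1) * (k + 1 + 1) := by
      obtain ⟨r, rfl⟩ : ∃ r, p = r + 2 := ⟨p - 2, by omega⟩
      have e1 : r + 2 - 1 = r + 1 := by omega
      rw [e1]
      nlinarith
    calc p ^ k * p ≤ p ^ k * ((p - 1) * (k + 1 + 1)) := Nat.mul_le_mul_left _ h3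
      _ = _ := by ring
  | zero => simp
  | one => simp [tau]
  | coprime a b _ _ hab ha hb =>
    rw [Nat.totient_mul hab, tau, Nat.Coprime.card_divisors_mul hab]
    unfold tau at ha hb
    calc a * b ≤ (Nat.totient a * a.divisors.card) * (Nat.totient b * b.divisors.card) :=
          Nat.mul_le_mul ha hb
      _ = _ := by ring

theorem klS_le (q : ℕ) (hq : 1 ≤ q) (a b : ℤ) :
    ‖klS q a b‖ ^ 4 ≤ 2 * (Int.gcd a q : ℝ) * (q : ℝ) ^ 3 * (tau q : ℝ) ^ 3 := by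
  classical
  have : NeZero q := ⟨by omega⟩
  rw [klB_T_eq]
  have hq0 : (0 : ℝ) < q := by exact_mod_cast hq
  -- the orbit
  set h : (ZMod q)ˣ → ZMod q × ZMod q := fun u =>
    ((a : ZMod q) * ((u⁻¹ : (ZMod q)ˣ) : ZMod q), (b : ZMod q) * (u : ZMod q)) with hh
  have hinv : ∀ u : (ZMod q)ˣ, ‖klB_T q (h u).1 (h u).2‖ ^ 4 =
      ‖klB_T q (a : ZMod q) (b : ZMod q)‖ ^ 4 := by
    intro u
    rw [hh]
    simp only
    rw [klB_T_inv]
  have hfib : ∀ x : ZMod q × ZMod q, ((univ.filter (fun u : (ZMod q)ˣ => h u = x)).card : ℝ) ≤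
      (Int.gcd a q : ℝ) := by
    intro x
    have hnat : (univ.filter (fun u : (ZMod q)ˣ => h u = x)).card ≤ Int.gcd a q := by
      rcases (univ.filter (fun u : (ZMod q)ˣ => h u = x)).eq_empty_or_nonempty with he | ⟨u0, hu0⟩
      · rw [he, card_empty]
        exact Nat.zero_le _
      · refine le_trans ?_ (klB_ker q a)
        apply Finset.card_le_card_of_injOn
          (fun u : (ZMod q)ˣ => ((u⁻¹ : (ZMod q)ˣ) : ZMod q) - ((u0⁻¹ : (ZMod q)ˣ) : ZMod q))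
        · intro u hu
          rw [Finset.mem_coe, mem_filter] at hu
          rw [mem_filter] at hu0
          rw [Finset.mem_coe, mem_filter]
          refine ⟨mem_univ _, ?_⟩
          have e1 : (a : ZMod q) * ((u⁻¹ : (ZMod q)ˣ) : ZMod q) =
              (a : ZMod q) * ((u0⁻¹ : (ZMod q)ˣ) : ZMod q) :=
            congrArg Prod.fst (hu.2.trans hu0.2.symm)
          rw [mul_sub, e1, sub_self]
        · intro u _ v _ huv
          have e1 : ((u⁻¹ : (ZMod q)ˣ) : ZMod q) = ((v⁻¹ : (ZMod q)ˣ) : ZMod q) :=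
            sub_left_injective huv
          have e2 := Units.ext e1
          exact inv_injective e2
    exact_mod_cast hnat
  have hsum : (Nat.totient q : ℝ) * ‖klB_T q (a : ZMod q) (b : ZMod q)‖ ^ 4 ≤
      (Int.gcd a q : ℝ) * (2 * (q : ℝ) ^ 4 * (tau q : ℝ) ^ 2) := by
    have e1 : (Nat.totient q : ℝ) * ‖klB_T q (a : ZMod q) (b : ZMod q)‖ ^ 4 =
        ∑ u : (ZMod q)ˣ, ‖klB_T q (h u).1 (h u).2‖ ^ 4 := by
      rw [Finset.sum_congr rfl fun u _ => hinv u, Finset.sum_const, Finset.card_univ,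
        ZMod.card_units_eq_totient, nsmul_eq_mul]
    rw [e1, ← Finset.sum_fiberwise univ h]
    calc _ ≤ ∑ x : ZMod q × ZMod q, (Int.gcd a q : ℝ) * ‖klB_T q x.1 x.2‖ ^ 4 := by
          refine Finset.sum_le_sum fun x _ => ?_
          have e2 : ∑ u ∈ univ.filter (fun u : (ZMod q)ˣ => h u = x),
              ‖klB_T q (h u).1 (h u).2‖ ^ 4 =
              ((univ.filter (fun u : (ZMod q)ˣ => h u = x)).card : ℝ) *
                ‖klB_T q x.1 x.2‖ ^ 4 := by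
            rw [← nsmul_eq_mul, ← Finset.sum_const]
            refine Finset.sum_congr rfl fun u hu => ?_
            rw [mem_filter] at hu
            rw [hu.2]
          rw [e2]
          exact mul_le_mul_of_nonneg_right (hfib x) (by positivity)
      _ = (Int.gcd a q : ℝ) * ∑ x : ZMod q × ZMod q, ‖klB_T q x.1 x.2‖ ^ 4 := by
          rw [Finset.mul_sum]
      _ ≤ _ := mul_le_mul_of_nonneg_left (klB_moment q) (by positivity)
  have hphi : (q : ℝ) ≤ (Nat.totient q : ℝ) * (tau q : ℝ) := by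
    exact_mod_cast klB_phi q
  have hT0 : 0 ≤ ‖klB_T q (a : ZMod q) (b : ZMod q)‖ ^ 4 := by positivity
  have htau : (0 : ℝ) ≤ (tau q : ℝ) := by positivity
  have h1 : (q : ℝ) * ‖klB_T q (a : ZMod q) (b : ZMod q)‖ ^ 4 ≤
      (q : ℝ) * (2 * (Int.gcd a q : ℝ) * (q : ℝ) ^ 3 * (tau q : ℝ) ^ 3) := by
    calc (q : ℝ) * ‖klB_T q (a : ZMod q) (b : ZMod q)‖ ^ 4 ≤
        ((Nat.totient q : ℝ) * (tau q : ℝ)) * ‖klB_T q (a : ZMod q) (b : ZMod q)‖ ^ 4 :=
          mul_le_mul_of_nonneg_right hphi hT0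
      _ = (tau q : ℝ) * ((Nat.totient q : ℝ) * ‖klB_T q (a : ZMod q) (b : ZMod q)‖ ^ 4) := by ring
      _ ≤ (tau q : ℝ) * ((Int.gcd a q : ℝ) * (2 * (q : ℝ) ^ 4 * (tau q : ℝ) ^ 2)) :=
          mul_le_mul_of_nonneg_left hsum htau
      _ = _ := by ring
  exact le_of_mul_le_mul_left h1 hq0

end Pool.Agent.H80.KF
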