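import Pool.Agent.H80.KF.RamB
import Pool.Agent.H91.EHA.Defs

/-!
# A grid for the endpoint

`grid`: let `j` be the largest index with `y_j = ⌊jx/G⌋ ≤ y`; if `j = G` then `y = x = y_G`.  Otherwise
`y_j ≤ y < y_{j+1}`, `y_{j+1} - y_j ≤ x/G + 1`, the number of primes in a class is monotone and
`π(y_{j+1}) - π(y_j) ≤ y_{j+1} - y_j`, so `|err y| ≤ |err y_j| + |err y_{j+1}| + (x/G + 1)/φ(q)`.
`phi_inv_sum`: `1/φ(q) ≤ τ(q)/q` (`sum_phi`: `q/φ(q) = ∑_{r ∣ q} μ²(r)/φ(r) ≤ τ(q)`), and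
`∑_{q ≤ x} τ(q)/q ≤ (∑_{d ≤ x} 1/d)² ≤ (1 + log x)² ≤ 4 (log x)²`.
-/

set_option autoImplicit false

namespace Pool.Agent.H80.KF

open Finset
open Pool.Agent.H91.EHA (err)

private theorem mxa_pc_sub (a b : ℕ) (hab : a ≤ b) :
    (Nat.primeCounting b : ℝ) - (Nat.primeCounting a : ℝ) ≤ (b : ℝ) - a := by
  obtain ⟨c, rfl⟩ := Nat.exists_eq_add_of_le hab
  have h1 : Nat.primeCounting (a + c) ≤ Nat.primeCounting a + c := by
    unfold Nat.primeCounting Nat.primeCounting'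
    have h2 : a + c + 1 = (a + 1) + c := by ring
    rw [h2, Nat.count_add]
    exact Nat.add_le_add_left (Nat.count_le _) _
  have h3 : ((Nat.primeCounting (a + c) : ℕ) : ℝ) ≤ ((Nat.primeCounting a + c : ℕ) : ℝ) := by
    exact_mod_cast h1
  push_cast at h3 ⊢
  linarith

private theorem mxa_card_mono (q : ℕ) (b : ZMod q) (y z : ℕ) (hyz : y ≤ z) :
    (((Finset.Icc 1 y).filter (fun p : ℕ => Nat.Prime p ∧ ((p : ZMod q) = b))).card : ℝ) ≤
      (((Finset.Icc 1 z).filter (fun p : ℕ => Nat.Prime p ∧ ((p : ZMod q) = b))).card : ℝ) := by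
  have h : ((Finset.Icc 1 y).filter (fun p : ℕ => Nat.Prime p ∧ ((p : ZMod q) = b))).card ≤
      ((Finset.Icc 1 z).filter (fun p : ℕ => Nat.Prime p ∧ ((p : ZMod q) = b))).card :=
    Finset.card_le_card (Finset.filter_subset_filter _ (Finset.Icc_subset_Icc le_rfl hyz))
  exact_mod_cast h

private theorem mxa_between (q : ℕ) (b : ZMod q) (u y v : ℕ) (huy : u ≤ y)
    (hyv : y ≤ v) :
    |err y q b| ≤ |err u q b| + |err v q b| + ((v : ℝ) - u) / (Nat.totient q : ℝ) := by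
  have hφ : (0 : ℝ) ≤ (Nat.totient q : ℝ) := Nat.cast_nonneg _
  have h1 := mxa_card_mono q b u y huy
  have h2 := mxa_card_mono q b y v hyv
  have h3 : (Nat.primeCounting u : ℝ) / (Nat.totient q : ℝ) ≤
      (Nat.primeCounting y : ℝ) / (Nat.totient q : ℝ) := by
    gcongr
    exact Nat.monotone_primeCounting huy
  have h4 : (Nat.primeCounting y : ℝ) / (Nat.totient q : ℝ) ≤
      (Nat.primeCounting v : ℝ) / (Nat.totient q : ℝ) := by
    gcongr
    exact Nat.monotone_primeCounting hyv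
  have h5 : (Nat.primeCounting v : ℝ) / (Nat.totient q : ℝ) -
      (Nat.primeCounting u : ℝ) / (Nat.totient q : ℝ) ≤
      ((v : ℝ) - u) / (Nat.totient q : ℝ) := by
    rw [← sub_div]
    exact div_le_div_of_nonneg_right (mxa_pc_sub u v (huy.trans hyv)) hφ
  have h6 := neg_abs_le (err u q b)
  have h7 := le_abs_self (err v q b)
  have h8 := abs_nonneg (err u q b)
  have h9 := abs_nonneg (err v q b)
  rw [abs_le]
  have eu : err u q b =
    (((Finset.Icc 1 u).filter (fun p : ℕ => Nat.Prime p ∧ ((p : ZMod q) = b))).card : ℝ)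
    - (Nat.primeCounting u : ℝ) / (Nat.totient q : ℝ) := rfl
  have ey : err y q b =
    (((Finset.Icc 1 y).filter (fun p : ℕ => Nat.Prime p ∧ ((p : ZMod q) = b))).card : ℝ)
    - (Nat.primeCounting y : ℝ) / (Nat.totient q : ℝ) := rfl
  have ev : err v q b =
    (((Finset.Icc 1 v).filter (fun p : ℕ => Nat.Prime p ∧ ((p : ZMod q) = b))).card : ℝ)
    - (Nat.primeCounting v : ℝ) / (Nat.totient q : ℝ) := rfl
  constructor
  · linarith
  · linarith

theorem grid (x G q : ℕ) (hx : 1 ≤ x) (hG : 1 ≤ G) (hq : 1 ≤ q) (b : ZMod q) (y : ℕ)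
    (hy : y ≤ x) :
    |err y q b| ≤ ∑ j ∈ range (G + 1), |err (j * x / G) q b| +
      ((x : ℝ) / G + 1) / (Nat.totient q : ℝ) := by
  have hG0 : (0 : ℝ) < G := by exact_mod_cast hG
  have hlast : (0 : ℝ) ≤ ((x : ℝ) / G + 1) / (Nat.totient q : ℝ) := by positivity
  set j := Nat.findGreatest (fun j => j * x / G ≤ y) G with hj
  have hjG : j ≤ G := Nat.findGreatest_le G
  have hjy : j * x / G ≤ y :=
    Nat.findGreatest_spec (P := fun j => j * x / G ≤ y) (Nat.zero_le G) (by simp)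
  have hnn : ∀ i ∈ range (G + 1), 0 ≤ |err (i * x / G) q b| := fun i _ => abs_nonneg _
  rcases hjG.eq_or_lt with hjG | hjG
  · have h1 : y = j * x / G := by
      rw [hjG, Nat.mul_div_cancel_left x (by omega)] at hjy ⊢
      omega
    have h2 : |err (j * x / G) q b| ≤ ∑ j ∈ range (G + 1), |err (j * x / G) q b| :=
      Finset.single_le_sum (f := fun j => |err (j * x / G) q b|) hnn
        (Finset.mem_range.2 (by omega))
    rw [← h1] at h2
    linarith
  · have h1 : y < (j + 1) * x / G := by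
      by_contra hcon
      exact Nat.findGreatest_is_greatest (P := fun j => j * x / G ≤ y) (n := G) (k := j + 1)
        (by omega) (by omega) (not_lt.1 hcon)
    have h2 := mxa_between q b _ y _ hjy h1.le
    have h3 : |err (j * x / G) q b| + |err ((j + 1) * x / G) q b| ≤
        ∑ j ∈ range (G + 1), |err (j * x / G) q b| := by
      have h4 : ∑ i ∈ ({j, j + 1} : Finset ℕ), |err (i * x / G) q b| ≤
          ∑ i ∈ range (G + 1), |err (i * x / G) q b| := by
        refine Finset.sum_le_sum_of_subset_of_nonneg ?_ (fun i hi _ => hnn i hi)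
        intro i hi
        rw [Finset.mem_insert, Finset.mem_singleton] at hi
        rw [Finset.mem_range]
        omega
      rwa [Finset.sum_pair (by omega)] at h4
    have h5 : ((((j + 1) * x / G : ℕ) : ℝ) - ((j * x / G : ℕ) : ℝ)) / (Nat.totient q : ℝ) ≤
        ((x : ℝ) / G + 1) / (Nat.totient q : ℝ) := by
      gcongr
      have h6 : (((j + 1) * x / G : ℕ) : ℝ) ≤ ((j + 1 : ℕ) * (x : ℝ)) / G := by
        have := @Nat.cast_div_le ℝ _ _ _ ((j + 1) * x) G
        push_cast at this ⊢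
        exact this
      have h7 : ((j : ℝ) * x) / G < ((j * x / G : ℕ) : ℝ) + 1 := by
        rw [div_lt_iff₀ hG0]
        have h8 : j * x < (j * x / G + 1) * G := by
          rw [mul_comm (j * x / G + 1)]
          exact Nat.lt_mul_div_succ (j * x) (Nat.lt_of_lt_of_le Nat.zero_lt_one hG)
        exact_mod_cast h8
      have h9 : ((j + 1 : ℕ) * (x : ℝ)) / G = ((j : ℝ) * x) / G + (x : ℝ) / G := by
        push_cast
        ring
      linarith
    linarith

private theorem mxa_phi_le (q : ℕ) (hq : 1 ≤ q) :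
    1 / (Nat.totient q : ℝ) ≤ ∑ _r ∈ q.divisors, 1 / (q : ℝ) := by
  have hq0 : (0 : ℝ) < q := by exact_mod_cast hq
  have h1 := sum_phi q hq
  have h2 : (q : ℝ) / (Nat.totient q : ℝ) ≤ ∑ _r ∈ q.divisors, (1 : ℝ) := by
    rw [← h1]
    refine Finset.sum_le_sum fun r hr => ?_
    have hr0 : 0 < r := Nat.pos_of_mem_divisors hr
    have h3 : (1 : ℝ) ≤ (Nat.totient r : ℝ) := by
      exact_mod_cast (Nat.totient_pos.2 hr0)
    rw [div_le_one (by linarith)]
    have h4 : (ArithmeticFunction.moebius r : ℝ) ^ 2 ≤ 1 := by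
      have h5 : |(ArithmeticFunction.moebius r : ℤ)| ≤ 1 := ArithmeticFunction.abs_moebius_le_one
      have h6 : |(ArithmeticFunction.moebius r : ℝ)| ≤ 1 := by exact_mod_cast h5
      rw [← sq_abs]
      exact pow_le_one₀ (abs_nonneg _) h6
    linarith
  have h3 : 1 / (Nat.totient q : ℝ) = (q : ℝ) / (Nat.totient q : ℝ) * (1 / (q : ℝ)) := by
    field_simp
  rw [h3]
  calc (q : ℝ) / (Nat.totient q : ℝ) * (1 / (q : ℝ))
      ≤ (∑ _r ∈ q.divisors, (1 : ℝ)) * (1 / (q : ℝ)) := by gcongr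
    _ = ∑ _r ∈ q.divisors, 1 / (q : ℝ) := by rw [Finset.sum_mul]; simp

private theorem mxa_harm (x : ℕ) :
    ∑ d ∈ Icc 1 x, 1 / (d : ℝ) ≤ 1 + Real.log x := by
  have h := harmonic_le_one_add_log x
  rw [harmonic_eq_sum_Icc] at h
  push_cast at h
  simpa [one_div] using h

theorem phi_inv_sum (x : ℕ) (hx : 3 ≤ x) :
    ∑ q ∈ Icc 1 x, 1 / (Nat.totient q : ℝ) ≤ 4 * Real.log x ^ 2 := by
  have hlog : 1 ≤ Real.log x := by
    rw [Real.le_log_iff_exp_le (by positivity)]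
    have h1 : (3 : ℝ) ≤ x := by exact_mod_cast hx
    linarith [Real.exp_one_lt_d9]
  have h1 : ∑ q ∈ Icc 1 x, 1 / (Nat.totient q : ℝ) ≤
      ∑ q ∈ Icc 1 x, ∑ _r ∈ q.divisors, 1 / (q : ℝ) :=
    Finset.sum_le_sum fun q hq => mxa_phi_le q (Finset.mem_Icc.1 hq).1
  have h2 : ∑ q ∈ Icc 1 x, ∑ _r ∈ q.divisors, 1 / (q : ℝ) ≤
      ∑ d ∈ Icc 1 x, ∑ e ∈ Icc 1 x, 1 / (d : ℝ) * (1 / (e : ℝ)) := by
    have h20 : ∑ q ∈ Icc 1 x, ∑ _r ∈ q.divisors, 1 / (q : ℝ) =
        ∑ d ∈ Icc 1 x, ∑ q ∈ (Icc 1 x).filter (fun q => d ∣ q), 1 / (q : ℝ) := by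
      refine Finset.sum_comm' fun q d => ?_
      rw [Nat.mem_divisors, Finset.mem_filter, Finset.mem_Icc, Finset.mem_Icc]
      constructor
      · rintro ⟨⟨h1, h2⟩, h3, h4⟩
        exact ⟨⟨⟨h1, h2⟩, h3⟩, Nat.pos_of_dvd_of_pos h3 h1, (Nat.le_of_dvd h1 h3).trans h2⟩
      · rintro ⟨⟨⟨h1, h2⟩, h3⟩, h4, h5⟩
        exact ⟨⟨h1, h2⟩, h3, by omega⟩
    rw [h20]
    refine Finset.sum_le_sum fun d hd => ?_
    have hd1 : 1 ≤ d := (Finset.mem_Icc.1 hd).1
    calc ∑ q ∈ (Icc 1 x).filter (fun q => d ∣ q), 1 / (q : ℝ)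
        ≤ ∑ q ∈ (Icc 1 x).image (fun e => d * e), 1 / (q : ℝ) := by
          refine Finset.sum_le_sum_of_subset_of_nonneg ?_ (fun i _ _ => by positivity)
          intro q hq
          rw [Finset.mem_filter, Finset.mem_Icc] at hq
          obtain ⟨⟨h1, h2⟩, e, rfl⟩ := hq
          refine Finset.mem_image.2 ⟨e, Finset.mem_Icc.2 ⟨?_, ?_⟩, rfl⟩
          · exact Nat.pos_of_ne_zero (fun h => by simp [h] at h1)
          · exact (Nat.le_mul_of_pos_left e hd1).trans h2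
      _ = ∑ e ∈ Icc 1 x, 1 / ((d * e : ℕ) : ℝ) := by
          rw [Finset.sum_image]
          intro a _ b _ hab
          exact Nat.eq_of_mul_eq_mul_left hd1 hab
      _ = ∑ e ∈ Icc 1 x, 1 / (d : ℝ) * (1 / (e : ℝ)) := by
          refine Finset.sum_congr rfl fun e _ => ?_
          push_cast
          rw [one_div_mul_one_div]
  have h3 : ∑ d ∈ Icc 1 x, ∑ e ∈ Icc 1 x, 1 / (d : ℝ) * (1 / (e : ℝ)) =
      (∑ d ∈ Icc 1 x, 1 / (d : ℝ)) ^ 2 := by
    rw [sq, Finset.sum_mul_sum]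
  have h4 : (∑ d ∈ Icc 1 x, 1 / (d : ℝ)) ^ 2 ≤ (1 + Real.log x) ^ 2 := by
    gcongr
    exact mxa_harm x
  have h5 : (1 + Real.log x) ^ 2 ≤ 4 * Real.log x ^ 2 := by nlinarith
  linarith

end Pool.Agent.H80.KF
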