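import Pool.Agent.H80.KF.Few
import Pool.Agent.H80.KF.Mxa

/-!
# The maximum over the endpoint

`L = log x`, `G = ⌈L^{c+4}⌉`.  By `grid`, `phi_inv_sum` and `few_set (2c+6)` at the points
`y_j = ⌊jx/G⌋ ≤ x` the sum is at most `(G+1)(√#A x L⁴ + #A x/L^{2c+6}) + #A (x/G + 1) 4L²`, with
`G + 1 ≤ 2 L^{c+4}`: at most `√#A x L^{c+9} + #A x (2/L^{c+2} + 8/L^{c+2})`.
`few_max_exc`: `few_max (c+1)` gives `√#A (1 - 1/L) ≤ L^{2c+10}`.
-/

set_option autoImplicit false

namespace Pool.Agent.H80.KF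

open Finset
open Pool.Agent.H91.EHA (err)

/-- the largest error up to `x` -/
noncomputable def ME (x q : ℕ) (b : ZMod q) : ℝ :=
  (range (x + 1)).sup' nonempty_range_add_one (fun y => |err y q b|)

/-- the sum of the largest errors of the residue `a` over the moduli up to `x^{101/200}` -/
noncomputable def EM (x : ℕ) (a : ℤ) : ℝ :=
  ∑ q ∈ (Icc 1 ⌊(x : ℝ) ^ ((101 : ℝ) / 200)⌋₊).filter (fun q : ℕ => IsCoprime a (q : ℤ)),
    ME x q (a : ZMod q)

private lemma mxb_EM (x G : ℕ) (hx : 3 ≤ x) (hG : 1 ≤ G) (a : ℤ) :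
    EM x a ≤ ∑ j ∈ range (G + 1), EE x (j * x / G) a +
      ((x : ℝ) / G + 1) * (4 * Real.log x ^ 2) := by
  have hx1 : 1 ≤ x := by omega
  have hxr : (1 : ℝ) ≤ x := by exact_mod_cast hx1
  set S := (Icc 1 ⌊(x : ℝ) ^ ((101 : ℝ) / 200)⌋₊).filter (fun q : ℕ => IsCoprime a (q : ℤ)) with hS
  have hSx : S ⊆ Icc 1 x := by
    intro q hq
    rw [hS, mem_filter, mem_Icc] at hq
    rw [mem_Icc]
    refine ⟨hq.1.1, hq.1.2.trans ?_⟩
    have h1 : (⌊(x : ℝ) ^ ((101 : ℝ) / 200)⌋₊ : ℝ) ≤ x := by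
      refine (Nat.floor_le (by positivity)).trans ?_
      calc (x : ℝ) ^ ((101 : ℝ) / 200) ≤ (x : ℝ) ^ (1 : ℝ) :=
            Real.rpow_le_rpow_of_exponent_le hxr (by norm_num)
        _ = x := Real.rpow_one _
    exact_mod_cast h1
  have h1 : ∀ q ∈ S, ME x q (a : ZMod q) ≤
      ∑ j ∈ range (G + 1), |err (j * x / G) q (a : ZMod q)| +
        ((x : ℝ) / G + 1) * (1 / (Nat.totient q : ℝ)) := by
    intro q hq
    have hq1 : 1 ≤ q := (mem_Icc.1 (hSx hq)).1
    unfold ME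
    apply Finset.sup'_le
    intro y hy
    rw [mem_range] at hy
    have h2 := grid x G q hx1 hG hq1 (a : ZMod q) y (by omega)
    rw [mul_one_div]
    exact h2
  unfold EM
  refine (sum_le_sum h1).trans ?_
  rw [sum_add_distrib, sum_comm, ← mul_sum]
  have h3 : ∑ q ∈ S, 1 / (Nat.totient q : ℝ) ≤ 4 * Real.log x ^ 2 :=
    (sum_le_sum_of_subset_of_nonneg hSx (fun q _ _ => by positivity)).trans (phi_inv_sum x hx)
  have h4 : 0 ≤ (x : ℝ) / G + 1 := by positivity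
  have h5 : ((x : ℝ) / G + 1) * ∑ q ∈ S, 1 / (Nat.totient q : ℝ) ≤
      ((x : ℝ) / G + 1) * (4 * Real.log x ^ 2) := mul_le_mul_of_nonneg_left h3 h4
  have h6 : ∑ j ∈ range (G + 1), ∑ q ∈ S, |err (j * x / G) q (a : ZMod q)| =
      ∑ j ∈ range (G + 1), EE x (j * x / G) a := rfl
  rw [h6]
  linarith

private lemma mxb_ev (c : ℕ) : ∃ x0 : ℕ, ∀ x : ℕ, x0 ≤ x → 4 ≤ Real.log x ∧ 3 ≤ x ∧
    Real.log x ^ (c + 4) ≤ x := by
  have h1 : ∀ᶠ x : ℝ in Filter.atTop, 4 ≤ Real.log x :=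
    Real.tendsto_log_atTop.eventually_ge_atTop 4
  have h2 := (isLittleO_log_rpow_rpow_atTop (((c + 4 : ℕ) : ℝ))
    (by norm_num : (0 : ℝ) < (1 : ℝ))).bound (by norm_num : (0 : ℝ) < 1)
  have h3 := tendsto_natCast_atTop_atTop.eventually (h1.and h2)
  obtain ⟨x0, hx0⟩ := Filter.eventually_atTop.1 h3
  refine ⟨max x0 3, fun x hx => ?_⟩
  obtain ⟨h4, h5⟩ := hx0 x ((le_max_left _ _).trans hx)
  refine ⟨h4, (le_max_right _ _).trans hx, ?_⟩
  rw [Real.rpow_natCast, Real.rpow_one] at h5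
  have h6 : (0 : ℝ) ≤ Real.log x ^ (c + 4) := by positivity
  rw [Real.norm_of_nonneg h6, Real.norm_of_nonneg (Nat.cast_nonneg x)] at h5
  linarith

theorem few_max (c : ℕ) : ∃ x0 : ℕ, ∀ x : ℕ, x0 ≤ x → ∀ A : Finset ℤ, (∀ a ∈ A, |a| ≤ x) →
    ∑ a ∈ A, EM x a ≤
      Real.sqrt A.card * x * Real.log x ^ (c + 9) + A.card * x / Real.log x ^ c := by
  obtain ⟨x1, h1⟩ := few_set (2 * c + 6)
  obtain ⟨x2, h2⟩ := mxb_ev c
  refine ⟨max x1 x2, fun x hx A hA => ?_⟩
  obtain ⟨hL4, hx3, hLx⟩ := h2 x ((le_max_right _ _).trans hx)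
  have h1' := h1 x ((le_max_left _ _).trans hx) A hA
  set L := Real.log x with hLdef
  have hL0 : 0 < L := by linarith
  have hxr : (0 : ℝ) < x := by
    have : 0 < x := by omega
    exact_mod_cast this
  set G := ⌈L ^ (c + 4)⌉₊ with hGdef
  have hG1 : L ^ (c + 4) ≤ G := Nat.le_ceil _
  have hLp : (4 : ℝ) ≤ L ^ (c + 4) := by
    calc (4 : ℝ) ≤ L := hL4
      _ = L ^ 1 := (pow_one L).symm
      _ ≤ L ^ (c + 4) := pow_le_pow_right₀ (by linarith) (by omega)
  have hLp0 : 0 < L ^ (c + 4) := by linarith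
  have hG2 : (G : ℝ) < L ^ (c + 4) + 1 := Nat.ceil_lt_add_one hLp0.le
  have hG0 : (0 : ℝ) < G := by linarith
  have hG : 1 ≤ G := by exact_mod_cast hG0
  have h3 : ∑ a ∈ A, EM x a ≤ ∑ j ∈ range (G + 1), ∑ a ∈ A, EE x (j * x / G) a +
      A.card * (((x : ℝ) / G + 1) * (4 * L ^ 2)) := by
    refine (sum_le_sum fun a _ => mxb_EM x G hx3 hG a).trans ?_
    rw [sum_add_distrib, sum_comm, sum_const, nsmul_eq_mul]
  refine h3.trans ?_
  have h4 : ∑ j ∈ range (G + 1), ∑ a ∈ A, EE x (j * x / G) a ≤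
      (G + 1) * (Real.sqrt A.card * x * L ^ 4 + A.card * x / L ^ (2 * c + 6)) := by
    have h5 : ∀ j ∈ range (G + 1), ∑ a ∈ A, EE x (j * x / G) a ≤
        Real.sqrt A.card * x * L ^ 4 + A.card * x / L ^ (2 * c + 6) := by
      intro j hj
      rw [mem_range] at hj
      apply h1'
      apply Nat.div_le_of_le_mul
      exact Nat.mul_le_mul_right x (by omega)
    refine (sum_le_sum h5).trans ?_
    rw [sum_const, card_range, nsmul_eq_mul]
    push_cast
    exact le_rfl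
  have h6 : ((G : ℝ) + 1) ≤ 2 * L ^ (c + 4) := by linarith
  set s := Real.sqrt A.card with hs
  have hs0 : 0 ≤ s := Real.sqrt_nonneg _
  have hK0 : (0 : ℝ) ≤ A.card := Nat.cast_nonneg _
  have h7 : ((G : ℝ) + 1) * (s * x * L ^ 4 + A.card * x / L ^ (2 * c + 6)) ≤
      s * x * L ^ (c + 9) + 2 * (A.card * x / L ^ (c + 2)) := by
    have e1 : ((G : ℝ) + 1) * (s * x * L ^ 4 + A.card * x / L ^ (2 * c + 6)) ≤
        (2 * L ^ (c + 4)) * (s * x * L ^ 4 + A.card * x / L ^ (2 * c + 6)) :=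
      mul_le_mul_of_nonneg_right h6 (by positivity)
    have e2 : (2 * L ^ (c + 4)) * (s * x * L ^ 4 + A.card * x / L ^ (2 * c + 6)) =
        2 * (s * x * L ^ (c + 8)) + 2 * (A.card * x / L ^ (c + 2)) := by
      have e3 : L ^ (2 * c + 6) = L ^ (c + 4) * L ^ (c + 2) := by
        rw [← pow_add]
        congr 1
        ring
      have e4 : L ^ (c + 8) = L ^ (c + 4) * L ^ 4 := by
        rw [← pow_add]
      rw [e3, e4]
      field_simp
    have e5 : 2 * (s * x * L ^ (c + 8)) ≤ s * x * L ^ (c + 9) := by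
      have e6 : L ^ (c + 9) = L ^ (c + 8) * L := pow_succ _ _
      rw [e6]
      have e7 : 0 ≤ s * x * L ^ (c + 8) := by positivity
      nlinarith
    linarith
  have h8 : (A.card : ℝ) * (((x : ℝ) / G + 1) * (4 * L ^ 2)) ≤
      8 * (A.card * x / L ^ (c + 2)) := by
    have e1 : (x : ℝ) / G ≤ x / L ^ (c + 4) :=
      div_le_div_of_nonneg_left hxr.le hLp0 hG1
    have e2 : (1 : ℝ) ≤ x / L ^ (c + 4) := by
      rw [le_div_iff₀ hLp0, one_mul]
      exact hLx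
    have e3 : ((x : ℝ) / G + 1) ≤ 2 * (x / L ^ (c + 4)) := by linarith
    have e4 : ((x : ℝ) / G + 1) * (4 * L ^ 2) ≤ 2 * (x / L ^ (c + 4)) * (4 * L ^ 2) :=
      mul_le_mul_of_nonneg_right e3 (by positivity)
    have e5 : 2 * ((x : ℝ) / L ^ (c + 4)) * (4 * L ^ 2) = 8 * (x / L ^ (c + 2)) := by
      have e6 : L ^ (c + 4) = L ^ (c + 2) * L ^ 2 := by
        rw [← pow_add]
      rw [e6]
      field_simp
      ring
    calc (A.card : ℝ) * (((x : ℝ) / G + 1) * (4 * L ^ 2)) ≤ A.card * (8 * (x / L ^ (c + 2))) := by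
          rw [← e5]
          exact mul_le_mul_of_nonneg_left e4 hK0
      _ = 8 * (A.card * x / L ^ (c + 2)) := by ring
  have h9 : 10 * (A.card * x / L ^ (c + 2)) ≤ A.card * x / L ^ c := by
    have e1 : (A.card : ℝ) * x / L ^ c = L ^ 2 * (A.card * x / L ^ (c + 2)) := by
      have e6 : L ^ (c + 2) = L ^ c * L ^ 2 := by
        rw [← pow_add]
      rw [e6]
      field_simp
    rw [e1]
    have e2 : 0 ≤ (A.card : ℝ) * x / L ^ (c + 2) := by positivity
    have e3 : (10 : ℝ) ≤ L ^ 2 := by nlinarith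
    exact mul_le_mul_of_nonneg_right e3 e2
  linarith

theorem few_max_exc (c : ℕ) : ∃ x0 : ℕ, ∀ x : ℕ, x0 ≤ x → ∀ A : Finset ℤ, (∀ a ∈ A, |a| ≤ x) →
    (∀ a ∈ A, x / Real.log x ^ c < EM x a) → (A.card : ℝ) ≤ Real.log x ^ (4 * c + 21) := by
  obtain ⟨x1, h1⟩ := few_max (c + 1)
  obtain ⟨x2, h2⟩ := mxb_ev c
  refine ⟨max x1 x2, fun x hx A hA hAE => ?_⟩
  obtain ⟨hL4, hx3, -⟩ := h2 x ((le_max_right _ _).trans hx)
  have h3 := h1 x ((le_max_left _ _).trans hx) A hA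
  set L := Real.log x with hLdef
  have hL0 : 0 < L := by linarith
  have hxr : (0 : ℝ) < x := by
    have : 0 < x := by omega
    exact_mod_cast this
  have h4 : (A.card : ℝ) * (x / L ^ c) ≤ ∑ a ∈ A, EM x a := by
    rw [← nsmul_eq_mul]
    exact card_nsmul_le_sum A _ _ fun a ha => (hAE a ha).le
  have h5 := h4.trans h3
  set t := Real.sqrt A.card with ht
  have ht0 : 0 ≤ t := Real.sqrt_nonneg _
  have htt : t * t = A.card := Real.mul_self_sqrt (Nat.cast_nonneg _)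
  rw [← htt] at h5 ⊢
  have h6 : t * t * L ≤ t * L ^ (2 * c + 11) + t * t := by
    have e1 : t * t * (x / L ^ c) * (L ^ (c + 1) / x) = t * t * L := by
      field_simp
      ring
    have e2 : (t * x * L ^ (c + 1 + 9) + t * t * x / L ^ (c + 1)) * (L ^ (c + 1) / x) =
        t * L ^ (2 * c + 11) + t * t := by
      have e6 : L ^ (2 * c + 11) = L ^ (c + 1 + 9) * L ^ (c + 1) := by
        rw [← pow_add]
        congr 1
        ring
      rw [e6]
      field_simp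
    have e3 : 0 ≤ L ^ (c + 1) / x := by positivity
    have e4 := mul_le_mul_of_nonneg_right h5 e3
    rw [e1, e2] at e4
    exact e4
  rcases ht0.eq_or_lt with h0 | h0
  · rw [← h0]
    have : 0 < L ^ (4 * c + 21) := by positivity
    linarith
  · have h7 : t * (L - 1) ≤ L ^ (2 * c + 11) := by
      have e1 : t * (t * (L - 1)) ≤ t * L ^ (2 * c + 11) := by nlinarith
      exact le_of_mul_le_mul_left e1 h0
    have h8 : 0 < t * (L - 1) := mul_pos h0 (by linarith)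
    have h9 : (t * (L - 1)) * (t * (L - 1)) ≤ L ^ (2 * c + 11) * L ^ (2 * c + 11) :=
      mul_le_mul h7 h7 h8.le (by positivity)
    have h10 : L ^ (2 * c + 11) * L ^ (2 * c + 11) = L ^ (4 * c + 21) * L := by
      rw [← pow_add, ← pow_succ]
      congr 1
      ring
    have h11 : L ≤ (L - 1) * (L - 1) := by nlinarith
    have h12 : t * t * L ≤ L ^ (4 * c + 21) * L := by
      calc t * t * L ≤ t * t * ((L - 1) * (L - 1)) :=
            mul_le_mul_of_nonneg_left h11 (by positivity)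
        _ = (t * (L - 1)) * (t * (L - 1)) := by ring
        _ ≤ L ^ (4 * c + 21) * L := by rw [← h10]; exact h9
    exact le_of_mul_le_mul_right h12 hL0

end Pool.Agent.H80.KF
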