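import Pool.Agent.H80.KF.FejA

/-!
# Multiples of `m` away from the centre

`n = a + k m`, `k ≠ 0`.  Those with `|n| ≤ 2x`: none if `m > 3x`, at most `4x/m + 1 ≤ 7x/m` if
`m ≤ 3x`, each of weight `≤ 3`.  Those with `|n| > 2x`: `|k m| ≤ |n| + x ≤ (3/2)|n|`, `|k|m > x`,
weight `≤ 3x²/n² ≤ (27/4) x²/(km)²`, and `∑_{|k| > x/m, k ≠ 0} 1/k² ≤ 4 min(1, m/x)`.
Total `≤ 21x/m + 27 x/m ≤ 100 x/m`.
-/

set_option autoImplicit false

namespace Pool.Agent.H80.KF

open Finset

private lemma Tail_tele (K M : ℕ) (h : K ≤ M) :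
    ∑ k ∈ Ioc K M, (1 : ℝ) / (k : ℝ) ^ 2 ≤ 2 / ((K : ℝ) + 1) - 2 / ((M : ℝ) + 1) := by
  induction M, h using Nat.le_induction with
  | base => simp
  | succ M hM ih =>
    rw [← Finset.insert_Ioc_right_eq_Ioc_add_one (by omega), sum_insert (by simp)]
    have h1 : (1 : ℝ) / (((M + 1 : ℕ) : ℝ)) ^ 2 ≤ 2 / ((M : ℝ) + 1) - 2 / (((M + 1 : ℕ) : ℝ) + 1) := by
      push_cast
      have h2 : (0 : ℝ) < (M : ℝ) + 1 := by positivity
      have h3 : (0 : ℝ) < (M : ℝ) + 1 + 1 := by positivity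
      rw [div_sub_div _ _ h2.ne' h3.ne', div_le_div_iff₀ (by positivity) (by positivity)]
      have h4 : (0 : ℝ) ≤ (M : ℝ) := Nat.cast_nonneg _
      nlinarith [mul_nonneg h4 h4, mul_nonneg (mul_nonneg h4 h4) h4]
    linarith

theorem ww_tail (x J m : ℕ) (hx : 1 ≤ x) (hJ : 1 ≤ J) (hm : 1 ≤ m) (a : ℤ) (ha : |a| ≤ x) :
    ∑ n ∈ (RW x J).filter (fun n => n ≠ a ∧ (m : ℤ) ∣ n - a), ww x J n ≤ 100 * x / m := by
  classical
  set S := (RW x J).filter (fun n => n ≠ a ∧ (m : ℤ) ∣ n - a) with hS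
  have hmR : (0 : ℝ) < m := by exact_mod_cast hm
  have hxR : (0 : ℝ) < x := by exact_mod_cast hx
  set y : ℝ := (x : ℝ) / m with hy
  have hy0 : 0 < y := div_pos hxR hmR
  set K : ℕ := ⌊3 * y⌋₊ with hK
  set M : ℕ := K + (x * J + x) with hM
  let G : ℕ → ℝ := fun k => if k ≤ K then 3 else 27 * y ^ 2 / (k : ℝ) ^ 2
  have hG0 : ∀ k, 0 ≤ G k := by
    intro k
    simp only [G]
    split_ifs
    · norm_num
    · positivity
  -- the members of S
  have hmem : ∀ n ∈ S, ∃ k : ℤ, n - a = m * k ∧ (n - a) / m = k ∧ k ≠ 0 ∧ |n| ≤ x * J := by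
    intro n hn
    rw [hS, mem_filter] at hn
    obtain ⟨h1, h2, k, h3⟩ := hn
    refine ⟨k, h3, ?_, ?_, ?_⟩
    · rw [h3]
      exact Int.mul_ediv_cancel_left _ (by omega)
    · rintro rfl
      apply h2
      have : n - a = 0 := by rw [h3]; ring
      linarith
    · rw [RW, mem_Ico] at h1
      rw [abs_le]
      constructor
      · have := h1.1
        push_cast at this ⊢
        linarith
      · have := h1.2
        push_cast at this ⊢
        linarith
  have h1 : ∀ n ∈ S, ww x J n ≤ G (((n - a) / m).natAbs) := by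
    intro n hn
    obtain ⟨k, h3, h4, h5, h6⟩ := hmem n hn
    rw [h4]
    simp only [G]
    split_ifs with h7
    · exact ww_le x J hx hJ n
    · have h8 := ww_decay x J hx hJ n (by exact_mod_cast h6)
      have haR : |(a : ℝ)| ≤ x := by exact_mod_cast ha
      have h3R : (n : ℝ) - a = m * k := by exact_mod_cast h3
      have hkabs : ((k.natAbs : ℕ) : ℝ) = |(k : ℝ)| := by
        rw [Nat.cast_natAbs]
        push_cast
        rfl
      have hkpos : 0 < |(k : ℝ)| := by
        rw [abs_pos]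
        exact_mod_cast h5
      have hbig : 2 * (x : ℝ) < |(n : ℝ)| := by
        by_contra hcon
        push Not at hcon
        apply h7
        rw [hK]
        apply Nat.le_floor
        rw [hkabs]
        have h9 : (m : ℝ) * |(k : ℝ)| ≤ 3 * x := by
          calc (m : ℝ) * |(k : ℝ)| = |(m : ℝ) * k| := by rw [abs_mul, abs_of_pos hmR]
            _ = |(n : ℝ) - a| := by rw [h3R]
            _ ≤ |(n : ℝ)| + |(a : ℝ)| := abs_sub _ _
            _ ≤ 3 * x := by linarith
        rw [hy, mul_div_assoc', le_div_iff₀ hmR]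
        linarith
      have h9 : ((m : ℝ) * k) ^ 2 ≤ 9 / 4 * (n : ℝ) ^ 2 := by
        rw [← h3R, ← sq_abs ((n : ℝ) - a), ← sq_abs (n : ℝ)]
        have h10 : |(n : ℝ) - a| ≤ 3 / 2 * |(n : ℝ)| := by
          have := abs_sub (n : ℝ) (a : ℝ)
          linarith
        calc |(n : ℝ) - a| ^ 2 ≤ (3 / 2 * |(n : ℝ)|) ^ 2 :=
              pow_le_pow_left₀ (abs_nonneg _) h10 2
          _ = 9 / 4 * |(n : ℝ)| ^ 2 := by ring
      have hw0 := ww_nonneg x J n
      have h11 : ww x J n * ((m : ℝ) * k) ^ 2 ≤ 27 / 4 * (x : ℝ) ^ 2 := by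
        calc ww x J n * ((m : ℝ) * k) ^ 2 ≤ ww x J n * (9 / 4 * (n : ℝ) ^ 2) :=
              mul_le_mul_of_nonneg_left h9 hw0
          _ = 9 / 4 * (ww x J n * (n : ℝ) ^ 2) := by ring
          _ ≤ 9 / 4 * (3 * (x : ℝ) ^ 2) := by linarith
          _ = 27 / 4 * (x : ℝ) ^ 2 := by ring
      rw [hkabs, sq_abs, le_div_iff₀ (by rw [← sq_abs]; positivity), hy, div_pow, mul_div_assoc',
        le_div_iff₀ (by positivity)]
      have h12 : ww x J n * (k : ℝ) ^ 2 * (m : ℝ) ^ 2 = ww x J n * ((m : ℝ) * k) ^ 2 := by ring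
      rw [h12]
      nlinarith [sq_nonneg (x : ℝ)]
  have hmaps : ∀ n ∈ S, ((n - a) / m).natAbs ∈ Icc 1 M := by
    intro n hn
    obtain ⟨k, h3, h4, h5, h6⟩ := hmem n hn
    rw [h4, mem_Icc]
    constructor
    · omega
    · have h7 : |k| ≤ (x : ℤ) * J + x := by
        calc |k| ≤ (m : ℤ) * |k| := by
              have : (1 : ℤ) ≤ m := by exact_mod_cast hm
              nlinarith [abs_nonneg k]
          _ = |n - a| := by rw [h3, abs_mul, abs_of_nonneg (by positivity : (0 : ℤ) ≤ m)]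
          _ ≤ |n| + |a| := abs_sub _ _
          _ ≤ (x : ℤ) * J + x := by linarith
      have h8 : ((k.natAbs : ℕ) : ℤ) ≤ ((x * J + x : ℕ) : ℤ) := by
        rw [Int.natCast_natAbs]
        push_cast
        exact h7
      have h9 : k.natAbs ≤ x * J + x := by exact_mod_cast h8
      omega
  have hfib : ∀ k ∈ Icc 1 M, ((S.filter (fun n => ((n - a) / m).natAbs = k)).card : ℝ) ≤ 2 := by
    intro k _
    have hsub : S.filter (fun n => ((n - a) / m).natAbs = k) ⊆ {a + m * (k : ℤ), a - m * (k : ℤ)} := by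
      intro n hn
      rw [mem_filter] at hn
      obtain ⟨l, h3, h4, h5, h6⟩ := hmem n hn.1
      have h7 := hn.2
      rw [h4] at h7
      rw [mem_insert, mem_singleton]
      rcases Int.natAbs_eq l with h8 | h8
      · left
        rw [h7] at h8
        rw [← h8]
        linarith
      · right
        rw [h7] at h8
        have : (k : ℤ) = -l := by linarith
        rw [this]
        linarith
    have := (card_le_card hsub).trans card_le_two
    exact_mod_cast this
  have h2 : ∑ n ∈ S, ww x J n ≤ 2 * ∑ k ∈ Icc 1 M, G k := by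
    calc ∑ n ∈ S, ww x J n ≤ ∑ n ∈ S, G (((n - a) / m).natAbs) := sum_le_sum h1
      _ = ∑ k ∈ Icc 1 M, ∑ n ∈ S.filter (fun n => ((n - a) / m).natAbs = k),
            G (((n - a) / m).natAbs) := (sum_fiberwise_of_maps_to hmaps _).symm
      _ = ∑ k ∈ Icc 1 M, ((S.filter (fun n => ((n - a) / m).natAbs = k)).card : ℝ) * G k := by
          refine sum_congr rfl fun k _ => ?_
          rw [sum_congr rfl (fun n hn => by rw [(mem_filter.1 hn).2]), sum_const, nsmul_eq_mul]
      _ ≤ ∑ k ∈ Icc 1 M, 2 * G k :=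
          sum_le_sum fun k hk => mul_le_mul_of_nonneg_right (hfib k hk) (hG0 k)
      _ = 2 * ∑ k ∈ Icc 1 M, G k := by rw [mul_sum]
  have hKy : (K : ℝ) ≤ 3 * y := Nat.floor_le (by positivity)
  have hKy' : 3 * y < (K : ℝ) + 1 := Nat.lt_floor_add_one _
  have h3 : ∑ k ∈ Icc 1 M, G k ≤ 27 * y := by
    have hsplit : Icc 1 M = Icc 1 K ∪ Ioc K M := by
      ext k
      simp only [mem_Icc, mem_union, mem_Ioc]
      omega
    have hdisj : Disjoint (Icc 1 K) (Ioc K M) := by
      rw [disjoint_left]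
      intro k h h'
      simp only [mem_Icc] at h
      simp only [mem_Ioc] at h'
      omega
    rw [hsplit, sum_union hdisj]
    have e1 : ∑ k ∈ Icc 1 K, G k = 3 * K := by
      rw [sum_congr rfl (fun k hk => by
        show G k = 3
        simp only [G]
        rw [if_pos (mem_Icc.1 hk).2]), sum_const, Nat.card_Icc, nsmul_eq_mul, Nat.add_sub_cancel]
      ring
    have e2 : ∑ k ∈ Ioc K M, G k = 27 * y ^ 2 * ∑ k ∈ Ioc K M, (1 : ℝ) / (k : ℝ) ^ 2 := by
      rw [mul_sum]
      refine sum_congr rfl fun k hk => ?_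
      show G k = _
      simp only [G]
      rw [if_neg (by have := (mem_Ioc.1 hk).1; omega)]
      ring
    have e3 : ∑ k ∈ Ioc K M, (1 : ℝ) / (k : ℝ) ^ 2 ≤ 2 / ((K : ℝ) + 1) := by
      refine (Tail_tele K M (by omega)).trans ?_
      have : (0 : ℝ) ≤ 2 / ((M : ℝ) + 1) := by positivity
      linarith
    have e4 : 2 / ((K : ℝ) + 1) ≤ 2 / (3 * y) :=
      div_le_div_of_nonneg_left (by norm_num) (by positivity) hKy'.le
    have e5 : 27 * y ^ 2 * ∑ k ∈ Ioc K M, (1 : ℝ) / (k : ℝ) ^ 2 ≤ 27 * y ^ 2 * (2 / (3 * y)) :=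
      mul_le_mul_of_nonneg_left (e3.trans e4) (by positivity)
    have e6 : 27 * y ^ 2 * (2 / (3 * y)) = 18 * y := by
      field_simp
      ring
    rw [e1, e2]
    linarith
  have h4 : (100 : ℝ) * x / m = 100 * y := by rw [hy]; ring
  rw [h4]
  linarith

end Pool.Agent.H80.KF
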